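import Pool.Agent.P.MP_3a4479_al.AP.Defs

set_option autoImplicit false

namespace Pool.Agent.P.MP_3a4479_al.AP

open Polynomial

noncomputable section

namespace AAAux

variable {k F : Type} [Field k] [Field F] [Algebra k F]

/-- the substitution `X ↦ X / μ` on polynomials over the chart ring -/
def phi (c : Ctx k F) (j : Fin 9) : (c.A j)[X] →ₐ[k] F[X] :=
  ((aeval (C (c.mu 2 1 j)⁻¹ * X) : F[X] →ₐ[F] F[X]).restrictScalars k).comp
    (Polynomial.mapAlgHom (c.A j).val)

lemma phi_coeff (c : Ctx k F) (j : Fin 9) (p : (c.A j)[X]) (n : ℕ) :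
    (phi c j p).coeff n = (p.coeff n : F) * ((c.mu 2 1 j)⁻¹) ^ n := by
  have : phi c j p = (p.map (c.A j).val.toRingHom).comp (C (c.mu 2 1 j)⁻¹ * X) := by
    rw [comp_eq_aeval]; rfl
  rw [this, comp_C_mul_X_coeff, coeff_map]
  rfl

lemma phi_coeff' {c : Ctx k F} (h : GeoFacts c) (j : Fin 9) (p : (c.A j)[X]) (n : ℕ) :
    (phi c j p).coeff n * c.mu 2 1 j ^ n = (p.coeff n : F) := by
  rw [phi_coeff, mul_assoc, ← mul_pow, inv_mul_cancel₀ (h.mu_ne _ _ _), one_pow, mul_one]

lemma mem_AA (c : Ctx k F) (j : Fin 9) (p : F[X]) :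
    p ∈ AA c j ↔ ∀ n : ℕ, p.coeff n * c.mu 2 1 j ^ n ∈ c.A j := Iff.rfl

lemma phi_mem {c : Ctx k F} (h : GeoFacts c) (j : Fin 9) (p : (c.A j)[X]) :
    phi c j p ∈ AA c j := fun n => by
  rw [phi_coeff' h]; exact (p.coeff n).2

lemma phi_inj {c : Ctx k F} (h : GeoFacts c) (j : Fin 9) : Function.Injective (phi c j) := by
  intro p q hpq
  ext n
  rw [← phi_coeff' h, ← phi_coeff' h, hpq]

lemma phi_surj {c : Ctx k F} (h : GeoFacts c) (j : Fin 9) {p : F[X]} (hp : p ∈ AA c j) :
    ∃ q, phi c j q = p := by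
  have h1 : p.comp (C (c.mu 2 1 j) * X) ∈ lifts (c.A j).val.toRingHom := by
    rw [lifts_iff_coeff_lifts]
    intro n
    rw [comp_C_mul_X_coeff]
    exact ⟨⟨_, hp n⟩, rfl⟩
  obtain ⟨q, hq⟩ := (mem_lifts _).1 h1
  refine ⟨q, ?_⟩
  ext n
  have h2 := congrArg (fun r => r.coeff n) hq
  simp only [coeff_map, comp_C_mul_X_coeff] at h2
  have h3 : (q.coeff n : F) = p.coeff n * c.mu 2 1 j ^ n := h2
  rw [phi_coeff, h3, mul_assoc, ← mul_pow, mul_inv_cancel₀ (h.mu_ne _ _ _), one_pow, mul_one]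

/-- the chart ring of the line bundle is a polynomial ring -/
def eqv {c : Ctx k F} (h : GeoFacts c) (j : Fin 9) : (c.A j)[X] ≃ₐ[k] AA c j :=
  AlgEquiv.ofBijective ((phi c j).codRestrict (AA c j) (phi_mem h j))
    ⟨fun _ _ hpq => phi_inj h j (congrArg Subtype.val hpq), fun p => by
      obtain ⟨q, hq⟩ := phi_surj h j p.2
      exact ⟨q, Subtype.ext hq⟩⟩

lemma C_mem (c : Ctx k F) (j : Fin 9) (g : F) (hg : g ∈ c.A j) : C g ∈ AA c j := fun n => by
  rw [coeff_C]
  split_ifs with hn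
  · subst hn; simpa using hg
  · simp

end AAAux

open AAAux in
theorem aaS : S_AA := by
  intro k F _ _ _ c _ h
  refine ⟨fun j => ?_, fun j => ?_, fun j p => ?_, fun j => ?_, C_mem c, ?_⟩
  · have := h.normal j
    exact IsIntegrallyClosed.of_equiv (eqv h j).toRingEquiv
  · have : Algebra.FiniteType k (c.A j) :=
      Algebra.FiniteType.of_surjective (ev2 k (c.a j) (c.b j)).rangeRestrict
        (AlgHom.rangeRestrict_surjective _)
    have : Algebra.FiniteType k (c.A j)[X] := Algebra.FiniteType.trans (S := c.A j) this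
      inferInstance
    exact Algebra.FiniteType.equiv this (eqv h j)
  · have := h.frac j
    obtain ⟨⟨b, hb⟩, hb'⟩ := IsLocalization.exist_integer_multiples (nonZeroDivisors (c.A j))
      p.support (fun n => p.coeff n * c.mu 2 1 j ^ n)
    refine ⟨C (b : F), C_mem c j _ b.2, ?_, fun n => ?_⟩
    · rw [C_ne_zero]
      exact fun h0 => nonZeroDivisors.ne_zero hb (Subtype.ext h0)
    · rw [coeff_C_mul]
      by_cases hn : n ∈ p.support
      · obtain ⟨z, hz⟩ := hb' n hn
        rw [mul_assoc]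
        have e : (b : F) * (p.coeff n * c.mu 2 1 j ^ n) = (z : F) := hz.symm
        rw [e]
        exact z.2
      · rw [notMem_support_iff.1 hn]; simp
  · intro n
    rw [tau, coeff_monomial]
    split_ifs with hn
    · subst hn
      rw [pow_one, inv_mul_cancel₀ (h.mu_ne _ _ _)]
      exact (c.A j).one_mem
    · simp
  · intro j g hg i r hr r' _ he
    refine ⟨C (g⁻¹ ^ i) * r', fun n => ?_, ?_⟩
    · have h1 := congrArg (fun p => p.coeff (n + i)) he
      simp only [tau, monomial_pow, one_mul, ← C_pow, coeff_C_mul] at h1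
      rw [← C_mul_X_pow_eq_monomial, mul_assoc, coeff_C_mul, coeff_X_pow_mul] at h1
      have h2 : (C (g⁻¹ ^ i) * r').coeff n * c.mu 2 1 j ^ n =
          r.coeff (n + i) * c.mu 2 1 j ^ (n + i) := by
        have hm := h.mu_ne 2 1 j
        have h3 : r'.coeff n = c.mu 2 1 j ^ i * (g ^ i * r.coeff (n + i)) := by
          rw [h1, ← mul_assoc, ← mul_pow, mul_inv_cancel₀ hm, one_pow, one_mul]
        rw [coeff_C_mul, h3, pow_add, inv_pow]
        field_simp
      rw [h2]
      exact hr _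
    · rw [← mul_assoc, ← C_pow, ← C_mul, ← mul_pow, mul_inv_cancel₀ hg, one_pow, C_1, one_mul]

end

end Pool.Agent.P.MP_3a4479_al.AP
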