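import Pool.Agent.P.MP_3a4479_al.AP.Defs
import Pool.Agent.P.MP_3a4479_al.Step

set_option autoImplicit false

namespace Pool.Agent.P.MP_3a4479_al.AP

open Polynomial
open scoped NNReal

namespace ASAux

section Frob

variable {R : Type} [CommRing R] (q : ℕ) [hq : Fact (q + 1).Prime] [CharP R (q + 1)]

theorem pow_rel (a b r n₁ n₂ : R)
    (h : r ^ (q + 1) = r * (a * b) ^ q + n₁ * b ^ (q + 1) + n₂ * a ^ (q + 1)) (e : ℕ) :
    ∃ (m : ℕ) (p p' : R), (q + 1) ^ e = m + 1 ∧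
      r ^ (m + 1) = r * (a * b) ^ m + p * b ^ (m + 1) + p' * a ^ (m + 1) := by
  induction e with
  | zero => exact ⟨0, 0, 0, rfl, by ring⟩
  | succ e ih =>
    obtain ⟨m, p, p', hm, hr⟩ := ih
    refine ⟨q + m * (q + 1), n₁ * a ^ (m * (q + 1)) + p ^ (q + 1),
      n₂ * b ^ (m * (q + 1)) + p' ^ (q + 1), by rw [pow_succ, hm]; ring, ?_⟩
    have e1 : r ^ (q + m * (q + 1) + 1) = (r ^ (m + 1)) ^ (q + 1) := by ring
    rw [e1, hr, add_pow_char, add_pow_char, mul_pow r, h]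
    ring

end Frob

section Poly

variable {k : Type} [Field k] [IsAlgClosed k] (q : ℕ) [hq : Fact (q + 1).Prime]
  [CharP k (q + 1)]

/-- ideals generated by two elements are closed for the relevant Frobenius relation -/
theorem mem_of_rel (hC : S_Cartier) (a b r n₁ n₂ : P2 k) (ha : a ≠ 0)
    (h : r ^ (q + 1) = r * (a * b) ^ q + n₁ * b ^ (q + 1) + n₂ * a ^ (q + 1)) :
    ∃ p₁ p₂, r = a * p₁ + b * p₂ := by
  obtain ⟨d₀, hd₀⟩ := MvPolynomial.ne_zero_iff.mp ha
  have hsupp : d₀ ∈ a.support := MvPolynomial.mem_support_iff.mpr hd₀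
  set e := a.totalDegree with he
  have hlt : e < (q + 1) ^ e := Nat.lt_pow_self hq.out.one_lt
  have hd : ∀ i, d₀ i < (q + 1) ^ e := fun i =>
    lt_of_le_of_lt ((Finsupp.le_degree i d₀).trans (by
      have := MvPolynomial.le_totalDegree hsupp
      rw [Finsupp.degree_apply]
      exact this)) hlt
  obtain ⟨Φ, hΦ1, hΦ2⟩ := hC (q + 1) k 2 e d₀ hd
  obtain ⟨m, p, p', hm, hr⟩ := pow_rel q a b r n₁ n₂ h e
  set t := (Φ a).coeff 0 with ht
  have ht0 : t ≠ 0 := by
    intro h0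
    have := hΦ2 a 0
    rw [← ht, h0, zero_pow (by positivity), smul_zero, zero_add] at this
    exact hd₀ this.symm
  have hΦa : Φ a = MvPolynomial.C t := by
    ext d
    by_cases hd0 : d = 0
    · subst hd0; simp [ht]
    · rw [MvPolynomial.coeff_C, if_neg (Ne.symm hd0)]
      have h1 := hΦ2 a d
      have h2 : a.coeff ((q + 1) ^ e • d + d₀) = 0 := by
        apply MvPolynomial.coeff_eq_zero_of_totalDegree_lt
        have h3 : 1 ≤ Finsupp.degree d := by
          rw [Nat.one_le_iff_ne_zero]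
          intro h4
          exact hd0 ((Finsupp.degree_eq_zero_iff d).mp h4)
        have h4 : Finsupp.degree ((q + 1) ^ e • d + d₀) = (q + 1) ^ e * Finsupp.degree d + Finsupp.degree d₀ := by
          rw [map_add, map_nsmul, smul_eq_mul]
        rw [← Finsupp.degree_apply, h4]
        nlinarith
      rw [h2] at h1
      exact pow_eq_zero_iff (by positivity) |>.mp h1
  have key : r ^ (q + 1) ^ e * a = a ^ (q + 1) ^ e * (r * b ^ m + p' * a) + b ^ (q + 1) ^ e * (p * a) := by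
    rw [hm, hr]; ring
  have key2 := congrArg Φ key
  rw [map_add, hΦ1, hΦ1, hΦ1, hΦa] at key2
  refine ⟨Φ (r * b ^ m + p' * a) * MvPolynomial.C t⁻¹, Φ (p * a) * MvPolynomial.C t⁻¹, ?_⟩
  have h5 : (MvPolynomial.C t : P2 k) * MvPolynomial.C t⁻¹ = 1 := by
    rw [← map_mul, mul_inv_cancel₀ ht0, map_one]
  linear_combination (MvPolynomial.C t⁻¹) * key2 - r * h5

end Poly

/-- prime avoidance in the polynomial ring -/
theorem exists_relPrime {k : Type} [Field k] (T : Ideal (P2 k))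
    (hT : ∀ π : P2 k, Prime π → ∃ H ∈ T, ¬ π ∣ H) :
    ∃ a ∈ T, ∃ b ∈ T, a ≠ 0 ∧ IsRelPrime a b := by
  classical
  obtain ⟨a, haT, ha⟩ := hT (MvPolynomial.X 0) MvPolynomial.X_prime
  have ha0 : a ≠ 0 := fun h => ha (h ▸ dvd_zero _)
  have hn : ¬ ((T : Set (P2 k)) ⊆
      ⋃ π ∈ (↑(UniqueFactorizationMonoid.factors a).toFinset : Set (P2 k)),
        (Ideal.span {π} : Ideal (P2 k))) := by
    rw [Ideal.subset_union_prime (0 : P2 k) 0]
    · rintro ⟨π, hπ, hle⟩
      have hp := UniqueFactorizationMonoid.prime_of_factor π (Multiset.mem_toFinset.mp hπ)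
      obtain ⟨H, hH, hd⟩ := hT π hp
      exact hd (Ideal.mem_span_singleton.mp (hle hH))
    · intro π hπ _ _
      have hp := UniqueFactorizationMonoid.prime_of_factor π (Multiset.mem_toFinset.mp hπ)
      exact (Ideal.span_singleton_prime hp.ne_zero).mpr hp
  rw [Set.not_subset] at hn
  obtain ⟨b, hbT, hb⟩ := hn
  refine ⟨a, haT, b, hbT, ha0, ?_⟩
  rw [UniqueFactorizationMonoid.isRelPrime_iff_no_prime_factors ha0]
  intro π hπa hπb hp
  obtain ⟨q, hq, hass⟩ := UniqueFactorizationMonoid.exists_mem_factors_of_dvd ha0 hp.irreducible hπa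
  apply hb
  simp only [Set.mem_iUnion]
  exact ⟨q, Multiset.mem_toFinset.mpr hq,
    Ideal.mem_span_singleton.mpr (hass.symm.dvd.trans hπb)⟩

theorem purity {k L : Type} [Field k] [IsAlgClosed k] (q : ℕ) [hq : Fact (q + 1).Prime]
    [CharP k (q + 1)] [Field L] [CharP L (q + 1)]
    (hC : S_Cartier) (ψ : P2 k →+* L) (hψ : Function.Injective ψ) (S : Subring L) (g : L →+* L)
    (hS : ∀ P, ψ P ∈ S) (hgψ : ∀ P, g (ψ P) = ψ P)
    (hfix : ∀ z ∈ S, g z = z → ∃ P, ψ P = z)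
    (hpr : ∀ π : P2 k, Prime π → ∃ β ∈ S, ∃ H, g β - β = ψ H ∧ ¬ π ∣ H) :
    ∃ β ∈ S, ∃ a N : P2 k, g (β / ψ a) - β / ψ a = 1 ∧
      (β / ψ a) ^ (q + 1) - β / ψ a = ψ N := by
  let T : Ideal (P2 k) :=
    { carrier := {H | ∃ β ∈ S, g β - β = ψ H}
      add_mem' := by
        rintro H H' ⟨β, hβ, h⟩ ⟨β', hβ', h'⟩
        refine ⟨β + β', S.add_mem hβ hβ', ?_⟩
        rw [map_add, map_add, ← h, ← h']; ring
      zero_mem' := ⟨0, S.zero_mem, by simp⟩
      smul_mem' := by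
        rintro r H ⟨β, hβ, h⟩
        refine ⟨ψ r * β, S.mul_mem (hS r) hβ, ?_⟩
        rw [smul_eq_mul, map_mul, map_mul, hgψ, ← h]; ring }
  obtain ⟨a, ⟨β, hβ, ha⟩, b, ⟨γ, hγ, hb⟩, ha0, hab⟩ := exists_relPrime T (fun π hπ => by
    obtain ⟨β, hβ, H, h, hd⟩ := hpr π hπ
    exact ⟨H, ⟨β, hβ, h⟩, hd⟩)
  have hnorm : ∀ z ∈ S, ∀ H, g z - z = ψ H → ∃ P, ψ P = z ^ (q + 1) - ψ H ^ q * z :=
    fun z hz H hH => hfix _ (S.sub_mem (S.pow_mem hz _) (S.mul_mem (S.pow_mem (hS H) _) hz)) (by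
      have e : g z = z + ψ H := by rw [← hH]; ring
      rw [map_sub, map_mul, map_pow, map_pow, hgψ, e, add_pow_char]
      ring)
  obtain ⟨r, hr⟩ := hfix (ψ b * β - ψ a * γ)
    (S.sub_mem (S.mul_mem (hS b) hβ) (S.mul_mem (hS a) hγ)) (by
      rw [map_sub, map_mul, map_mul, hgψ, hgψ]
      linear_combination (ψ b) * ha - (ψ a) * hb)
  obtain ⟨n₁, hn₁⟩ := hnorm β hβ a ha
  obtain ⟨n₂, hn₂⟩ := hnorm γ hγ b hb
  have hrel : r ^ (q + 1) = r * (a * b) ^ q + n₁ * b ^ (q + 1) + (-n₂) * a ^ (q + 1) := by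
    apply hψ
    simp only [map_add, map_mul, map_pow, map_neg]
    rw [hr, hn₁, hn₂, sub_pow_char]
    ring
  obtain ⟨p₁, p₂, hp⟩ := mem_of_rel q hC a b r n₁ (-n₂) ha0 hrel
  have hψa : ψ a ≠ 0 := fun h => ha0 (hψ (by rw [h, map_zero]))
  have hmem₁ : β - ψ p₂ ∈ S := S.sub_mem hβ (hS _)
  have hmem₂ : γ + ψ p₁ ∈ S := S.add_mem hγ (hS _)
  have hcross : ψ b * (β - ψ p₂) = ψ a * (γ + ψ p₁) := by
    have := congrArg ψ hp
    rw [hr, map_add, map_mul, map_mul] at this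
    linear_combination this
  have hg₁ : g (β - ψ p₂) - (β - ψ p₂) = ψ a := by
    rw [map_sub, hgψ, ← ha]; ring
  have hg₂ : g (γ + ψ p₁) - (γ + ψ p₁) = ψ b := by
    rw [map_add, hgψ, ← hb]; ring
  obtain ⟨M₁, hM₁⟩ := hnorm _ hmem₁ a hg₁
  obtain ⟨M₂, hM₂⟩ := hnorm _ hmem₂ b hg₂
  have hM : b ^ (q + 1) * M₁ = a ^ (q + 1) * M₂ := by
    apply hψ
    simp only [map_mul, map_pow]
    rw [hM₁, hM₂]
    have h1 := congrArg (· ^ (q + 1)) hcross
    simp only [mul_pow] at h1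
    linear_combination h1 - (ψ a ^ q * ψ b ^ q) * hcross
  have hdvd : a ^ (q + 1) ∣ M₁ := by
    have h1 : IsRelPrime (a ^ (q + 1)) (b ^ (q + 1)) := hab.pow
    exact h1.dvd_of_dvd_mul_left ⟨M₂, hM⟩
  obtain ⟨N, hN⟩ := hdvd
  refine ⟨β - ψ p₂, hmem₁, a, N, ?_, ?_⟩
  · rw [map_div₀, hgψ, ← sub_div, hg₁, div_self hψa]
  · rw [hN, map_mul, map_pow] at hM₁
    rw [div_pow]
    field_simp
    linear_combination -(ψ a) * hM₁

section Euler

variable {k : Type} [Field k]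

/-- the Euler operator -/
noncomputable def eu (i : Fin 2) (M : P2 k) : P2 k := MvPolynomial.X i * MvPolynomial.pderiv i M

theorem coeff_eu (i : Fin 2) (M : P2 k) (m : Fin 2 →₀ ℕ) :
    (eu i M).coeff m = (m i : k) * M.coeff m := by
  classical
  induction M using MvPolynomial.induction_on' with
  | add p q hp hq =>
    have : eu i (p + q) = eu i p + eu i q := by simp [eu, mul_add]
    rw [this, MvPolynomial.coeff_add, MvPolynomial.coeff_add, hp, hq, mul_add]
  | monomial n a =>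
    rw [eu, MvPolynomial.X_mul_pderiv_monomial, ← Nat.cast_smul_eq_nsmul k,
      MvPolynomial.coeff_smul, MvPolynomial.coeff_monomial]
    split_ifs with h
    · rw [h, smul_eq_mul]
    · simp

theorem eu_sq (pp : ℕ) [CharP k pp] (i : Fin 2) (N P Q : P2 k) :
    eu i (N * Q ^ pp + P ^ pp) = eu i N * Q ^ pp := by
  have h2 : ((pp : ℕ) : P2 k) = 0 := CharP.cast_eq_zero _ pp
  simp only [eu, map_add, MvPolynomial.pderiv_mul, MvPolynomial.pderiv_pow]
  rw [h2]
  ring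

end Euler

section Val

variable {k F : Type} [Field k] [Field F] [Algebra k F] {x y : F} {ν : Valuation F ℝ≥0}

theorem val_lb (hk : ∀ t : k, t ≠ 0 → ν (algebraMap k F t) = 1) (hG : IsGauss k ν x y)
    (hx : ν x = 2) (hy : ν y = 2) (M : P2 k) (m : Fin 2 →₀ ℕ) (hm : M.coeff m ≠ 0) :
    2 ^ (m 0 + m 1) ≤ ν (ev2 k x y M) := by
  have := hG M m
  rwa [hk _ hm, hx, hy, one_mul, ← pow_add] at this

theorem val_ub (hk : ∀ t : k, t ≠ 0 → ν (algebraMap k F t) = 1)
    (hx : ν x = 2) (hy : ν y = 2) (M : P2 k) (ρ : ℝ≥0)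
    (hM : ∀ m : Fin 2 →₀ ℕ, M.coeff m ≠ 0 → 2 ^ (m 0 + m 1) ≤ ρ) : ν (ev2 k x y M) ≤ ρ := by
  rw [MvPolynomial.as_sum M, map_sum]
  apply Valuation.map_sum_le
  intro m hm
  have hm' := MvPolynomial.mem_support_iff.mp hm
  rw [ev2, MvPolynomial.aeval_monomial, Finsupp.prod_fintype _ _ (by simp), Fin.prod_univ_two,
    map_mul, map_mul, map_pow, map_pow, hk _ hm', one_mul]
  simp only [Matrix.cons_val_zero, Matrix.cons_val_one]
  rw [hx, hy, ← pow_add]
  exact hM m hm'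

theorem top_even (pp : ℕ) [hpp : Fact pp.Prime] [CharP k pp] (hk : ∀ t : k, t ≠ 0 → ν (algebraMap k F t) = 1)
    (hG : IsGauss k ν x y) (hx : ν x = 2) (hy : ν y = 2) (hco : IsCoord k x y)
    (N : P2 k) (D : ℕ) (hD : ∀ m : Fin 2 →₀ ℕ, N.coeff m ≠ 0 → m 0 + m 1 ≤ D + 1) (c : F)
    (hc : ν (ev2 k x y N + c ^ pp - c) ≤ 1) (m : Fin 2 →₀ ℕ) (hm : N.coeff m ≠ 0)
    (hmD : m 0 + m 1 = D + 1) (i : Fin 2) : pp ∣ m i := by
  set ρ : ℝ≥0 := 2 ^ (D + 1) with hρ
  have hρ1 : 1 < ρ := one_lt_pow₀ one_lt_two (by omega)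
  have hN : ν (ev2 k x y N) ≤ ρ :=
    val_ub hk hx hy N ρ (fun m hm => pow_le_pow_right₀ one_le_two (hD m hm))
  have hcρ : ν c < ρ := by
    by_contra hge
    rw [not_lt] at hge
    have hc1 : 1 < ν c := lt_of_lt_of_le hρ1 hge
    have hlt : ν c < ν (c ^ pp) := by
      rw [map_pow]
      exact lt_self_pow₀ hc1 hpp.out.one_lt
    have h3 : ν (ev2 k x y N - c) < ν (c ^ pp) :=
      ν.map_sub_lt (lt_of_le_of_lt (hN.trans hge) hlt) hlt
    have h4 : ν (ev2 k x y N - c + c ^ pp) = ν (c ^ pp) := ν.map_add_eq_of_lt_right h3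
    have h5 : ev2 k x y N + c ^ pp - c = ev2 k x y N - c + c ^ pp := by ring
    rw [h5, h4] at hc
    exact absurd (lt_trans hc1 hlt) (not_lt.mpr hc)
  have hsum : ν (ev2 k x y N + c ^ pp) < ρ := by
    have h5 : ev2 k x y N + c ^ pp = (ev2 k x y N + c ^ pp - c) + c := by ring
    rw [h5]
    exact ν.map_add_lt (lt_of_le_of_lt hc hρ1) hcρ
  obtain ⟨P, Q, hQ, hPQ⟩ := hco.frac c
  have hQ0 : ν (ev2 k x y Q) ≠ 0 := by
    rw [ν.ne_zero_iff]
    intro h
    exact hQ (hco.inj (by rw [h, map_zero]))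
  have hQpos : 0 < ν (ev2 k x y Q) ^ pp := pow_pos (pos_iff_ne_zero.mpr hQ0) pp
  have h6 : ev2 k x y (N * Q ^ pp + P ^ pp) = (ev2 k x y N + c ^ pp) * ev2 k x y Q ^ pp := by
    rw [map_add, map_mul, map_pow, map_pow, ← hPQ]; ring
  have h7 : ν (ev2 k x y (eu i (N * Q ^ pp + P ^ pp))) ≤ ν (ev2 k x y (N * Q ^ pp + P ^ pp)) := by
    apply val_ub hk hx hy
    intro n hn
    rw [coeff_eu] at hn
    exact val_lb hk hG hx hy _ n (right_ne_zero_of_mul hn)
  rw [eu_sq, h6, map_mul, map_mul, map_mul, map_pow, map_pow] at h7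
  have h8 : ν (ev2 k x y (eu i N)) < ρ :=
    lt_of_le_of_lt (le_of_mul_le_mul_right h7 hQpos) hsum
  by_contra hodd
  have h9 : (eu i N).coeff m ≠ 0 := by
    rw [coeff_eu]
    exact mul_ne_zero (fun h => hodd ((CharP.cast_eq_zero_iff k pp _).mp h)) hm
  have h10 := val_lb hk hG hx hy _ m h9
  rw [hmD] at h10
  exact absurd h8 (not_lt.mpr h10)

theorem trivial_of_val [IsAlgClosed k] (pp : ℕ) [hpp : Fact pp.Prime] [CharP k pp]
    (hC : S_Cartier)
    (hk : ∀ t : k, t ≠ 0 → ν (algebraMap k F t) = 1)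
    (hG : IsGauss k ν x y) (hx : ν x = 2) (hy : ν y = 2) (hco : IsCoord k x y) (D : ℕ) :
    ∀ (N : P2 k) (c : F), (∀ m : Fin 2 →₀ ℕ, N.coeff m ≠ 0 → m 0 + m 1 ≤ D) →
      ν (ev2 k x y N + c ^ pp - c) ≤ 1 → ∃ p : P2 k, N = p ^ pp - p := by
  have : CharP F pp := charP_of_injective_algebraMap (algebraMap k F).injective pp
  have hp2 := hpp.out.two_le
  induction D with
  | zero =>
    intro N c hD _
    have hN : N = MvPolynomial.C (N.coeff 0) := by
      ext m
      by_cases hm : m = 0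
      · subst hm; simp
      · rw [MvPolynomial.coeff_C, if_neg (Ne.symm hm)]
        by_contra h
        have := hD m h
        apply hm
        ext i
        fin_cases i
        · simp only [Fin.zero_eta, Finsupp.coe_zero, Pi.zero_apply]; omega
        · simp only [Fin.mk_one, Finsupp.coe_zero, Pi.zero_apply]; omega
    obtain ⟨t, ht⟩ := IsAlgClosed.exists_root (X ^ pp - (X + C (N.coeff 0)) : k[X]) (by
      have h1 : (X + C (N.coeff 0) : k[X]).degree < (X ^ pp : k[X]).degree := by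
        rw [degree_X_add_C, degree_X_pow]
        exact_mod_cast hpp.out.one_lt
      rw [degree_sub_eq_left_of_degree_lt h1, degree_X_pow]
      exact_mod_cast hpp.out.ne_zero)
    refine ⟨MvPolynomial.C t, ?_⟩
    have h3 : N.coeff 0 = t ^ pp - t := by
      have := ht.eq_zero
      simp only [eval_sub, eval_add, eval_pow, eval_X, eval_C] at this
      linear_combination -this
    rw [hN, h3, map_sub, map_pow]
  | succ D ih =>
    intro N c hD hc
    obtain ⟨Φ, hΦ1, hΦ2⟩ := hC pp k 2 1 0 (fun i => pow_pos hpp.out.pos _)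
    have hΦone : Φ 1 = 1 := by
      ext d
      have h3 := hΦ2 1 d
      rw [add_zero, MvPolynomial.coeff_one] at h3
      rw [MvPolynomial.coeff_one]
      by_cases hd : d = 0
      · subst hd
        rw [if_pos rfl]
        rw [smul_zero, if_pos rfl, pow_one] at h3
        have h4 : (MvPolynomial.coeff 0 (Φ 1) - 1) ^ pp = 0 := by
          rw [sub_pow_char, h3, one_pow, sub_self]
        exact sub_eq_zero.mp (pow_eq_zero_iff hpp.out.ne_zero |>.mp h4)
      · rw [if_neg (Ne.symm hd)]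
        rw [if_neg (fun h => hd (by
          rcases smul_eq_zero.mp h.symm with h | h
          · exact absurd h (pow_ne_zero _ hpp.out.ne_zero)
          · exact h))] at h3
        exact pow_eq_zero_iff (pow_ne_zero _ hpp.out.ne_zero) |>.mp h3
    have hΦsq : ∀ a : P2 k, Φ (a ^ pp) = a := fun a => by
      have := hΦ1 a 1
      rwa [mul_one, hΦone, mul_one, pow_one] at this
    set p := Φ N with hp
    have hΦ0 : Φ (N - p ^ pp) = 0 := by
      rw [map_sub, hΦsq, ← hp, sub_self]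
    have heven : ∀ d : Fin 2 →₀ ℕ, (N - p ^ pp).coeff (pp • d) = 0 := fun d => by
      have := hΦ2 (N - p ^ pp) d
      rw [hΦ0, add_zero, pow_one] at this
      rw [← this, MvPolynomial.coeff_zero, zero_pow hpp.out.ne_zero]
    have hhalf : ∀ m : Fin 2 →₀ ℕ, (∀ i, pp ∣ m i) → ∃ d : Fin 2 →₀ ℕ, m = pp • d := fun m hm =>
      ⟨Finsupp.equivFunOnFinite.symm (fun i => m i / pp), by
        ext i
        simp only [Finsupp.coe_smul, Pi.smul_apply, Finsupp.equivFunOnFinite_symm_apply_apply,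
          smul_eq_mul]
        exact (Nat.mul_div_cancel' (hm i)).symm⟩
    have hodd : ∀ (m : Fin 2 →₀ ℕ) (i : Fin 2), ¬ pp ∣ m i → (p ^ pp).coeff m = 0 := fun m i hi => by
      have h3 := eu_sq pp i (0 : P2 k) p 0
      rw [zero_mul, zero_add] at h3
      have h4 := coeff_eu i (p ^ pp) m
      rw [h3] at h4
      have h5 : (m i : k) ≠ 0 := fun h => hi ((CharP.cast_eq_zero_iff k pp _).mp h)
      have h6 : (m i : k) * (p ^ pp).coeff m = 0 := by
        rw [← h4, zero_pow hpp.out.ne_zero, mul_zero, MvPolynomial.coeff_zero]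
      exact (mul_eq_zero.mp h6).resolve_left h5
    obtain ⟨q, hq⟩ := ih (N - p ^ pp + p) (c + ev2 k x y p) (fun m hm => by
      rw [MvPolynomial.coeff_add] at hm
      by_cases h3 : p.coeff m = 0
      · rw [h3, add_zero] at hm
        have h4 : ¬ ∀ i, pp ∣ m i := fun h => by
          obtain ⟨d, rfl⟩ := hhalf m h
          exact hm (heven d)
        obtain ⟨i, hi⟩ := not_forall.mp h4
        rw [MvPolynomial.coeff_sub, hodd m i hi, sub_zero] at hm
        have h5 := hD m hm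
        by_contra h6
        exact hi (top_even pp hk hG hx hy hco N D hD c hc m hm (by omega) i)
      · have h4 := hΦ2 N m
        rw [add_zero, pow_one] at h4
        have h5 : N.coeff (pp • m) ≠ 0 := by rw [← h4]; exact pow_ne_zero _ h3
        have h6 := hD _ h5
        simp only [Finsupp.coe_smul, Pi.smul_apply, smul_eq_mul] at h6
        nlinarith) (by
      have h3 : ev2 k x y (N - p ^ pp + p) + (c + ev2 k x y p) ^ pp - (c + ev2 k x y p) =
          ev2 k x y N + c ^ pp - c := by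
        rw [map_add, map_sub, map_pow, add_pow_char]
        ring
      rw [h3]; exact hc)
    refine ⟨p + q, ?_⟩
    rw [add_pow_char]
    linear_combination hq

end Val

end ASAux

open ASAux in
theorem noAS : S_AS := by
  intro k F _ _ _ c ν hC hc h hν hN L _ _ K' g β hK hfix hβ
  have := hc.algc
  obtain ⟨q, hq⟩ : ∃ q, c.p = q + 1 := ⟨c.p - 1, by have := hc.prime.out.pos; omega⟩
  have : Fact (q + 1).Prime := hq ▸ hc.prime
  have : CharP k (q + 1) := hq ▸ hc.char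
  have : CharP F (q + 1) := charP_of_injective_algebraMap (algebraMap k F).injective _
  have : CharP L (q + 1) := charP_of_injective_algebraMap (algebraMap F L).injective _
  have hinj : Function.Injective (algebraMap F L) := (algebraMap F L).injective
  choose p hpA hp using fun j => (hβ j).2.2
  have hint : ∀ (j : Fin 9) (z : L), IsIntegral (c.A j) z → IsIntegral (c.A j) (g z) :=
    fun j z hz => hz.map ((g : L →ₐ[F] L).restrictScalars (c.A j))
  have hdown : ∀ (j : Fin 9) (z : L), z ∈ K' → IsIntegral (c.A j) z → g z = z →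
      ∃ m ∈ c.A j, algebraMap F L m = z := fun j z hz hzi hgz => by
    obtain ⟨m, rfl⟩ := hfix z hz hgz
    exact ⟨m, h.int_mem j m ((isIntegral_algebraMap_iff hinj).mp hzi), rfl⟩
  let ψ : P2 k →+* L := (algebraMap F L).comp (ev2 k c.x c.y).toRingHom
  have hψ : ∀ P, ψ P = algebraMap F L (ev2 k c.x c.y P) := fun _ => rfl
  have hψK : ∀ P, ψ P ∈ K' := fun P => K'.algebraMap_mem _
  have hgψ : ∀ P, g (ψ P) = ψ P := fun P => g.commutes _
  let S : Subring L := K'.toSubalgebra.toSubring ⊓ (integralClosure (c.A 4) L).toSubring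
  have hS : ∀ z, z ∈ S ↔ z ∈ K' ∧ IsIntegral (c.A 4) z := fun _ => Iff.rfl
  have hfixS : ∀ z ∈ S, g z = z → ∃ P, ψ P = z := fun z hz hgz => by
    obtain ⟨m, hm, rfl⟩ := hdown 4 z ((hS z).mp hz).1 ((hS z).mp hz).2 hgz
    obtain ⟨P, rfl⟩ := (h.A4 m).mp hm
    exact ⟨P, rfl⟩
  have hgS : ∀ z ∈ S, g z ∈ S := fun z hz =>
    (hS _).mpr ⟨hK z ((hS z).mp hz).1, hint 4 z ((hS z).mp hz).2⟩
  obtain ⟨δ, hδ, a, N, htr, hnm⟩ := purity q hC ψ (hinj.comp hc.coord.inj) S (g : L →+* L)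
    (fun P => (hS _).mpr ⟨hψK P,
      isIntegral_algebraMap (x := (⟨_, (h.A4 _).mpr ⟨P, rfl⟩⟩ : c.A 4))⟩)
    hgψ hfixS (fun π hπ => by
      obtain ⟨j, U, hU, hloc, hnd⟩ := hN π hπ p hpA
      obtain ⟨M, hM⟩ := clear k F L (c.A 4) (c.A j) (ev2 k c.x c.y U) ((h.A4 _).mpr ⟨U, rfl⟩)
        hloc (β j) (hβ j).2.1
      have hmem : algebraMap F L (ev2 k c.x c.y U) ^ M * β j ∈ S :=
        (hS _).mpr ⟨K'.mul_mem (pow_mem (K'.algebraMap_mem _) _) (hβ j).1, hM⟩
      have htr : g (algebraMap F L (ev2 k c.x c.y U) ^ M * β j) -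
          algebraMap F L (ev2 k c.x c.y U) ^ M * β j =
          algebraMap F L (ev2 k c.x c.y U ^ M * (1 + c.e j * p j)) := by
        rw [map_mul g, map_pow g, g.commutes, ← mul_sub, hp j, map_mul, map_pow]
      obtain ⟨H, hH⟩ := hfixS _ (S.sub_mem (hgS _ hmem) hmem) (by rw [htr, g.commutes])
      refine ⟨_, hmem, H, hH.symm, hnd M H (hinj ?_)⟩
      rw [← htr, ← hH, hψ])
  simp only [RingHom.coe_coe] at htr
  set z := δ / ψ a with hz
  have hzK : z ∈ K' := K'.div_mem ((hS δ).mp hδ).1 (hψK a)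
  obtain ⟨hk, hG, -, -⟩ := hν.isNu 0
  have hw : ν 0 (1 + c.e 0 * p 0) = 1 := by
    apply Valuation.map_one_add_of_lt
    rw [map_mul, (hν.val_e 0).1]
    calc (2⁻¹ : ℝ≥0) * ν 0 (p 0) ≤ 2⁻¹ * 1 := by gcongr; exact (hν.le_one 0 _ (hpA 0)).1
      _ < 1 := by rw [mul_one]; exact inv_lt_one_of_one_lt₀ one_lt_two
  set w := 1 + c.e 0 * p 0 with hwdef
  have hw0 : w ≠ 0 := fun h0 => by rw [h0, map_zero] at hw; exact zero_ne_one hw
  have hwL : algebraMap F L w ≠ 0 := fun h0 => hw0 (hinj (by rw [h0, map_zero]))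
  have hwA : w ∈ c.A 0 :=
    add_mem (one_mem _) (mul_mem (mul_mem (h.a_mem 0) (h.b_mem 0)) (hpA 0))
  have hwi : IsIntegral (c.A 0) (algebraMap F L w) :=
    isIntegral_algebraMap (x := (⟨w, hwA⟩ : c.A 0))
  have hgβ : g (β 0) = β 0 + algebraMap F L w := by rw [← hp 0]; ring
  obtain ⟨m, hm, hm'⟩ := hdown 0 (β 0 ^ (q + 1) - algebraMap F L w ^ q * β 0)
    (K'.sub_mem (pow_mem (hβ 0).1 _) (K'.mul_mem (pow_mem (K'.algebraMap_mem _) _) (hβ 0).1))
    (((hβ 0).2.1.pow _).sub ((hwi.pow _).mul (hβ 0).2.1)) (by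
      rw [map_sub, map_mul, map_pow, map_pow, g.commutes, hgβ, add_pow_char]
      ring)
  set u := β 0 / algebraMap F L w with hu
  have huK : u ∈ K' := K'.div_mem (hβ 0).1 (K'.algebraMap_mem _)
  have hutr : g u - u = 1 := by
    rw [hu, map_div₀, g.commutes, ← sub_div, hp 0, div_self hwL]
  have hunm : u ^ (q + 1) - u = algebraMap F L (m / w ^ (q + 1)) := by
    rw [hu, map_div₀, map_pow, hm', div_pow]
    field_simp
    ring
  obtain ⟨c₀, hc₀⟩ := hfix (u - z) (K'.sub_mem huK hzK) (by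
    rw [map_sub]
    linear_combination hutr - htr)
  have hrel : ev2 k c.x c.y N + c₀ ^ (q + 1) - c₀ = m / w ^ (q + 1) := by
    apply hinj
    rw [map_sub, map_add, map_pow, hc₀, ← hψ, ← hnm, ← hunm, sub_pow_char]
    ring
  have hval : ν 0 (ev2 k c.x c.y N + c₀ ^ (q + 1) - c₀) ≤ 1 := by
    rw [hrel, map_div₀, map_pow, hw, one_pow, div_one]
    exact (hν.le_one 0 m hm).1
  obtain ⟨r, hr⟩ := trivial_of_val (q + 1) hC hk ((h.gauss _ 0).mp hG) hν.val_x0 hν.val_y0
    hc.coord N.totalDegree N c₀ (fun d hd => by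
      have := MvPolynomial.le_totalDegree (MvPolynomial.mem_support_iff.mpr hd)
      rwa [Finsupp.sum_fintype _ _ (by simp), Fin.sum_univ_two] at this) hval
  have hfac : (z - ψ r) ^ (q + 1) = z - ψ r := by
    rw [hr, map_sub, map_pow] at hnm
    rw [sub_pow_char]
    linear_combination hnm
  obtain ⟨n, hn⟩ := (mem_bot_iff_intCast (q + 1) L).mp
    ((Subfield.mem_bot_iff_pow_eq_self L (q + 1)).mpr hfac)
  have hgz : g z = z := by
    have e1 : z = n + ψ r := by rw [hn]; ring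
    rw [e1, map_add, hgψ, map_intCast]
  rw [hgz, sub_self] at htr
  exact zero_ne_one htr

end Pool.Agent.P.MP_3a4479_al.AP
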