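import Pool.Agent.P.MP_3a4479_al.AP.Defs0
import Pool.Agent.P.MP_3a4479_al.NC
import Pool.Agent.P.MP_3a4479_al.Step
import Pool.Agent.P.MP_3a4479_al.Loc
import Pool.Agent.P.MP_3a4479_al.Gauss

set_option autoImplicit false

namespace Pool.Agent.P.MP_3a4479_al.AP

open Polynomial
open scoped NNReal

theorem ffin : S_FFin := by
  intro pp hp k B _ _ _ _ _ h2
  have hB : CharP B pp := by
    cases h2 with
    | zero => exact absurd hp.out Nat.not_prime_one
    | prime _ => assumption
  have hnt : Nontrivial B := CharP.nontrivial_of_char_ne_one (v := pp) hp.out.ne_one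
  have hk : ExpChar k pp := (algebraMap k B).expChar (algebraMap k B).injective pp
  refine RingHom.IsIntegral.to_finite
    (fun x => ⟨X ^ pp - C x, monic_X_pow_sub_C x hp.out.ne_zero, ?_⟩) ?_
  · simp [frobenius_def]
  · refine RingHom.FiniteType.of_comp_finiteType (f := algebraMap k B) ?_
    have e : (frobenius B pp).comp (algebraMap k B) = (algebraMap k B).comp (frobenius k pp) := by
      ext x
      simp [frobenius_def]
    rw [e]
    exact (RingHom.finiteType_algebraMap.2 inferInstance).comp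
      (RingHom.FiniteType.of_surjective _ (surjective_frobenius k pp))

theorem iter_finite' (pp : ℕ) {T : Type} [CommRing T] [ExpChar T pp]
    (h : (frobenius T pp).Finite) (i : ℕ) : (iterateFrobenius T pp i).Finite := by
  induction i with
  | zero => rw [iterateFrobenius_zero]; exact RingHom.Finite.id T
  | succ i ih => rw [iterateFrobenius_add, iterateFrobenius_one]; exact ih.comp h

theorem nc : S_NC := by
  intro pp hp T _ _ _ _ _ hF τ e hτ N
  obtain ⟨i, hi⟩ := NCAux.claim τ hτ N
  obtain ⟨c, hc⟩ := NCAux.artin _ (iter_finite' pp hF i) e (τ ^ (N * (pp ^ i - 1)))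
  refine ⟨i, pp ^ i * c, fun g u w h => ?_⟩
  obtain ⟨a, b, hab⟩ := hc g u w (by rw [iterateFrobenius_def, iterateFrobenius_def, h, pow_mul e])
  obtain ⟨u', hu'⟩ := hi (pp ^ i) (Nat.lt_pow_self hp.out.one_lt).le _ b hab
  exact ⟨u', a, by rw [← hu']; ring⟩

theorem ffin_loc' (pp : ℕ) [hp : Fact pp.Prime] {R : Type} (Rl : Type) [CommRing R]
    [ExpChar R pp] (M : Submonoid R) [CommRing Rl]
    [Algebra R Rl] [IsLocalization M Rl] [ExpChar Rl pp] (h : (frobenius R pp).Finite) :
    (frobenius Rl pp).Finite := by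
  obtain ⟨n, g, hg⟩ := (LocAux.finite_iff _).1 h
  refine (LocAux.finite_iff _).2 ⟨n, fun i => algebraMap R Rl (g i), fun b => ?_⟩
  obtain ⟨⟨r, w⟩, rfl⟩ := IsLocalization.mk'_surjective M b
  obtain ⟨q, hq⟩ : ∃ q, pp = q + 1 := ⟨pp - 1, by have := hp.out.pos; omega⟩
  obtain ⟨c, hc⟩ := hg (r * w ^ q)
  refine ⟨fun i => algebraMap R Rl (c i) * IsLocalization.mk' Rl 1 w, ?_⟩
  have h1 : algebraMap R Rl w * IsLocalization.mk' Rl 1 w = 1 := by
    rw [IsLocalization.mk'_spec', map_one]
  have h2 := congrArg (algebraMap R Rl) hc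
  simp only [frobenius_def, map_sum, map_mul, map_pow] at h2
  simp only [frobenius_def]
  rw [IsLocalization.mk'_eq_mul_mk'_one r]
  calc ∑ i, (algebraMap R Rl (c i) * IsLocalization.mk' Rl 1 w) ^ pp * algebraMap R Rl (g i)
      = (∑ i, algebraMap R Rl (c i) ^ pp * algebraMap R Rl (g i))
        * IsLocalization.mk' Rl 1 w ^ pp := by
        rw [Finset.sum_mul]; exact Finset.sum_congr rfl fun i _ => by ring
    _ = algebraMap R Rl r * IsLocalization.mk' Rl 1 w *
          (algebraMap R Rl w * IsLocalization.mk' Rl 1 w) ^ q := by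
        rw [h2]
        conv_lhs => rw [hq]
        ring
    _ = _ := by rw [h1, one_pow, mul_one]

open LocAux in
theorem loc1 : S_Loc1 := by
  intro pp _ R Ω Rl _ _ _ _ _ _ m _ _ _ _ _ hinj hF hφ
  refine ⟨ffin_loc' pp Rl m.primeCompl hF, fun T _ _ hT hfin => ?_⟩
  have hM : m.primeCompl ≤ nonZeroDivisors R := m.primeCompl_le_nonZeroDivisors
  have hRl : Function.Injective (algebraMap R Rl) := IsLocalization.injective Rl hM
  have : IsDomain Rl := IsLocalization.isDomain_of_le_nonZeroDivisors Rl hM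
  have hu : ∀ w : m.primeCompl, IsUnit (algebraMap R Ω w) := fun w =>
    IsUnit.mk0 _ fun e => nonZeroDivisors.ne_zero (hM w.2) (hinj (by rw [e, map_zero]))
  let : Algebra Rl Ω := (IsLocalization.lift (S := Rl) hu).toAlgebra
  have : IsScalarTower R Rl Ω :=
    IsScalarTower.of_algebraMap_eq fun x => (IsLocalization.lift_eq hu x).symm
  let : Algebra R T := ((algebraMap Rl T).comp (algebraMap R Rl)).toAlgebra
  have : IsScalarTower R Rl T := IsScalarTower.of_algebraMap_eq fun _ => rfl
  obtain ⟨θ⟩ := exists_hom (Ω := Ω) hT ((IsLocalization.lift_injective_iff hu).2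
    fun x y => by rw [hRl.eq_iff, hinj.eq_iff])
  obtain ⟨n, g, hg⟩ := Module.Finite.exists_fin (R := Rl) (M := T)
  choose w hw using fun i => IsIntegral.exists_multiple_integral_of_isLocalization m.primeCompl
    (g i) (Algebra.IsIntegral.isIntegral (R := Rl) (g i))
  let θR : T →ₐ[R] Ω := θ.restrictScalars R
  let T₀ : Subalgebra R Ω := Algebra.adjoin R (Set.range fun i => θR (w i • g i))
  obtain ⟨φ, hφ1⟩ := hφ T₀ (Algebra.finite_adjoin_of_finite_of_isIntegral (Set.finite_range _)
    (by rintro _ ⟨i, rfl⟩; exact (hw i).map θR))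
  obtain ⟨ψ, hψ⟩ := ext_loc Rl m.primeCompl θR.toLinearMap (Subalgebra.toSubmodule T₀) φ (by
    intro t
    have ht : t ∈ Submodule.span Rl (Set.range g) := by rw [hg]; trivial
    induction ht using Submodule.span_induction with
    | mem x hx =>
      obtain ⟨i, rfl⟩ := hx
      refine ⟨w i, ?_⟩
      rw [← map_smul]
      exact Algebra.subset_adjoin ⟨i, rfl⟩
    | zero => exact ⟨1, by simp⟩
    | add x y _ _ hx hy =>
      obtain ⟨a, ha⟩ := hx
      obtain ⟨b, hb⟩ := hy
      refine ⟨a * b, ?_⟩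
      rw [map_add, smul_add, Submonoid.coe_mul]
      refine add_mem ?_ ?_
      · rw [mul_comm, mul_smul]; exact Submodule.smul_mem _ _ ha
      · rw [mul_smul]; exact Submodule.smul_mem _ _ hb
    | smul c x _ hx =>
      obtain ⟨a, ha⟩ := hx
      obtain ⟨⟨r, s⟩, hrs⟩ := IsLocalization.surj m.primeCompl c
      refine ⟨a * s, ?_⟩
      have : (s : R) • c • x = r • x := by
        rw [← algebraMap_smul Rl (s : R), smul_smul, mul_comm, hrs, algebraMap_smul]
      rw [Submonoid.coe_mul, mul_smul, ← map_smul _ (s : R), this, map_smul, smul_comm]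
      exact Submodule.smul_mem _ _ ha)
  have h1 : θR.toLinearMap 1 ∈ Subalgebra.toSubmodule T₀ := by
    change θR 1 ∈ T₀
    rw [map_one]; exact one_mem _
  have h2 : ψ 1 = algebraMap R Rl (φ 1) := by
    rw [hψ 1 h1]
    congr 2
    exact Subtype.ext (map_one θR)
  obtain ⟨u, hu⟩ := IsLocalization.map_units Rl (⟨φ 1, hφ1⟩ : m.primeCompl)
  refine ⟨(↑u⁻¹ : Rl) • ψ, ?_⟩
  rw [LinearMap.smul_apply, h2, ← hu, smul_eq_mul, Units.inv_mul]

open StepAux in
theorem step (hF : S_FFin) (hN : S_NC) : S_Step := by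
  intro pp hp k A K L _ _ _ _ _ _ _ _ _ _ _ _ _ _ _ _ _ x τ e hx hτ he hreg N
  have hinj : Function.Injective (algebraMap A L) := by
    rw [IsScalarTower.algebraMap_eq A K L]
    exact (algebraMap K L).injective.comp (IsFractionRing.injective A K)
  have hinj' : Function.Injective (algebraMap A (integralClosure A L)) := by
    intro a b h
    exact hinj (congrArg Subtype.val h)
  have : IsNoetherianRing A := Algebra.FiniteType.isNoetherianRing k A
  have : IsNoetherianRing (integralClosure A L) := integralClosure.isNoetherianRing (K := K) L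
  have : Module.Finite A (integralClosure A L) := IsIntegralClosure.finite A K L _
  have : IsIntegrallyClosed (integralClosure A L) :=
    integralClosure.isIntegrallyClosedOfFiniteExtension K
  have : CharP (integralClosure A L) pp := charP_of_injective_algebraMap hinj' pp
  have : CharP L pp := charP_of_injective_algebraMap hinj pp
  have : ExpChar (integralClosure A L) pp := ExpChar.prime hp.out
  let : Algebra k (integralClosure A L) :=
    ((algebraMap A (integralClosure A L)).comp (algebraMap k A)).toAlgebra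
  have : IsScalarTower k A (integralClosure A L) := IsScalarTower.of_algebraMap_eq fun _ => rfl
  have : Algebra.FiniteType k (integralClosure A L) :=
    Algebra.FiniteType.trans (S := A) inferInstance inferInstance
  obtain ⟨i, m, hnc⟩ := hN pp (integralClosure A L) (hF pp k _) (algebraMap A _ τ) (algebraMap A _ e)
    (fun h => hτ (hinj' (by rw [h, map_zero]))) N
  refine ⟨i, max m 1, fun μ hμ Y ⟨g1, M1, a1, b1⟩ ⟨g2, M2, a2, b2⟩ => ?_⟩
  set X := algebraMap A L x with hX
  set T := algebraMap A L τ with hT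
  set E := algebraMap A L e with hE
  have iX : IsIntegral A X := isIntegral_algebraMap
  have iT : IsIntegral A T := isIntegral_algebraMap
  have iE : IsIntegral A E := isIntegral_algebraMap
  have X0 : X ≠ 0 := fun h => hx (hinj (by rw [← hX, h, map_zero]))
  have E0 : E ≠ 0 := fun h => he (hinj (by rw [← hE, h, map_zero]))
  set M := M1 + M2 with hM
  have c1 : IsIntegral A (X ^ M * T ^ N * g1) := by
    refine icongr ((iX.pow M2).mul a1) ?_
    rw [hM]; ring
  have c2 : IsIntegral A (X ^ M * T ^ N * g2) := by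
    refine icongr ((iX.pow M1).mul a2) ?_
    rw [hM]; ring
  have d1 : IsIntegral A (X ^ M * T ^ M * (Y - g1) / E ^ μ) := by
    refine icongr (((iX.pow M2).mul (iT.pow M2)).mul b1) ?_
    rw [hM]; ring
  have d2 : IsIntegral A (X ^ M * T ^ M * (Y ^ pp ^ i - g2) / E ^ μ) := by
    refine icongr (((iX.pow M1).mul (iT.pow M1)).mul b2) ?_
    rw [hM]; ring
  obtain ⟨P, hP⟩ : ∃ P, pp ^ i = P + 1 := ⟨pp ^ i - 1, by
    have := Nat.one_le_pow i pp hp.out.pos; omega⟩
  have hP' : pp ^ i - 1 = P := by omega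
  have hchar : (Y - g1) ^ (P + 1) = Y ^ (P + 1) - g1 ^ (P + 1) := by
    rw [← hP]; exact sub_pow_char_pow ..
  rw [hP] at d2
  set D := (X ^ M * T ^ N * g1) ^ (P + 1) - T ^ (N * P) * (X ^ (M * P) * (X ^ M * T ^ N * g2))
    with hD
  have iD : IsIntegral A D := (c1.pow _).sub ((iT.pow _).mul ((iX.pow _).mul c2))
  have iW : IsIntegral A (D / E ^ μ) := by
    refine s2 A K L e τ he hτ hreg _ μ (M * (P + 1)) ?_ ?_
    · rw [← hE, mul_div_cancel₀ _ (pow_ne_zero _ E0)]; exact iD
    · rw [← hT]
      have := (((iX.pow (M * P)).mul (iT.pow (N * (P + 1) + M * P))).mul d2).sub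
        (((iT.pow (N * (P + 1))).mul (iE.pow (μ * P))).mul (d1.pow (P + 1)))
      refine icongr (this) ?_
      rw [hD, div_pow, mul_pow (X ^ M * T ^ M) (Y - g1), hchar]
      field_simp
      ring
  obtain ⟨c, hc⟩ := Nat.exists_eq_add_of_le ((le_max_left m 1).trans hμ)
  obtain ⟨c', hc'⟩ := Nat.exists_eq_add_of_le' ((le_max_right m 1).trans hμ)
  obtain ⟨u', w', h⟩ := hnc ⟨_, c1⟩ ⟨_, (iX.pow (M * P)).mul c2⟩ ⟨_, (iE.pow c).mul iW⟩ (by
    apply Subtype.ext
    simp only [SubmonoidClass.coe_pow, Subalgebra.coe_add, MulMemClass.coe_mul,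
      SubalgebraClass.coe_algebraMap]
    rw [hP', hP, ← hT, ← hE, ← mul_assoc (E ^ m), ← pow_add, ← hc,
      mul_div_cancel₀ _ (pow_ne_zero _ E0), hD]
    ring)
  have h' : X ^ M * T ^ N * g1 = T ^ N * (u' : L) + E * (w' : L) := by
    have := congrArg Subtype.val h
    simpa only [SubmonoidClass.coe_pow, Subalgebra.coe_add, MulMemClass.coe_mul,
      SubalgebraClass.coe_algebraMap] using this
  refine ⟨(u' : L) / X ^ M, M + N, ?_, ?_⟩
  · refine icongr ((iX.pow N).mul u'.2) ?_
    rw [← hX]
    field_simp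
    ring
  · have := (((iX.pow N).mul ((iT.pow N).mul (iE.pow c'))).mul d1).add
      (((iX.pow N).mul (iT.pow M)).mul w'.2)
    refine icongr (this) ?_
    rw [← hX, ← hT, ← hE, hc']
    field_simp
    linear_combination (T ^ M * X ^ N * X ^ M * E * E ^ c') * h'

open GaussAux in
theorem base : S_ExtVal → S_Base0 := by
  intro hE pp _
  classical
  obtain ⟨w1, h10, -, h1X, -⟩ := gauss1 (1 : Valuation (ZMod pp) ℝ≥0)
    (fun x hx => Valuation.one_apply_eq_zero_iff.1 hx) (1 / 2) (by norm_num)
  rw [map_one, mul_one] at h1X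
  obtain ⟨w2, hw2⟩ := ext_frac (K := RatFunc (ZMod pp)) w1 h10
  obtain ⟨v, hv⟩ := hE (RatFunc (ZMod pp)) (AlgebraicClosure (RatFunc (ZMod pp))) w2
  refine ⟨AlgebraicClosure (RatFunc (ZMod pp)), inferInstance,
    algebraMap (RatFunc (ZMod pp)) _ (algebraMap (ZMod pp)[X] (RatFunc (ZMod pp)) X),
    inferInstance, inferInstance, v, ?_, ?_⟩
  · rw [hv, hw2, h1X]
    norm_num
  · rw [hv, hw2, h1X]
    norm_num


end Pool.Agent.P.MP_3a4479_al.AP
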