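import Pool.Agent.P.MP_3a4479_al.AP.Defs

set_option autoImplicit false

namespace Pool.Agent.P.MP_3a4479_al.AP

open Polynomial

noncomputable section

namespace CoreAux

/-- The abstract dichotomy: either a functional with `φ 1 ∉ m`, or a local cohomology relation
with coefficients in the submodule generated by the `j l`. -/
theorem dich (hS : S_Split) {k R T : Type} [Field k] [CommRing R] [CommRing T] [Algebra R T]
    [Module.Finite R T] (al : P3 k →+* R) (m : Ideal R) (hm : m.IsPrime) (j b : Fin 6 → R)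
    (hfin : ∃ β : Fin 6 → R, ∀ r, ∃ P : Fin 6 → P3 k, r = ∑ l, al (P l) * β l)
    (cas : ∀ r : R, ∃ ρ : Fin 6 → Fin 6 → P3 k,
      (∀ l, r * j l = ∑ l', al (ρ l' l) * j l') ∧ ∀ l', r * b l' = ∑ l, al (ρ l' l) * b l)
    (b0 : b 0 ∉ m) (bl : ∀ l, l ≠ 0 → b l ∈ m)
    (hal : ∀ P, MvPolynomial.constantCoeff P ≠ 0 → al P ∉ m)
    (P : Fin 6 → P3 k) (hP : ∀ l, l ≠ 0 → MvPolynomial.constantCoeff (P l) = 0) :
    (∃ φ : T →ₗ[R] R, φ 1 ∉ m) ∨
      ∃ (t : ℕ) (u : Fin 3 → Fin 6 → T),
        algebraMap R T ((al (MvPolynomial.X 0) * al (MvPolynomial.X 1) *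
            al (MvPolynomial.X 2)) ^ t * ∑ l, al (P l) * j l) =
          ∑ i, algebraMap R T (al (MvPolynomial.X i)) ^ (t + 1) *
            ∑ l, algebraMap R T (j l) * u i l := by
  classical
  let Φ : (Fin 6 → T) →ₗ[R] T := ∑ l, j l • LinearMap.proj l
  have hΦ : ∀ u : Fin 6 → T, Φ u = ∑ l, algebraMap R T (j l) * u l := by
    intro u
    simp [Φ, Algebra.smul_def]
  let N : Submodule R T := LinearMap.range Φ
  have hmem : ∀ l (z : T), algebraMap R T (j l) * z ∈ N := by
    intro l z
    refine ⟨Pi.single l z, ?_⟩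
    rw [hΦ, Finset.sum_eq_single l]
    · simp
    · intro l' _ hl'
      simp [Pi.single_eq_of_ne hl']
    · simp
  let : Algebra (P3 k) R := al.toAlgebra
  let : Module (P3 k) N := Module.compHom N al
  have hsm : ∀ (a : P3 k) (z : N), ((a • z : N) : T) = algebraMap R T (al a) * z := by
    intro a z
    change ((al a • z : N) : T) = _
    rw [Submodule.coe_smul, Algebra.smul_def]
  have : IsScalarTower (P3 k) R N := ⟨fun a r z => by
    change (al a * r) • z = al a • r • z
    rw [mul_smul]⟩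
  have : Module.Finite (P3 k) R := by
    obtain ⟨β, hβ⟩ := hfin
    refine ⟨⟨Finset.univ.image β, ?_⟩⟩
    rw [eq_top_iff]
    intro r _
    obtain ⟨Q, rfl⟩ := hβ r
    refine Submodule.sum_mem _ fun l _ => ?_
    have : al (Q l) * β l = Q l • β l := rfl
    rw [this]
    exact Submodule.smul_mem _ _ (Submodule.subset_span (by simp))
  have : Module.Finite (P3 k) N := Module.Finite.trans R N
  let jj : Fin 6 → T →+ N := fun l =>
    { toFun := fun z => ⟨algebraMap R T (j l) * z, hmem l z⟩
      map_zero' := Subtype.ext (by simp)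
      map_add' := fun z z' => Subtype.ext (by simp [mul_add]) }
  have hjj : ∀ l z, ((jj l z : N) : T) = algebraMap R T (j l) * z := fun _ _ => rfl
  let w : N := ∑ l, P l • jj l 1
  have hw : (w : T) = algebraMap R T (∑ l, al (P l) * j l) := by
    simp only [w, AddSubmonoidClass.coe_finsetSum, hsm, hjj, map_sum, map_mul, mul_one]
  by_cases hrel : ∀ (t : ℕ) (u : Fin 3 → N),
      (MvPolynomial.X 0 * MvPolynomial.X 1 * MvPolynomial.X 2 : P3 k) ^ t • w ≠
        ∑ i, (MvPolynomial.X i : P3 k) ^ (t + 1) • u i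
  · left
    obtain ⟨Λ, hΛ⟩ := hS k N w hrel
    have hr : ∀ (r : R) (ρ : Fin 6 → Fin 6 → P3 k), (∀ l, r * j l = ∑ l', al (ρ l' l) * j l') →
        ∀ l (z : T), jj l (r • z) = ∑ l', ρ l' l • jj l' z := by
      intro r ρ hρ l z
      apply Subtype.ext
      simp only [AddSubmonoidClass.coe_finsetSum, hsm, hjj, Algebra.smul_def]
      rw [← mul_assoc, ← map_mul, mul_comm (j l), hρ, map_sum, Finset.sum_mul]
      refine Finset.sum_congr rfl fun l' _ => ?_
      rw [map_mul, mul_assoc]
    let φ : T →ₗ[R] R :=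
      { toFun := fun z => ∑ l, al (Λ (jj l z)) * b l
        map_add' := fun z z' => by
          simp only [map_add, add_mul, Finset.sum_add_distrib]
        map_smul' := fun r z => by
          obtain ⟨ρ, h1, h2⟩ := cas r
          simp only [hr r ρ h1, map_sum, map_smul, smul_eq_mul, map_mul, RingHom.id_apply,
            Finset.sum_mul, Finset.mul_sum]
          rw [Finset.sum_comm]
          refine Finset.sum_congr rfl fun l' _ => ?_
          rw [mul_left_comm, h2, Finset.mul_sum]
          refine Finset.sum_congr rfl fun l _ => ?_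
          ring }
    refine ⟨φ, fun hφ => ?_⟩
    have h0 : MvPolynomial.constantCoeff (Λ (jj 0 1)) ≠ 0 := by
      intro h0
      apply hΛ
      simp only [w, map_sum, map_smul, smul_eq_mul, map_mul]
      refine Finset.sum_eq_zero fun l _ => ?_
      by_cases hl : l = 0
      · rw [hl, h0, mul_zero]
      · rw [hP l hl, zero_mul]
    have h1 : al (Λ (jj 0 1)) * b 0 ∈ m := by
      have h2 : φ 1 = al (Λ (jj 0 1)) * b 0 +
          ∑ l ∈ Finset.univ.erase 0, al (Λ (jj l 1)) * b l :=
        (Finset.add_sum_erase _ (fun l => al (Λ (jj l 1)) * b l) (Finset.mem_univ 0)).symm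
      have h3 : ∑ l ∈ Finset.univ.erase 0, al (Λ (jj l 1)) * b l ∈ m :=
        Ideal.sum_mem _ fun l hl => Ideal.mul_mem_left _ _ (bl l (Finset.ne_of_mem_erase hl))
      rw [h2] at hφ
      simpa using m.sub_mem hφ h3
    rcases hm.mem_or_mem h1 with h | h
    · exact hal _ h0 h
    · exact b0 h
  · right
    push Not at hrel
    obtain ⟨t, u, hu⟩ := hrel
    choose u' hu' using fun i => (u i).2
    refine ⟨t, u', ?_⟩
    have := congrArg (fun z : N => (z : T)) hu
    simp only [AddSubmonoidClass.coe_finsetSum, hsm, hw, map_pow, map_mul] at this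
    simp only [map_pow, map_mul, ← hΦ, hu']
    exact this

variable {k F : Type} [Field k] [Field F] [Algebra k F] {c : Ctx k F}

theorem ne_zero_of_res (h : GeoFacts c) {N : ℤ} {n : ℕ} {g : F} {P : k[X]}
    (hr : c.IsRes N n g P) (hP : P ≠ 0) : g ≠ 0 := by
  rintro rfl
  obtain ⟨p, hp, e⟩ := hr
  apply hP
  refine h.uniq_b 0 P (-p) ((c.A 0).neg_mem hp) ?_
  rw [zero_mul] at e
  linear_combination -e

theorem cc_al (σ : Str c) (P : P3 k) :
    constantCoeff (σ.al P) = algebraMap k F (MvPolynomial.constantCoeff P) := by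
  have : (constantCoeff : F[X] →+* F).comp σ.al.toRingHom =
      (algebraMap k F).comp MvPolynomial.constantCoeff := by
    refine MvPolynomial.ringHom_ext (fun r => ?_) (fun i => ?_)
    · simp [Str.al]
    · fin_cases i <;> simp [Str.al, coeff_monomial]
  exact RingHom.congr_fun this P

end CoreAux

open CoreAux in
theorem coreS : S_Core := by
  intro k F Ω _ _ _ _ _ _ c h σ al j b hS hK hc hσ hR hD hinj hno T hT
  have := hc.char
  have hpr := hc.prime
  have := hR.ft
  have : IsNoetherianRing (RR h) := Algebra.FiniteType.isNoetherianRing k (RR h)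
  have : CharP (RR h) c.p := charP_of_injective_algebraMap (algebraMap k (RR h)).injective c.p
  have hm : (mm h).IsPrime := RingHom.ker_isPrime _
  have hal : ∀ P, MvPolynomial.constantCoeff P ≠ 0 → al.toRingHom P ∉ mm h := by
    intro P hP hmem
    have h1 : constantCoeff (al P : F[X]) = 0 := hmem
    rw [hR.al_val, cc_al] at h1
    exact hP ((algebraMap k F).injective (by rw [h1, map_zero]))
  obtain ⟨P, hw, hP⟩ := hD.w_mem
  rcases dich (T := T) hS al.toRingHom (mm h) hm j b hR.fin hD.cas hD.b0 hD.bl hal P hP with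
    hφ | ⟨t, u, hu⟩
  · exact hφ
  exfalso
  have hs0 : σ.s ≠ 0 := ne_zero_of_res h hσ.rs (X_add_C_ne_zero _)
  have hf0 : σ.f ≠ 0 := ne_zero_of_res h hσ.rf X_ne_zero
  have ev : (al (MvPolynomial.X 0) : F[X]) = X := by rw [hR.al_val]; simp [Str.al]
  have es : (al (MvPolynomial.X 1) : F[X]) = monomial 1 σ.s := by rw [hR.al_val]; simp [Str.al]
  have ef : (al (MvPolynomial.X 2) : F[X]) = monomial 2 σ.f := by rw [hR.al_val]; simp [Str.al]
  have hmap : ∀ r : RR h, algebraMap (RR h) Ω r = algebraMap F[X] Ω r := fun _ => rfl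
  have hinj' : Function.Injective (algebraMap (RR h) Ω) := fun r r' e =>
    Subtype.ext (hinj e)
  have hs1 : al (MvPolynomial.X 1) ≠ 0 := by
    intro e
    rw [e] at es
    exact hs0 (by simpa using es.symm)
  have hf1 : al (MvPolynomial.X 2) ≠ 0 := by
    intro e
    rw [e] at ef
    exact hf0 (by simpa using ef.symm)
  have hH : (monomial 3 σ.h : F[X]) ∈ RR h :=
    GeoFacts.monomial_mem (q := 0) (by simpa using hσ.hh)
  have hint : ∀ z : T, IsIntegral (RR h) (z : Ω) := fun z =>
    (Algebra.IsIntegral.isIntegral (R := RR h) z).map T.val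
  set v : Ω := algebraMap (RR h) Ω (al (MvPolynomial.X 0)) with hv
  set s : Ω := algebraMap (RR h) Ω (al (MvPolynomial.X 1)) with hs
  set f : Ω := algebraMap (RR h) Ω (al (MvPolynomial.X 2)) with hf
  set H : Ω := algebraMap (RR h) Ω ⟨_, hH⟩ with hH'
  let U : Fin 3 → Ω := fun i => ∑ l, algebraMap (RR h) Ω (j l) * (u i l : Ω)
  have hU : ∀ i, IsIntegral (RR h) (U i) := fun i =>
    IsIntegral.sum _ fun l _ => isIntegral_algebraMap.mul (hint _)
  have hsi : IsIntegral (RR h) s := isIntegral_algebraMap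
  have hfi : IsIntegral (RR h) f := isIntegral_algebraMap
  have hHi : IsIntegral (RR h) H := isIntegral_algebraMap
  have hvH : algebraMap (RR h) Ω (∑ l, al (P l) * j l) = v * H := by
    rw [hv, hH', ← map_mul]
    congr 1
    apply Subtype.ext
    rw [hw, MulMemClass.coe_mul, ev, X_mul_monomial]
  have hu' : (v * s * f) ^ t * (v * H) =
      v ^ (t + 1) * U 0 + s ^ (t + 1) * U 1 + f ^ (t + 1) * U 2 := by
    have := congrArg T.val hu
    rw [AlgHom.commutes, map_mul, map_pow, map_mul, map_mul] at this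
    simp only [map_sum (T.val), map_mul T.val, map_pow T.val, AlgHom.commutes] at this
    rw [Fin.sum_univ_three] at this
    rw [← hvH]
    exact this
  obtain ⟨ys, yf, M, hys, hyf, hz⟩ := hK c.p (RR h) Ω hinj' _ _ _ hs1 hf1 hR.reg1 hR.reg2 (t + 1)
    ((s * f) ^ t * H - U 0) (U 1) (U 2) (((hsi.mul hfi).pow t).mul hHi |>.sub (hU 0)) (hU 1)
    (hU 2) (by
      rw [← hv, ← hs, ← hf]
      linear_combination hu')
  rw [← hs] at hys hz
  rw [← hf] at hyf hz
  have e2 : algebraMap F[X] Ω (monomial 2 (σ.s ^ 2)) = s ^ 2 := by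
    rw [hs, hmap, es, ← map_pow, monomial_pow]
  have e3 : algebraMap F[X] Ω (monomial 2 σ.f) = f := by rw [hf, hmap, ef]
  have e4 : H = algebraMap F[X] Ω (C (σ.eta ^ 1)) * s * f := by
    rw [hs, hf, hH', hmap, hmap, hmap, es, ef, ← map_mul, ← map_mul, C_mul_monomial,
      monomial_mul_monomial]
    congr 2
    rw [Str.eta]
    field_simp
  refine hno (M + t + 1) 6 ys yf (fun l => j l) (fun l => s ^ (2 * M + t + 1) * f ^ M * u 0 l)
    ⟨le_rfl, hD.mem, fun l => ((hsi.pow _).mul (hfi.pow _)).mul (hint _), ?_, ?_, ?_⟩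
  · have e6 : (s ^ 2) ^ (M + t + 1) * ys = s ^ (M + 2 * t + 2) * (s ^ M * ys) := by ring
    rw [e2, e6]
    exact (hsi.pow _).mul hys
  · have e6 : f ^ (M + t + 1) * yf = f ^ (t + 1) * (f ^ M * yf) := by ring
    rw [e3, e6]
    exact (hfi.pow _).mul hyf
  · rw [map_mul, e2, e3]
    have e5 : ∑ l, algebraMap F[X] Ω (j l) * (s ^ (2 * M + t + 1) * f ^ M * u 0 l) =
        s ^ (2 * M + t + 1) * f ^ M * U 0 := by
      rw [Finset.mul_sum]
      refine Finset.sum_congr rfl fun l _ => ?_
      rw [hmap]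
      ring
    rw [e5]
    rw [e4] at hz
    linear_combination (s ^ (2 * M + t + 1) * f ^ M) * hz

end

end Pool.Agent.P.MP_3a4479_al.AP
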