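import Pool.Agent.P.MP_3a4479_al.AP.Count2

set_option autoImplicit false

namespace Pool.Agent.P.MP_3a4479_al.AP

open Polynomial Filter Topology
open scoped NNReal

noncomputable section

namespace CountAux

variable {k F L : Type} [Field k] [Field F] [Algebra k F] [Field L] [Algebra F L]
  {c : Ctx k F} {ν : Fin 9 → Valuation F ℝ≥0} {w : Fin 9 → Valuation L ℝ≥0}

theorem wp_mul (p : Pl F L) (x y : L) : wp w p (x * y) = wp w p x * wp w p y := by
  simp only [wp, map_mul]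

theorem wp_alg (hw : Ext ν w) (p : Pl F L) (g : F) : wp w p (algebraMap F L g) = ν p.1 g := by
  unfold wp
  rw [AlgEquiv.commutes, hw]

theorem wp_sub_le (p : Pl F L) {x y : L} {r : ℝ≥0} (hx : wp w p x ≤ r) (hy : wp w p y ≤ r) :
    wp w p (x - y) ≤ r := by
  unfold wp at *
  rw [map_sub]
  exact (w p.1).map_sub_le hx hy

theorem val_mu (hν : NuFacts c ν) (m : ℤ) (n : ℕ) (i : Fin 9) (p : Pl F L) (hp : InCh i p) :
    ν p.1 (c.mu m n i) = 2 ^ (-m) := by
  unfold Ctx.mu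
  rcases hp with hp | hp
  · rw [hp, map_mul, map_zpow₀, map_pow, (hν.val_e i).1, (hν.val_ph 0 i).1, one_pow, mul_one,
      inv_zpow']
  · rw [hp, map_mul, map_zpow₀, map_pow, (hν.val_e i).2, (hν.val_ph 0 i).2, one_pow, mul_one,
      inv_zpow']

theorem int_alg (R : Subalgebra k F) {g : F} (hg : g ∈ R) : IsIntegral R (algebraMap F L g) :=
  isIntegral_algebraMap (R := R) (A := L) (x := ⟨g, hg⟩)

/-- sharp separating elements -/
theorem sharp [FiniteDimensional F L] (pp : ℕ) [hpp : Fact pp.Prime] [CharP L pp] {Cl : Type} {cls : Pl F L → Cl}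
    {act : Cl → (L ≃ₐ[F] L) → Cl} (hP : PlFacts c w) (hC : Cls c w cls act) (i : Fin 9) (C : Cl)
    {ε : ℝ≥0} (hε : 0 < ε) :
    ∃ t : L, IsIntegral (c.A i) t ∧ ∀ p, InCh i p →
      (cls p = C → wp w p (t - 1) ≤ ε) ∧ (cls p ≠ C → wp w p t ≤ ε) := by
  obtain ⟨t, ht, h⟩ := hP.crt i {p | cls p = C} fun p p' hpp => by
    simp only [Set.mem_ofPred_eq, hC.adj i p p' hpp]
  have key : ∀ x : ℝ≥0, x < 1 → ∀ᶠ e : ℕ in atTop, x ^ pp ^ e ≤ ε := by
    intro x hx
    have h1 := (NNReal.tendsto_pow_atTop_nhds_zero_of_lt_one hx).comp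
      (tendsto_pow_atTop_atTop_of_one_lt hpp.out.one_lt)
    exact (h1.eventually (gt_mem_nhds hε)).mono fun e he => he.le
  have h1 : ∀ᶠ e : ℕ in atTop, ∀ p : Pl F L, InCh i p →
      (cls p = C → wp w p (t - 1) ^ pp ^ e ≤ ε) ∧ (cls p ≠ C → wp w p t ^ pp ^ e ≤ ε) := by
    rw [eventually_all]
    intro p
    by_cases hp : InCh i p
    · by_cases hc : cls p = C
      · exact (key _ ((h p hp).1 hc)).mono fun e he _ => ⟨fun _ => he, fun h' => absurd hc h'⟩
      · exact (key _ ((h p hp).2 hc)).mono fun e he _ => ⟨fun h' => absurd h' hc, fun _ => he⟩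
    · exact Eventually.of_forall fun e h' => absurd h' hp
  obtain ⟨e, he⟩ := h1.exists
  refine ⟨t ^ pp ^ e, ht.pow _, fun p hp => ⟨fun hc => ?_, fun hc => ?_⟩⟩
  · have e1 : t ^ pp ^ e - 1 = (t - 1) ^ pp ^ e := by rw [sub_pow_char_pow, one_pow]
    rw [e1]
    unfold wp
    rw [map_pow, map_pow]
    exact (he p hp).1 hc
  · unfold wp
    rw [map_pow, map_pow]
    exact (he p hp).2 hc

theorem trans_mu (hg : GeoFacts c) (m : ℤ) (n : ℕ) (i : Fin 9) :
    ∃ T : ℤ, c.mu m n (i + 1) =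
      c.mu m n i * (c.u i ^ T * c.a (i + 1) ^ (if i = 8 then n else 0)) := by
  have hu := hg.u_ne i
  unfold Ctx.mu
  rw [hg.te i, mul_zpow, ← zpow_mul]
  by_cases hi : i = 8
  · refine ⟨ue i * m, ?_⟩
    rw [if_pos hi]
    subst hi
    have e : (8 : Fin 9) + 1 = 0 := by decide
    rw [e, hg.tph8, mul_pow]
    ring
  · obtain ⟨t, ht⟩ := hg.tph i hi
    refine ⟨ue i * m + t * n, ?_⟩
    rw [if_neg hi, ht, mul_pow, zpow_add₀ hu, zpow_mul (c.u i) t, zpow_natCast]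
    ring

theorem VV_int (hg : GeoFacts c) {f : L} {n : ℕ} {i : Fin 9} (m : ℤ)
    (h : ∃ M : ℕ, IsIntegral (c.A i) (algebraMap F L (c.mu M n i) * f)) :
    ∃ r : ℕ, IsIntegral (c.A i)
      (algebraMap F L (c.e i) ^ r * (algebraMap F L (c.mu m n i) * f)) := by
  obtain ⟨M, hM⟩ := h
  have he : c.e i ≠ 0 := mul_ne_zero (hg.a_ne i) (hg.b_ne i)
  have hmem : c.e i ∈ c.A i := (c.A i).mul_mem (hg.a_mem i) (hg.b_mem i)
  obtain ⟨r, s, hrs⟩ : ∃ r s : ℕ, (r : ℤ) + m = s + M :=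
    ⟨((M : ℤ) - m).toNat, (m - M).toNat, by omega⟩
  refine ⟨r, ?_⟩
  have e : c.e i ^ r * c.mu m n i = c.e i ^ s * c.mu M n i := by
    unfold Ctx.mu
    rw [← mul_assoc, ← mul_assoc, ← zpow_natCast (c.e i) r, ← zpow_natCast (c.e i) s,
      ← zpow_add₀ he, ← zpow_add₀ he, hrs]
  rw [← mul_assoc, ← map_pow, ← map_mul, e, map_mul, mul_assoc]
  exact (int_alg _ ((c.A i).pow_mem hmem s)).mul hM

/-- lowering the pole order along one class by one -/
theorem step [Algebra k L] [FiniteDimensional F L] (pp : ℕ) [hpp : Fact pp.Prime] [CharP L pp] {Cl : Type} [Fintype Cl]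
    [DecidableEq Cl] {cls : Pl F L → Cl} {act : Cl → (L ≃ₐ[F] L) → Cl} (hg : GeoFacts c)
    (hν : NuFacts c ν) (hw : Ext ν w) (hP : PlFacts c w) (hC : Cls c w cls act) (n : ℕ) (C : Cl)
    (ℓ : Fin 9 → ℕ)
    (hℓ : ∀ (i : Fin 9) (g : L) (V : Submodule k L), Module.Finite k V →
        (∀ f ∈ V, (∀ σ : L ≃ₐ[F] L, cls (i + 1, σ) ≠ C → w (i + 1) (σ (g * f)) ≤ 2⁻¹) ∧
          IsIntegral (c.A (i + 1)) (g * f) ∧
          ∃ (γ : k) (z : L), IsIntegral (c.A i) z ∧ ∀ σ : L ≃ₐ[F] L,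
            w (i + 1) (σ (g * f -
              (algebraMap k F γ * c.a (i + 1) ^ (if i = 8 then n else 0)) • z)) ≤ 2⁻¹) →
        ∃ V' : Submodule k L, V' ≤ V ∧ Module.finrank k V ≤ Module.finrank k V' + ℓ i ∧
          ∀ f ∈ V', ∀ σ : L ≃ₐ[F] L, w (i + 1) (σ (g * f)) ≤ 2⁻¹)
    (N : Cl → ℤ) (V : Submodule k L) (hV : Module.Finite k V) (hVV : ∀ f ∈ V, VV c w cls N n f) :
    ∃ V' : Submodule k L, V' ≤ V ∧ Module.finrank k V ≤ Module.finrank k V' + ∑ i, ℓ i ∧
      ∀ f ∈ V', VV c w cls (Function.update N C (N C - 1)) n f := by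
  set m : ℤ := N C with hm
  obtain ⟨ε, hε, hεN⟩ : ∃ ε : ℝ≥0, 0 < ε ∧ ∀ C', ε * 2 ^ (N C' - m) ≤ 2⁻¹ := by
    have hB : ∀ C', (2 : ℝ≥0) ^ (N C' - m) ≤ ∑ C'', (2 : ℝ≥0) ^ (N C'' - m) := fun C' =>
      Finset.single_le_sum (f := fun C'' => (2 : ℝ≥0) ^ (N C'' - m)) (fun _ _ => zero_le)
        (Finset.mem_univ C')
    have hB0 : 0 < ∑ C'', (2 : ℝ≥0) ^ (N C'' - m) := (zpow_pos two_pos _).trans_le (hB C)
    refine ⟨2⁻¹ / ∑ C'', (2 : ℝ≥0) ^ (N C'' - m), div_pos (by norm_num) hB0, fun C' => ?_⟩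
    refine (mul_le_mul_right (hB C') _).trans ?_
    rw [div_mul_cancel₀ _ hB0.ne']
  have hε1 : ε ≤ 2⁻¹ := by
    have h1 := hεN C
    rwa [← hm, sub_self, zpow_zero, mul_one] at h1
  choose t ht1 ht2 using fun i => sharp pp hP hC i C hε
  have hψ : ∀ f, VV c w cls N n f → ∀ i (p : Pl F L), InCh i p →
      wp w p (algebraMap F L (c.mu m n i) * f) ≤ 2 ^ (N (cls p) - m) := by
    intro f hf i p hp
    rw [wp_mul, wp_alg hw, val_mu hν m n i p hp, sub_eq_add_neg, zpow_add₀ two_ne_zero, mul_comm]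
    exact mul_le_mul_left (hf.2 p) _
  have hφ1 : ∀ f, VV c w cls N n f → ∀ i (p : Pl F L), InCh i p → cls p ≠ C →
      wp w p (t i * (algebraMap F L (c.mu m n i) * f)) ≤ 2⁻¹ := by
    intro f hf i p hp hc
    rw [wp_mul]
    exact (mul_le_mul' ((ht2 i p hp).2 hc) (hψ f hf i p hp)).trans (hεN _)
  have hφ2 : ∀ f, VV c w cls N n f → ∀ i (p : Pl F L), InCh i p →
      wp w p (t i * (algebraMap F L (c.mu m n i) * f)) ≤ 1 := by
    intro f hf i p hp
    by_cases hc : cls p = C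
    · rw [wp_mul]
      refine mul_le_one' (hP.le_one i p _ hp (ht1 i)) ?_
      have h1 := hψ f hf i p hp
      rwa [hc, ← hm, sub_self, zpow_zero] at h1
    · exact (hφ1 f hf i p hp hc).trans half_lt_one'.le
  have hφ3 : ∀ f, VV c w cls N n f → ∀ i,
      IsIntegral (c.A i) (t i * (algebraMap F L (c.mu m n i) * f)) := by
    intro f hf i
    obtain ⟨r, hr⟩ := VV_int hg m (hf.1 i)
    refine hP.crit i _ r ?_ (hφ2 f hf i)
    rw [mul_left_comm]
    exact (ht1 i).mul hr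
  obtain ⟨V', h1, h2, h3⟩ := cuts (k := k) (fun f => VV c w cls N n f)
    (fun i f => ∀ σ : L ≃ₐ[F] L,
      w (i + 1) (σ (t (i + 1) * algebraMap F L (c.mu m n (i + 1)) * f)) ≤ 2⁻¹) ℓ
    (fun i U hU hUV => hℓ i _ U hU fun f hf => by
      have hf' := hUV f hf
      rw [mul_assoc]
      refine ⟨fun σ hσ => hφ1 f hf' (i + 1) (i + 1, σ) (Or.inl rfl) hσ, hφ3 f hf' (i + 1), ?_⟩
      obtain ⟨T, hT⟩ := trans_mu hg m n i
      refine ⟨c.cu i ^ T, _, hφ3 f hf' i, fun σ => ?_⟩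
      have e : t (i + 1) * (algebraMap F L (c.mu m n (i + 1)) * f) -
          (algebraMap k F (c.cu i ^ T) * c.a (i + 1) ^ (if i = 8 then n else 0)) •
            (t i * (algebraMap F L (c.mu m n i) * f)) =
          (t (i + 1) - t i) * (algebraMap F L (c.mu m n (i + 1)) * f) +
            algebraMap F L ((c.u i ^ T - algebraMap k F (c.cu i) ^ T) *
              c.a (i + 1) ^ (if i = 8 then n else 0)) *
              (t i * (algebraMap F L (c.mu m n i) * f)) := by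
        rw [hT, Algebra.smul_def, map_zpow₀]
        simp only [map_mul, map_sub]
        ring
      rw [e, map_add]
      refine (w (i + 1)).map_add_le ?_ ?_
      · change wp w (i + 1, σ) _ ≤ _
        rw [wp_mul]
        refine (mul_le_mul' ?_ (hψ f hf' (i + 1) (i + 1, σ) (Or.inl rfl))).trans (hεN _)
        by_cases hc : cls (i + 1, σ) = C
        · have e1 : t (i + 1) - t i = (t (i + 1) - 1) - (t i - 1) := by ring
          rw [e1]
          exact wp_sub_le _ ((ht2 (i + 1) _ (Or.inl rfl)).1 hc) ((ht2 i _ (Or.inr rfl)).1 hc)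
        · exact wp_sub_le _ ((ht2 (i + 1) _ (Or.inl rfl)).2 hc) ((ht2 i _ (Or.inr rfl)).2 hc)
      · change wp w (i + 1, σ) _ ≤ _
        rw [wp_mul, wp_alg hw]
        refine (mul_le_of_le_one_right' (hφ2 f hf' i _ (Or.inr rfl))).trans ?_
        change ν (i + 1) _ ≤ _
        rw [map_mul, map_pow, (hν.isNu (i + 1)).2.2.1, one_pow, mul_one]
        exact zpow_approx _ (hν.val_u i) ((hν.isNu (i + 1)).1 _ (hg.cu_ne i)) (val_ucu hg hν i) T)
    Finset.univ V hV hVV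
  refine ⟨V', h1, h2, fun f hf => ⟨(hVV f (h1 hf)).1, fun p => ?_⟩⟩
  by_cases hc : cls p = C
  · rw [hc, Function.update_self]
    obtain ⟨j, σ⟩ := p
    obtain ⟨i, rfl⟩ : ∃ i, j = i + 1 := ⟨j - 1, (sub_add_cancel j 1).symm⟩
    have h4 : wp w (i + 1, σ) (t (i + 1) * algebraMap F L (c.mu m n (i + 1)) * f) ≤ 2⁻¹ :=
      h3 i (Finset.mem_univ i) f hf σ
    have h5 : wp w (i + 1, σ) (t (i + 1)) = 1 := by
      have h6 := ((ht2 (i + 1) (i + 1, σ) (Or.inl rfl)).1 hc).trans_lt (hε1.trans_lt half_lt_one')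
      unfold wp at h6 ⊢
      rw [map_sub, map_one] at h6
      have h7 := (w (i + 1)).map_one_add_of_lt h6
      rwa [add_sub_cancel] at h7
    rw [wp_mul, wp_mul, h5, one_mul, wp_alg hw, val_mu hν m n (i + 1) _ (Or.inl rfl), zpow_neg,
      inv_mul_le_iff₀ (zpow_pos two_pos m)] at h4
    rwa [zpow_sub_one₀ two_ne_zero]
  · rw [Function.update_of_ne hc]
    exact (hVV f (h1 hf)).2 p

theorem clear4 (hg : GeoFacts c) (i : Fin 9) :
    ∀ z ∈ c.A 4, ∃ M : ℕ, (c.x * c.y * c.mu 3 3 i) ^ M * z ∈ c.A i := by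
  intro z hz
  obtain ⟨P, rfl⟩ := (hg.A4 z).1 hz
  clear hz
  have hu : c.x * c.y * c.mu 3 3 i ∈ c.A i := hg.xy_mem i
  induction P using MvPolynomial.induction_on with
  | C t => exact ⟨0, by simp [ev2]⟩
  | add p q hp hq =>
    obtain ⟨M, hM⟩ := hp
    obtain ⟨M', hM'⟩ := hq
    refine ⟨M + M', ?_⟩
    have h1 := (c.A i).add_mem ((c.A i).mul_mem ((c.A i).pow_mem hu M') hM)
      ((c.A i).mul_mem ((c.A i).pow_mem hu M) hM')
    rw [map_add]
    convert h1 using 1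
    ring
  | mul_X p l hp =>
    obtain ⟨M, hM⟩ := hp
    refine ⟨M + 1, ?_⟩
    have e : ev2 k c.x c.y (MvPolynomial.X l) = c.x ∨ ev2 k c.x c.y (MvPolynomial.X l) = c.y := by
      fin_cases l <;> simp [ev2]
    rw [map_mul]
    rcases e with e | e
    · have h1 := (c.A i).mul_mem hM (hg.xxy_mem i)
      rw [e]
      convert h1 using 1
      ring
    · have h1 := (c.A i).mul_mem hM (hg.xyy_mem i)
      rw [e]
      convert h1 using 1
      ring

theorem mu_pow (hg : GeoFacts c) (N n D : ℕ) (i : Fin 9) :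
    c.mu (N + 3 * D : ℕ) (n + 3 * D) i = c.mu N n i * c.mu 3 3 i ^ D := by
  induction D with
  | zero => simp
  | succ D ih =>
    have h1 := hg.mu_mul (N + 3 * D : ℕ) (n + 3 * D) 3 3 i
    rw [pow_succ, ← mul_assoc, ← ih, ← h1]
    congr 1

/-- the starting space -/
theorem base [Algebra k L] [IsScalarTower k F L] [FiniteDimensional F L] {Cl : Type}
    (cls : Pl F L → Cl) (hClear : S_Clear) (hg : GeoFacts c) (hν : NuFacts c ν)
    (hD : DimFacts c) (hw : Ext ν w) (hP : PlFacts c w) :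
    ∃ c₀ : ℕ, ∀ N n : ℕ, ∃ V : Submodule k L, Module.Finite k V ∧
      Module.finrank F L * Module.finrank k (c.M N n) ≤ Module.finrank k V ∧
      ∀ f ∈ V, VV c w cls (fun _ => ((N + c₀ : ℕ) : ℤ)) (n + c₀) f := by
  have := hg.frac 4
  obtain ⟨s, b, hb⟩ := FiniteDimensional.exists_is_basis_integral (c.A 4) F L
  have hu : ∀ i, c.x * c.y * c.mu 3 3 i ∈ c.A i := hg.xy_mem
  obtain ⟨D, hDi⟩ : ∃ D : ℕ, ∀ (i : Fin 9) (l : s),
      IsIntegral (c.A i) (algebraMap F L (c.x * c.y * c.mu 3 3 i) ^ D * b l) := by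
    have h1 : ∀ᶠ D : ℕ in atTop, ∀ (i : Fin 9) (l : s),
        IsIntegral (c.A i) (algebraMap F L (c.x * c.y * c.mu 3 3 i) ^ D * b l) := by
      rw [eventually_all]
      intro i
      rw [eventually_all]
      intro l
      obtain ⟨M, hM⟩ := hClear k F L (c.A i) (c.A 4) _ (hu i) (clear4 hg i) _ (hb l)
      filter_upwards [eventually_ge_atTop M] with D hD'
      obtain ⟨r, rfl⟩ := Nat.exists_eq_add_of_le' hD'
      rw [pow_add, mul_assoc]
      exact ((int_alg _ (hu i)).pow r).mul hM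
    exact h1.exists
  refine ⟨3 * D, fun N n => ?_⟩
  have := hD.fin N n
  let φ : (s → c.M N n) →ₗ[k] L := ∑ l : s,
    ((LinearMap.toSpanSingleton F L ((c.x * c.y) ^ D • b l)).restrictScalars k).comp
      ((c.M N n).subtype.comp (LinearMap.proj l))
  have hφ : ∀ g : s → c.M N n, φ g = ∑ l : s, ((g l : F) * (c.x * c.y) ^ D) • b l := by
    intro g
    simp [φ, mul_smul]
  have hinj : Function.Injective φ := by
    rw [injective_iff_map_eq_zero]
    intro g hg0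
    rw [hφ] at hg0
    have h1 := Fintype.linearIndependent_iff.1 b.linearIndependent _ hg0
    ext l
    exact (mul_eq_zero.1 (h1 l)).resolve_right (pow_ne_zero _ (mul_ne_zero hg.x_ne hg.y_ne))
  refine ⟨LinearMap.range φ, inferInstance, ?_, ?_⟩
  · rw [LinearMap.finrank_range_of_inj hinj, Module.finrank_pi_fintype, Finset.sum_const,
      smul_eq_mul, Module.finrank_eq_card_basis b, Finset.card_univ]
  · rintro _ ⟨g, rfl⟩
    have h1 : ∀ i, IsIntegral (c.A i)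
        (algebraMap F L (c.mu (N + 3 * D : ℕ) (n + 3 * D) i) * φ g) := by
      intro i
      rw [hφ, Finset.mul_sum]
      refine IsIntegral.sum _ fun l _ => ?_
      have h2 := (int_alg (L := L) _ ((g l).2 i)).mul (hDi i l)
      rw [mu_pow hg, Algebra.smul_def]
      convert h2 using 1
      simp only [map_mul, map_pow]
      ring
    refine ⟨fun i => ⟨_, h1 i⟩, fun p => ?_⟩
    have h2 := hP.le_one p.1 p _ (Or.inl rfl) (h1 p.1)
    rw [wp_mul, wp_alg hw, val_mu hν _ _ p.1 p (Or.inl rfl), zpow_neg,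
      inv_mul_le_iff₀ (zpow_pos two_pos _), mul_one] at h2
    exact h2

theorem arith {B c₀ C₀ d r Lay D n' : ℕ} (hd : 1 ≤ d) (hn : n' = 4 * B * (c₀ + C₀) + c₀ + 1)
    (hL : r * Lay ≤ d * (n' + c₀) + C₀)
    (hD : 2 * D + n' * n' = 2 * (B * (n' + c₀) + n') * n' + n' + 2) :
    r * (B * (n' + c₀)) * Lay < d * D := by
  have h1 : r * (B * (n' + c₀)) * Lay ≤ B * (n' + c₀) * (d * (n' + c₀) + C₀) := by
    rw [mul_comm r, mul_assoc]
    exact Nat.mul_le_mul_left _ hL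
  have h2 : 2 * (B * (n' + c₀)) * n' + n' * n' < 2 * D := by nlinarith
  have h3 : 2 * (B * (n' + c₀)) * (c₀ + C₀) ≤ n' * n' := by
    have h4 : n' + c₀ ≤ 2 * n' := by omega
    have h5 : 4 * B * (c₀ + C₀) ≤ n' := by omega
    calc 2 * (B * (n' + c₀)) * (c₀ + C₀) ≤ 2 * (B * (2 * n')) * (c₀ + C₀) := by gcongr
      _ = 4 * B * (c₀ + C₀) * n' := by ring
      _ ≤ n' * n' := Nat.mul_le_mul_right _ h5
  have h6 : d * (2 * (B * (n' + c₀)) * n' + n' * n') < d * (2 * D) :=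
    Nat.mul_lt_mul_of_pos_left h2 hd
  have h7 : d * (2 * (B * (n' + c₀)) * (c₀ + C₀)) ≤ d * (n' * n') := Nat.mul_le_mul_left _ h3
  have h8 : B * (n' + c₀) * C₀ ≤ d * (B * (n' + c₀) * C₀) := Nat.le_mul_of_pos_left _ hd
  nlinarith

end CountAux

open CountAux in
theorem countS : S_Count := by
  intro k F L Cl _ _ _ _ _ _ _ _ _ c ν w cls act hLat hClear hc hg hν hD hw hP hC A hA
  classical
  let _ : Algebra k L := ((algebraMap F L).comp (algebraMap k F)).toAlgebra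
  have : IsScalarTower k F L := IsScalarTower.of_algebraMap_eq fun _ => rfl
  have := hc.char
  have hpr := hc.prime
  have : CharP L c.p := charP_of_injective_algebraMap (algebraMap k L).injective c.p
  obtain ⟨B, rfl⟩ := Nat.exists_eq_add_of_le' hA
  obtain ⟨c₀, hbase⟩ := base cls hClear hg hν hD hw hP
  choose C₀ hC₀ using fun i => layerC (k := k) hLat hg hν hw hP cls i
  set n' : ℕ := 4 * B * (c₀ + ∑ i, C₀ i) + c₀ + 1 with hn'
  set n : ℕ := n' + c₀ with hn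
  choose ℓ hℓ1 hℓ2 using fun i : Fin 9 => hC₀ i (if i = 8 then n else 0)
  obtain ⟨C₂, hC₂⟩ : ∃ C₂ : Cl,
      Fintype.card Cl * ∑ i, ℓ i C₂ ≤ Module.finrank F L * n + ∑ i, C₀ i := by
    obtain ⟨C₂, -, h⟩ := Finset.exists_min_image Finset.univ (fun C : Cl => ∑ i, ℓ i C)
      Finset.univ_nonempty
    refine ⟨C₂, ?_⟩
    have h1 := Finset.card_nsmul_le_sum Finset.univ (fun C : Cl => ∑ i, ℓ i C) _ h
    rw [smul_eq_mul, Finset.card_univ, Finset.sum_comm] at h1
    refine h1.trans ((Finset.sum_le_sum fun i _ => hℓ1 i).trans ?_)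
    rw [Finset.sum_add_distrib, ← Finset.mul_sum, Finset.sum_ite_eq', if_pos (Finset.mem_univ _)]
  obtain ⟨V₀, hV₀, hV₁, hV₂⟩ := hbase (B * n + n') n'
  have hN : ((B * n + n' + c₀ : ℕ) : ℤ) = ((B + 1 : ℕ) : ℤ) * n := by
    rw [hn]
    push_cast
    ring
  rw [hN] at hV₂
  have hsteps : ∀ m : ℕ, ∃ V : Submodule k L, Module.Finite k V ∧
      Module.finrank k V₀ ≤ Module.finrank k V + m * ∑ i, ℓ i C₂ ∧
      ∀ f ∈ V, VV c w cls (Function.update (fun _ => ((B + 1 : ℕ) : ℤ) * n) C₂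
        (((B + 1 : ℕ) : ℤ) * n - m)) n f := by
    intro m
    induction m with
    | zero =>
      refine ⟨V₀, hV₀, by simp, ?_⟩
      rw [Nat.cast_zero, sub_zero, Function.update_eq_self_iff.2 rfl]
      exact hV₂
    | succ m ih =>
      obtain ⟨V, h1, h2, h3⟩ := ih
      obtain ⟨V', h4, h5, h6⟩ := step c.p hg hν hw hP hC n C₂ (fun i => ℓ i C₂)
        (fun i => hℓ2 i C₂) _ V h1 h3
      refine ⟨V', Submodule.finiteDimensional_of_le h4, ?_, ?_⟩
      · rw [Nat.succ_mul]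
        omega
      · rw [Function.update_self, Function.update_idem, sub_sub] at h6
        exact_mod_cast h6
  obtain ⟨V, h1, h2, h3⟩ := hsteps (Fintype.card Cl * (B * n))
  have h4 : Fintype.card Cl * (B * n) * ∑ i, ℓ i C₂ <
      Module.finrank F L * Module.finrank k (c.M (B * n + n' : ℕ) n') :=
    arith Module.finrank_pos hn' hC₂ (hD.dim _ _ (by omega))
  have h5 : V ≠ ⊥ := by
    rintro rfl
    rw [finrank_bot] at h2
    omega
  obtain ⟨f, hf, hf0⟩ := Submodule.exists_mem_ne_zero_of_ne_bot h5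
  obtain ⟨C₁, hC₁⟩ := exists_ne C₂
  refine ⟨n, _, C₁, f, by omega, hf0, h3 f hf, Function.update_of_ne hC₁ _ _, ?_⟩
  rw [Finset.sum_update_of_mem (Finset.mem_univ _), Finset.sum_const, Finset.card_sdiff_of_subset
    (Finset.subset_univ _), Finset.card_singleton, Finset.card_univ, nsmul_eq_mul,
    Nat.cast_sub Fintype.card_pos]
  push_cast
  ring

end

end Pool.Agent.P.MP_3a4479_al.AP
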