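import Pool.Agent.P.MP_3a4479_al.AP.Defs

set_option autoImplicit false

namespace Pool.Agent.P.MP_3a4479_al.AP

open Polynomial

noncomputable section

namespace DimAux

variable {k F : Type} [Field k] [Field F] [Algebra k F]

theorem step (V V' : Submodule k F) (W : Submodule k k[X]) [Module.Finite k V']
    [Module.Finite k W] (R : F → k[X] → Prop) (h0 : R 0 0)
    (hadd : ∀ g g' P P', R g P → R g' P' → R (g + g') (P + P'))
    (hsmul : ∀ (t : k) g P, R g P → R (t • g) (t • P))
    (hex : ∀ g ∈ V, ∃ P ∈ W, R g P) (hker : ∀ g ∈ V, R g 0 → g ∈ V') :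
    Module.Finite k V ∧ Module.finrank k V ≤ Module.finrank k V' + Module.finrank k W ∧
      (Module.finrank k V' + Module.finrank k W ≤ Module.finrank k V →
        ∀ P ∈ W, ∃ g ∈ V, R g P) := by
  let Γ : Submodule k (F × k[X]) :=
    { carrier := {z | z.1 ∈ V ∧ z.2 ∈ W ∧ R z.1 z.2}
      add_mem' := fun h₁ h₂ =>
        ⟨V.add_mem h₁.1 h₂.1, W.add_mem h₁.2.1 h₂.2.1, hadd _ _ _ _ h₁.2.2 h₂.2.2⟩
      zero_mem' := ⟨V.zero_mem, W.zero_mem, h0⟩
      smul_mem' := fun t _ h => ⟨V.smul_mem t h.1, W.smul_mem t h.2.1, hsmul _ _ _ h.2.2⟩ }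
  let p1 : Γ →ₗ[k] V := ((LinearMap.fst k F k[X]).comp Γ.subtype).codRestrict V fun z => z.2.1
  let p2 : Γ →ₗ[k] W :=
    ((LinearMap.snd k F k[X]).comp Γ.subtype).codRestrict W fun z => z.2.2.1
  have hk : ∀ z : LinearMap.ker p2, (z : Γ).1.2 = 0 := fun z => by
    have := congrArg Subtype.val (LinearMap.mem_ker.mp z.2)
    exact this
  let q : LinearMap.ker p2 →ₗ[k] V' :=
    (((LinearMap.fst k F k[X]).comp Γ.subtype).comp (LinearMap.ker p2).subtype).codRestrict V'
      fun z => hker _ (z : Γ).2.1 (by have := (z : Γ).2.2.2; rw [hk z] at this; exact this)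
  have hq : Function.Injective q := by
    intro z z' h
    have h1 : (z : Γ).1.1 = (z' : Γ).1.1 := congrArg Subtype.val h
    exact Subtype.ext (Subtype.ext (Prod.ext h1 (by rw [hk z, hk z'])))
  have hp1 : Function.Surjective p1 := by
    intro g
    obtain ⟨P, hP, hR⟩ := hex g g.2
    exact ⟨⟨(g, P), g.2, hP, hR⟩, rfl⟩
  haveI hfk : Module.Finite k (LinearMap.ker p2) := Module.Finite.of_injective q hq
  haveI hfΓ : Module.Finite k Γ := by
    refine ⟨Submodule.fg_of_fg_map_of_fg_inf_ker p2 (IsNoetherian.noetherian _) ?_⟩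
    rw [top_inf_eq]
    exact (Submodule.fg_top _).mp hfk.1
  have e1 := LinearMap.finrank_range_add_finrank_ker p2
  have e2 : Module.finrank k V ≤ Module.finrank k Γ := by
    have := LinearMap.finrank_range_le p1
    rwa [LinearMap.range_eq_top.mpr hp1, finrank_top] at this
  have e3 := LinearMap.finrank_le_finrank_of_injective hq
  have e4 := Submodule.finrank_le (LinearMap.range p2)
  refine ⟨Module.Finite.of_surjective p1 hp1, by omega, fun h P hP => ?_⟩
  have e5 : LinearMap.range p2 = ⊤ := Submodule.eq_top_of_finrank_eq (by omega)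
  obtain ⟨z, hz⟩ := LinearMap.range_eq_top.mp e5 ⟨P, hP⟩
  have h2 : z.1.2 = P := congrArg Subtype.val hz
  exact ⟨z.1.1, z.2.1, h2 ▸ z.2.2.2⟩

theorem finrank_degLT (n : ℕ) : Module.finrank k (degreeLT k n) = n := by
  rw [(degreeLTEquiv k n).finrank_eq]; simp

/-- the restriction relation to the exceptional curve `s` -/
def RF (c : Ctx k F) (s : Fin 3) (N : ℤ) (m : ℕ) (g : F) (P : k[X]) : Prop :=
  ∃ p ∈ c.A (i0 s), g * (c.e (i0 s) ^ N * c.ph s (i0 s) ^ m) =
    aeval (c.b (i0 s)) P + c.ph s (i0 s) * p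

theorem stepF {c : Ctx k F} (hF : ResFAll c) (s : Fin 3) (N : ℤ) (n : Fin 3 → ℕ) (m : ℕ)
    [Module.Finite k (c.MM N (Function.update n s m))] :
    Module.Finite k (c.MM N (Function.update n s (m + 1))) ∧
      Module.finrank k (c.MM N (Function.update n s (m + 1))) ≤
        Module.finrank k (c.MM N (Function.update n s m)) + (N - m).toNat ∧
      (Module.finrank k (c.MM N (Function.update n s m)) + (N - m).toNat ≤
        Module.finrank k (c.MM N (Function.update n s (m + 1))) →
        ∀ P ∈ degreeLT k (N - m).toNat, ∃ g ∈ c.MM N (Function.update n s (m + 1)),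
          RF c s N (m + 1) g P) := by
  haveI : Module.Finite k (degreeLT k (N - m).toNat) :=
    Module.Finite.equiv (degreeLTEquiv k _).symm
  have := step (c.MM N (Function.update n s (m + 1))) (c.MM N (Function.update n s m))
    (degreeLT k (N - m).toNat) (RF c s N (m + 1)) ⟨0, zero_mem _, by simp⟩ ?_ ?_ ?_ ?_
  · rwa [finrank_degLT] at this
  · rintro g g' P P' ⟨p, hp, h⟩ ⟨p', hp', h'⟩
    exact ⟨p + p', add_mem hp hp', by rw [add_mul, h, h', map_add]; ring⟩
  · rintro t g P ⟨p, hp, h⟩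
    exact ⟨t • p, Subalgebra.smul_mem _ hp t, by
      rw [smul_mul_assoc, h, map_smul, smul_add, mul_smul_comm]⟩
  · intro g hg
    obtain ⟨P, hP, hc⟩ := (hF s N _ g hg).1
    rw [Function.update_self] at hP hc
    refine ⟨P, ?_, hP⟩
    rw [mem_degreeLT, degree_lt_iff_coeff_zero]
    intro i hi
    apply hc
    push_cast
    omega
  · rintro g hg ⟨p, hp, h⟩
    have := (hF s N _ g hg).2 (by simp) (by
      rw [Function.update_self]; exact ⟨p, hp, by simpa using h⟩)
    simpa using this

/-- the total loss -/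
def T (N n : ℕ) : ℕ := ∑ m ∈ Finset.range n, (N - m)

theorem T_succ (N n : ℕ) : T N (n + 1) = T N n + (N - n) := Finset.sum_range_succ _ _

theorem T_eq (N n : ℕ) (h : n ≤ N + 1) : 2 * T N n + n * n = 2 * N * n + n := by
  induction n with
  | zero => simp [T]
  | succ n ih =>
    have := ih (by omega)
    rw [T_succ]
    obtain ⟨d, rfl⟩ : ∃ d, N = n + d := ⟨N - n, by omega⟩
    rw [Nat.add_sub_cancel_left]
    nlinarith

theorem fin_upd {c : Ctx k F} (hF : ResFAll c) (s : Fin 3) (N : ℤ) (n : Fin 3 → ℕ)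
    (h : Module.Finite k (c.MM N (Function.update n s 0))) (m : ℕ) :
    Module.Finite k (c.MM N (Function.update n s m)) := by
  induction m with
  | zero => exact h
  | succ m ih => exact (stepF hF s N n m).1

theorem le_upd {c : Ctx k F} (hF : ResFAll c) (s : Fin 3) (N : ℕ) (n : Fin 3 → ℕ)
    (h : Module.Finite k (c.MM N (Function.update n s 0))) (m d : ℕ) :
    Module.finrank k (c.MM N (Function.update n s (m + d))) + T N m ≤
      Module.finrank k (c.MM N (Function.update n s m)) + T N (m + d) := by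
  induction d with
  | zero => simp
  | succ d ih =>
    haveI := fin_upd hF s N n h (m + d)
    have := (stepF hF s N n (m + d)).2.1
    rw [← add_assoc, T_succ]
    omega

theorem upd0 (a : ℕ) : Function.update (0 : Fin 3 → ℕ) 0 a = ![a, 0, 0] := by
  ext i; fin_cases i <;> simp

theorem upd1 (a b : ℕ) : Function.update (![a, 0, 0] : Fin 3 → ℕ) 1 b = ![a, b, 0] := by
  ext i; fin_cases i <;> simp

theorem upd2 (a b d : ℕ) : Function.update (![a, b, 0] : Fin 3 → ℕ) 2 d = ![a, b, d] := by
  ext i; fin_cases i <;> simp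

theorem base {c : Ctx k F} (hR : ResFacts c) (N : ℤ) :
    Module.Finite k (c.M N 0) ∧ Module.finrank k (c.M N 0) ≤ 1 := by
  have hle : c.M N 0 ≤ Submodule.span k {(1 : F)} := by
    intro g hg
    obtain ⟨t, rfl⟩ := hR.const N g hg
    rw [Algebra.algebraMap_eq_smul_one]
    exact Submodule.smul_mem _ _ (Submodule.mem_span_singleton_self _)
  refine ⟨Submodule.finiteDimensional_of_le hle, ?_⟩
  have := Submodule.finrank_mono hle
  rwa [finrank_span_singleton one_ne_zero] at this

theorem finM {c : Ctx k F} (hG : GeoFacts c) (hR : ResFacts c) (hF : ResFAll c) (N : ℤ)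
    (n : ℕ) : Module.Finite k (c.MM N (Function.update 0 0 n)) := by
  refine fin_upd hF 0 N 0 ?_ n
  rw [upd0, ← hG.M_eq]
  exact (base hR N).1

theorem pow_mem {c : Ctx k F} (hG : GeoFacts c) {g : F} (hg : g ∈ c.MM 1 1) (m : ℕ) :
    g ^ m ∈ c.MM m (fun _ => m) := by
  induction m with
  | zero => rw [pow_zero]; exact hG.MM_gen.1
  | succ m ih =>
    rw [pow_succ]
    exact hG.MM_mul _ _ _ _ _ ih _ hg

theorem two_mem {c : Ctx k F} (hG : GeoFacts c) {g g' : F} (hg : g ∈ c.MM 1 1)
    (hg' : g' ∈ c.MM 1 1) (N B C : ℕ) (h : B + C ≤ N) :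
    g ^ B * g' ^ C ∈ c.MM N ![N, N, N] := by
  obtain ⟨d, rfl⟩ := Nat.exists_eq_add_of_le h
  have := hG.MM_mul _ _ _ _ _ (hG.MM_mul _ _ _ _ _ (pow_mem hG hg B) _ (pow_mem hG hg' C)) _
    (pow_mem hG hG.MM_gen.2.1 d)
  rw [one_pow, mul_one] at this
  convert this using 2
  · push_cast; rfl
  · ext i; fin_cases i <;> rfl

/-- exponents of the monomials -/
def ex (N : ℕ) : Option (Fin 3 × ℕ × ℕ) → ℕ × ℕ
  | none => (N, N)
  | some (0, B, C) => (N + B, N + C)
  | some (1, B, C) => (N - C, N + B - C)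
  | some (2, B, C) => (N + C - B, N - B)

theorem lower {c : Ctx k F} (hc : c.Good) (hG : GeoFacts c) (N : ℕ)
    [Module.Finite k (c.MM N ![N, N, N])] :
    1 + 3 * T N N ≤ Module.finrank k (c.MM N ![N, N, N]) := by
  classical
  let S : Finset (Σ _ : ℕ, ℕ) := (Finset.range N).sigma fun m => Finset.range (N - m)
  let E : Option (Fin 3 × S) → ℕ × ℕ := fun i =>
    ex N (i.map fun p => (p.1, p.2.1.2 + 1, p.2.1.1))
  have hS : ∀ p : S, p.1.2 + 1 + p.1.1 ≤ N := fun p => by
    have := Finset.mem_sigma.mp p.2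
    simp only [Finset.mem_range] at this
    omega
  have hE : Function.Injective E := by
    rintro (_ | ⟨s, p⟩) (_ | ⟨s', p'⟩) h
    · rfl
    · have := hS p'
      fin_cases s' <;> simp [E, ex] at h <;> omega
    · have := hS p
      fin_cases s <;> simp [E, ex] at h <;> omega
    · have h1 := hS p
      have h2 := hS p'
      have key : s = s' ∧ p.1.1 = p'.1.1 ∧ p.1.2 = p'.1.2 := by
        fin_cases s <;> fin_cases s' <;> simp [E, ex] at h ⊢ <;> omega
      obtain ⟨rfl, h3, h4⟩ := key
      have : p = p' := Subtype.ext (Sigma.ext h3 (heq_of_eq h4))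
      rw [this]
  let D : ℕ × ℕ → (Fin 2 →₀ ℕ) := fun q => Finsupp.single 0 q.1 + Finsupp.single 1 q.2
  have hD : Function.Injective D := by
    intro q q' h
    have h0 := congrArg (fun f => f 0) h
    have h1 := congrArg (fun f => f 1) h
    simp [D] at h0 h1
    exact Prod.ext h0 h1
  have hxy : c.x * c.y ≠ 0 := mul_ne_zero hG.x_ne hG.y_ne
  let L : P2 k →ₗ[k] F :=
    (LinearMap.mulRight k (((c.x * c.y) ^ N)⁻¹)).comp (ev2 k c.x c.y).toLinearMap
  have hL : Function.Injective L := by
    intro P Q h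
    exact hc.coord.inj (mul_right_cancel₀ (inv_ne_zero (pow_ne_zero N hxy)) h)
  have hli := (((MvPolynomial.basisMonomials (Fin 2) k).linearIndependent.comp (D ∘ E)
    (hD.comp hE)).map' L (LinearMap.ker_eq_bot.mpr hL))
  have hval : ∀ q : ℕ × ℕ, L (MvPolynomial.basisMonomials (Fin 2) k (D q)) =
      c.x ^ q.1 * c.y ^ q.2 * ((c.x * c.y) ^ N)⁻¹ := by
    intro q
    have : (MvPolynomial.basisMonomials (Fin 2) k (D q) : P2 k) =
        MvPolynomial.X 0 ^ q.1 * MvPolynomial.X 1 ^ q.2 := by
      simp [D, MvPolynomial.X_pow_eq_monomial, MvPolynomial.monomial_mul]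
    rw [this]
    simp [L, ev2]
  have hmem : ∀ i, L (MvPolynomial.basisMonomials (Fin 2) k (D (E i))) ∈ c.MM N ![N, N, N] := by
    obtain ⟨-, h1, hx, hy, hz⟩ := hG.MM_gen
    have hx0 := hG.x_ne
    have hy0 := hG.y_ne
    intro i
    rw [hval]
    rcases i with _ | ⟨s, p⟩
    · convert two_mem hG h1 h1 N 0 0 (by omega) using 1
      simp only [E, ex, Option.map]
      field_simp
      ring
    · have hp := hS p
      set B := p.1.2 + 1 with hB
      set C := p.1.1 with hC
      obtain ⟨d, hd⟩ := Nat.exists_eq_add_of_le hp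
      fin_cases s
      · convert two_mem hG hx hy N B C hp using 1
        simp only [E, ex, Option.map, ← hB, ← hC]
        field_simp
        ring
      · convert two_mem hG hy hz N B C hp using 1
        simp only [E, ex, Option.map, ← hB, ← hC, Ctx.z]
        rw [show N - C = B + d by omega, show N + B - C = B + B + d by omega, hd, inv_pow]
        field_simp
        ring
      · convert two_mem hG hz hx N B C hp using 1
        simp only [E, ex, Option.map, ← hB, ← hC, Ctx.z]
        rw [show N - B = C + d by omega, show N + C - B = C + C + d by omega, hd, inv_pow]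
        field_simp
        ring
  let v : Option (Fin 3 × S) → c.MM N ![N, N, N] := fun i => ⟨_, hmem i⟩
  have hv : LinearIndependent k v := LinearIndependent.of_comp (c.MM N ![N, N, N]).subtype hli
  have := hv.fintype_card_le_finrank
  have hcard : S.card = T N N := by simp [S, T, Finset.card_sigma]
  simp only [Fintype.card_option, Fintype.card_prod, Fintype.card_fin, Fintype.card_coe,
    hcard] at this
  omega

theorem dimT {c : Ctx k F} (hc : c.Good) (hG : GeoFacts c) (hR : ResFacts c) (hF : ResFAll c)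
    (N n : ℕ) (h : n ≤ N + 1) : Module.finrank k (c.M N n) = 1 + T N n := by
  have f0 := finM hG hR hF N 0
  have hup : ∀ m, Module.finrank k (c.M N m) ≤ 1 + T N m := fun m => by
    have h1 := le_upd hF 0 N 0 f0 0 m
    have h2 := (base hR N).2
    rw [zero_add, upd0, upd0, ← hG.M_eq, ← hG.M_eq] at h1
    omega
  have f1 : Module.Finite k (c.MM N (Function.update ![N, 0, 0] 1 0)) := by
    rw [upd1, ← upd0]; exact finM hG hR hF N N
  have f2 : Module.Finite k (c.MM N (Function.update ![N, N, 0] 2 0)) := by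
    rw [upd2, ← upd1]; exact fin_upd hF 1 N _ f1 N
  haveI f3 : Module.Finite k (c.MM N ![N, N, N]) := by
    rw [← upd2]; exact fin_upd hF 2 N _ f2 N
  have l0 := lower hc hG N
  have l1 := le_upd hF 1 N _ f1 0 N
  have l2 := le_upd hF 2 N _ f2 0 N
  rw [zero_add, upd1, upd1, ← hG.M_eq] at l1
  rw [zero_add, upd2, upd2] at l2
  have T0 : T N 0 = 0 := by simp [T]
  have hlow : ∀ m, m ≤ N → 1 + T N m ≤ Module.finrank k (c.M N m) := fun m hm => by
    obtain ⟨d, hd⟩ := Nat.exists_eq_add_of_le hm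
    have h1 := le_upd hF 0 N 0 f0 m d
    rw [← hd, upd0, upd0, ← hG.M_eq, ← hG.M_eq] at h1
    omega
  refine le_antisymm (hup n) ?_
  rcases Nat.lt_or_ge N n with hn | hn
  · obtain rfl : n = N + 1 := by omega
    haveI : Module.Finite k (c.M N (N + 1)) := by
      rw [hG.M_eq, ← upd0]; exact finM hG hR hF N _
    have h1 := Submodule.finrank_mono (hG.mono N N N (N + 1) le_rfl (by omega))
    have h2 := hlow N le_rfl
    rw [T_succ]
    omega
  · exact hlow n hn

/-- the space of glued polynomials -/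
def GlueS (c : Ctx k F) (N : ℤ) (n : ℕ) : Submodule k k[X] where
  carrier := {P | c.Glue N n P}
  add_mem' := fun h₁ h₂ => ⟨natDegree_add_le_of_degree_le h₁.1 h₂.1, by
    rw [coeff_add, coeff_add, h₁.2, h₂.2, mul_add]⟩
  zero_mem' := ⟨by simp, by simp⟩
  smul_mem' := fun t P h => ⟨(natDegree_smul_le t P).trans h.1, by
    rw [coeff_smul, coeff_smul, h.2, smul_eq_mul, smul_eq_mul]; ring⟩

theorem glue_dim (c : Ctx k F) (N : ℤ) (n : ℕ) (hn : 1 ≤ n) :
    Module.Finite k (GlueS c N n) ∧ Module.finrank k (GlueS c N n) ≤ n := by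
  let L : GlueS c N n →ₗ[k] (Fin n → k) :=
    LinearMap.pi fun i : Fin n => (lcoeff k (i + 1)).comp (GlueS c N n).subtype
  have hL : Function.Injective L := by
    rw [← LinearMap.ker_eq_bot, LinearMap.ker_eq_bot']
    intro P hP
    have h1 : ∀ i, i < n → P.1.coeff (i + 1) = 0 := fun i hi => congrFun hP ⟨i, hi⟩
    have h2 : P.1.coeff n = 0 := by
      have := h1 (n - 1) (by omega)
      rwa [Nat.sub_add_cancel hn] at this
    apply Subtype.ext
    ext i
    rcases i with _ | i
    · rw [P.2.2, h2]; simp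
    · rcases Nat.lt_or_ge i n with hi | hi
      · rw [h1 i hi]; simp
      · rw [coeff_eq_zero_of_natDegree_lt (lt_of_le_of_lt P.2.1 (by omega))]; simp
  refine ⟨Module.Finite.of_injective L hL, ?_⟩
  have := LinearMap.finrank_le_finrank_of_injective hL
  simpa using this

end DimAux

open DimAux in
theorem dimS : S_Dim := by
  intro k F _ _ _ c hc hG hR hF
  have hfin : ∀ N n, Module.Finite k (c.M N n) := fun N n => by
    rw [hG.M_eq, ← upd0]; exact finM hG hR hF N _
  refine ⟨hfin, fun N n h => ?_, fun N n h1 h2 P hP => ?_, fun N n g hg => ?_,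
    fun N n g hg h => ?_, fun N n h1 h2 P hP => ?_⟩
  · have := T_eq N n h
    rw [dimT hc hG hR hF N n h]
    omega
  · obtain ⟨N, rfl⟩ : ∃ N', N = N' + 1 := ⟨N - 1, by omega⟩
    haveI := hfin N n
    haveI := (glue_dim c (N + 1 : ℕ) n h1).1
    refine (step (c.M (N + 1 : ℕ) n) (c.M N n) (GlueS c (N + 1 : ℕ) n) (c.IsRes (N + 1 : ℕ) n)
      (hR.low _ _ _ (zero_mem _)) (hR.add _ _) (fun t g P => hR.smul _ _ g P t) ?_ ?_).2.2 ?_ P hP
    · intro g hg
      obtain ⟨P, h, h'⟩ := hR.ex _ _ g hg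
      exact ⟨P, h', h⟩
    · intro g hg h
      simpa using hR.ker _ _ g hg h
    · have e1 := (glue_dim c (N + 1 : ℕ) n h1).2
      have e2 := T_eq N n h2
      have e3 := T_eq (N + 1) n (by omega)
      rw [dimT hc hG hR hF N n h2, dimT hc hG hR hF (N + 1) n (by omega)]
      nlinarith
  · rw [hG.M_eq] at hg
    exact (hF 0 N _ g hg).1
  · rw [hG.M_eq, ← upd0] at hg ⊢
    obtain ⟨p, hp, h⟩ := h
    have := (hF 0 N _ g hg).2 (by simp) (by
      rw [Function.update_self]; rw [map_zero, zero_add] at h; exact ⟨p, hp, h⟩)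
    simpa using this
  · obtain ⟨n, rfl⟩ : ∃ n', n = n' + 1 := ⟨n - 1, by omega⟩
    haveI := finM hG hR hF N n
    have := (stepF hF 0 N 0 n).2.2 (by
      rw [upd0, upd0, ← hG.M_eq, ← hG.M_eq, dimT hc hG hR hF N n (by omega),
        dimT hc hG hR hF N (n + 1) (by omega), T_succ]
      omega) P (by
      rw [mem_degreeLT]
      refine lt_of_le_of_lt degree_le_natDegree ?_
      exact Nat.cast_lt.mpr (by omega))
    rw [upd0, ← hG.M_eq] at this
    exact this

end

end Pool.Agent.P.MP_3a4479_al.AP
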