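import Pool.Agent.P.MP_3a4479_al.AP.Defs

set_option autoImplicit false

namespace Pool.Agent.P.MP_3a4479_al.AP

open Polynomial

noncomputable section

namespace DualAux

section Abstract

variable {P R : Type} [CommRing P] [CommRing R]

theorem comb (al : P →+* R) (j : Fin 6 → R) (c : Fin 6 → P) (a : Fin 6 → Fin 6 → P) :
    ∑ i, al (c i) * ∑ l, al (a i l) * j l = ∑ l, al (∑ i, c i * a i l) * j l := by
  simp only [map_sum, map_mul, Finset.sum_mul, Finset.mul_sum]
  rw [Finset.sum_comm]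
  refine Finset.sum_congr rfl fun l _ => Finset.sum_congr rfl fun i _ => by ring

theorem exists_lam (al : P →+* R) (j : Fin 6 → R)
    (inJ : ∀ a : Fin 6 → P, ∑ l, al (a l) * j l = 0 → ∀ l, a l = 0) :
    ∃ lam : R → P, ∀ a : Fin 6 → P, lam (∑ l, al (a l) * j l) = a 0 := by
  classical
  refine ⟨fun r => if h : ∃ a : Fin 6 → P, r = ∑ l, al (a l) * j l then h.choose 0 else 0,
    fun a => ?_⟩
  have h : ∃ a' : Fin 6 → P, ∑ l, al (a l) * j l = ∑ l, al (a' l) * j l := ⟨a, rfl⟩
  simp only [dif_pos h]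
  have h1 := h.choose_spec
  have h2 := inJ (fun l => a l - h.choose l) (by
    simp only [map_sub, sub_mul, Finset.sum_sub_distrib]
    exact sub_eq_zero.mpr h1) 0
  exact (sub_eq_zero.mp h2).symm

theorem lam_sum (al : P →+* R) (J : Ideal R) (j : Fin 6 → R) (lam : R → P)
    (spJ : ∀ r ∈ J, ∃ a : Fin 6 → P, r = ∑ l, al (a l) * j l)
    (hlam : ∀ a : Fin 6 → P, lam (∑ l, al (a l) * j l) = a 0)
    (c : Fin 6 → P) (r : Fin 6 → R) (hr : ∀ i, r i ∈ J) :
    lam (∑ i, al (c i) * r i) = ∑ i, c i * lam (r i) := by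
  choose a ha using fun i => spJ (r i) (hr i)
  have e1 : ∑ i, al (c i) * r i = ∑ l, al (∑ i, c i * a i l) * j l := by
    rw [← comb]
    exact Finset.sum_congr rfl fun i _ => by rw [← ha i]
  rw [e1, hlam]
  exact Finset.sum_congr rfl fun i _ => by rw [ha i, hlam]

theorem det_ne [IsDomain P] [IsDomain R] (al : P →+* R) (J : Ideal R) (bb j : Fin 6 → R)
    (lam : R → P) (hj : ∀ l, j l ∈ J)
    (spR : ∀ r, ∃ a : Fin 6 → P, r = ∑ l, al (a l) * bb l)
    (inR : ∀ a : Fin 6 → P, ∑ l, al (a l) * bb l = 0 → ∀ l, a l = 0)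
    (spJ : ∀ r ∈ J, ∃ a : Fin 6 → P, r = ∑ l, al (a l) * j l)
    (hlam : ∀ a : Fin 6 → P, lam (∑ l, al (a l) * j l) = a 0) :
    (Matrix.of fun i l => lam (bb i * j l)).det ≠ 0 := by
  classical
  intro hdet
  obtain ⟨a, ha0, ha⟩ := Matrix.exists_vecMul_eq_zero_iff.mpr hdet
  set r := ∑ l, al (a l) * bb l with hr
  have hr0 : r ≠ 0 := fun h => ha0 (funext (inR a h))
  have h1 : ∀ l, lam (r * j l) = 0 := by
    intro l
    have e1 : r * j l = ∑ i, al (a i) * (bb i * j l) := by
      rw [hr, Finset.sum_mul]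
      exact Finset.sum_congr rfl fun i _ => by ring
    rw [e1, lam_sum al J j lam spJ hlam _ _ (fun i => J.mul_mem_left _ (hj l))]
    have := congrFun ha l
    simpa [Matrix.vecMul, dotProduct] using this
  have h2 : ∀ y ∈ J, lam (r * y) = 0 := by
    intro y hy
    obtain ⟨c, hc⟩ := spJ y hy
    have e1 : r * y = ∑ l, al (c l) * (r * j l) := by
      rw [hc, Finset.mul_sum]
      exact Finset.sum_congr rfl fun i _ => by ring
    rw [e1, lam_sum al J j lam spJ hlam _ _ (fun i => J.mul_mem_left _ (hj i))]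
    simp [h1]
  let _ : Algebra P R := al.toAlgebra
  have : Module.Finite P R := by
    refine ⟨⟨Finset.univ.image bb, ?_⟩⟩
    rw [eq_top_iff]
    intro x _
    obtain ⟨c, hc⟩ := spR x
    rw [hc]
    refine Submodule.sum_mem _ fun l _ => ?_
    have : al (c l) * bb l = c l • bb l := rfl
    rw [this]
    exact Submodule.smul_mem _ _ (Submodule.subset_span (by simp))
  have hint : IsAlgebraic P r := (Algebra.IsIntegral.isIntegral (R := P) r).isAlgebraic
  obtain ⟨a', ha', r', hr'⟩ := hint.exists_nonzero_dvd (mem_nonZeroDivisors_of_ne_zero hr0)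
  have h3 := h2 (r' * j 0) (J.mul_mem_left _ (hj 0))
  have e2 : r * (r' * j 0) = ∑ l, al ((Pi.single 0 a' : Fin 6 → P) l) * j l := by
    rw [← mul_assoc, ← hr', Finset.sum_eq_single 0]
    · simp only [Pi.single_eq_same]; rfl
    · intro l _ hl; simp [Pi.single_eq_of_ne hl]
    · simp
  rw [e2, hlam] at h3
  exact ha' (by simpa using h3)

theorem dual (al : P →+* R) (J : Ideal R) (bb j : Fin 6 → R)
    (lam : R → P) (hj : ∀ l, j l ∈ J)
    (spR : ∀ r, ∃ a : Fin 6 → P, r = ∑ l, al (a l) * bb l)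
    (spJ : ∀ r ∈ J, ∃ a : Fin 6 → P, r = ∑ l, al (a l) * j l)
    (hlam : ∀ a : Fin 6 → P, lam (∑ l, al (a l) * j l) = a 0)
    (H : Matrix (Fin 6) (Fin 6) P)
    (hHG : H * (Matrix.of fun i l => lam (bb i * j l)) = 1)
    (hGH : (Matrix.of fun i l => lam (bb i * j l)) * H = 1)
    (b : Fin 6 → R) (hb : ∀ l, b l = ∑ i, al (H l i) * bb i) :
    (∀ r : R, ∃ ρ : Fin 6 → Fin 6 → P,
      (∀ l, r * j l = ∑ l', al (ρ l' l) * j l') ∧ ∀ l', r * b l' = ∑ l, al (ρ l' l) * b l) ∧
    ∀ a : Fin 6 → P, ∑ l, al (a l) * b l = 0 → ∀ l, a l = 0 := by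
  classical
  set G : Matrix (Fin 6) (Fin 6) P := Matrix.of fun i l => lam (bb i * j l) with hG
  have hD : ∀ (a : Fin 6 → P) (l : Fin 6),
      lam ((∑ i, al (a i) * bb i) * j l) = Matrix.vecMul a G l := by
    intro a l
    have e1 : (∑ i, al (a i) * bb i) * j l = ∑ i, al (a i) * (bb i * j l) := by
      rw [Finset.sum_mul]
      exact Finset.sum_congr rfl fun i _ => by ring
    rw [e1, lam_sum al J j lam spJ hlam _ _ (fun i => J.mul_mem_left _ (hj l))]
    simp [Matrix.vecMul, dotProduct, hG]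
  have hinj : ∀ r r' : R, (∀ l, lam (r * j l) = lam (r' * j l)) → r = r' := by
    intro r r' h
    obtain ⟨a, rfl⟩ := spR r
    obtain ⟨a', rfl⟩ := spR r'
    have e1 : Matrix.vecMul a G = Matrix.vecMul a' G := by
      funext l; rw [← hD, ← hD, h]
    have e2 : a = a' := by
      have := congrArg (fun v => Matrix.vecMul v H) e1
      simpa only [Matrix.vecMul_vecMul, hGH, Matrix.vecMul_one] using this
    rw [e2]
  have hdel : ∀ l m, lam (b l * j m) = if l = m then 1 else 0 := by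
    intro l m
    rw [hb, hD]
    have := congrFun (congrFun hHG l) m
    rw [Matrix.one_apply] at this
    rw [← this]
    simp [Matrix.vecMul, dotProduct, Matrix.mul_apply]
  have hco : ∀ (a : Fin 6 → P) (m : Fin 6), lam ((∑ l, al (a l) * b l) * j m) = a m := by
    intro a m
    have e1 : (∑ i, al (a i) * b i) * j m = ∑ i, al (a i) * (b i * j m) := by
      rw [Finset.sum_mul]
      exact Finset.sum_congr rfl fun i _ => by ring
    rw [e1, lam_sum al J j lam spJ hlam _ _ (fun i => J.mul_mem_left _ (hj m))]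
    simp [hdel]
  refine ⟨fun r => ?_, fun a ha l => ?_⟩
  · choose ρ hρ using fun l => spJ (r * j l) (J.mul_mem_left _ (hj l))
    refine ⟨fun l' l => ρ l l', hρ, fun l' => hinj _ _ fun m => ?_⟩
    rw [hco]
    have e1 : r * b l' * j m = ∑ i, al (ρ m i) * (b l' * j i) := by
      rw [mul_right_comm, hρ m, Finset.sum_mul]
      exact Finset.sum_congr rfl fun i _ => by ring
    rw [e1, lam_sum al J j lam spJ hlam _ _ (fun i => J.mul_mem_left _ (hj i))]
    simp [hdel]
  · have h1 := hco a l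
    have h2 := hco 0 l
    rw [ha] at h1
    simp only [Pi.zero_apply, map_zero, zero_mul, Finset.sum_const_zero] at h1 h2
    rw [← h1, h2]

end Abstract

variable {k F : Type} [Field k] [Field F] [Algebra k F]

theorem weight_wt (d : Fin 3 →₀ ℕ) : Finsupp.weight wt d = d 0 + d 1 + 2 * d 2 := by
  rw [Finsupp.weight_apply, Finsupp.sum_fintype _ _ (by simp)]
  simp [Fin.sum_univ_three, wt, mul_comm]

theorem al_hom {c : Ctx k F} (σ : Str c) {P : P3 k} {n : ℕ}
    (hP : P.IsWeightedHomogeneous wt n) : σ.al P = monomial n (σ.al0 P) := by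
  classical
  conv_lhs => rw [P.as_sum]
  conv_rhs => rw [P.as_sum]
  simp only [map_sum]
  refine Finset.sum_congr rfl fun d hd => ?_
  have hw : Finsupp.weight wt d = n := hP (MvPolynomial.mem_support_iff.mp hd)
  rw [weight_wt] at hw
  simp only [Str.al, Str.al0, MvPolynomial.aeval_monomial]
  rw [Finsupp.prod_fintype _ _ (by simp), Finsupp.prod_fintype _ _ (by simp)]
  simp only [Fin.prod_univ_three, Matrix.cons_val_zero, Matrix.cons_val_one, Matrix.cons_val_two,
    Matrix.head_cons, Matrix.tail_cons, one_pow, one_mul, monomial_pow, Polynomial.algebraMap_apply]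
  rw [← monomial_one_right_eq_X_pow, ← monomial_zero_left, monomial_mul_monomial,
    monomial_mul_monomial, monomial_mul_monomial, ← hw]
  congr 1
  · congr 1; ring
  · ring

theorem hom_zero {P : P3 k} (hP : P.IsWeightedHomogeneous wt 0) :
    P = MvPolynomial.C (MvPolynomial.constantCoeff P) := by
  classical
  ext d
  rw [MvPolynomial.coeff_C]
  split_ifs with hd
  · subst hd; rfl
  · refine hP.coeff_eq_zero d fun hw => hd ?_
    rw [weight_wt] at hw
    ext i
    fin_cases i <;> simp <;> omega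

theorem hom_pos {P : P3 k} {n : ℕ} (hP : P.IsWeightedHomogeneous wt n) (hn : n ≠ 0) :
    MvPolynomial.constantCoeff P = 0 :=
  hP.coeff_eq_zero 0 (by simpa using hn.symm)

theorem span_mono {c : Ctx k F} {σ : Str c} {κ : ℤ} {d : Fin 6 → ℕ} {β : Fin 6 → F}
    (hB : IsBasis σ κ d β) (n : ℕ) (g : F) (hg : g ∈ c.M (2 * n - κ) n) :
    ∃ P : Fin 6 → P3 k, (∀ l, (P l).IsWeightedHomogeneous wt (n - d l)) ∧
      (∀ l, n < d l → P l = 0) ∧
      monomial n g = ∑ l, σ.al (P l) * monomial (d l) (β l) := by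
  obtain ⟨P, h1, h2, h3⟩ := hB.span n g hg
  refine ⟨P, h1, h2, ?_⟩
  rw [h3, map_sum]
  refine Finset.sum_congr rfl fun l _ => ?_
  by_cases hl : n < d l
  · simp [h2 l hl]
  · rw [al_hom σ (h1 l), monomial_mul_monomial, Nat.sub_add_cancel (not_lt.mp hl)]

theorem span_all {c : Ctx k F} {σ : Str c} {κ : ℤ} {d : Fin 6 → ℕ} {β : Fin 6 → F}
    (hB : IsBasis σ κ d β) (p : F[X]) (hp : p ∈ c.JJ κ) :
    ∃ P : Fin 6 → P3 k, p = ∑ l, σ.al (P l) * monomial (d l) (β l) := by
  choose Q _ _ hQ using fun n => span_mono hB n (p.coeff n) (hp n)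
  refine ⟨fun l => ∑ n ∈ p.support, Q n l, ?_⟩
  conv_lhs => rw [p.as_sum_support]
  simp only [map_sum, Finset.sum_mul]
  rw [Finset.sum_comm]
  exact Finset.sum_congr rfl fun n _ => hQ n

theorem const_al {c : Ctx k F} (σ : Str c) (P : P3 k) :
    (σ.al P).coeff 0 = algebraMap k F (MvPolynomial.constantCoeff P) := by
  induction P using MvPolynomial.induction_on with
  | C a => simp [Str.al, Polynomial.algebraMap_apply]
  | add p q hp hq => simp only [map_add, coeff_add, hp, hq]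
  | mul_X p i hp =>
    rw [map_mul, mul_coeff_zero, map_mul, MvPolynomial.constantCoeff_X, mul_zero, map_zero]
    have : (σ.al (MvPolynomial.X i)).coeff 0 = 0 := by
      fin_cases i <;> simp [Str.al, coeff_monomial]
    rw [this, mul_zero]

theorem det_hom (G : Matrix (Fin 6) (Fin 6) (P3 k))
    (h1 : ∀ i l, (G i l).IsWeightedHomogeneous wt (dR i + dJ l - 4))
    (h2 : ∀ i l, dR i + dJ l < 4 → G i l = 0) : G.det.IsWeightedHomogeneous wt 0 := by
  rw [Matrix.det_apply']
  refine MvPolynomial.IsWeightedHomogeneous.sum _ _ _ fun τ _ => ?_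
  by_cases h : ∃ i, dR (τ i) + dJ i < 4
  · obtain ⟨i, hi⟩ := h
    rw [Finset.prod_eq_zero (f := fun i => G (τ i) i) (Finset.mem_univ i) (h2 _ _ hi), mul_zero]
    exact MvPolynomial.isWeightedHomogeneous_zero _ _ _
  · push Not at h
    have h3 := MvPolynomial.IsWeightedHomogeneous.prod Finset.univ (fun i => G (τ i) i)
      (fun i => dR (τ i) + dJ i - 4) (w := wt) (fun i _ => h1 _ _)
    have h4 : ∑ i, (dR (τ i) + dJ i - 4) = 0 := by
      have e1 : ∑ i, (dR (τ i) + dJ i - 4) + ∑ _i : Fin 6, 4 = ∑ i, (dR (τ i) + dJ i) := by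
        rw [← Finset.sum_add_distrib]
        exact Finset.sum_congr rfl fun i _ => Nat.sub_add_cancel (h i)
      rw [Finset.sum_add_distrib, Equiv.sum_comp τ dR] at e1
      have e2 : ∑ i, dR i = 11 := by decide
      have e3 : ∑ i, dJ i = 13 := by decide
      have e4 : ∑ _i : Fin 6, 4 = 24 := by decide
      omega
    rw [h4] at h3
    have h5 : (((Equiv.Perm.sign τ : ℤ) : P3 k)).IsWeightedHomogeneous wt 0 := by
      have := MvPolynomial.isWeightedHomogeneous_C (σ := Fin 3) wt ((Equiv.Perm.sign τ : ℤ) : k)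
      simpa using this
    simpa using h5.mul h3

end DualAux

open DualAux in
theorem dualS : S_Dual := by
  intro k F _ _ _ c h σ β β' al hc hσ hβ0 hB hB' hal
  classical
  have hJR : ∀ p, p ∈ c.JJ 1 → p ∈ RR h := fun p hp n =>
    h.mono _ _ _ _ (by omega) le_rfl (hp n)
  let J : Ideal (RR h) :=
    { carrier := {r | (r : F[X]) ∈ c.JJ 1}
      add_mem' := fun h₁ h₂ => (c.JJ 1).add_mem h₁ h₂
      zero_mem' := (c.JJ 1).zero_mem
      smul_mem' := fun r x hx => by
        have := h.JJ_mul r.2 hx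
        rw [zero_add] at this
        exact this }
  have hJ : ∀ r : RR h, r ∈ J ↔ (r : F[X]) ∈ c.JJ 1 := fun _ => Iff.rfl
  let bb : Fin 6 → RR h := fun l => ⟨monomial (dR l) (β l), GeoFacts.monomial_mem (hB.mem l)⟩
  let j : Fin 6 → RR h := fun l =>
    ⟨monomial (dJ l) (β' l), hJR _ (GeoFacts.monomial_mem (hB'.mem l))⟩
  have hj : ∀ l, j l ∈ J := fun l => GeoFacts.monomial_mem (hB'.mem l)
  have valR : ∀ a : Fin 6 → P3 k, ((∑ l, al (a l) * bb l : RR h) : F[X]) =
      ∑ l, σ.al (a l) * monomial (dR l) (β l) := by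
    intro a
    rw [AddSubmonoidClass.coe_finsetSum]
    exact Finset.sum_congr rfl fun l _ => by rw [MulMemClass.coe_mul, hal]
  have valJ : ∀ a : Fin 6 → P3 k, ((∑ l, al (a l) * j l : RR h) : F[X]) =
      ∑ l, σ.al (a l) * monomial (dJ l) (β' l) := by
    intro a
    rw [AddSubmonoidClass.coe_finsetSum]
    exact Finset.sum_congr rfl fun l _ => by rw [MulMemClass.coe_mul, hal]
  have spR : ∀ r : RR h, ∃ a : Fin 6 → P3 k, r = ∑ l, (al : P3 k →+* RR h) (a l) * bb l := by
    intro r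
    obtain ⟨a, ha⟩ := span_all hB r r.2
    exact ⟨a, Subtype.ext (ha.trans (valR a).symm)⟩
  have spJ : ∀ r ∈ J, ∃ a : Fin 6 → P3 k, r = ∑ l, (al : P3 k →+* RR h) (a l) * j l := by
    intro r hr
    obtain ⟨a, ha⟩ := span_all hB' r hr
    exact ⟨a, Subtype.ext (ha.trans (valJ a).symm)⟩
  have inR : ∀ a : Fin 6 → P3 k, ∑ l, (al : P3 k →+* RR h) (a l) * bb l = 0 → ∀ l, a l = 0 :=
    fun a ha => hB.indep a ((valR a).symm.trans (congrArg Subtype.val ha))
  have inJ : ∀ a : Fin 6 → P3 k, ∑ l, (al : P3 k →+* RR h) (a l) * j l = 0 → ∀ l, a l = 0 :=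
    fun a ha => hB'.indep a ((valJ a).symm.trans (congrArg Subtype.val ha))
  obtain ⟨lam, hlam⟩ := exists_lam (al : P3 k →+* RR h) j inJ
  have hdet := det_ne (al : P3 k →+* RR h) J bb j lam hj spR inR spJ hlam
  set G : Matrix (Fin 6) (Fin 6) (P3 k) := Matrix.of fun i l => lam (bb i * j l) with hG
  have hGh : ∀ i l, (G i l).IsWeightedHomogeneous wt (dR i + dJ l - 4) ∧
      (dR i + dJ l < 4 → G i l = 0) := by
    intro i l
    have hm := h.mul_mem _ _ _ _ _ (hB.mem i) _ (hB'.mem l)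
    have e1 : (2 * (dR i : ℤ) - 0) + (2 * (dJ l : ℤ) - 1) = 2 * ((dR i + dJ l : ℕ) : ℤ) - 1 := by
      push_cast; ring
    rw [e1] at hm
    obtain ⟨a, h1, h2, h3⟩ := span_mono hB' _ _ hm
    have e2 : bb i * j l = ∑ m, (al : P3 k →+* RR h) (a m) * j m := by
      refine Subtype.ext (Eq.trans ?_ (h3.trans (valJ a).symm))
      exact monomial_mul_monomial _ _ _ _
    have e3 : G i l = a 0 := by rw [hG, Matrix.of_apply, e2, hlam]
    rw [e3]
    exact ⟨h1 0, h2 0⟩
  have hunit : IsUnit G.det := by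
    have h0 := hom_zero (det_hom G (fun i l => (hGh i l).1) (fun i l => (hGh i l).2))
    have h1 : MvPolynomial.constantCoeff G.det ≠ 0 := fun h1 => hdet (by rw [h0, h1, map_zero])
    rw [h0]
    exact (isUnit_iff_ne_zero.mpr h1).map _
  have hHG := Matrix.nonsing_inv_mul G hunit
  have hGH := Matrix.mul_nonsing_inv G hunit
  let b : Fin 6 → RR h := fun l => ∑ i, (al : P3 k →+* RR h) (G⁻¹ l i) * bb i
  obtain ⟨hcas, hind⟩ := dual (al : P3 k →+* RR h) J bb j lam hj spR spJ hlam G⁻¹ hHG hGH b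
    (fun _ => rfl)
  have hG00 : G 0 0 = 1 := by
    have e2 : bb 0 * j 0 =
        ∑ m, (al : P3 k →+* RR h) ((Pi.single 0 1 : Fin 6 → P3 k) m) * j m := by
      have : bb 0 = 1 := Subtype.ext (by
        change monomial (dR 0) (β 0) = 1
        rw [hβ0]; rfl)
      rw [this, Finset.sum_eq_single 0]
      · simp
      · intro l _ hl; simp [Pi.single_eq_of_ne hl]
      · simp
    rw [hG, Matrix.of_apply, e2, hlam, Pi.single_eq_same]
  have hdR : ∀ i : Fin 6, i ≠ 0 → dR i ≠ 0 := by decide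
  have hH0 : ∀ l, MvPolynomial.constantCoeff (G⁻¹ l 0) = if l = 0 then 1 else 0 := by
    intro l
    have h1 := congrArg MvPolynomial.constantCoeff (congrFun (congrFun hHG l) 0)
    rw [Matrix.mul_apply, map_sum, Finset.sum_eq_single 0, hG00, mul_one, Matrix.one_apply] at h1
    · rw [h1]; split_ifs <;> simp
    · intro i _ hi
      have h2 := (hGh i 0).1
      have e4 : dR i + dJ 0 - 4 = dR i := by
        change dR i + 4 - 4 = dR i
        omega
      rw [e4] at h2
      rw [map_mul, hom_pos h2 (hdR i hi), mul_zero]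
    · simp
  have hb0 : ∀ l, b l ∈ mm h ↔ l ≠ 0 := by
    intro l
    have e1 : b l ∈ mm h ↔ ((b l : RR h) : F[X]).coeff 0 = 0 := Iff.rfl
    have e2 : ((b l : RR h) : F[X]).coeff 0 =
        algebraMap k F (MvPolynomial.constantCoeff (G⁻¹ l 0)) := by
      have := valR (fun i => G⁻¹ l i)
      change ((b l : RR h) : F[X]) = _ at this
      rw [this, finsetSum_coeff, Finset.sum_eq_single 0, mul_coeff_zero, const_al, hβ0]
      · change _ * (monomial 0 (1 : F)).coeff 0 = _
        simp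
      · intro i _ hi
        rw [mul_coeff_zero, coeff_monomial, if_neg (hdR i hi), mul_zero]
      · simp
    rw [e1, e2, hH0]
    split_ifs with hl <;> simp [hl]
  refine ⟨j, b, hj, hcas, hind, fun h0 => (hb0 0).mp h0 rfl, fun l hl => (hb0 l).mpr hl, ?_, ?_⟩
  · refine spJ _ ((hJ _).mpr ?_)
    rw [hal]
    have e1 : σ.al (MvPolynomial.X 0) = monomial 1 (1 : F) := by
      simp [Str.al, monomial_one_one_eq_X]
    rw [e1]
    exact GeoFacts.monomial_mem (h.mono _ _ _ _ (by norm_num) (by norm_num) h.one_mem)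
  · have hm : σ.h ∈ c.M (2 * (4 : ℕ) - 1) 4 :=
      h.mono _ _ _ _ (by norm_num) (by norm_num) hσ.hh
    obtain ⟨a, h1, _, h3⟩ := span_mono hB' _ _ hm
    refine ⟨a, (valJ a).trans h3.symm, fun l hl => hom_pos (h1 l) ?_⟩
    revert l
    decide

end

end Pool.Agent.P.MP_3a4479_al.AP
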