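import Pool.Agent.P.MP_3a4479_al.AP.Defs

set_option autoImplicit false

namespace Pool.Agent.P.MP_3a4479_al.AP

open Polynomial

noncomputable section

namespace Fib1Aux

variable {k F : Type} [Field k] [Field F] [Algebra k F]

theorem int_mono {D L : Type} [CommRing D] [Algebra k D] [CommRing L] [Algebra D L]
    {A B : Subalgebra k D} (hAB : A ≤ B) {z : L} (hz : IsIntegral A z) : IsIntegral B z := by
  obtain ⟨p, hp, hz⟩ := hz
  refine ⟨p.map (Subalgebra.inclusion hAB).toRingHom, hp.map _, ?_⟩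
  rw [eval₂_map]
  exact hz

theorem int_alg {D L : Type} [CommRing D] [Algebra k D] [CommRing L] [Algebra D L]
    {A : Subalgebra k D} {p : D} (hp : p ∈ A) : IsIntegral A (algebraMap D L p) :=
  isIntegral_algebraMap (R := A) (A := L) (x := ⟨p, hp⟩)

theorem int_congr {A L : Type} [CommRing A] [CommRing L] [Algebra A L] {z z' : L}
    (hz : IsIntegral A z) (e : z' = z) : IsIntegral A z' := e ▸ hz

theorem JJ_anti {c : Ctx k F} (h : GeoFacts c) {q q' : ℤ} (hq : q ≤ q') {p : F[X]}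
    (hp : p ∈ c.JJ q') : p ∈ c.JJ q := fun n =>
  h.mono _ _ _ _ (by omega) le_rfl (hp n)

theorem JJ_pow {c : Ctx k F} (h : GeoFacts c) {p : F[X]} (hp : p ∈ c.JJ 1) (m : ℕ) :
    p ^ m ∈ c.JJ m := by
  induction m with
  | zero => simpa using (mem_RR h 1).1 (RR h).one_mem
  | succ m ih =>
    have := h.JJ_mul ih hp
    rw [pow_succ]
    exact_mod_cast this

theorem JJ_mulR {c : Ctx k F} (h : GeoFacts c) {q : ℤ} {r p : F[X]} (hr : r ∈ RR h)
    (hp : p ∈ c.JJ q) : r * p ∈ c.JJ q := by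
  have := h.JJ_mul ((mem_RR h r).1 hr) hp
  rwa [zero_add] at this

theorem e_ne {c : Ctx k F} (h : GeoFacts c) (j : Fin 9) : c.e j ≠ 0 :=
  mul_ne_zero (h.a_ne j) (h.b_ne j)

theorem mu_eq {c : Ctx k F} (h : GeoFacts c) (m q : ℕ) (j : Fin 9) :
    c.mu (2 * m - q) m j = c.mu 2 1 j ^ m * (c.e j)⁻¹ ^ q := by
  have he := e_ne h j
  unfold Ctx.mu
  rw [zpow_sub₀ he, zpow_mul, zpow_natCast, zpow_natCast, pow_one, mul_pow, inv_pow]
  field_simp

theorem mu42 {c : Ctx k F} (h : GeoFacts c) (j : Fin 9) : c.mu 4 2 j = c.mu 2 1 j ^ 2 := by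
  have := mu_eq h 2 0 j
  simpa using this

theorem mono_eq {c : Ctx k F} (h : GeoFacts c) (t : F) (j : Fin 9) :
    (monomial 2 t : F[X]) = C (t * c.mu 4 2 j) * tau c j ^ 2 := by
  have := h.mu_ne 2 1 j
  rw [tau, monomial_pow, C_mul_monomial, mu42 h]
  congr 1
  field_simp

theorem chart_mem {c : Ctx k F} (h : GeoFacts c) (t : F) (j : Fin 9) {M q : ℕ} {p : F[X]}
    (hp : monomial 2 t ^ M * p ∈ c.JJ q) :
    C (t * c.mu 4 2 j) ^ M * p * C (c.e j)⁻¹ ^ q ∈ AA c j := by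
  intro n
  have h1 := hp (n + 2 * M) j
  rw [monomial_pow, ← C_mul_X_pow_eq_monomial, mul_assoc, coeff_C_mul, coeff_X_pow_mul,
    mu_eq h] at h1
  rw [← C_pow, ← C_pow, coeff_mul_C, coeff_C_mul, mu42 h]
  convert h1 using 1
  ring

theorem exists_split (r : F[X]) (D : ℕ) : ∃ lo hi : F[X], r = lo + X ^ D * hi ∧
    ∀ n, lo.coeff n = if n < D then r.coeff n else 0 := by
  set lo : F[X] := ∑ n ∈ Finset.range D, monomial n (r.coeff n) with hlo
  have hc : ∀ n, lo.coeff n = if n < D then r.coeff n else 0 := by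
    intro n
    simp only [hlo, finsetSum_coeff, coeff_monomial, Finset.sum_ite_eq', Finset.mem_range]
  have : X ^ D ∣ r - lo := X_pow_dvd_iff.2 fun d hd => by
    rw [coeff_sub, hc, if_pos hd, sub_self]
  obtain ⟨hi, hhi⟩ := this
  exact ⟨lo, hi, by rw [← hhi]; ring, hc⟩

theorem s_ne {c : Ctx k F} (h : GeoFacts c) {σ : Str c} (hσ : σ.Good) : σ.s ≠ 0 := by
  intro h0
  obtain ⟨p, hp, e⟩ := hσ.rs
  rw [h0, zero_mul] at e
  have := h.uniq_b 0 (X + C c.lm⁻¹) (-p) ((c.A 0).neg_mem hp) (by linear_combination -e)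
  exact X_add_C_ne_zero _ this

theorem f_ne {c : Ctx k F} (h : GeoFacts c) {σ : Str c} (hσ : σ.Good) : σ.f ≠ 0 := by
  intro h0
  obtain ⟨p, hp, e⟩ := hσ.rf
  rw [h0, zero_mul] at e
  have := h.uniq_b 0 X (-p) ((c.A 0).neg_mem hp) (by linear_combination -e)
  exact X_ne_zero this

theorem s2_mem {c : Ctx k F} (h : GeoFacts c) {σ : Str c} (hσ : σ.Good) : σ.s ^ 2 ∈ c.M 4 2 := by
  have := h.mul_mem _ _ _ _ _ hσ.hs _ hσ.hs
  rw [pow_two]
  exact this

/-- removing the low part of an element of the section ring -/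
theorem approx {c : Ctx k F} (h : GeoFacts c) {t : F} (ht : t ∈ c.M 4 2) (ht0 : t ≠ 0)
    {r : F[X]} (hr : r ∈ RR h) (D Q : ℕ)
    (hlow : ∀ n, n < 2 * D → r.coeff n ∈ c.M (2 * n - Q) n) :
    ∃ b ∈ BB h ht, r - monomial 2 t ^ D * b ∈ c.JJ Q := by
  obtain ⟨lo, hi, e, hlo⟩ := exists_split r (2 * D)
  have h1 : lo ∈ c.JJ Q := by
    intro n
    rw [hlo]
    split_ifs with hn
    · exact hlow n hn
    · exact Submodule.zero_mem _
  have h2 : monomial 2 t ^ D * (C (t ^ D)⁻¹ * hi) = r - lo := by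
    rw [monomial_pow, ← C_mul_X_pow_eq_monomial, e]
    have : (C (t ^ D) : F[X]) * C (t ^ D)⁻¹ = 1 := by
      rw [← C_mul, mul_inv_cancel₀ (pow_ne_zero _ ht0), C_1]
    linear_combination X ^ (2 * D) * hi * this
  refine ⟨C (t ^ D)⁻¹ * hi, ⟨D, ?_⟩, ?_⟩
  · rw [h2]
    exact (RR h).sub_mem hr ((mem_RR h lo).2 (JJ_anti h (by omega) h1))
  · rw [h2, sub_sub_cancel]
    exact h1

section

variable {K : Type} [Field K] [Algebra F[X] K]

/-- localised sections vanishing to order `q` -/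
def JL {c : Ctx k F} (h : GeoFacts c) {t : F} (ht : t ∈ c.M 4 2) (K : Type) [Field K]
    [Algebra F[X] K] (q : ℕ) : Submodule (BB h ht) K where
  carrier := {z | ∃ M : ℕ, ∃ p ∈ c.JJ q,
    algebraMap F[X] K (monomial 2 t) ^ M * z = algebraMap F[X] K p}
  add_mem' := by
    rintro z z' ⟨M, p, hp, e⟩ ⟨M', p', hp', e'⟩
    have h0 := monomial_mem_RR h ht
    refine ⟨M + M', monomial 2 t ^ M' * p + monomial 2 t ^ M * p',
      Submodule.add_mem _ (JJ_mulR h ((RR h).pow_mem h0 M') hp)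
        (JJ_mulR h ((RR h).pow_mem h0 M) hp'), ?_⟩
    rw [map_add, map_mul, map_mul, map_pow, map_pow, ← e, ← e']
    ring
  zero_mem' := ⟨0, 0, Submodule.zero_mem _, by simp⟩
  smul_mem' := by
    rintro ⟨b, M', hb⟩ z ⟨M, p, hp, e⟩
    refine ⟨M + M', monomial 2 t ^ M' * b * p, JJ_mulR h hb hp, ?_⟩
    rw [map_mul, map_mul, map_pow, ← e, Algebra.smul_def]
    change _ * (algebraMap F[X] K b * z) = _
    ring

theorem mem_JL {c : Ctx k F} (h : GeoFacts c) {t : F} (ht : t ∈ c.M 4 2) (q : ℕ) (z : K) :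
    z ∈ JL h ht K q ↔ ∃ M : ℕ, ∃ p ∈ c.JJ q,
      algebraMap F[X] K (monomial 2 t) ^ M * z = algebraMap F[X] K p := Iff.rfl

end

theorem RR_le_BB {c : Ctx k F} (h : GeoFacts c) {t : F} (ht : t ∈ c.M 4 2) :
    RR h ≤ BB h ht := fun p hp => ⟨0, by simpa using hp⟩

variable {K L : Type} [Field K] [Algebra F[X] K] [IsFractionRing F[X] K] [Field L] [Algebra K L]
  [Algebra F[X] L] [IsScalarTower F[X] K L]

/-- from the cone to the charts -/
theorem to_chart (hCl : S_Clear) {c : Ctx k F} (h : GeoFacts c) {t : F} (ht : t ∈ c.M 4 2)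
    (hB : BFacts h ht) (x : BB h ht) (hx : (x : F[X]) = monomial 2 t) {N μ M : ℕ} {Y z : L}
    (h1 : IsIntegral (BB h ht) (algebraMap (BB h ht) L x ^ N * z))
    (h2 : algebraMap (BB h ht) L x ^ M * (Y - z) ∈
      (jjI h ht ^ μ) • Subalgebra.toSubmodule (integralClosure (BB h ht) L))
    (j : Fin 9) (xj τj ej : AA c j) (hxj : (xj : F[X]) = C (t * c.mu 4 2 j))
    (hτj : (τj : F[X]) = tau c j) (hej : (ej : F[X]) = C (c.e j)) :
    Near (AA c j) xj τj ej (2 * N) μ Y := by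
  have hcl : ∀ w : L, IsIntegral (BB h ht) w →
      ∃ m : ℕ, IsIntegral (AA c j) (algebraMap F[X] L xj ^ m * w) := by
    refine hCl k F[X] L (AA c j) (BB h ht) xj xj.2 ?_
    rintro p ⟨m, hm⟩
    refine ⟨m, ?_⟩
    have := chart_mem h t j (q := 0) (by simpa using (mem_RR h _).1 hm)
    rw [hxj]
    simpa using this
  have hxx : algebraMap (BB h ht) L x
      = algebraMap F[X] L xj * algebraMap F[X] L τj ^ 2 := by
    change algebraMap F[X] L x = _
    rw [hx, mono_eq h t j, hxj, hτj, map_mul, map_pow]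
  have hei : algebraMap F[X] L (C (c.e j)⁻¹) = (algebraMap F[X] L ej)⁻¹ := by
    refine eq_inv_of_mul_eq_one_left ?_
    rw [hej, ← map_mul, ← C_mul, inv_mul_cancel₀ (e_ne h j), C_1, map_one]
  have ix : IsIntegral (AA c j) (algebraMap F[X] L xj) := int_alg xj.2
  have iτ : IsIntegral (AA c j) (algebraMap F[X] L τj) := int_alg τj.2
  have key : ∀ W ∈ (jjI h ht ^ μ) • Subalgebra.toSubmodule (integralClosure (BB h ht) L),
      ∃ m : ℕ, IsIntegral (AA c j)
        (algebraMap F[X] L xj ^ m * W / algebraMap F[X] L ej ^ μ) := by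
    intro W hW
    induction hW using Submodule.smul_induction_on' with
    | smul p hp w hw =>
      obtain ⟨a, ha⟩ := hB.up μ p hp
      obtain ⟨b, hb⟩ := hcl w hw
      have h3 : IsIntegral (AA c j) (algebraMap F[X] L _) := int_alg (chart_mem h t j ha)
      refine ⟨a + b, ?_⟩
      refine int_congr (h3.mul hb) ?_
      rw [map_mul, map_mul, map_pow, map_pow, hei, ← hxj, Algebra.smul_def]
      change _ * (algebraMap F[X] L p * w) / _ = _
      rw [div_eq_mul_inv, ← inv_pow]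
      ring
    | add W _ W' _ ih ih' =>
      obtain ⟨a, ha⟩ := ih
      obtain ⟨b, hb⟩ := ih'
      refine ⟨a + b, ?_⟩
      refine int_congr (((ix.pow b).mul ha).add ((ix.pow a).mul hb)) ?_
      ring
  obtain ⟨m1, hm1⟩ := hcl _ h1
  obtain ⟨m2, hm2⟩ := key _ h2
  rw [hxx] at hm1 hm2
  refine ⟨z, m1 + N + m2 + 2 * M, ?_, ?_⟩
  · refine int_congr ((ix.pow (m2 + 2 * M)).mul hm1) ?_
    change algebraMap F[X] L xj ^ _ * algebraMap F[X] L τj ^ _ * _ = _
    ring
  · refine int_congr (((ix.pow (m1 + N + M)).mul (iτ.pow (m1 + N + m2))).mul hm2) ?_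
    change algebraMap F[X] L xj ^ _ * algebraMap F[X] L τj ^ _ * _ / algebraMap F[X] L ej ^ _ = _
    ring

theorem nearAll_of (hUL : S_UL) (hCl : S_Clear) {c : Ctx k F} (hp1 : 1 < c.p) (h : GeoFacts c) {t : F}
    (ht : t ∈ c.M 4 2) (hB : BFacts h ht) {n m : ℕ} (Ψ : L →ₗ[K] (Fin n → K))
    (Θ : Matrix (Fin m) (Fin n) (RR h)) (T : Subalgebra (RR h) L) (hinj : Function.Injective Ψ)
    (hker : ∀ u : Fin n → K, (Θ.map (algebraMap (RR h) K)).mulVec u = 0 ↔ u ∈ LinearMap.range Ψ)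
    (hT : ∀ z, z ∈ T ↔ ∀ i, Ψ z i ∈ (algebraMap (RR h) K).range)
    (hTi : ∀ z ∈ T, IsIntegral (RR h) z) (y : L)
    (hy : ∀ (E : ℕ) (i : Fin n), ∃ b : BB h ht,
      Ψ (y ^ c.p ^ E) i - algebraMap (BB h ht) K b ∈ JL h ht K (c.p ^ E)) :
    NearAll c t y := by
  have := hB.noeth
  have hφ : Function.Injective (algebraMap F[X] K) := IsFractionRing.injective _ _
  set x : BB h ht := ⟨monomial 2 t, RR_le_BB h ht (monomial_mem_RR h ht)⟩ with hx
  have hxK : algebraMap (BB h ht) K x = algebraMap F[X] K (monomial 2 t) := rfl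
  refine (hUL (BB h ht) K L (hφ.comp Subtype.val_injective) x (jjI h ht) (JL h ht K)
    n m Ψ (Θ.map (Subalgebra.inclusion (RR_le_BB h ht))) hinj hker ?_ ?_ ?_ ?_ ?_).elim
    fun N hN => ⟨2 * N, fun μ => ?_⟩
  · intro z hz
    choose b hb using hz
    choose M hM using fun i => (b i).2
    refine ⟨∑ i, M i, int_mono (RR_le_BB h ht) (hTi _ ((hT _).2 fun i => ?_))⟩
    obtain ⟨d, hd⟩ : ∃ d, ∑ i, M i = d + M i :=
      ⟨_, (Finset.sum_erase_add _ _ (Finset.mem_univ i)).symm⟩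
    refine ⟨⟨_, (RR h).mul_mem ((RR h).pow_mem (monomial_mem_RR h ht) d) (hM i)⟩, ?_⟩
    have e1 : algebraMap (BB h ht) L x ^ (∑ i, M i) * z
        = (algebraMap F[X] K (monomial 2 t) ^ (∑ i, M i)) • z := by
      rw [Algebra.smul_def, map_pow, ← IsScalarTower.algebraMap_apply]
      rfl
    rw [e1, map_smul, Pi.smul_apply, ← hb i, hd, smul_eq_mul]
    change algebraMap F[X] K (_ * (_ * (b i : F[X]))) = _ * algebraMap F[X] K (b i)
    rw [map_mul, map_mul, map_pow, map_pow]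
    ring
  · rintro q q' hq z ⟨M, p, hp, e⟩
    exact ⟨M, p, JJ_anti h (by exact_mod_cast hq) hp, e⟩
  · rintro q z ⟨M, p, hp, e⟩
    exact ⟨M, ⟨p, RR_le_BB h ht ((mem_RR h p).2 (JJ_anti h (by omega) hp))⟩, e.symm⟩
  · intro q b hb
    obtain ⟨M, hM⟩ := hB.up q b hb
    exact ⟨M, _, hM, by rw [map_mul, map_pow]; rfl⟩
  · rintro q b ⟨M, p, hp, e⟩
    refine hB.down q b ⟨M, ?_⟩
    have e' : monomial 2 t ^ M * (b : F[X]) = p := hφ (by rw [map_mul, map_pow]; exact e)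
    rw [e']
    exact_mod_cast hp
  · obtain ⟨q₀, hq₀⟩ := hN μ
    refine ⟨q₀, fun E hE j xj τj ej hxj hτj hej => ?_⟩
    obtain ⟨z, M, h1, h2⟩ := hq₀ (c.p ^ E) (hE.trans (Nat.lt_pow_self hp1).le) _ (hy E)
    exact to_chart hCl h ht hB x rfl h1 h2 j xj τj ej hxj hτj hej

omit [IsFractionRing F[X] K] in
theorem psi_mul {n : ℕ} (Ψ : L →ₗ[K] (Fin n → K)) (p : F[X]) (z : L) (i : Fin n) :
    Ψ (algebraMap F[X] L p * z) i = algebraMap F[X] K p * Ψ z i := by
  rw [IsScalarTower.algebraMap_apply F[X] K L, ← Algebra.smul_def, map_smul, Pi.smul_apply,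
    smul_eq_mul]

omit [IsFractionRing F[X] K] in
theorem hy_of {c : Ctx k F} (h : GeoFacts c) {t : F} (ht : t ∈ c.M 4 2) (ht0 : t ≠ 0) {n : ℕ}
    (Ψ : L →ₗ[K] (Fin n → K)) (Y : L) (i : Fin n) (D Q : ℕ) {r : F[X]} (hr : r ∈ RR h)
    (e : algebraMap F[X] K r = Ψ (algebraMap F[X] L (monomial 2 t ^ D) * Y) i)
    (hlow : ∀ n, n < 2 * D → r.coeff n ∈ c.M (2 * n - Q) n) :
    ∃ b : BB h ht, Ψ Y i - algebraMap (BB h ht) K b ∈ JL h ht K Q := by
  obtain ⟨b, hb, hb'⟩ := approx h ht ht0 hr D Q hlow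
  refine ⟨⟨b, hb⟩, D, _, hb', ?_⟩
  rw [map_sub, e, psi_mul, map_mul, map_pow]
  change _ * (_ - algebraMap F[X] K b) = _
  ring

end Fib1Aux

open Fib1Aux

theorem fib1 : S_Fib1 := by
  intro k F K L _ _ _ _ _ _ _ _ _ _ _ c h σ al q M n ys yf j t hHull hUL hCl hc hσ hR hJ hB _ hrel
  classical
  have hφ : Function.Injective (algebraMap F[X] K) := IsFractionRing.injective _ _
  have hφR : Function.Injective (algebraMap (RR h) K) := hφ.comp Subtype.val_injective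
  have := hR.ft
  have : IsNoetherianRing (RR h) := Algebra.FiniteType.isNoetherianRing k (RR h)
  have : FaithfulSMul (RR h) K := (faithfulSMul_iff_algebraMap_injective _ _).2 hφR
  have : IsFractionRing (RR h) K := IsFractionRing.of_field _ _ fun z => by
    obtain ⟨a, b, hb, rfl⟩ := IsFractionRing.div_surjective (A := F[X]) z
    obtain ⟨r1, h1, h1'⟩ := hR.frac a
    obtain ⟨r2, h2, h2'⟩ := hR.frac b
    refine ⟨r2 * ⟨_, h1'⟩, r1 * ⟨_, h2'⟩, ?_⟩
    have n1 : algebraMap F[X] K r1 ≠ 0 := fun e => h1 (hφR (by rw [map_zero]; exact e))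
    have n2 : algebraMap F[X] K r2 ≠ 0 := fun e => h2 (hφR (by rw [map_zero]; exact e))
    change _ = algebraMap F[X] K (r2 * (r1 * a)) / algebraMap F[X] K (r1 * (r2 * b))
    simp only [map_mul]
    field_simp
  have := hc.char
  have hpr := hc.prime
  have : CharP L c.p := by
    have i1 : CharP F c.p := charP_of_injective_algebraMap (algebraMap k F).injective c.p
    have i2 : CharP F[X] c.p := inferInstance
    have i3 : CharP K c.p := charP_of_injective_algebraMap hφ c.p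
    exact charP_of_injective_algebraMap (algebraMap K L).injective c.p
  set xs : F[X] := monomial 2 (σ.s ^ 2) with hxs
  set xf : F[X] := monomial 2 σ.f with hxf
  obtain ⟨n', m, Ψ, Θ, T, hinj, hker, hS, hT, hTi⟩ := hHull (RR h) K L
    (insert (algebraMap F[X] L xs ^ M * ys) (insert (algebraMap F[X] L xf ^ M * yf)
      (Finset.univ.image t))) (by
      intro z hz
      simp only [Finset.mem_insert, Finset.mem_image, Finset.mem_univ, true_and] at hz
      rcases hz with rfl | rfl | ⟨i, rfl⟩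
      · exact hrel.sint
      · exact hrel.fint
      · exact hrel.tint i)
  have main : ∀ (E : ℕ) (i : Fin n'), ∃ rs ∈ RR h, ∃ rf ∈ RR h,
      algebraMap F[X] K rs = Ψ (algebraMap F[X] L (xs ^ (M * c.p ^ E)) * ys ^ c.p ^ E) i ∧
      algebraMap F[X] K rf = Ψ (algebraMap F[X] L (xf ^ (M * c.p ^ E)) * yf ^ c.p ^ E) i ∧
      ∀ d, d < 2 * (M * c.p ^ E) → rs.coeff d ∈ c.M (2 * d - (c.p ^ E : ℕ)) d ∧
        rf.coeff d ∈ c.M (2 * d - (c.p ^ E : ℕ)) d := by
    intro E i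
    set Q := c.p ^ E with hQ
    obtain ⟨rs, hrs⟩ := (hT _).1 (T.pow_mem (hS (algebraMap F[X] L xs ^ M * ys) (by simp)) Q) i
    obtain ⟨rf, hrf⟩ := (hT _).1 (T.pow_mem (hS (algebraMap F[X] L xf ^ M * yf) (by simp)) Q) i
    obtain ⟨ρ, hρ⟩ := (hT _).1 T.one_mem i
    choose τ hτ using fun l => (hT _).1 (T.pow_mem (hS (t l) (by simp)) Q) i
    rw [mul_pow, ← pow_mul, ← map_pow] at hrs hrf
    have hrs' : algebraMap F[X] K rs
        = Ψ (algebraMap F[X] L (xs ^ (M * Q)) * ys ^ Q) i := hrs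
    have hrf' : algebraMap F[X] K rf
        = Ψ (algebraMap F[X] L (xf ^ (M * Q)) * yf ^ Q) i := hrf
    have hρ' : algebraMap F[X] K ρ = Ψ 1 i := hρ
    have hτ' : ∀ l, algebraMap F[X] K (τ l) = Ψ (t l ^ Q) i := hτ
    refine ⟨rs, rs.2, rf, rf.2, hrs', hrf', fun d hd => ?_⟩
    have r1 := congrArg (fun w => w ^ c.p ^ E) hrel.rel
    simp only [mul_pow, add_pow_char_pow, sub_pow_char_pow, sum_pow_char_pow] at r1
    rw [← hQ, ← hxs, ← hxf] at r1
    have r2 : algebraMap F[X] L ((xs * xf) ^ (M * Q) * C (σ.eta ^ q) ^ Q) * 1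
        - algebraMap F[X] L (xs ^ (M * Q)) * (algebraMap F[X] L (xf ^ (M * Q)) * yf ^ Q)
        + algebraMap F[X] L (xf ^ (M * Q)) * (algebraMap F[X] L (xs ^ (M * Q)) * ys ^ Q)
        = ∑ l, algebraMap F[X] L (j l ^ Q) * t l ^ Q := by
      simp only [map_pow, map_mul]
      rw [← r1]
      simp only [map_pow, map_mul]
      ring
    have r3 := congrArg (fun w => Ψ w i) r2
    simp only [map_add, map_sub, map_sum, Pi.add_apply, Pi.sub_apply, Finset.sum_apply] at r3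
    rw [psi_mul, psi_mul Ψ (xs ^ (M * Q)), psi_mul Ψ (xf ^ (M * Q)) (_ * ys ^ Q), ← hrs',
      ← hrf', ← hρ'] at r3
    simp only [psi_mul, ← hτ'] at r3
    have r4 : (xs * xf) ^ (M * Q) * C (σ.eta ^ q) ^ Q * ρ - xs ^ (M * Q) * rf
        + xf ^ (M * Q) * rs = ∑ l, j l ^ Q * τ l := by
      apply hφ
      rw [map_sum]
      simp only [map_add, map_sub, map_mul] at r3 ⊢
      exact r3
    have r5 : ∑ l, j l ^ Q * (τ l : F[X]) ∈ c.JJ Q := by
      refine Submodule.sum_mem _ fun l _ => ?_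
      rw [mul_comm]
      exact JJ_mulR h (τ l).2 (JJ_pow h (hrel.jmem l) Q)
    have r6 := r5 (d + 2 * (M * Q))
    have c1 : ((xs * xf) ^ (M * Q) * C (σ.eta ^ q) ^ Q * (ρ : F[X])).coeff (d + 2 * (M * Q))
        = 0 := by
      have : X ^ (4 * (M * Q)) ∣ (xs * xf) ^ (M * Q) * C (σ.eta ^ q) ^ Q * (ρ : F[X]) := by
        refine Dvd.dvd.mul_right (Dvd.dvd.mul_right ?_ _) _
        rw [pow_mul X 4]
        refine pow_dvd_pow_of_dvd ?_ _
        rw [hxs, hxf, monomial_mul_monomial, ← C_mul_X_pow_eq_monomial]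
        exact Dvd.intro_left _ rfl
      exact X_pow_dvd_iff.1 this _ (by omega)
    have c2 : ∀ (u : F) (r : F[X]), (monomial 2 u ^ (M * Q) * r).coeff (d + 2 * (M * Q))
        = u ^ (M * Q) * r.coeff d := by
      intro u r
      rw [monomial_pow, ← C_mul_X_pow_eq_monomial, mul_assoc, coeff_C_mul, coeff_X_pow_mul]
    rw [← r4, coeff_add, coeff_sub, c1, hxs, hxf, c2, c2] at r6
    refine hJ.zneg d (M * Q) Q _ _ hd (by simpa using (mem_RR h _).1 rs.2 d)
      (by simpa using (mem_RR h _).1 rf.2 d) ?_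
    have r7 := Submodule.neg_mem _ r6
    convert r7 using 1
    rw [← pow_mul]
    ring
  constructor
  · refine nearAll_of hUL hCl hpr.out.one_lt h (s2_mem h hσ) (hB _ _ (Or.inl rfl)) Ψ Θ T hinj hker hT hTi ys
      fun E i => ?_
    obtain ⟨rs, hrs, rf, hrf, e1, e2, e3⟩ := main E i
    exact hy_of h _ (pow_ne_zero 2 (s_ne h hσ)) Ψ _ i _ _ hrs e1 fun d hd => (e3 d hd).1
  · refine nearAll_of hUL hCl hpr.out.one_lt h hσ.hf (hB _ _ (Or.inr rfl)) Ψ Θ T hinj hker hT hTi yf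
      fun E i => ?_
    obtain ⟨rs, hrs, rf, hrf, e1, e2, e3⟩ := main E i
    exact hy_of h _ (f_ne h hσ) Ψ _ i _ _ hrf e2 fun d hd => (e3 d hd).2

end

end Pool.Agent.P.MP_3a4479_al.AP
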