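import Pool.Agent.P.MP_3a4479_al.AP.Defs

set_option autoImplicit false

namespace Pool.Agent.P.MP_3a4479_al.AP

open Polynomial
open scoped NNReal

noncomputable section

namespace Fib2Aux

variable {k F : Type} [Field k] [Field F] [Algebra k F] {c : Ctx k F}

/-! ### Elements of a chart ring that do not vanish along the boundary curve -/

def Gd (c : Ctx k F) (j : Fin 9) (U : F) : Prop := U ∈ c.A j ∧ ∀ p ∈ c.A j, U ≠ c.b j * p

theorem Gd.ne_zero {j : Fin 9} {U : F} (hU : Gd c j U) : U ≠ 0 := by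
  intro h0
  exact hU.2 0 (zero_mem _) (by rw [h0, mul_zero])

theorem gd_of (h : GeoFacts c) {j : Fin 9} {U p : F} {P : k[X]} (hU : U ∈ c.A j)
    (hp : p ∈ c.A j) (hP : P ≠ 0) (he : U = aeval (c.a j) P + c.b j * p) : Gd c j U := by
  refine ⟨hU, fun p' hp' h' => hP (h.uniq_b j P (p' - p) (sub_mem hp' hp) ?_)⟩
  rw [mul_sub, ← h', he]
  ring

theorem gd_one (h : GeoFacts c) (j : Fin 9) : Gd c j 1 :=
  gd_of h (P := 1) (one_mem _) (zero_mem _) one_ne_zero (by simp)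

theorem Gd.mul (h : GeoFacts c) {j : Fin 9} {U V : F} (hU : Gd c j U) (hV : Gd c j V) :
    Gd c j (U * V) := by
  refine ⟨mul_mem hU.1 hV.1, fun p hp he => ?_⟩
  rcases h.prime_b j U hU.1 V hV.1 p hp he with ⟨r, hr, h1⟩ | ⟨r, hr, h1⟩
  · exact hU.2 r hr h1
  · exact hV.2 r hr h1

theorem Gd.pow (h : GeoFacts c) {j : Fin 9} {U : F} (hU : Gd c j U) (n : ℕ) :
    Gd c j (U ^ n) := by
  induction n with
  | zero => simpa using gd_one h j
  | succ n ih => rw [pow_succ]; exact ih.mul h hU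

theorem gd_a (h : GeoFacts c) (j : Fin 9) : Gd c j (c.a j) :=
  gd_of h (P := X) (h.a_mem j) (zero_mem _) X_ne_zero (by simp)

theorem gd_u (h : GeoFacts c) (i : Fin 9) : Gd c (i + 1) (c.u i) := by
  obtain ⟨p, hp, he⟩ := h.u_right i
  refine gd_of h (P := C (c.cu i)) ?_ hp (C_ne_zero.2 (h.cu_ne i)) (by rw [aeval_C]; exact he)
  rw [he]
  exact add_mem (Subalgebra.algebraMap_mem _ _) (mul_mem (h.b_mem _) hp)

theorem gd_sj (h : GeoFacts c) (hr : ResFacts c) {σ : Str c} (hσ : σ.Good) (j : Fin 9) :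
    Gd c j (σ.sj j) := by
  by_cases hj : j = 0
  · subst hj
    obtain ⟨p, hp, he⟩ := hσ.rs
    exact gd_of h (hσ.hs 0) hp (X_add_C_ne_zero _) he
  · obtain ⟨γ, h1, h2, -⟩ := hr.prop 2 1 σ.s hσ.hs _ hσ.rs j
    obtain ⟨p, hp, he⟩ := h2 hj
    refine gd_of h (P := C γ) (hσ.hs j) hp (C_ne_zero.2 fun h0 => ?_) (by rw [aeval_C]; exact he)
    have := h1.1 h0
    simp only [coeff_add, coeff_X_zero, coeff_C_zero, zero_add, inv_eq_zero] at this
    exact h.lm_ne this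

theorem gd_fj (h : GeoFacts c) {σ : Str c} (hσ : σ.Good) : Gd c 0 (σ.fj 0) := by
  obtain ⟨p, hp, he⟩ := hσ.rf
  exact gd_of h (hσ.hf 0) hp X_ne_zero he

theorem mu42 (h : GeoFacts c) (j : Fin 9) : c.mu 4 2 j = c.mu 2 1 j ^ 2 := by
  have := h.mu_mul 2 1 2 1 j
  rw [sq, ← this]
  norm_num

theorem mu63 (h : GeoFacts c) (j : Fin 9) : c.mu 6 3 j = c.mu 2 1 j * c.mu 4 2 j := by
  have := h.mu_mul 2 1 4 2 j
  rw [← this]
  norm_num

theorem e_ne (h : GeoFacts c) (j : Fin 9) : c.e j ≠ 0 := mul_ne_zero (h.a_ne j) (h.b_ne j)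

theorem mu_pow (h : GeoFacts c) (q : ℤ) (n : ℕ) (j : Fin 9) :
    c.mu (2 * n - q) n j * c.e j ^ q = c.mu 2 1 j ^ n := by
  unfold Ctx.mu
  rw [mul_right_comm, ← zpow_add₀ (e_ne h j), sub_add_cancel, pow_one, mul_pow, zpow_mul,
    zpow_natCast]

/-! ### The overlap of two consecutive charts -/

def Ov (h : GeoFacts c) (i : Fin 9) : Subring F where
  carrier := {g | ∃ m : ℕ, (c.a (i + 1) * c.u i) ^ m * g ∈ c.A (i + 1)}
  mul_mem' := by
    rintro g g' ⟨m, hm⟩ ⟨m', hm'⟩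
    refine ⟨m + m', ?_⟩
    have := mul_mem hm hm'
    convert this using 1
    ring
  one_mem' := ⟨0, by simp⟩
  add_mem' := by
    rintro g g' ⟨m, hm⟩ ⟨m', hm'⟩
    refine ⟨m + m', ?_⟩
    have h0 : c.a (i + 1) * c.u i ∈ c.A (i + 1) := mul_mem (h.a_mem _) (gd_u h i).1
    have := add_mem (mul_mem (pow_mem h0 m') hm) (mul_mem (pow_mem h0 m) hm')
    convert this using 1
    ring
  zero_mem' := ⟨0, by simp⟩
  neg_mem' := by
    rintro g ⟨m, hm⟩
    exact ⟨m, by rw [mul_neg]; exact neg_mem hm⟩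

theorem ov_right (h : GeoFacts c) {i : Fin 9} {g : F} (hg : g ∈ c.A (i + 1)) : g ∈ Ov h i :=
  ⟨0, by simpa using hg⟩

theorem ov_left (h : GeoFacts c) {i : Fin 9} {g : F} (hg : g ∈ c.A i) : g ∈ Ov h i :=
  h.loc_right i g hg

theorem ov_uz (h : GeoFacts c) (i : Fin 9) (s : ℤ) : c.u i ^ s ∈ Ov h i := by
  have h1 : c.u i ∈ Ov h i := ov_right h (gd_u h i).1
  have h2 : (c.u i)⁻¹ ∈ Ov h i :=
    ⟨1, by rw [pow_one, mul_assoc, mul_inv_cancel₀ (h.u_ne i), mul_one]; exact h.a_mem _⟩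
  obtain ⟨n, rfl | rfl⟩ := Int.eq_nat_or_neg s
  · rw [zpow_natCast]; exact pow_mem h1 n
  · rw [zpow_neg, zpow_natCast, ← inv_pow]; exact pow_mem h2 n

theorem ov_ainv (h : GeoFacts c) (i : Fin 9) : (c.a (i + 1))⁻¹ ∈ Ov h i :=
  ⟨1, by
    rw [pow_one, mul_right_comm, mul_inv_cancel₀ (h.a_ne _), one_mul]; exact (gd_u h i).1⟩

theorem ov_mu (h : GeoFacts c) (i : Fin 9) :
    ∃ r : F, r ≠ 0 ∧ r ∈ Ov h i ∧ r⁻¹ ∈ Ov h i ∧ c.mu 2 1 (i + 1) = c.mu 2 1 i * r := by
  have key : ∃ r : F, r ≠ 0 ∧ r ∈ Ov h i ∧ r⁻¹ ∈ Ov h i ∧ c.ph 0 (i + 1) = c.ph 0 i * r := by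
    by_cases hi : i = 8
    · subst hi
      exact ⟨c.a (8 + 1), h.a_ne _, ov_right h (h.a_mem _), ov_ainv h 8, h.tph8⟩
    · obtain ⟨t, ht⟩ := h.tph i hi
      exact ⟨c.u i ^ t, zpow_ne_zero _ (h.u_ne i), ov_uz h i t,
        by rw [← zpow_neg]; exact ov_uz h i _, ht⟩
  obtain ⟨r, h0, h1, h2, h3⟩ := key
  refine ⟨(c.u i ^ ue i) ^ 2 * r, mul_ne_zero (pow_ne_zero _ (zpow_ne_zero _ (h.u_ne i))) h0,
    mul_mem (pow_mem (ov_uz h i _) 2) h1, ?_, ?_⟩
  · rw [mul_inv, ← inv_pow, ← zpow_neg]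
    exact mul_mem (pow_mem (ov_uz h i _) 2) h2
  · unfold Ctx.mu
    rw [h.te i, h3, zpow_ofNat, zpow_ofNat]
    ring

theorem aa_clear (h : GeoFacts c) (hA : AAFacts c) (i : Fin 9) (p : F[X]) (hp : p ∈ AA c i) :
    ∃ M : ℕ, (C (c.a (i + 1) * c.u i)) ^ M * p ∈ AA c (i + 1) := by
  have h0 : C (c.a (i + 1) * c.u i) ∈ AA c (i + 1) :=
    hA.C_mem _ _ (mul_mem (h.a_mem _) (gd_u h i).1)
  obtain ⟨r, -, h1, -, h3⟩ := ov_mu h i
  rw [p.as_sum_support]
  refine Finset.sum_induction _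
    (fun p => ∃ M : ℕ, (C (c.a (i + 1) * c.u i)) ^ M * p ∈ AA c (i + 1)) ?_ ⟨0, by simp⟩ ?_
  · rintro g g' ⟨m, hm⟩ ⟨m', hm'⟩
    refine ⟨m + m', ?_⟩
    have := add_mem (mul_mem (pow_mem h0 m') hm) (mul_mem (pow_mem h0 m) hm')
    convert this using 1
    ring
  · intro n _
    obtain ⟨m, hm⟩ := mul_mem (ov_left h (hp n)) (pow_mem h1 n)
    refine ⟨m, fun n' => ?_⟩
    rw [← C_pow, coeff_C_mul, coeff_monomial]
    split_ifs with hn
    · subst hn
      convert hm using 1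
      rw [h3]
      ring
    · simp

theorem rr_le (h : GeoFacts c) (j : Fin 9) : RR h ≤ AA c j := by
  intro p hp n
  have h1 := hp n j
  have h2 := mu_pow h 0 n j
  rw [zpow_zero, mul_one] at h2
  rwa [h2] at h1

theorem jj_div (h : GeoFacts c) (j : Fin 9) {p : F[X]} (hp : p ∈ c.JJ 1) :
    C (c.e j)⁻¹ * p ∈ AA c j := by
  intro n
  have h1 := hp n j
  have h2 := mu_pow h 1 n j
  rw [zpow_one] at h2
  rw [coeff_C_mul, ← h2]
  convert h1 using 1
  have := e_ne h j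
  field_simp

theorem mono2 (h : GeoFacts c) (j : Fin 9) (t : F) :
    (monomial 2 t : F[X]) = C (t * c.mu 4 2 j) * tau c j ^ 2 := by
  unfold tau
  rw [monomial_pow, C_mul_monomial, mu42 h]
  have := h.mu_ne 2 1 j
  congr 1
  field_simp

theorem tau_ne (h : GeoFacts c) (j : Fin 9) : tau c j ≠ 0 := by
  unfold tau
  rw [Ne, monomial_eq_zero_iff]
  exact inv_ne_zero (h.mu_ne 2 1 j)

/-! ### The local ring upstairs -/

variable {L : Type} [Field L] [Algebra F[X] L]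

def kap (F L : Type) [Field F] [Field L] [Algebra F[X] L] : F →+* L :=
  (algebraMap F[X] L).comp C

theorem int_congr {A : Type} [CommRing A] [Algebra A L] {z z' : L} (hz : IsIntegral A z)
    (he : z' = z) : IsIntegral A z' := he ▸ hz

theorem kap_apply (g : F) : kap F L g = algebraMap F[X] L (C g) := rfl

theorem int_aa {j : Fin 9} {p : F[X]} (hp : p ∈ AA c j) :
    IsIntegral (AA c j) (algebraMap F[X] L p) :=
  isIntegral_algebraMap (R := AA c j) (A := L) (x := ⟨p, hp⟩)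

theorem int_kap (hA : AAFacts c) {j : Fin 9} {g : F} (hg : g ∈ c.A j) :
    IsIntegral (AA c j) (kap F L g) :=
  int_aa (hA.C_mem j g hg)

def Lam (L : Type) [Field L] [Algebra F[X] L] (h : GeoFacts c) (hA : AAFacts c) (j : Fin 9) :
    Subring L where
  carrier := {z | ∃ U, Gd c j U ∧ IsIntegral (AA c j) (kap F L U * z)}
  mul_mem' := by
    rintro z z' ⟨U, hU, hz⟩ ⟨U', hU', hz'⟩
    refine ⟨U * U', hU.mul h hU', ?_⟩
    refine int_congr (hz.mul hz') ?_
    rw [map_mul]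
    ring
  one_mem' := ⟨1, gd_one h j, by simpa using isIntegral_one⟩
  add_mem' := by
    rintro z z' ⟨U, hU, hz⟩ ⟨U', hU', hz'⟩
    refine ⟨U * U', hU.mul h hU', ?_⟩
    refine int_congr (((int_kap hA hU'.1).mul hz).add ((int_kap hA hU.1).mul hz')) ?_
    rw [map_mul]
    ring
  zero_mem' := ⟨1, gd_one h j, by simpa using isIntegral_zero⟩
  neg_mem' := by
    rintro z ⟨U, hU, hz⟩
    exact ⟨U, hU, by rw [mul_neg]; exact hz.neg⟩

section

variable (h : GeoFacts c) (hA : AAFacts c)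

theorem lam_int {j : Fin 9} {z : L} (hz : IsIntegral (AA c j) z) : z ∈ Lam L h hA j :=
  ⟨1, gd_one h j, by simpa using hz⟩

theorem lam_kap {j : Fin 9} {g : F} (hg : g ∈ c.A j) : kap F L g ∈ Lam L h hA j :=
  lam_int h hA (int_kap hA hg)

theorem lam_inv {j : Fin 9} {U : F} (hU : Gd c j U) : (kap F L U)⁻¹ ∈ Lam L h hA j :=
  ⟨U, hU, by
    rw [mul_inv_cancel₀ ((_root_.map_ne_zero _).2 hU.ne_zero)]; exact isIntegral_one⟩

theorem lam_tau (j : Fin 9) : algebraMap F[X] L (tau c j) ∈ Lam L h hA j :=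
  lam_int h hA (int_aa (hA.tau_mem j))

theorem lam_cancel {j : Fin 9} {U : F} (hU : Gd c j U) {z : L}
    (hz : kap F L U * z ∈ Lam L h hA j) : z ∈ Lam L h hA j := by
  have := mul_mem (lam_inv h hA hU) hz
  rwa [← mul_assoc, inv_mul_cancel₀ ((_root_.map_ne_zero _).2 hU.ne_zero), one_mul] at this

theorem lam_ov {i : Fin 9} {g : F} (hg : g ∈ Ov h i) : kap F L g ∈ Lam L h hA (i + 1) := by
  obtain ⟨m, hm⟩ := hg
  refine lam_cancel h hA (((gd_a h _).mul h (gd_u h i)).pow h m) ?_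
  rw [← map_mul]
  exact lam_kap h hA hm

theorem lam_left (hC : S_Clear) {i : Fin 9} {z : L} (hz : IsIntegral (AA c i) z) :
    z ∈ Lam L h hA (i + 1) := by
  obtain ⟨M, hM⟩ := hC k F[X] L (AA c (i + 1)) (AA c i) (C (c.a (i + 1) * c.u i))
    (hA.C_mem _ _ (mul_mem (h.a_mem _) (gd_u h i).1)) (aa_clear h hA i) z hz
  refine lam_cancel h hA (((gd_a h _).mul h (gd_u h i)).pow h M) ?_
  rw [map_pow]
  exact lam_int h hA hM

/-- vanishing along the boundary curve of chart `j`, away from the zero section -/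
def Sm (j : Fin 9) (z : L) : Prop :=
  ∃ M : ℕ, algebraMap F[X] L (tau c j) ^ M * (z / kap F L (c.b j)) ∈ Lam L h hA j

variable {h hA}

theorem Sm.add {j : Fin 9} {z z' : L} (hz : Sm h hA j z) (hz' : Sm h hA j z') :
    Sm h hA j (z + z') := by
  obtain ⟨m, hm⟩ := hz
  obtain ⟨m', hm'⟩ := hz'
  refine ⟨m + m', ?_⟩
  have := add_mem (mul_mem (pow_mem (lam_tau h hA j) m') hm)
    (mul_mem (pow_mem (lam_tau h hA j) m) hm')
  convert this using 1
  ring

theorem Sm.neg {j : Fin 9} {z : L} (hz : Sm h hA j z) : Sm h hA j (-z) := by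
  obtain ⟨m, hm⟩ := hz
  exact ⟨m, by rw [neg_div, mul_neg]; exact neg_mem hm⟩

theorem Sm.pow {j : Fin 9} {z : L} (hz : Sm h hA j z) (n : ℕ) : Sm h hA j (z ^ (n + 1)) := by
  obtain ⟨m, hm⟩ := hz
  refine ⟨m * (n + 1), ?_⟩
  have := mul_mem (pow_mem hm (n + 1)) (pow_mem (lam_kap (L := L) h hA (h.b_mem j)) n)
  convert this using 1
  have h0 : kap F L (c.b j) ≠ 0 := (_root_.map_ne_zero _).2 (h.b_ne j)
  rw [mul_pow, div_pow, ← pow_mul]
  field_simp
  ring

end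

/-- the output of the descent step in chart `j` -/
def Out (c : Ctx k F) (j : Fin 9) (t : F) (Y g : L) : Prop :=
  ∃ M : ℕ, IsIntegral (AA c j) (kap F L (t * c.mu 4 2 j) ^ M * g) ∧
    IsIntegral (AA c j) (kap F L (t * c.mu 4 2 j) ^ M * algebraMap F[X] L (tau c j) ^ M *
      (Y - g) / kap F L (c.e j))

theorem Out.same {h : GeoFacts c} {hA : AAFacts c} {j : Fin 9} {t : F} {Y g : L}
    (ho : Out c j t Y g) (ht : Gd c j (t * c.mu 4 2 j)) :
    g ∈ Lam L h hA j ∧ Sm h hA j (Y - g) := by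
  obtain ⟨M, h1, h2⟩ := ho
  constructor
  · refine lam_cancel h hA (ht.pow h M) ?_
    rw [map_pow]
    exact lam_int h hA h1
  · refine ⟨M, lam_cancel h hA (ht.pow h M) ?_⟩
    have := mul_mem (lam_kap h hA (h.a_mem j)) (lam_int h hA h2)
    convert this using 1
    have ha : kap F L (c.a j) ≠ 0 := (_root_.map_ne_zero _).2 (h.a_ne j)
    have hb : kap F L (c.b j) ≠ 0 := (_root_.map_ne_zero _).2 (h.b_ne j)
    unfold Ctx.e
    rw [map_pow, map_mul (kap F L) (c.a j)]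
    field_simp

theorem Out.next {h : GeoFacts c} {hA : AAFacts c} (hC : S_Clear) {i : Fin 9} {t : F} {Y g : L}
    (ho : Out c i t Y g) (ht : Gd c (i + 1) (t * c.mu 4 2 (i + 1))) :
    g ∈ Lam L h hA (i + 1) ∧ Sm h hA (i + 1) (Y - g) := by
  obtain ⟨M, h1, h2⟩ := ho
  obtain ⟨r, r0, r1, r2, r3⟩ := ov_mu h i
  have hx : t * c.mu 4 2 (i + 1) = r ^ 2 * (t * c.mu 4 2 i) := by
    rw [mu42 h, mu42 h, r3]
    ring
  have hr : kap F L r ≠ 0 := (_root_.map_ne_zero _).2 r0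
  constructor
  · refine lam_cancel h hA (ht.pow h M) ?_
    have := mul_mem (pow_mem (lam_ov (L := L) h hA r1) (2 * M)) (lam_left h hA hC h1)
    convert this using 1
    rw [hx, map_pow, map_mul, map_pow]
    ring
  · refine ⟨M, lam_cancel h hA (ht.pow h M) ?_⟩
    have h3 : tau c i = C r * tau c (i + 1) := by
      unfold tau
      rw [C_mul_monomial, r3]
      congr 1
      field_simp
    have h4 : c.e i = c.a (i + 1) * c.u i ^ (-ue i) * c.b (i + 1) := by
      have h5 : c.a (i + 1) * c.b (i + 1) = c.e i * c.u i ^ ue i := h.te i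
      rw [mul_right_comm, h5, mul_assoc, ← zpow_add₀ (h.u_ne i)]
      simp
    have h6 : c.a (i + 1) * c.u i ^ (-ue i) ∈ Ov h i :=
      mul_mem (ov_right h (h.a_mem _)) (ov_uz h i _)
    have h7 : kap F L (c.a (i + 1) * c.u i ^ (-ue i)) ≠ 0 :=
      (_root_.map_ne_zero _).2 (mul_ne_zero (h.a_ne _) (zpow_ne_zero _ (h.u_ne i)))
    have hb : kap F L (c.b (i + 1)) ≠ 0 := (_root_.map_ne_zero _).2 (h.b_ne _)
    have := mul_mem (mul_mem (pow_mem (lam_ov (L := L) h hA r1) M) (lam_ov h hA h6))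
      (lam_left h hA hC h2)
    convert this using 1
    rw [hx, h3, h4, map_mul (kap F L) _ (c.b (i + 1)), map_mul (algebraMap F[X] L), ← kap_apply,
      map_pow, map_mul (kap F L) (r ^ 2), map_pow]
    field_simp
    ring

section

variable {K : Type} [Field K] [Algebra F[X] K] [IsFractionRing F[X] K] [Algebra K L]
  [IsScalarTower F[X] K L]

theorem aa_frac (K : Type) [Field K] [Algebra F[X] K] [IsFractionRing F[X] K] (hA : AAFacts c)
    (j : Fin 9) : IsFractionRing (AA c j) K := by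
  have hinj : Function.Injective (algebraMap F[X] K) := IsFractionRing.injective _ _
  have _ : FaithfulSMul (AA c j) K :=
    (faithfulSMul_iff_algebraMap_injective _ _).2 (hinj.comp Subtype.val_injective)
  apply IsFractionRing.of_field
  intro z
  obtain ⟨P, Q, hQ, rfl⟩ := IsFractionRing.div_surjective (A := F[X]) z
  obtain ⟨r, hr, r0, hP⟩ := hA.frac j P
  obtain ⟨r', hr', r0', hQ'⟩ := hA.frac j Q
  refine ⟨⟨r' * (r * P), mul_mem hr' hP⟩, ⟨r * (r' * Q), mul_mem hr hQ'⟩, ?_⟩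
  show _ = algebraMap F[X] K (r' * (r * P)) / algebraMap F[X] K (r * (r' * Q))
  have h1 : algebraMap F[X] K r ≠ 0 := (map_ne_zero_iff _ hinj).2 r0
  have h2 : algebraMap F[X] K r' ≠ 0 := (map_ne_zero_iff _ hinj).2 r0'
  have h3 : algebraMap F[X] K Q ≠ 0 := (map_ne_zero_iff _ hinj).2 (nonZeroDivisors.ne_zero hQ)
  simp only [map_mul]
  field_simp

theorem aa_reg (hA : AAFacts c) (j : Fin 9) {g : F} (hg : g ∈ c.A j) (h0 : g ≠ 0) (i : ℕ)
    (r r' : AA c j)
    (he : (⟨C g, hA.C_mem j g hg⟩ : AA c j) ^ i * r = ⟨tau c j, hA.tau_mem j⟩ ^ i * r') :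
    ∃ r'', r' = (⟨C g, hA.C_mem j g hg⟩ : AA c j) ^ i * r'' := by
  obtain ⟨r'', h1, h2⟩ := hA.reg j g h0 i r r.2 r' r'.2 (congrArg Subtype.val he)
  exact ⟨⟨r'', h1⟩, Subtype.ext h2⟩

include K in
theorem small_up (hS : S_S2) {h : GeoFacts c} {hA : AAFacts c} {j : Fin 9} {z : L}
    (h1 : z ∈ Lam L h hA j) (h2 : Sm h hA j z) :
    ∃ U, Gd c j U ∧ IsIntegral (AA c j) (kap F L (U / c.b j) * z) := by
  obtain ⟨U, hU, hz⟩ := h1
  obtain ⟨M, U', hU', hz'⟩ := h2
  refine ⟨U * U', hU.mul h hU', ?_⟩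
  have _ := hA.normal j
  have _ := aa_frac K hA j
  have hb : kap F L (c.b j) ≠ 0 := (_root_.map_ne_zero _).2 (h.b_ne j)
  refine hS (AA c j) K L ⟨C (c.b j), hA.C_mem j _ (h.b_mem j)⟩ ⟨tau c j, hA.tau_mem j⟩
    (fun h0 => C_ne_zero.2 (h.b_ne j) (congrArg Subtype.val h0))
    (fun h0 => tau_ne h j (congrArg Subtype.val h0))
    (aa_reg hA j (h.b_mem j) (h.b_ne j)) _ 1 M ?_ ?_
  · refine int_congr ((int_kap hA hU'.1).mul hz) ?_
    show kap F L (c.b j) ^ 1 * _ = _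
    rw [map_div₀, map_mul]
    field_simp
  · refine int_congr ((int_kap hA hU.1).mul hz') ?_
    show algebraMap F[X] L (tau c j) ^ M * _ = _
    rw [map_div₀, map_mul]
    field_simp

include K in
theorem out_of_near [FiniteDimensional K L] [Algebra.IsSeparable K L] (hS : S_Step)
    (hc : c.Good) (h : GeoFacts c) (hA : AAFacts c) {t : F} (ht : t ∈ c.M 4 2) (t0 : t ≠ 0)
    {y : L} (hy : NearAll c t y) :
    ∃ E₁ : ℕ, ∀ E, E₁ ≤ E → ∀ j, ∃ g, Out c j t (y ^ c.p ^ E) g := by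
  obtain ⟨N, hN⟩ := hy
  have key : ∀ j, ∃ E₁ : ℕ, ∀ E, E₁ ≤ E → ∃ g, Out c j t (y ^ c.p ^ E) g := by
    intro j
    have _ := hc.algc
    have _ := hc.char
    have hpr := hc.prime
    have _ := hA.normal j
    have _ := hA.ft j
    have _ := aa_frac K hA j
    have _ : CharP (AA c j) c.p :=
      charP_of_injective_algebraMap (algebraMap k (AA c j)).injective c.p
    have he : c.e j ∈ c.A j := mul_mem (h.a_mem j) (h.b_mem j)
    obtain ⟨i, μ, hμ⟩ := hS c.p k (AA c j) K L ⟨C (t * c.mu 4 2 j), hA.C_mem j _ (ht j)⟩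
      ⟨tau c j, hA.tau_mem j⟩ ⟨C (c.e j), hA.C_mem j _ he⟩
      (fun h0 => C_ne_zero.2 (mul_ne_zero t0 (h.mu_ne 4 2 j)) (congrArg Subtype.val h0))
      (fun h0 => tau_ne h j (congrArg Subtype.val h0))
      (fun h0 => C_ne_zero.2 (e_ne h j) (congrArg Subtype.val h0))
      (aa_reg hA j he (e_ne h j)) N
    obtain ⟨E₀, hE⟩ := hN μ
    refine ⟨E₀, fun E hE₀ => ?_⟩
    obtain ⟨g, M, h1, h2⟩ := hμ μ le_rfl (y ^ c.p ^ E) (hE E hE₀ j _ _ _ rfl rfl rfl) (by
      rw [← pow_mul, ← pow_add]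
      exact hE (E + i) (by omega) j _ _ _ rfl rfl rfl)
    rw [pow_zero, mul_one] at h1
    rw [pow_one] at h2
    exact ⟨g, M, h1, h2⟩
  choose E₁ hE₁ using key
  exact ⟨Finset.univ.sup E₁, fun E hE j =>
    hE₁ j E ((Finset.le_sup (Finset.mem_univ j)).trans hE)⟩

end

/-! ### Specialisation to the zero section -/

theorem int_up {j : Fin 9} {z : L} (hz : IsIntegral (AA c j) z) : IsIntegral F[X] z :=
  hz.tower_top

theorem int_of_kap {g : F} (hg : g ≠ 0) {z : L} (hz : IsIntegral F[X] (kap F L g * z)) :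
    IsIntegral F[X] z := by
  have h1 : IsIntegral F[X] (kap F L g⁻¹) := isIntegral_algebraMap
  have := h1.mul hz
  rwa [← mul_assoc, ← map_mul, inv_mul_cancel₀ hg, map_one, one_mul] at this

theorem spec_int {E : Type} [Field E] [Algebra F E] (ρ : integralClosure F[X] L →+* E)
    (hρ : ∀ p : F[X], ρ (algebraMap F[X] (integralClosure F[X] L) p) = algebraMap F E (p.coeff 0))
    {j : Fin 9} (g : F) (z : integralClosure F[X] L)
    (hz : IsIntegral (AA c j) (kap F L g * (z : L))) :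
    IsIntegral (c.A j) (algebraMap F E g * ρ z) := by
  let φ : AA c j →+* c.A j :=
    (constantCoeff.comp (AA c j).val.toRingHom).codRestrict (c.A j) (fun p => by
      have := p.2 0
      rw [pow_zero, mul_one] at this
      exact this)
  have h1 : IsIntegral (AA c j) (algebraMap F[X] (integralClosure F[X] L) (C g) * z) := by
    obtain ⟨p, hm, hp⟩ := hz
    refine ⟨p, hm, Subtype.val_injective ?_⟩
    have := hom_eval₂ p (algebraMap (AA c j) (integralClosure F[X] L))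
      (integralClosure F[X] L).val.toRingHom (algebraMap F[X] (integralClosure F[X] L) (C g) * z)
    exact this.trans hp
  have h2 := IsIntegral.map_of_comp_eq φ ρ (T := c.A j) (by
    ext p
    exact (hρ p).symm) h1
  rwa [map_mul, hρ, coeff_C_zero] at h2

end Fib2Aux

open Fib2Aux

theorem fib2 : S_Fib2 := by
  intro k F K L E _ _ _ _ _ _ _ _ _ _ _ _ _ _ _ c h σ q M n ys yf j t hStep hS2 hC hSp hc hr hσ
    hA hrel hys hyf
  have _ := hc.char
  have hpr := hc.prime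
  have hinj : Function.Injective (algebraMap F[X] L) := by
    rw [IsScalarTower.algebraMap_eq F[X] K L]
    exact (algebraMap K L).injective.comp (IsFractionRing.injective _ _)
  have _ : CharP L c.p :=
    charP_of_injective_ringHom (f := (kap F L).comp (algebraMap k F)) (RingHom.injective _) c.p
  have hxs : ∀ i, σ.s ^ 2 * c.mu 4 2 i = σ.sj i ^ 2 := by
    intro i
    rw [mu42 h, Str.sj, mul_pow]
  have gs : ∀ i, Gd c i (σ.s ^ 2 * c.mu 4 2 i) := by
    intro i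
    rw [hxs]
    exact (gd_sj h hr hσ i).pow h 2
  have gf : Gd c 0 (σ.f * c.mu 4 2 0) := gd_fj h hσ
  have s0 : σ.s ^ 2 ≠ 0 := left_ne_zero_of_mul (gs 0).ne_zero
  have f0 : σ.f ≠ 0 := left_ne_zero_of_mul gf.ne_zero
  obtain ⟨E₁, hE₁⟩ := out_of_near (K := K) hStep hc h hA (fun i => (gs i).1) s0 hys
  obtain ⟨E₂, hE₂⟩ := out_of_near (K := K) hStep hc h hA hσ.hf f0 hyf
  choose g hg using hE₁ (max E₁ E₂) (le_max_left _ _)
  choose g' hg' using hE₂ (max E₁ E₂) (le_max_right _ _)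
  generalize max E₁ E₂ = e at hg hg'
  have ig : ∀ i, IsIntegral F[X] (g i) := by
    intro i
    obtain ⟨m, h1, -⟩ := hg i
    rw [← map_pow] at h1
    exact int_of_kap (pow_ne_zero _ (mul_ne_zero s0 (h.mu_ne _ _ _))) (int_up h1)
  have ig' : ∀ i, IsIntegral F[X] (g' i) := by
    intro i
    obtain ⟨m, h1, -⟩ := hg' i
    rw [← map_pow] at h1
    exact int_of_kap (pow_ne_zero _ (mul_ne_zero f0 (h.mu_ne _ _ _))) (int_up h1)
  obtain ⟨ρ, hρ⟩ := hSp F L E hinj
  have hsmall : ∀ (i : Fin 9) (z : integralClosure F[X] L), (z : L) ∈ Lam L h hA i →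
      Sm h hA i (z : L) → Small c i (ρ z) := by
    intro i z h1 h2
    obtain ⟨U, hU, hz⟩ := small_up (K := K) hS2 h1 h2
    exact ⟨U, hU.1, hU.2, spec_int ρ hρ _ z hz⟩
  let G : Fin 9 → integralClosure F[X] L := fun i => ⟨g i, ig i⟩
  let G' : Fin 9 → integralClosure F[X] L := fun i => ⟨g' i, ig' i⟩
  refine ⟨q * c.p ^ e, fun i => ρ (G i), fun i => ρ (G' i), ?_, ?_, ?_, ?_, ?_, ?_⟩
  · exact Nat.mul_pos hrel.qpos (pow_pos hpr.out.pos _)
  · intro i
    obtain ⟨m, h1, -⟩ := hg i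
    rw [← map_pow, hxs, ← pow_mul] at h1
    refine ⟨2 * m, ?_⟩
    rw [← map_pow]
    exact spec_int ρ hρ _ (G i) h1
  · intro i
    obtain ⟨m, h1, -⟩ := hg' i
    rw [← map_pow] at h1
    refine ⟨m, ?_⟩
    rw [← map_pow]
    exact spec_int ρ hρ _ (G' i) h1
  · intro i
    obtain ⟨a1, a2⟩ := (hg (i + 1)).same (h := h) (hA := hA) (gs _)
    obtain ⟨b1, b2⟩ := (hg i).next (h := h) (hA := hA) hC (gs _)
    rw [← map_sub]
    refine hsmall _ _ (sub_mem a1 b1) ?_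
    have := b2.add a2.neg
    convert this using 1
    show g (i + 1) - g i = _
    ring
  · obtain ⟨a1, a2⟩ := (hg' 0).same (h := h) (hA := hA) gf
    obtain ⟨b1, b2⟩ := (hg' 8).next (h := h) (hA := hA) hC gf
    rw [← map_sub]
    refine hsmall 0 _ (sub_mem a1 b1) ?_
    have := Sm.add (j := 0) b2 a2.neg
    convert this using 1
    show g' 0 - g' 8 = _
    ring
  · obtain ⟨a1, a2⟩ := (hg' 0).same (h := h) (hA := hA) gf
    obtain ⟨b1, b2⟩ := (hg 0).same (h := h) (hA := hA) (gs 0)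
    have h1 : algebraMap F E (σ.eta ^ (q * c.p ^ e)) =
        ρ (algebraMap F[X] (integralClosure F[X] L) (C (σ.eta ^ (q * c.p ^ e)))) := by
      rw [hρ, coeff_C_zero]
    rw [h1, ← map_sub, ← map_sub]
    have gsf : Gd c 0 (σ.sj 0 * σ.fj 0) := (gd_sj h hr hσ 0).mul h (gd_fj h hσ)
    have c1 : kap F L σ.eta ∈ Lam L h hA 0 := by
      refine lam_cancel h hA gsf ?_
      rw [← map_mul]
      refine lam_kap h hA ?_
      have h2 := hσ.hh 0
      convert h2 using 1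
      have h3 : σ.s ≠ 0 := fun h0 => s0 (by rw [h0]; ring)
      rw [mu63 h, Str.sj, Str.fj, Str.eta]
      field_simp
    have c2 : Sm h hA 0 (kap F L (σ.eta ^ q) - yf + ys) := by
      refine ⟨4 * M, lam_cancel h hA (((gs 0).mul h gf).pow h M) ?_⟩
      have h2 : kap F L (c.e 0)⁻¹ * ∑ i, algebraMap F[X] L (j i) * t i ∈ Lam L h hA 0 := by
        rw [Finset.mul_sum]
        refine sum_mem fun i _ => lam_int h hA ?_
        rw [← mul_assoc, kap_apply, ← map_mul]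
        refine (int_aa (jj_div h 0 (hrel.jmem i))).mul ?_
        exact IsIntegral.map_of_comp_eq (Subalgebra.inclusion (rr_le h 0)).toRingHom
          (RingHom.id L) (T := AA c 0) (by ext p; rfl) (hrel.tint i)
      have := mul_mem (lam_kap h hA (h.a_mem 0)) h2
      convert this using 1
      have ha : kap F L (c.a 0) ≠ 0 := (_root_.map_ne_zero _).2 (h.a_ne 0)
      have hb : kap F L (c.b 0) ≠ 0 := (_root_.map_ne_zero _).2 (h.b_ne 0)
      rw [← hrel.rel, mono2 h 0, mono2 h 0 σ.f, map_inv₀, Ctx.e, ← kap_apply]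
      simp only [map_mul, map_pow, ← kap_apply]
      field_simp
      ring
    refine hsmall 0 _ (sub_mem (sub_mem a1 b1) ?_) ?_
    · show kap F L (σ.eta ^ (q * c.p ^ e)) ∈ _
      rw [map_pow]
      exact pow_mem c1 _
    · have h2 : c.p ^ e = (c.p ^ e - 1) + 1 := by
        have : 0 < c.p ^ e := pow_pos hpr.out.pos _
        omega
      have h3 := c2.pow (c.p ^ e - 1)
      rw [← h2, add_pow_char_pow, sub_pow_char_pow, ← map_pow, ← pow_mul] at h3
      have := (b2.add a2.neg).add h3.neg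
      convert this using 1
      show g' 0 - g 0 - kap F L (σ.eta ^ (q * c.p ^ e)) = _
      ring

end

end Pool.Agent.P.MP_3a4479_al.AP
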