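import Pool.Agent.P.MP_3a4479_al.AP.Defs

set_option autoImplicit false

namespace Pool.Agent.P.MP_3a4479_al.AP

open Polynomial
open scoped NNReal

noncomputable section

namespace NoCurveAux

variable {k F : Type} [Field k] [Field F] [Algebra k F]

/-! ### divisibility in the polynomial ring -/

abbrev x0 (k : Type) [Field k] : P2 k := MvPolynomial.X 0
abbrev x1 (k : Type) [Field k] : P2 k := MvPolynomial.X 1
abbrev cc (r : k) : P2 k := MvPolynomial.C r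

lemma unit_eq {G : P2 k} (h : IsUnit G) : ∃ γ : k, γ ≠ 0 ∧ G = cc γ := by
  obtain ⟨r, hr, rfl⟩ := MvPolynomial.isUnit_iff_eq_C_of_isReduced.mp h
  exact ⟨r, hr.ne_zero, rfl⟩

lemma dvd_pow_prime {φ G : P2 k} (hφ : Prime φ ∨ φ = 1) {n : ℕ} (h : G ∣ φ ^ n) :
    ∃ γ : k, γ ≠ 0 ∧ ∃ i : ℕ, G = cc γ * φ ^ i := by
  rcases hφ with hφ | rfl
  · obtain ⟨i, -, hi⟩ := (dvd_prime_pow hφ n).mp h
    obtain ⟨u, hu⟩ := hi.symm
    obtain ⟨γ, hγ, e⟩ := unit_eq u.isUnit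
    exact ⟨γ, hγ, i, by rw [← hu, e, mul_comm]⟩
  · rw [one_pow] at h
    obtain ⟨γ, hγ, e⟩ := unit_eq (isUnit_of_dvd_one h)
    exact ⟨γ, hγ, 0, by rw [e, pow_zero, mul_one]⟩

lemma dvd_mon {φ G : P2 k} (hφ : Prime φ ∨ φ = 1) {α β o : ℕ}
    (h : G ∣ x0 k ^ α * x1 k ^ β * φ ^ o) :
    ∃ γ : k, γ ≠ 0 ∧ ∃ i l t : ℕ, G = cc γ * x0 k ^ i * x1 k ^ l * φ ^ t := by
  obtain ⟨G₀, G₃, h₀, h₃, rfl⟩ := exists_dvd_and_dvd_of_dvd_mul h
  obtain ⟨G₁, G₂, h₁, h₂, rfl⟩ := exists_dvd_and_dvd_of_dvd_mul h₀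
  obtain ⟨γ₁, n₁, i, rfl⟩ := dvd_pow_prime (Or.inl MvPolynomial.X_prime) h₁
  obtain ⟨γ₂, n₂, l, rfl⟩ := dvd_pow_prime (Or.inl MvPolynomial.X_prime) h₂
  obtain ⟨γ₃, n₃, t, rfl⟩ := dvd_pow_prime hφ h₃
  refine ⟨γ₁ * γ₂ * γ₃, mul_ne_zero (mul_ne_zero n₁ n₂) n₃, i, l, t, ?_⟩
  simp only [cc, map_mul]
  ring

lemma dvd_sub_subst (v : Fin 2 → P2 k) (d : P2 k)
    (hv : ∀ i, d ∣ MvPolynomial.X i - v i) (G : P2 k) :
    d ∣ G - MvPolynomial.aeval v G := by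
  induction G using MvPolynomial.induction_on with
  | C a => simp
  | add p q hp hq =>
    have : p + q - MvPolynomial.aeval v (p + q) =
        (p - MvPolynomial.aeval v p) + (q - MvPolynomial.aeval v q) := by
      rw [map_add]; ring
    rw [this]; exact dvd_add hp hq
  | mul_X p n hp =>
    have : p * MvPolynomial.X n - MvPolynomial.aeval v (p * MvPolynomial.X n) =
        (p - MvPolynomial.aeval v p) * MvPolynomial.X n +
          MvPolynomial.aeval v p * (MvPolynomial.X n - v n) := by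
      rw [map_mul, MvPolynomial.aeval_X]; ring
    rw [this]
    exact dvd_add (hp.mul_right _) ((hv n).mul_left _)

lemma dvd_one_add {G p : P2 k} (h : G ∣ 1 + x0 k * x1 k * p) :
    ∃ γ : k, γ ≠ 0 ∧ ∃ q : P2 k, G = cc γ * (1 + x0 k * x1 k * q) := by
  obtain ⟨G', hG⟩ := h
  have key : ∀ (v : Fin 2 → P2 k), v 0 * v 1 = 0 →
      ∃ γ : k, γ ≠ 0 ∧ MvPolynomial.aeval v G = cc γ := by
    intro v hv
    have := congrArg (MvPolynomial.aeval v) hG
    simp only [map_add, map_one, map_mul, MvPolynomial.aeval_X, hv, zero_mul, add_zero] at this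
    exact unit_eq (IsUnit.of_mul_eq_one _ this.symm)
  obtain ⟨γ, hγ, e⟩ := key ![0, x1 k] (by simp)
  obtain ⟨γ', -, e'⟩ := key ![x0 k, 0] (by simp)
  have d0 : x0 k ∣ G - cc γ := by
    rw [← e]
    refine dvd_sub_subst _ _ (fun i => ?_) G
    fin_cases i <;> simp
  have d1 : x1 k ∣ G - cc γ' := by
    rw [← e']
    refine dvd_sub_subst _ _ (fun i => ?_) G
    fin_cases i <;> simp
  obtain ⟨r, hr⟩ := d0
  obtain ⟨r', hr'⟩ := d1
  have hγγ : γ' = γ := by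
    have h1 := congrArg MvPolynomial.constantCoeff hr
    have h2 := congrArg MvPolynomial.constantCoeff hr'
    simp only [map_sub, map_mul, MvPolynomial.constantCoeff_C, MvPolynomial.constantCoeff_X,
      zero_mul] at h1 h2
    linear_combination h1 - h2
  subst hγγ
  have hd : x1 k ∣ x0 k * r := ⟨r', by rw [← hr, hr']⟩
  rcases (MvPolynomial.X_prime (R := k) (i := (1 : Fin 2))).dvd_or_dvd hd with hd | ⟨q, rfl⟩
  · exfalso
    obtain ⟨s, hs⟩ := hd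
    have := congrArg (MvPolynomial.eval ![(1 : k), 0]) hs
    simp at this
  · refine ⟨γ', hγ, cc γ'⁻¹ * q, ?_⟩
    have h1 : cc γ' * cc γ'⁻¹ = 1 := by
      rw [← map_mul, mul_inv_cancel₀ hγ, map_one]
    linear_combination hr - (x0 k * x1 k * q) * h1

lemma prime_a (r : k) : Prime (x0 k - cc r) := by
  have := MvPolynomial.irreducible_mul_X_add (1 : P2 k) (-cc r) 0 one_ne_zero (by simp)
    (by simp) isRelPrime_one_left
  rw [one_mul, ← sub_eq_add_neg] at this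
  exact this.prime

lemma prime_b {r : k} (hr : r ≠ 0) : Prime (1 - cc r * x1 k) := by
  have := MvPolynomial.irreducible_mul_X_add (-cc r : P2 k) 1 1 (by simpa using hr) (by simp)
    (by simp) isRelPrime_one_right
  have e : (1 - cc r * x1 k) = -cc r * MvPolynomial.X 1 + 1 := by ring
  rw [e]
  exact this.prime

lemma prime_c (r : k) : Prime (x1 k - cc r * x0 k) := by
  have := MvPolynomial.irreducible_mul_X_add (1 : P2 k) (-(cc r * x0 k)) 1 one_ne_zero (by simp)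
    (by
      intro h
      rw [MvPolynomial.vars_neg] at h
      have := MvPolynomial.vars_mul _ _ h
      simp at this) isRelPrime_one_left
  rw [one_mul, ← sub_eq_add_neg] at this
  exact this.prime

lemma not_dvd_c {r : k} (hr : r ≠ 0) (α β : ℕ) (p : P2 k) :
    ¬ (x1 k - cc r * x0 k) ∣ x0 k ^ α * x1 k ^ β * (1 + x0 k * x1 k * p) := by
  intro h
  have hp := prime_c r
  rcases hp.dvd_or_dvd h with h | ⟨s, hs⟩
  · rcases hp.dvd_or_dvd h with h | h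
    · obtain ⟨s, hs⟩ := hp.dvd_of_dvd_pow h
      have := congrArg (MvPolynomial.eval ![(1 : k), r]) hs
      simp at this
    · obtain ⟨s, hs⟩ := hp.dvd_of_dvd_pow h
      have := congrArg (MvPolynomial.eval ![(1 : k), r]) hs
      simp at this
      exact hr this
  · have := congrArg MvPolynomial.constantCoeff hs
    simp at this

/-! ### monomials in three elements -/

def Mon (k : Type) [Field k] [Algebra k F] (r s t f : F) : Prop :=
  ∃ γ : k, γ ≠ 0 ∧ ∃ α β o : ℤ, f = algebraMap k F γ * r ^ α * s ^ β * t ^ o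

section Mon

variable {r s t : F}

lemma Mon.const {γ : k} (hγ : γ ≠ 0) : Mon k r s t (algebraMap k F γ) :=
  ⟨γ, hγ, 0, 0, 0, by simp⟩

lemma Mon.one : Mon k r s t 1 := ⟨1, one_ne_zero, 0, 0, 0, by simp⟩

lemma Mon.fst : Mon k r s t r := ⟨1, one_ne_zero, 1, 0, 0, by simp⟩

lemma Mon.snd : Mon k r s t s := ⟨1, one_ne_zero, 0, 1, 0, by simp⟩

lemma Mon.thd : Mon k r s t t := ⟨1, one_ne_zero, 0, 0, 1, by simp⟩

lemma Mon.mul (hr : r ≠ 0) (hs : s ≠ 0) (ht : t ≠ 0) {f f' : F} (h : Mon k r s t f)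
    (h' : Mon k r s t f') : Mon k r s t (f * f') := by
  obtain ⟨γ, hγ, α, β, o, rfl⟩ := h
  obtain ⟨γ', hγ', α', β', o', rfl⟩ := h'
  refine ⟨γ * γ', mul_ne_zero hγ hγ', α + α', β + β', o + o', ?_⟩
  rw [map_mul, zpow_add₀ hr, zpow_add₀ hs, zpow_add₀ ht]
  ring

lemma Mon.zpow {f : F} (h : Mon k r s t f) (n : ℤ) : Mon k r s t (f ^ n) := by
  obtain ⟨γ, hγ, α, β, o, rfl⟩ := h
  refine ⟨γ ^ n, zpow_ne_zero _ hγ, α * n, β * n, o * n, ?_⟩
  rw [map_zpow₀, zpow_mul, zpow_mul, zpow_mul, mul_zpow, mul_zpow, mul_zpow]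

lemma Mon.pow {f : F} (h : Mon k r s t f) (n : ℕ) : Mon k r s t (f ^ n) := by
  simpa using h.zpow n

lemma Mon.inv {f : F} (h : Mon k r s t f) : Mon k r s t f⁻¹ := by
  simpa using h.zpow (-1)

lemma Mon.trans {r' s' t' : F} (hr : r' ≠ 0) (hs : s' ≠ 0) (ht : t' ≠ 0) {f : F}
    (h : Mon k r s t f) (h₁ : Mon k r' s' t' r) (h₂ : Mon k r' s' t' s)
    (h₃ : Mon k r' s' t' t) : Mon k r' s' t' f := by
  obtain ⟨γ, hγ, α, β, o, rfl⟩ := h
  exact Mon.mul hr hs ht (Mon.mul hr hs ht (Mon.mul hr hs ht (Mon.const hγ) (h₁.zpow α))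
    (h₂.zpow β)) (h₃.zpow o)

lemma zpow_clear (hr : r ≠ 0) (α : ℤ) (M : ℕ) (hM : -α ≤ M) :
    ∃ i : ℕ, r ^ M * r ^ α = r ^ i := by
  refine ⟨(M + α).toNat, ?_⟩
  rw [← zpow_natCast, ← zpow_natCast, ← zpow_add₀ hr, Int.toNat_of_nonneg (by omega)]

lemma Mon.nat (hr : r ≠ 0) (hs : s ≠ 0) (ht : t ≠ 0) {f : F} (h : Mon k r s t f) :
    ∃ γ : k, γ ≠ 0 ∧ ∃ M i l o : ℕ,
      (r * s * t) ^ M * f = algebraMap k F γ * r ^ i * s ^ l * t ^ o := by
  obtain ⟨γ, hγ, α, β, o, rfl⟩ := h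
  obtain ⟨i, hi⟩ := zpow_clear hr α (α.natAbs + β.natAbs + o.natAbs) (by omega)
  obtain ⟨l, hl⟩ := zpow_clear hs β (α.natAbs + β.natAbs + o.natAbs) (by omega)
  obtain ⟨m, hm⟩ := zpow_clear ht o (α.natAbs + β.natAbs + o.natAbs) (by omega)
  refine ⟨γ, hγ, α.natAbs + β.natAbs + o.natAbs, i, l, m, ?_⟩
  rw [← hi, ← hl, ← hm, mul_pow, mul_pow]
  ring

lemma Mon.clear (hr : r ≠ 0) (hs : s ≠ 0) (ht : t ≠ 0) {B : Subalgebra k F} (mr : r ∈ B)
    (ms : s ∈ B) (mt : t ∈ B) {f : F} (h : Mon k r s t f) :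
    ∃ M : ℕ, (r * s * t) ^ M * f ∈ B := by
  obtain ⟨γ, -, M, i, l, o, e⟩ := h.nat hr hs ht
  refine ⟨M, ?_⟩
  rw [e]
  exact B.mul_mem (B.mul_mem (B.mul_mem (B.algebraMap_mem γ) (B.pow_mem mr _))
    (B.pow_mem ms _)) (B.pow_mem mt _)

lemma mon_inverse (hr : r ≠ 0) (hs : s ≠ 0) (ht : t ≠ 0) {a b : F} {p q m p' q' m' : ℤ}
    (ha : a = r ^ p * s ^ q * t ^ m) (hb : b = r ^ p' * s ^ q' * t ^ m') (α β o : ℤ) :
    a ^ α * b ^ β * t ^ o =
      r ^ (p * α + p' * β) * s ^ (q * α + q' * β) * t ^ (m * α + m' * β + o) := by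
  rw [ha, hb]
  simp only [mul_zpow, zpow_add₀ hr, zpow_add₀ hs, zpow_add₀ ht, zpow_mul]
  ring

end Mon

lemma loc {B : Subalgebra k F} {w a b : F} (hw : w ∈ B) (ha : ∃ M : ℕ, w ^ M * a ∈ B)
    (hb : ∃ M : ℕ, w ^ M * b ∈ B) (P : P2 k) : ∃ M : ℕ, w ^ M * ev2 k a b P ∈ B := by
  induction P using MvPolynomial.induction_on with
  | C r => exact ⟨0, by simp [ev2]⟩
  | add p q hp hq =>
    obtain ⟨M, hM⟩ := hp
    obtain ⟨M', hM'⟩ := hq
    refine ⟨M + M', ?_⟩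
    have := B.add_mem (B.mul_mem (B.pow_mem hw M') hM) (B.mul_mem (B.pow_mem hw M) hM')
    rw [map_add, pow_add]
    convert this using 1
    ring
  | mul_X p n hp =>
    obtain ⟨M, hM⟩ := hp
    have : ∃ M : ℕ, w ^ M * ev2 k a b (MvPolynomial.X n) ∈ B := by
      fin_cases n
      · simpa [ev2] using ha
      · simpa [ev2] using hb
    obtain ⟨M', hM'⟩ := this
    refine ⟨M + M', ?_⟩
    have := B.mul_mem hM hM'
    rw [map_mul, pow_add]
    convert this using 1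
    ring

lemma ev2_x0 (a b : F) : ev2 k a b (x0 k) = a := by simp [ev2]
lemma ev2_x1 (a b : F) : ev2 k a b (x1 k) = b := by simp [ev2]
lemma ev2_cc (a b : F) (r : k) : ev2 k a b (cc r) = algebraMap k F r := by simp [ev2]

/-! ### principal units of a valuation -/

def One (ν : Valuation F ℝ≥0) (t : F) : Prop := ν (t - 1) < 1

section One

variable {ν : Valuation F ℝ≥0}

lemma One.val {t : F} (h : One ν t) : ν t = 1 := by
  have := ν.map_one_add_of_lt h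
  rwa [add_sub_cancel] at this

lemma One.one : One ν 1 := by simp [One]

lemma One.mul {t s : F} (h : One ν t) (h' : One ν s) : One ν (t * s) := by
  have e : t * s - 1 = (t - 1) * s + (s - 1) := by ring
  unfold One
  rw [e]
  refine ν.map_add_lt ?_ h'
  rw [map_mul, h'.val, mul_one]
  exact h

lemma One.inv {t : F} (h : One ν t) : One ν t⁻¹ := by
  have ht : t ≠ 0 := by
    intro h0
    have := h.val
    rw [h0, map_zero] at this
    exact zero_ne_one this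
  have e : t⁻¹ - 1 = -(t⁻¹ * (t - 1)) := by field_simp; ring
  unfold One
  rw [e, Valuation.map_neg, map_mul, map_inv₀, h.val, inv_one, one_mul]
  exact h

lemma One.pow {t : F} (h : One ν t) (n : ℕ) : One ν (t ^ n) := by
  induction n with
  | zero => simpa using One.one
  | succ n ih => rw [pow_succ]; exact ih.mul h

lemma One.zpow {t : F} (h : One ν t) (n : ℤ) : One ν (t ^ n) := by
  obtain ⟨m, rfl | rfl⟩ := n.eq_nat_or_neg
  · simpa using h.pow m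
  · simpa using (h.pow m).inv

lemma one_add {e p : F} (he : ν e = 2⁻¹) (hp : ν p ≤ 1) : One ν (1 + e * p) := by
  unfold One
  rw [add_sub_cancel_left, map_mul, he]
  calc (2⁻¹ : ℝ≥0) * ν p ≤ 2⁻¹ * 1 := by gcongr
    _ < 1 := by norm_num

lemma key {a : F} (hv : ∀ P : k[X], P ≠ 0 → ν (aeval a P) = 1) {δ r : k} (hδ : δ ≠ 0)
    (hr : r ≠ 0) {m t : ℤ}
    (h : One ν (algebraMap k F δ * a ^ m * (a - algebraMap k F r) ^ t)) :
    δ = 1 ∧ m = 0 ∧ t = 0 := by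
  have ha : a ≠ 0 := by
    intro h0
    have := hv X X_ne_zero
    rw [aeval_X, h0, map_zero] at this
    exact zero_ne_one this
  have hs : a - algebraMap k F r ≠ 0 := by
    intro h0
    have := hv (X - C r) (X_sub_C_ne_zero r)
    rw [map_sub, aeval_X, aeval_C, h0, map_zero] at this
    exact zero_ne_one this
  set P : k[X] := C δ * X ^ m.toNat * (X - C r) ^ t.toNat with hP
  set Q : k[X] := X ^ (-m).toNat * (X - C r) ^ (-t).toNat with hQ
  have hQ0 : Q ≠ 0 := mul_ne_zero (pow_ne_zero _ X_ne_zero) (pow_ne_zero _ (X_sub_C_ne_zero r))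
  have em : a ^ m * a ^ (-m).toNat = a ^ m.toNat := by
    rw [← zpow_natCast, ← zpow_natCast, ← zpow_add₀ ha]; congr 1; omega
  have et : (a - algebraMap k F r) ^ t * (a - algebraMap k F r) ^ (-t).toNat =
      (a - algebraMap k F r) ^ t.toNat := by
    rw [← zpow_natCast, ← zpow_natCast, ← zpow_add₀ hs]; congr 1; omega
  have e : aeval a (P - Q) =
      (algebraMap k F δ * a ^ m * (a - algebraMap k F r) ^ t - 1) * aeval a Q := by
    simp only [hP, hQ, map_sub, map_mul, map_pow, aeval_C, aeval_X]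
    rw [← em, ← et]
    ring
  have hPQ : P = Q := by
    by_contra hne
    have h1 := hv _ (sub_ne_zero.mpr hne)
    rw [e, map_mul, hv Q hQ0, mul_one] at h1
    exact (ne_of_lt h) h1
  have e0 := congrArg (eval 0) hPQ
  have er := congrArg (eval r) hPQ
  simp only [hP, hQ, eval_mul, eval_pow, eval_C, eval_X, eval_sub, sub_self, zero_sub] at e0 er
  have hm : m = 0 := by
    rcases lt_trichotomy m 0 with h | h | h
    · rw [zero_pow (n := (-m).toNat) (by omega), show m.toNat = 0 by omega] at e0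
      simp [hδ, hr] at e0
    · exact h
    · rw [zero_pow (n := m.toNat) (by omega), show (-m).toNat = 0 by omega] at e0
      simp only [mul_zero, zero_mul, pow_zero, one_mul] at e0
      exact absurd e0.symm (pow_ne_zero _ (neg_ne_zero.mpr hr))
  have ht : t = 0 := by
    rcases lt_trichotomy t 0 with h | h | h
    · rw [zero_pow (n := (-t).toNat) (by omega), show t.toNat = 0 by omega] at er
      simp [hδ, hr] at er
    · exact h
    · rw [zero_pow (n := t.toNat) (by omega), show (-t).toNat = 0 by omega] at er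
      simp only [mul_zero, pow_zero, mul_one] at er
      exact absurd er.symm (pow_ne_zero _ hr)
  subst hm ht
  refine ⟨?_, rfl, rfl⟩
  simpa using e0

end One

/-! ### the nine charts -/

variable (c : Ctx k F)

/-- local equation of the exceptional curve seen in chart `j` -/
def Ph : Fin 9 → F :=
  ![c.a 0 - c.l, 1, 1 - c.b 2, c.a 3 - 1, 1, 1 - c.b 5, c.a 6 - 1, 1, 1 - c.l * c.b 8]

def php : Fin 9 → P2 k :=
  ![x0 k - cc c.lam, 1, 1 - cc 1 * x1 k, x0 k - cc 1, 1, 1 - cc 1 * x1 k, x0 k - cc 1, 1,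
    1 - cc c.lam * x1 k]

def Gam : Fin 9 → P2 k :=
  ![x0 k - cc c.lam * x1 k, 1, x0 k * x1 k ^ 2 - 1, x0 k * x1 k ^ 2 - 1, 1,
    1 - x0 k ^ 2 * x1 k, 1 - x0 k ^ 2 * x1 k, 1, x0 k - cc c.lam * x1 k]

def gp : Fin 9 → ℤ := ![0, 0, 1, 0, 0, 0, 2, 0, 1]
def gq : Fin 9 → ℤ := ![1, 0, 2, 0, 0, 0, 1, 0, 0]

def ap : Fin 9 → ℤ := ![1, 1, 1, 1, 0, -1, -2, -1, 0]
def aq : Fin 9 → ℤ := ![-1, 0, 1, 2, 1, 0, -1, -1, -1]
def am : Fin 9 → ℤ := ![0, 0, -1, 0, 0, -1, 0, 0, -1]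
def bp : Fin 9 → ℤ := ![-1, -1, -1, 0, 1, 2, 1, 0, -1]
def bq : Fin 9 → ℤ := ![0, -1, -2, -1, 0, 1, 1, 1, 1]
def bm : Fin 9 → ℤ := ![-1, 0, 0, -1, 0, 0, -1, 0, 0]

variable {c}

lemma ev_php (j : Fin 9) : ev2 k (c.a j) (c.b j) (php c j) = Ph c j := by
  fin_cases j <;> simp [php, Ph, ev2, Ctx.l]

lemma php_prime (h : GeoFacts c) (j : Fin 9) : Prime (php c j) ∨ php c j = 1 := by
  fin_cases j
  · exact Or.inl (prime_a _)
  · exact Or.inr rfl
  · exact Or.inl (prime_b one_ne_zero)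
  · exact Or.inl (prime_a _)
  · exact Or.inr rfl
  · exact Or.inl (prime_b one_ne_zero)
  · exact Or.inl (prime_a _)
  · exact Or.inr rfl
  · exact Or.inl (prime_b h.lam_ne)

lemma Ph_eq (j : Fin 9) : ∃ s, Ph c j = c.ph s j := by
  fin_cases j
  exacts [⟨0, rfl⟩, ⟨0, rfl⟩, ⟨1, rfl⟩, ⟨1, rfl⟩, ⟨0, rfl⟩, ⟨2, rfl⟩, ⟨2, rfl⟩, ⟨0, rfl⟩, ⟨0, rfl⟩]

lemma Ph_ne (h : GeoFacts c) (j : Fin 9) : Ph c j ≠ 0 := by
  obtain ⟨s, hs⟩ := Ph_eq (c := c) j
  rw [hs]; exact h.ph_ne s j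

lemma Ph_mem (h : GeoFacts c) (j : Fin 9) : Ph c j ∈ c.A j := by
  obtain ⟨s, hs⟩ := Ph_eq (c := c) j
  rw [hs]; exact h.ph_mem s j

lemma ev_Gam (h : GeoFacts c) (j : Fin 9) :
    ev2 k c.x c.y (Gam c j) = c.x ^ gp j * c.y ^ gq j * Ph c j := by
  have hx := h.x_ne
  have hy := h.y_ne
  fin_cases j <;> simp [Gam, Ph, ev2, Ctx.l, Ctx.a, Ctx.b, Ctx.z, gp, gq] <;> field_simp

lemma a_eq (h : GeoFacts c) (j : Fin 9) :
    c.a j = c.x ^ ap j * c.y ^ aq j * Ph c j ^ am j := by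
  have hx := h.x_ne
  have hy := h.y_ne
  fin_cases j <;> simp [Ph, Ctx.a, Ctx.b, Ctx.z, ap, aq, am] <;> first | ring1 | field_simp

lemma b_eq (h : GeoFacts c) (j : Fin 9) :
    c.b j = c.x ^ bp j * c.y ^ bq j * Ph c j ^ bm j := by
  have hx := h.x_ne
  have hy := h.y_ne
  fin_cases j <;> simp [Ph, Ctx.a, Ctx.b, Ctx.z, bp, bq, bm] <;> first | ring1 | field_simp

def xa : Fin 9 → ℤ := ![0, 1, 2, 1, 0, -1, -1, -1, -1]
def xb : Fin 9 → ℤ := ![-1, 0, 1, 2, 1, 0, -1, -1, -1]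
def xo : Fin 9 → ℤ := ![-1, 0, 2, 2, 0, -1, -1, 0, -1]
def ya : Fin 9 → ℤ := ![-1, -1, -1, 0, 1, 2, 1, 0, -1]
def yb : Fin 9 → ℤ := ![-1, -1, -1, -1, 0, 1, 2, 1, 0]
def yo : Fin 9 → ℤ := ![-1, 0, -1, -1, 0, 2, 2, 0, -1]

lemma mon_x (h : GeoFacts c) (j : Fin 9) : Mon k (c.a j) (c.b j) (Ph c j) c.x := by
  refine ⟨1, one_ne_zero, xa j, xb j, xo j, ?_⟩
  rw [map_one, one_mul, mon_inverse h.x_ne h.y_ne (Ph_ne h j) (a_eq h j) (b_eq h j)]
  have e1 : ap j * xa j + bp j * xb j = 1 := by revert j; decide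
  have e2 : aq j * xa j + bq j * xb j = 0 := by revert j; decide
  have e3 : am j * xa j + bm j * xb j + xo j = 0 := by revert j; decide
  rw [e1, e2, e3]; simp

lemma mon_y (h : GeoFacts c) (j : Fin 9) : Mon k (c.a j) (c.b j) (Ph c j) c.y := by
  refine ⟨1, one_ne_zero, ya j, yb j, yo j, ?_⟩
  rw [map_one, one_mul, mon_inverse h.x_ne h.y_ne (Ph_ne h j) (a_eq h j) (b_eq h j)]
  have e1 : ap j * ya j + bp j * yb j = 0 := by revert j; decide
  have e2 : aq j * ya j + bq j * yb j = 1 := by revert j; decide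
  have e3 : am j * ya j + bm j * yb j + yo j = 0 := by revert j; decide
  rw [e1, e2, e3]; simp

lemma mon_Gam (h : GeoFacts c) (j : Fin 9) :
    Mon k (c.a j) (c.b j) (Ph c j) (ev2 k c.x c.y (Gam c j)) := by
  rw [ev_Gam h]
  exact Mon.mul (h.a_ne j) (h.b_ne j) (Ph_ne h j)
    (Mon.mul (h.a_ne j) (h.b_ne j) (Ph_ne h j) ((mon_x h j).zpow _) ((mon_y h j).zpow _)) Mon.thd

lemma Gam_ne (h : GeoFacts c) (j : Fin 9) : ev2 k c.x c.y (Gam c j) ≠ 0 := by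
  rw [ev_Gam h]
  exact mul_ne_zero (mul_ne_zero (zpow_ne_zero _ h.x_ne) (zpow_ne_zero _ h.y_ne)) (Ph_ne h j)

lemma mon_Ph (h : GeoFacts c) (j : Fin 9) :
    Mon k c.x c.y (ev2 k c.x c.y (Gam c j)) (Ph c j) := by
  refine ⟨1, one_ne_zero, -gp j, -gq j, 1, ?_⟩
  have h1 := zpow_ne_zero (gp j) h.x_ne
  have h2 := zpow_ne_zero (gq j) h.y_ne
  rw [ev_Gam h, map_one, zpow_neg, zpow_neg, zpow_one]
  field_simp

lemma mon_a (h : GeoFacts c) (j : Fin 9) : Mon k c.x c.y (Ph c j) (c.a j) :=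
  ⟨1, one_ne_zero, ap j, aq j, am j, by rw [map_one, one_mul]; exact a_eq h j⟩

lemma mon_b (h : GeoFacts c) (j : Fin 9) : Mon k c.x c.y (Ph c j) (c.b j) :=
  ⟨1, one_ne_zero, bp j, bq j, bm j, by rw [map_one, one_mul]; exact b_eq h j⟩

/-- the denominator used for chart `j` -/
def UU (c : Ctx k F) (j : Fin 9) : P2 k := x0 k * x1 k * Gam c j

lemma ev_UU (j : Fin 9) :
    ev2 k c.x c.y (UU c j) = c.x * c.y * ev2 k c.x c.y (Gam c j) := by
  rw [UU, map_mul, map_mul, ev2_x0, ev2_x1]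

lemma to4 (h : GeoFacts c) (j : Fin 9) (z : F) (hz : z ∈ c.A j) :
    ∃ M : ℕ, ev2 k c.x c.y (UU c j) ^ M * z ∈ c.A 4 := by
  obtain ⟨P, rfl⟩ := hz
  have mx : c.x ∈ c.A 4 := (h.A4 _).mpr ⟨x0 k, ev2_x0 _ _⟩
  have my : c.y ∈ c.A 4 := (h.A4 _).mpr ⟨x1 k, ev2_x1 _ _⟩
  have mg : ev2 k c.x c.y (Gam c j) ∈ c.A 4 := (h.A4 _).mpr ⟨_, rfl⟩
  refine loc ((h.A4 _).mpr ⟨_, rfl⟩) ?_ ?_ P
  · rw [ev_UU]
    exact Mon.clear h.x_ne h.y_ne (Gam_ne h j) mx my mg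
      (Mon.trans h.x_ne h.y_ne (Gam_ne h j) (mon_a h j) Mon.fst Mon.snd (mon_Ph h j))
  · rw [ev_UU]
    exact Mon.clear h.x_ne h.y_ne (Gam_ne h j) mx my mg
      (Mon.trans h.x_ne h.y_ne (Gam_ne h j) (mon_b h j) Mon.fst Mon.snd (mon_Ph h j))

lemma from4 (h : GeoFacts c) (j : Fin 9) (P : P2 k) :
    ∃ (M : ℕ) (G : P2 k), ev2 k (c.a j) (c.b j) G =
      (c.a j * c.b j * Ph c j) ^ M * ev2 k c.x c.y P := by
  obtain ⟨M, G, hG⟩ := loc (B := c.A j)
    ((c.A j).mul_mem ((c.A j).mul_mem (h.a_mem j) (h.b_mem j)) (Ph_mem h j))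
    (Mon.clear (h.a_ne j) (h.b_ne j) (Ph_ne h j) (h.a_mem j) (h.b_mem j) (Ph_mem h j) (mon_x h j))
    (Mon.clear (h.a_ne j) (h.b_ne j) (Ph_ne h j) (h.a_mem j) (h.b_mem j) (Ph_mem h j) (mon_y h j))
    P
  exact ⟨M, G, hG⟩

lemma mon_UU (h : GeoFacts c) (j : Fin 9) :
    Mon k (c.a j) (c.b j) (Ph c j) (ev2 k c.x c.y (UU c j)) := by
  rw [ev_UU]
  exact Mon.mul (h.a_ne j) (h.b_ne j) (Ph_ne h j)
    (Mon.mul (h.a_ne j) (h.b_ne j) (Ph_ne h j) (mon_x h j) (mon_y h j)) (mon_Gam h j)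

lemma lift_dvd (h : GeoFacts c) (j : Fin 9) {g g' G H : P2 k} {M : ℕ} {m : F}
    (hG : ev2 k (c.a j) (c.b j) G = (c.a j * c.b j * Ph c j) ^ M * ev2 k c.x c.y g)
    (hm : Mon k (c.a j) (c.b j) (Ph c j) m)
    (e : ev2 k c.x c.y g * ev2 k c.x c.y g' = m * ev2 k (c.a j) (c.b j) H) :
    ∃ α β o : ℕ, G ∣ x0 k ^ α * x1 k ^ β * php c j ^ o * H := by
  obtain ⟨M', G', hG'⟩ := from4 h j g'
  obtain ⟨γ, hγ, N, i, l, o, hN⟩ := hm.nat (h.a_ne j) (h.b_ne j) (Ph_ne h j)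
  refine ⟨M + M' + i, M + M' + l, M + M' + o,
    G' * (x0 k * x1 k * php c j) ^ N * cc γ⁻¹, (h.coord j).inj ?_⟩
  have hγ' : algebraMap k F γ ≠ 0 := (_root_.map_ne_zero _).mpr hγ
  simp only [map_mul, map_pow, ev2_x0, ev2_x1, ev2_cc, ev_php, hG, hG', map_inv₀]
  field_simp
  simp only [pow_add, mul_pow] at hN ⊢
  linear_combination
    (-(c.a j ^ M * c.b j ^ M * Ph c j ^ M * c.a j ^ M' * c.b j ^ M' * Ph c j ^ M' *
      c.a j ^ N * c.b j ^ N * Ph c j ^ N)) * e -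
    (c.a j ^ M * c.b j ^ M * Ph c j ^ M * c.a j ^ M' * c.b j ^ M' * Ph c j ^ M' *
      ev2 k (c.a j) (c.b j) H) * hN

lemma dvd_of_mon (h : GeoFacts c) (hc : IsCoord k c.x c.y) {g : P2 k} (hg : Prime g)
    (hm : Mon k c.x c.y 1 (ev2 k c.x c.y g)) : g ∣ x0 k * x1 k := by
  obtain ⟨γ, hγ, N, i, l, o, hN⟩ := hm.nat h.x_ne h.y_ne one_ne_zero
  have e : (x0 k * x1 k) ^ N * g = cc γ * (x0 k ^ i * x1 k ^ l) := by
    apply hc.inj
    simp only [map_mul, map_pow, ev2_x0, ev2_x1, ev2_cc]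
    simp only [mul_one, one_pow] at hN
    rw [hN]; ring
  have hd : g ∣ cc γ * (x0 k ^ i * x1 k ^ l) := ⟨_, by rw [← e, mul_comm]⟩
  rcases hg.dvd_or_dvd hd with hd | hd
  · exact absurd (isUnit_of_dvd_unit hd ((IsUnit.mk0 γ hγ).map MvPolynomial.C)) hg.not_isUnit
  · rcases hg.dvd_or_dvd hd with hd | hd
    · exact (hg.dvd_of_dvd_pow hd).mul_right _
    · exact (hg.dvd_of_dvd_pow hd).mul_left _

/-- normal form of an element whose divisor in chart `j` avoids the boundary -/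
def Rep (c : Ctx k F) (j : Fin 9) (f : F) (γ : k) (α β o : ℤ) : Prop :=
  γ ≠ 0 ∧ ∃ p ∈ c.A j,
    f = algebraMap k F γ * c.a j ^ α * c.b j ^ β * Ph c j ^ o * (1 + c.e j * p)

lemma Rep.div (h : GeoFacts c) {j : Fin 9} {f m : F} {γ : k} {α β o : ℤ}
    (hf : Rep c j f γ α β o) (hm : Mon k (c.a j) (c.b j) (Ph c j) m) :
    ∃ γ' α' β' o', Rep c j (f / m) γ' α' β' o' := by
  obtain ⟨hγ, p, hp, rfl⟩ := hf
  obtain ⟨γ', hγ', α', β', o', e⟩ := Mon.mul (h.a_ne j) (h.b_ne j) (Ph_ne h j)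
    (show Mon k (c.a j) (c.b j) (Ph c j) _ from ⟨γ, hγ, α, β, o, rfl⟩) hm.inv
  exact ⟨γ', α', β', o', hγ', p, hp, by rw [← e]; ring⟩

lemma rep_of_fail (h : GeoFacts c) (j : Fin 9) {g P : P2 k} {p : F} (hp : p ∈ c.A j) {M : ℕ}
    (e : ev2 k c.x c.y (UU c j) ^ M * (1 + c.e j * p) = ev2 k c.x c.y P) (hd : g ∣ P) :
    ∃ γ α β o, Rep c j (ev2 k c.x c.y g) γ α β o := by
  obtain ⟨g', rfl⟩ := hd
  obtain ⟨q, rfl⟩ := hp
  obtain ⟨N, G, hG⟩ := from4 h j g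
  obtain ⟨α, β, o, hd⟩ := lift_dvd h j (g' := g') (H := 1 + x0 k * x1 k * q) hG
    ((mon_UU h j).pow M) (by
      rw [← map_mul, ← e]
      simp only [map_add, map_one, map_mul, ev2_x0, ev2_x1]
      rfl)
  obtain ⟨G₁, G₂, h₁, h₂, rfl⟩ := exists_dvd_and_dvd_of_dvd_mul hd
  obtain ⟨γ₁, n₁, i, l, t, rfl⟩ := dvd_mon (php_prime h j) h₁
  obtain ⟨γ₂, n₂, q', rfl⟩ := dvd_one_add h₂
  have hr : Rep c j ((c.a j * c.b j * Ph c j) ^ N * ev2 k c.x c.y g) (γ₁ * γ₂) i l t := by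
    refine ⟨mul_ne_zero n₁ n₂, ev2 k (c.a j) (c.b j) q', ⟨q', rfl⟩, ?_⟩
    rw [← hG]
    simp only [map_mul, map_pow, map_add, map_one, ev2_x0, ev2_x1, ev2_cc, ev_php, zpow_natCast,
      Ctx.e]
    ring
  have := hr.div h ((Mon.mul (h.a_ne j) (h.b_ne j) (Ph_ne h j)
    (Mon.mul (h.a_ne j) (h.b_ne j) (Ph_ne h j) Mon.fst Mon.snd) Mon.thd).pow N)
  rwa [mul_div_cancel_left₀ _
    (pow_ne_zero _ (mul_ne_zero (mul_ne_zero (h.a_ne j) (h.b_ne j)) (Ph_ne h j)))] at this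

/-! ### crossing a boundary curve -/

def ka : Fin 9 → ℤ := ![1, 0, 0, 1, 0, 0, 1, 0, 0]
def kb : Fin 9 → ℤ := ![0, 1, 0, 0, 1, 0, 0, 1, 0]
def et : Fin 9 → ℤ := ![0, 0, 1, 0, 0, 1, 0, 0, 1]
def al (c : Ctx k F) : Fin 9 → k := ![1, 1, 1, 1, 1, 1, 1, 1, c.lam]

lemma al_ne (h : GeoFacts c) (i : Fin 9) : al c i ≠ 0 := by
  fin_cases i <;> simp [al, h.lam_ne]

lemma Ph_right (i : Fin 9) :
    Ph c (i + 1) = c.u i ^ kb i * (c.a (i + 1) - algebraMap k F (al c i)) ^ et i := by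
  fin_cases i <;> simp [Ph, Ctx.u, kb, et, al, Ctx.l]

lemma Ph_left (h : GeoFacts c) (i : Fin 9) :
    Ph c i = c.u i ^ ka i * (c.a (i + 1) - algebraMap k F (al c i)) ^ et i *
      c.a (i + 1) ^ (-et i) := by
  have h1 := h.tb i
  have h2 := h.a_ne (i + 1)
  fin_cases i <;> simp [Ph, Ctx.u, ka, et, al, Ctx.l] at h1 h2 ⊢
  · field_simp; linear_combination -h1
  · field_simp; linear_combination -h1
  · field_simp; linear_combination (-algebraMap k F c.lam) * h1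

lemma wall {ν : Fin 9 → Valuation F ℝ≥0} (h : GeoFacts c) (hν : NuFacts c ν) (i : Fin 9) {f : F}
    {γ γ' : k} {α β o α' β' o' : ℤ} (hf : Rep c i f γ α β o) (hf' : Rep c (i + 1) f γ' α' β' o') :
    β' = α ∧ 2 * α - β - et i * o - α' = 0 ∧ et i * (o - o') = 0 ∧
      γ' = γ * c.cu i ^ ((1 - ue i) * α - β + ka i * o - kb i * o') := by
  obtain ⟨hγ, p, hp, e⟩ := hf
  obtain ⟨hγ', p', hp', e'⟩ := hf'
  obtain ⟨nk, -, na, nb⟩ := hν.isNu (i + 1)
  have o1 : One (ν (i + 1)) (1 + c.e i * p) := one_add (hν.val_e i).2 (hν.le_one i p hp).2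
  have o2 : One (ν (i + 1)) (1 + c.e (i + 1) * p') :=
    one_add (hν.val_e (i + 1)).1 (hν.le_one (i + 1) p' hp').1
  have hcu : algebraMap k F (c.cu i) ≠ 0 := (_root_.map_ne_zero _).mpr (h.cu_ne i)
  have o3 : One (ν (i + 1)) (c.u i / algebraMap k F (c.cu i)) := by
    obtain ⟨r, hr, er⟩ := h.u_right i
    have : c.u i / algebraMap k F (c.cu i) = 1 + c.b (i + 1) * (r / algebraMap k F (c.cu i)) := by
      rw [er]; field_simp
    rw [this]
    refine one_add nb ?_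
    rw [map_div₀, nk _ (h.cu_ne i), div_one]
    exact (hν.le_one (i + 1) r hr).1
  have v1 : ν (i + 1) (Ph c i) = 1 := by
    obtain ⟨s, hs⟩ := Ph_eq (c := c) i
    rw [hs]; exact (hν.val_ph s i).2
  have v2 : ν (i + 1) (Ph c (i + 1)) = 1 := by
    obtain ⟨s, hs⟩ := Ph_eq (c := c) (i + 1)
    rw [hs]; exact (hν.val_ph s (i + 1)).1
  have hβ : β' = α := by
    have := congrArg (ν (i + 1)) (e.symm.trans e')
    simp only [map_mul, map_zpow₀, nk _ hγ, nk _ hγ', na, nb, hν.left_a, hν.left_b, v1, v2, o1.val,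
      o2.val, one_zpow, one_mul, mul_one] at this
    exact (zpow_right_injective₀ (by norm_num) (by norm_num) this).symm
  subst hβ
  set A := c.a (i + 1) with hA
  set B := c.b (i + 1) with hB
  set u := c.u i with hu
  set Ψ := A - algebraMap k F (al c i) with hΨ
  have A0 : A ≠ 0 := h.a_ne _
  have B0 : B ≠ 0 := h.b_ne _
  have u0 : u ≠ 0 := h.u_ne _
  have Ψ0 : Ψ ≠ 0 := by
    intro h0
    have := hν.val_poly (i + 1) (X - C (al c i)) (X_sub_C_ne_zero _)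
    rw [map_sub, aeval_X, aeval_C, ← hA, ← hΨ, h0, map_zero] at this
    exact zero_ne_one this
  have eb : c.b i = A⁻¹ * u⁻¹ := by
    have := h.tb i
    field_simp
    linear_combination this
  have ea : c.a i = B * A * A * u ^ (1 - ue i) := by rw [h.ta i]; ring
  have h0 : 1 + c.e i * p ≠ 0 := by
    intro h0
    have := o1.val
    rw [h0, map_zero] at this
    exact zero_ne_one this
  have hg' : algebraMap k F γ' ≠ 0 := (_root_.map_ne_zero _).mpr hγ'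
  set E := (1 - ue i) * β' - β + ka i * o - kb i * o' with hE
  have main : algebraMap k F (γ * c.cu i ^ E / γ') * A ^ (2 * β' - β - et i * o - α') *
      Ψ ^ (et i * (o - o')) = (1 + c.e (i + 1) * p') * (1 + c.e i * p)⁻¹ *
        (u / algebraMap k F (c.cu i)) ^ (-E) := by
    have ee := e.symm.trans e'
    rw [ea, eb, Ph_left h i, Ph_right i, ← hA, ← hu, ← hΨ] at ee
    simp only [mul_zpow, inv_zpow, ← zpow_mul, zpow_neg] at ee
    have z1 := zpow_ne_zero β' A0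
    have z2 := zpow_ne_zero β A0
    have z3 := zpow_ne_zero (et i * o) A0
    have z4 := zpow_ne_zero α' A0
    have z5 := zpow_ne_zero (et i * o') Ψ0
    have z6 := zpow_ne_zero β u0
    have z7 := zpow_ne_zero (kb i * o') u0
    have z8 := zpow_ne_zero ((1 - ue i) * β') u0
    have z9 := zpow_ne_zero (ka i * o) u0
    have z10 := zpow_ne_zero β' B0
    have z11 := zpow_ne_zero E hcu
    have eu : u ^ E = u ^ ((1 - ue i) * β') / u ^ β * u ^ (ka i * o) / u ^ (kb i * o') := by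
      rw [hE, zpow_sub₀ u0, zpow_add₀ u0, zpow_sub₀ u0]
    rw [map_div₀, map_mul, map_zpow₀, zpow_neg, div_zpow, eu, mul_sub, zpow_sub₀ Ψ0, two_mul,
      zpow_sub₀ A0, zpow_sub₀ A0, zpow_sub₀ A0, zpow_add₀ A0]
    field_simp at ee ⊢
    linear_combination ee
  have hone := (o2.mul o1.inv).mul (o3.zpow (-E))
  rw [← main] at hone
  obtain ⟨k1, k2, k3⟩ := key (hν.val_poly (i + 1))
    (div_ne_zero (mul_ne_zero hγ (zpow_ne_zero _ (h.cu_ne i))) hγ') (al_ne h i) hone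
  exact ⟨rfl, k2, k3, ((div_eq_one_iff_eq hγ').mp k1).symm⟩

lemma round {ν : Fin 9 → Valuation F ℝ≥0} (_hc : c.Good) (h : GeoFacts c) (hν : NuFacts c ν)
    (hr : ResFacts c) {f : F}
    (hf : ∀ j, ∃ γ α β o, Rep c j f γ α β o ∧ (j = 4 → γ = 1 ∧ α = 0 ∧ β = 0)) : f = 1 := by
  choose γ α β o hrep h4 using hf
  obtain ⟨g4, a4, b4⟩ := h4 4 rfl
  have W := fun i => wall h hν i (hrep i) (hrep (i + 1))
  have W0 := W 0
  have W1 := W 1
  have W2 := W 2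
  have W3 := W 3
  have W4 := W 4
  have W5 := W 5
  have W6 := W 6
  have W7 := W 7
  have W8 := W 8
  simp [et, ka, kb, ue, Ctx.cu] at W0 W1 W2 W3 W4 W5 W6 W7 W8
  obtain ⟨p0, q0, r0⟩ := W0
  obtain ⟨p1, q1, r1⟩ := W1
  obtain ⟨p2, q2, s2, r2⟩ := W2
  obtain ⟨p3, q3, r3⟩ := W3
  obtain ⟨p4, q4, r4⟩ := W4
  obtain ⟨p5, q5, s5, r5⟩ := W5
  obtain ⟨p6, q6, r6⟩ := W6
  obtain ⟨p7, q7, r7⟩ := W7
  obtain ⟨p8, q8, s8, r8⟩ := W8
  have sq : ∀ n : ℤ, ((-1 : k) ^ n) ^ 2 = 1 := fun n => by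
    rw [sq, ← mul_zpow, neg_mul_neg, one_mul, one_zpow]
  have g0' : γ 0 ^ 2 = 1 := by rw [r8, r7, r6, mul_pow, sq, r5, r4, g4, one_pow, one_mul]
  have g1' : γ 1 ^ 2 = 1 := by
    have := congrArg (· ^ 2) r3
    simp only [g4, mul_pow, sq, one_pow, mul_one] at this
    rw [← r1, ← r2, ← this]
  have hl : -β 0 + o 0 = 0 := by
    have e1 := congrArg (· ^ 2) r0
    simp only [mul_pow, g0', g1', one_mul] at e1
    have e2 : c.lm ^ ((-β 0 + o 0) * 2) = 1 := by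
      rw [zpow_mul, zpow_two, ← pow_two]
      exact e1.symm
    have := h.lm_zpow _ e2
    omega
  have z3 : -β 3 + o 3 = 0 := by omega
  have z6 : -β 6 + o 6 = 0 := by omega
  rw [z3, zpow_zero, mul_one] at r3
  rw [z6, zpow_zero, mul_one] at r6
  have g0 : γ 0 = 1 := by rw [r8, r7, r6, r5, r4, g4]
  have g1 : γ 1 = 1 := by rw [← r1, ← r2, ← r3, g4]
  have hγ : ∀ j, γ j = 1 := by
    intro j
    fin_cases j
    · exact g0
    · exact g1
    · exact r1.trans g1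
    · exact r2.trans (r1.trans g1)
    · exact g4
    · exact r4.trans g4
    · exact r5.trans (r4.trans g4)
    · exact r6.trans (r5.trans (r4.trans g4))
    · exact r8.symm.trans g0
  have hα : ∀ j, α j = 0 := by
    intro j
    fin_cases j <;> simp only [Fin.reduceFinMk, Fin.zero_eta, Fin.mk_one, Fin.isValue] <;> omega
  have hβ : ∀ j, β j = 0 := by
    intro j
    fin_cases j <;> simp only [Fin.reduceFinMk, Fin.zero_eta, Fin.mk_one, Fin.isValue] <;> omega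
  have ho : ∀ j, Ph c j ^ o j = 1 := by
    have z : ∀ j, o j = 0 → Ph c j ^ o j = 1 := fun j hj => by rw [hj, zpow_zero]
    have z' : ∀ j, Ph c j = 1 → Ph c j ^ o j = 1 := fun j hj => by rw [hj, one_zpow]
    intro j
    fin_cases j
    · exact z 0 (by omega)
    · exact z' 1 rfl
    · exact z 2 (by omega)
    · exact z 3 (by omega)
    · exact z' 4 rfl
    · exact z 5 (by omega)
    · exact z 6 (by omega)
    · exact z' 7 rfl
    · exact z 8 (by omega)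
  have hm : f - 1 ∈ c.M (-1) 0 := by
    intro j
    obtain ⟨-, p, hp, e⟩ := hrep j
    rw [hγ, hα, hβ, ho] at e
    have he : c.e j ≠ 0 := mul_ne_zero (h.a_ne j) (h.b_ne j)
    have : (f - 1) * c.mu (-1) 0 j = p := by
      rw [e, Ctx.mu]
      simp only [map_one, zpow_zero, one_mul, zpow_neg, zpow_one, pow_zero, mul_one]
      field_simp
      ring
    rw [this]; exact hp
  exact sub_eq_zero.mp (hr.neg (-1) (by norm_num) _ hm)

/-! ### the three blown up curves -/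

lemma toric_case (hc : c.Good) (h : GeoFacts c) (j : Fin 9) (h1 : php c j = 1) {g Γ P : P2 k}
    (hg : Prime g) (hx : ¬ g ∣ x0 k * x1 k) {r : k} (hr : r ≠ 0) {m : F}
    (hm : Mon k (c.a j) (c.b j) (Ph c j) m)
    (hΓ : ev2 k c.x c.y Γ = m * (c.b j - algebraMap k F r * c.a j)) (hd : g ∣ Γ)
    {p : F} (hp : p ∈ c.A j) {M : ℕ}
    (e : ev2 k c.x c.y (UU c j) ^ M * (1 + c.e j * p) = ev2 k c.x c.y P) (hd' : g ∣ P) :
    False := by
  have hPh : Ph c j = 1 := by rw [← ev_php, h1, map_one]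
  obtain ⟨g', rfl⟩ := hd'
  obtain ⟨g'', rfl⟩ := hd
  obtain ⟨q, rfl⟩ := hp
  obtain ⟨N, G, hG⟩ := from4 h j g
  obtain ⟨α, β, o, d1⟩ := lift_dvd h j (g' := g') (H := 1 + x0 k * x1 k * q) hG
    ((mon_UU h j).pow M) (by
      rw [← map_mul, ← e]
      simp only [map_add, map_one, map_mul, ev2_x0, ev2_x1]
      rfl)
  obtain ⟨α', β', o', d2⟩ := lift_dvd h j (g' := g'') (H := x1 k - cc r * x0 k) hG hm (by
      rw [← map_mul, hΓ]
      simp only [map_sub, map_mul, ev2_x0, ev2_x1, ev2_cc])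
  rw [h1, one_pow, mul_one] at d1 d2
  rw [← pow_one (x1 k - cc r * x0 k)] at d2
  obtain ⟨γ, hγ, i, l, t, rfl⟩ := dvd_mon (Or.inl (prime_c r)) d2
  rcases Nat.eq_zero_or_pos t with rfl | ht
  · apply hx
    apply dvd_of_mon h hc.coord hg
    have hm' : Mon k (c.a j) (c.b j) (Ph c j) (ev2 k c.x c.y g) := by
      refine ⟨γ, hγ, i - N, l - N, 0, ?_⟩
      simp only [map_mul, map_pow, ev2_x0, ev2_x1, ev2_cc, hPh, pow_zero, mul_one] at hG
      have ha := pow_ne_zero N (h.a_ne j)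
      have hb := pow_ne_zero N (h.b_ne j)
      rw [zpow_sub₀ (h.a_ne j), zpow_sub₀ (h.b_ne j), zpow_zero, zpow_natCast, zpow_natCast,
        zpow_natCast, zpow_natCast]
      rw [mul_pow] at hG
      field_simp
      linear_combination -hG
    have ma := mon_a h j
    have mb := mon_b h j
    rw [hPh] at ma mb hm'
    exact Mon.trans h.x_ne h.y_ne one_ne_zero hm' ma mb Mon.one
  · exact not_dvd_c hr α β q
      (((dvd_pow_self _ ht.ne').mul_left _).trans d1)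

lemma UU_toric (j : Fin 9) (hj : Gam c j = 1) : UU c j = x0 k * x1 k := by
  rw [UU, hj, mul_one]

end NoCurveAux

open NoCurveAux in
theorem noCurve : S_NoCurve := by
  intro k F _ _ _ c ν hc h hν hr g hg p hp
  by_contra hcon
  push Not at hcon
  have hxy : ¬ g ∣ x0 k * x1 k := by
    intro hd
    obtain ⟨M, P, e, hP⟩ := hcon 4 1 (fun h1 => hg.not_isUnit (isUnit_of_dvd_one h1))
      (fun z hz => ⟨0, by simpa using hz⟩)
    obtain ⟨q, hq⟩ := (h.A4 _).mp (hp 4)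
    have e2 : P = 1 + x0 k * x1 k * q := by
      apply hc.coord.inj
      rw [← e]
      simp only [map_one, one_pow, one_mul, map_add, map_mul, ev2_x0, ev2_x1, hq]
      have : c.e 4 = c.x * c.y := mul_comm _ _
      rw [this]
    rw [e2] at hP
    exact hg.not_isUnit (isUnit_of_dvd_one ((dvd_add_left (hd.mul_right q)).mp hP))
  have fail : ∀ j, ¬ g ∣ UU c j → ∃ (M : ℕ) (P : P2 k),
      ev2 k c.x c.y (UU c j) ^ M * (1 + c.e j * p j) = ev2 k c.x c.y P ∧ g ∣ P :=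
    fun j hj => hcon j _ hj (to4 h j)
  have hx := h.x_ne
  have hy := h.y_ne
  have n0 : ¬ g ∣ x0 k - cc c.lam * x1 k := by
    intro hd
    obtain ⟨M, P, e, hP⟩ := fail 4 (by rw [UU_toric 4 rfl]; exact hxy)
    refine toric_case hc h 4 rfl hg hxy h.lam_ne Mon.one ?_ hd (hp 4) e hP
    simp [ev2, Ctx.a, Ctx.b]
  have n1 : ¬ g ∣ x0 k * x1 k ^ 2 - 1 := by
    intro hd
    obtain ⟨M, P, e, hP⟩ := fail 7 (by rw [UU_toric 7 rfl]; exact hxy)
    refine toric_case hc h 7 rfl hg hxy one_ne_zero Mon.fst.inv ?_ hd (hp 7) e hP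
    simp [ev2, Ctx.a, Ctx.b, Ctx.z]
    field_simp
  have n2 : ¬ g ∣ 1 - x0 k ^ 2 * x1 k := by
    intro hd
    obtain ⟨M, P, e, hP⟩ := fail 1 (by rw [UU_toric 1 rfl]; exact hxy)
    refine toric_case hc h 1 rfl hg hxy one_ne_zero Mon.snd.inv ?_ hd (hp 1) e hP
    simp [ev2, Ctx.a, Ctx.b, Ctx.z]
    field_simp
  have nG : ∀ j, ¬ g ∣ Gam c j := by
    have n3 : ¬ g ∣ 1 := fun h1 => hg.not_isUnit (isUnit_of_dvd_one h1)
    intro j
    fin_cases j
    exacts [n0, n3, n1, n1, n3, n2, n2, n3, n0]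
  have rep : ∀ j, ∃ γ α β o, Rep c j (ev2 k c.x c.y g) γ α β o := by
    intro j
    obtain ⟨M, P, e, hP⟩ := fail j (fun hd => (hg.dvd_or_dvd hd).elim hxy (nG j))
    exact rep_of_fail h j (hp j) e hP
  obtain ⟨γ, α, β, o, hγ, q, hq, e⟩ := rep 4
  have e4 : Ph c 4 = 1 := rfl
  have ea : c.a 4 = c.y := rfl
  have eb : c.b 4 = c.x := rfl
  rw [e4, ea, eb, one_zpow, mul_one] at e
  have hγ' : algebraMap k F γ ≠ 0 := (_root_.map_ne_zero _).mpr hγ
  have hm0 : algebraMap k F γ * c.y ^ α * c.x ^ β ≠ 0 :=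
    mul_ne_zero (mul_ne_zero hγ' (zpow_ne_zero _ hy)) (zpow_ne_zero _ hx)
  have h1 : ev2 k c.x c.y g / (algebraMap k F γ * c.y ^ α * c.x ^ β) = 1 := by
    refine round hc h hν hr fun j => ?_
    by_cases hj : j = 4
    · subst hj
      refine ⟨1, 0, 0, 0, ⟨one_ne_zero, q, hq, ?_⟩, fun _ => ⟨rfl, rfl, rfl⟩⟩
      rw [e, mul_div_cancel_left₀ _ hm0]
      simp
    · obtain ⟨γ', α', β', o', hrep⟩ := rep j
      obtain ⟨γ'', α'', β'', o'', hrep'⟩ := hrep.div h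
        (Mon.mul (h.a_ne j) (h.b_ne j) (Ph_ne h j)
          (Mon.mul (h.a_ne j) (h.b_ne j) (Ph_ne h j) (Mon.const hγ) ((mon_y h j).zpow α))
          ((mon_x h j).zpow β))
      exact ⟨γ'', α'', β'', o'', hrep', fun h4 => absurd h4 hj⟩
  refine hxy (dvd_of_mon h hc.coord hg ⟨γ, hγ, β, α, 0, ?_⟩)
  rw [(div_eq_one_iff_eq hm0).mp h1, zpow_zero]
  ring

end

end Pool.Agent.P.MP_3a4479_al.AP
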