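import Pool.Agent.P.MP_3a4479_al.AP.Defs

set_option autoImplicit false

namespace Pool.Agent.P.MP_3a4479_al.AP

open Polynomial
open scoped NNReal

noncomputable section

namespace PlAux

theorem val_le_one {R L : Type} [CommRing R] [Field L] [Algebra R L] (W : Valuation L ℝ≥0)
    (h : ∀ r : R, W (algebraMap R L r) ≤ 1) {z : L} (hz : IsIntegral R z) : W z ≤ 1 := by
  obtain ⟨p, hp, hz⟩ := hz
  let φ : R →+* W.integer := (algebraMap R L).codRestrict W.integer h
  have h1 : IsIntegral W.integer z := by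
    refine ⟨p.map φ, hp.map φ, ?_⟩
    rw [eval₂_map]
    exact hz
  exact (Valuation.integer.integers W).mem_of_integral h1

theorem prod_lt {L ι : Type} [Field L] (W : Valuation L ℝ≥0) (s : Finset ι) (f : ι → L)
    (h : ∀ i ∈ s, W (f i) ≤ 1) {i₀ : ι} (hi : i₀ ∈ s) (h₀ : W (f i₀) < 1) :
    W (∏ i ∈ s, f i) < 1 := by
  classical
  rw [← Finset.mul_prod_erase s f hi, map_mul, map_prod]
  have h1 : ∏ i ∈ s.erase i₀, W (f i) ≤ 1 :=
    Finset.prod_le_one' fun i hi => h i (Finset.mem_of_mem_erase hi)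
  exact (mul_le_of_le_one_right' h1).trans_lt h₀

theorem le_one_of_sub {L : Type} [Field L] (W : Valuation L ℝ≥0) {z : L} (h : W (z - 1) < 1) :
    W z ≤ 1 := by
  have : z = (z - 1) + 1 := by ring
  rw [this]
  exact W.map_add_le h.le (by rw [map_one])

theorem prod_sub_one {L ι : Type} [Field L] (W : Valuation L ℝ≥0) (s : Finset ι) (f : ι → L)
    (h : ∀ i ∈ s, W (f i - 1) < 1) : W (∏ i ∈ s, f i - 1) < 1 := by
  classical
  induction s using Finset.induction_on with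
  | empty => simp
  | insert a s ha ih =>
    have ih' := ih fun i hi => h i (Finset.mem_insert_of_mem hi)
    have ha' := h a (Finset.mem_insert_self a s)
    rw [Finset.prod_insert ha]
    have e : f a * ∏ i ∈ s, f i - 1 = (f a - 1) * ∏ i ∈ s, f i + (∏ i ∈ s, f i - 1) := by ring
    rw [e]
    refine W.map_add_lt ?_ ih'
    rw [map_mul]
    exact (mul_le_of_le_one_right' (le_one_of_sub W ih')).trans_lt ha'

theorem integral_of_rel {R L : Type} [CommRing R] [Nontrivial R] [CommRing L] [Algebra R L]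
    {d : ℕ} (γ : Fin d → R) {z : L} (h : z ^ d = ∑ l, algebraMap R L (γ l) * z ^ (l : ℕ)) :
    IsIntegral R z := by
  refine ⟨X ^ d - ∑ l : Fin d, C (γ l) * X ^ (l : ℕ), monic_X_pow_sub (degree_sum_fin_lt γ), ?_⟩
  rw [eval₂_sub, eval₂_X_pow, eval₂_finsetSum, h, sub_eq_zero]
  refine Finset.sum_congr rfl fun l _ => ?_
  rw [eval₂_mul, eval₂_C, eval₂_X_pow]

variable {k F L : Type} [Field k] [Field F] [Algebra k F] [Field L] [Algebra F L]

theorem integral_map (A : Subalgebra k F) (σ : L ≃ₐ[F] L) {z : L} (hz : IsIntegral A z) :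
    IsIntegral A (σ z) :=
  hz.map (σ.toAlgHom.restrictScalars A)

/-- the valuation of a place -/
def vp (w : Fin 9 → Valuation L ℝ≥0) (p : Pl F L) : Valuation L ℝ≥0 :=
  (w p.1).comap (p.2 : L →+* L)

theorem wp_eq (w : Fin 9 → Valuation L ℝ≥0) (p : Pl F L) (z : L) : wp w p z = vp w p z := rfl

variable {c : Ctx k F} {ν : Fin 9 → Valuation F ℝ≥0} {w : Fin 9 → Valuation L ℝ≥0}

theorem le_one (hν : NuFacts c ν) (he : Ext ν w) (i : Fin 9) (p : Pl F L) (z : L)
    (hp : InCh i p) (hz : IsIntegral (c.A i) z) : wp w p z ≤ 1 := by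
  refine val_le_one (w p.1) (fun r => ?_) (integral_map (c.A i) p.2 hz)
  have e : algebraMap (c.A i) L r = algebraMap F L (r : F) := rfl
  rw [e, he]
  rcases hp with h | h <;> rw [h]
  · exact (hν.le_one i r r.2).1
  · exact (hν.le_one i r r.2).2

theorem crit [FiniteDimensional F L] [IsGalois F L] (hcp : S_CharPoly) (hg : GeoFacts c)
    (hν : NuFacts c ν) (he : Ext ν w) (i : Fin 9) (z : L) (m : ℕ)
    (hz : IsIntegral (c.A i) (algebraMap F L (c.e i) ^ m * z))
    (hp : ∀ p : Pl F L, InCh i p → wp w p z ≤ 1) : IsIntegral (c.A i) z := by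
  obtain ⟨d, γ, -, h1, h2, h3⟩ := hcp k F L z
  have hem : c.e i ^ m ∈ c.A i := (c.A i).pow_mem ((c.A i).mul_mem (hg.a_mem i) (hg.b_mem i)) m
  have h4 := h3 (c.A i) _ hem (by rwa [map_pow])
  have h5 : ∀ l, γ l ∈ c.A i := by
    intro l
    refine hν.crit i (γ l) (m * d) ?_ ?_ ?_
    · rw [pow_mul]; exact hg.int_mem i _ (h4 l)
    · rw [← he]; exact h2 (w i) 1 le_rfl (fun σ => hp (i, σ) (Or.inl rfl)) l
    · rw [← he]; exact h2 (w (i + 1)) 1 le_rfl (fun σ => hp (i + 1, σ) (Or.inr rfl)) l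
  exact integral_of_rel (R := c.A i) (fun l => ⟨γ l, h5 l⟩) (h1 1)

theorem symm (i : Fin 9) (p p' : Pl F L) (h : Adj c w i p p') : Adj c w i p' p := by
  refine ⟨h.2.1, h.1, ?_⟩
  rintro ⟨z, hz, h1, h2⟩
  refine h.2.2 ⟨1 - z, isIntegral_one.sub hz, h2, ?_⟩
  rwa [sub_sub_cancel]

theorem inv (i j j' : Fin 9) (σ σ' g : L ≃ₐ[F] L) (h : Adj c w i (j, σ) (j', σ')) :
    Adj c w i (j, σ * g) (j', σ' * g) := by
  refine ⟨h.1, h.2.1, ?_⟩
  rintro ⟨z, hz, h1, h2⟩
  refine h.2.2 ⟨g z, integral_map _ g hz, h1, ?_⟩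
  have e : 1 - g z = g (1 - z) := by rw [map_sub, map_one]
  rw [e]
  exact h2

theorem crt [FiniteDimensional F L] (hν : NuFacts c ν) (he : Ext ν w) (i : Fin 9)
    (S : Set (Pl F L)) (hS : ∀ p p', Adj c w i p p' → (p ∈ S ↔ p' ∈ S)) :
    ∃ t : L, IsIntegral (c.A i) t ∧ ∀ p, InCh i p →
      (p ∈ S → wp w p (t - 1) < 1) ∧ (p ∉ S → wp w p t < 1) := by
  classical
  set P1 : Finset (Pl F L) := Finset.univ.filter fun p => InCh i p ∧ p ∈ S with hP1
  set P0 : Finset (Pl F L) := Finset.univ.filter fun p => InCh i p ∧ p ∉ S with hP0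
  have hb : ∀ p ∈ P1, ∀ p' ∈ P0, ∃ z : L, IsIntegral (c.A i) z ∧ wp w p' z < 1 ∧
      wp w p (1 - z) < 1 := by
    intro p hp p' hp'
    rw [hP1, Finset.mem_filter] at hp
    rw [hP0, Finset.mem_filter] at hp'
    by_contra hne
    exact hp'.2.2 ((hS p' p ⟨hp'.2.1, hp.2.1, hne⟩).mpr hp.2.2)
  choose! b hbi hb0 hb1 using hb
  set tp : Pl F L → L := fun p => ∏ p' ∈ P0, b p p' with htp
  have htpi : ∀ p ∈ P1, IsIntegral (c.A i) (tp p) := fun p hp =>
    IsIntegral.prod _ fun p' hp' => hbi p hp p' hp'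
  refine ⟨1 - ∏ p ∈ P1, (1 - tp p), isIntegral_one.sub
    (IsIntegral.prod _ fun p hp => isIntegral_one.sub (htpi p hp)), fun q hq => ⟨?_, ?_⟩⟩
  · intro hqS
    have hq1 : q ∈ P1 := by rw [hP1, Finset.mem_filter]; exact ⟨Finset.mem_univ _, hq, hqS⟩
    rw [wp_eq, sub_sub_cancel_left, Valuation.map_neg]
    refine prod_lt _ _ _ (fun p hp => ?_) hq1 ?_
    · exact le_one hν he i q _ hq (isIntegral_one.sub (htpi p hp))
    · rw [Valuation.map_sub_swap]
      refine prod_sub_one _ _ _ fun p' hp' => ?_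
      rw [Valuation.map_sub_swap]
      exact hb1 q hq1 p' hp'
  · intro hqS
    have hq0 : q ∈ P0 := by rw [hP0, Finset.mem_filter]; exact ⟨Finset.mem_univ _, hq, hqS⟩
    rw [wp_eq, Valuation.map_sub_swap]
    refine prod_sub_one _ _ _ fun p hp => ?_
    rw [sub_sub_cancel_left, Valuation.map_neg]
    exact prod_lt _ _ _ (fun p' hp' => le_one hν he i q _ hq (hbi p hp p' hp')) hq0
      (hb0 p hp q hq0)

theorem succ_ne (i : Fin 9) : i + 1 ≠ i := by
  revert i; decide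

theorem exists_adj [FiniteDimensional F L] [IsGalois F L] (hg : GeoFacts c) (hν : NuFacts c ν)
    (he : Ext ν w) (i : Fin 9) : ∃ σ σ' : L ≃ₐ[F] L, Adj c w i (i, σ) (i + 1, σ') := by
  by_contra hne
  push Not at hne
  obtain ⟨t, ht, hp⟩ := crt (c := c) hν he i {p : Pl F L | p.1 = i} (by
    rintro ⟨j, σ⟩ ⟨j', σ'⟩ h
    have h1 : j = i ∨ j = i + 1 := h.1
    have h2 : j' = i ∨ j' = i + 1 := h.2.1
    change j = i ↔ j' = i
    rcases h1 with h1 | h1 <;> rcases h2 with h2 | h2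
    · rw [h1, h2]
    · rw [h1, h2] at h; exact (hne _ _ h).elim
    · rw [h1, h2] at h; exact (hne _ _ (symm _ _ _ h)).elim
    · rw [h1, h2])
  set n : F := Algebra.norm F t with hn
  have hprod : algebraMap F L n = ∏ σ : L ≃ₐ[F] L, σ t := Algebra.norm_eq_prod_automorphisms F t
  have hint : IsIntegral (c.A i) n := by
    rw [← isIntegral_algebraMap_iff (B := L) (algebraMap F L).injective, hprod]
    exact IsIntegral.prod _ fun σ _ => integral_map _ σ ht
  have hnA : n ∈ c.A i := hg.int_mem i n hint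
  have h1 : ν i (n - 1) < 1 := by
    rw [← he, map_sub, map_one, hprod]
    refine prod_sub_one _ _ _ fun σ _ => ?_
    have := (hp (i, σ) (Or.inl rfl)).1 rfl
    rwa [wp, map_sub, map_one] at this
  have h2 : ν (i + 1) n < 1 := by
    rw [← he, hprod]
    have h3 : ∀ σ : L ≃ₐ[F] L, w (i + 1) (σ t) < 1 := fun σ =>
      (hp (i + 1, σ) (Or.inr rfl)).2 (succ_ne i)
    exact prod_lt _ _ _ (fun σ _ => (h3 σ).le) (Finset.mem_univ 1) (h3 1)
  obtain ⟨p, hpA, e1⟩ := hν.lt_b i _ ((c.A i).sub_mem hnA (c.A i).one_mem) h1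
  obtain ⟨p', hpA', e2⟩ := hν.lt_a i _ hnA h2
  obtain ⟨P, p'', hpA'', e3⟩ := hg.split_b i p' hpA'
  have h4 := hg.uniq_b i (1 - X * P) (c.a i * p'' - p)
    ((c.A i).sub_mem ((c.A i).mul_mem (hg.a_mem i) hpA'') hpA) (by
      rw [map_sub, map_one, map_mul, aeval_X]
      rw [e3] at e2
      linear_combination e2 - e1)
  have h5 := congrArg (fun Q : k[X] => Q.coeff 0) h4
  simp at h5

end PlAux

theorem plS : S_Pl := by
  intro k F L _ _ _ _ _ _ _ c ν w hcp _ hg hν he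
  refine ⟨PlAux.le_one hν he, PlAux.crit hcp hg hν he, PlAux.crt hν he, PlAux.symm, PlAux.inv,
    fun i σ => ?_, fun i σ' => ?_, fun i => ?_⟩
  · obtain ⟨τ, τ', h⟩ := PlAux.exists_adj hg hν he i
    have := PlAux.inv _ _ _ _ _ (τ⁻¹ * σ) h
    rw [mul_inv_cancel_left] at this
    exact ⟨_, this⟩
  · obtain ⟨τ, τ', h⟩ := PlAux.exists_adj hg hν he i
    have := PlAux.inv _ _ _ _ _ (τ'⁻¹ * σ') h
    rw [mul_inv_cancel_left] at this
    exact ⟨_, this⟩
  · have := hg.normal i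
    have := hg.noeth i
    have := hg.frac i
    exact IsIntegralClosure.finite (c.A i) F L (integralClosure (c.A i) L)

theorem connS : S_Conn := by
  intro k F L _ _ _ _ _ _ _ c w hP H
  by_contra hne
  set r : Pl F L → Pl F L → Prop := fun p p' => ∃ i, Adj c w i p p' with hr
  have hnt : Nontrivial (Quot r) := by
    unfold Conn at hne
    push Not at hne
    obtain ⟨p, p', h⟩ := hne
    exact ⟨Quot.mk r p, Quot.mk r p', fun e => h (Quot.eq.mp e)⟩
  have hfin : Fintype (Quot r) := Fintype.ofFinite _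
  let act : Quot r → (L ≃ₐ[F] L) → Quot r := fun C g =>
    Quot.map (fun p : Pl F L => (p.1, p.2 * g))
      (fun p p' h => h.imp fun i hi => hP.inv i _ _ _ _ g hi) C
  have hcls : Cls c w (Quot.mk r) act := by
    refine ⟨fun i p p' h => Quot.sound ⟨i, h⟩, fun j σ g => rfl, fun j C => ?_⟩
    induction C using Quot.ind with
    | mk p =>
      obtain ⟨j', σ'⟩ := p
      have step : ∀ j₁ : Fin 9, (∃ σ, Quot.mk r (j₁, σ) = Quot.mk r (j', σ')) →
          ∃ σ, Quot.mk r (j₁ + 1, σ) = Quot.mk r (j', σ') := by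
        rintro j₁ ⟨σ, e⟩
        obtain ⟨τ, hτ⟩ := hP.next j₁ σ
        exact ⟨τ, (Quot.sound ⟨j₁, hτ⟩ : Quot.mk r (j₁, σ) = Quot.mk r (j₁ + 1, τ)).symm.trans e⟩
      have all : ∀ m : ℕ, ∃ σ, Quot.mk r (j' + m • (1 : Fin 9), σ) = Quot.mk r (j', σ') := by
        intro m
        induction m with
        | zero => exact ⟨σ', by rw [zero_nsmul, add_zero]⟩
        | succ m ih => rw [succ_nsmul, ← add_assoc]; exact step _ ih
      have hj : ∀ a b : Fin 9, b + (a - b).val • (1 : Fin 9) = a := by decide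
      have := all (j - j').val
      rwa [hj] at this
  obtain ⟨hC, Λ, hM⟩ := H (Quot r) (Quot.mk r) act hcls
  obtain ⟨n, N, C₁, f, hn, hf, hV, h1, h2⟩ := hC (Λ * (Fintype.card (Quot r) + 1) + 1) (by omega)
  have h3 := hM N n f C₁ hf hV
  rw [h1, h2, abs_of_nonneg (by positivity), abs_of_nonneg (by positivity)] at h3
  push_cast at h3
  have hn' : (1 : ℤ) ≤ n := by exact_mod_cast hn
  nlinarith

end

end Pool.Agent.P.MP_3a4479_al.AP
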