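import Pool.Agent.P.MP_3a4479_al.AP.Defs

set_option autoImplicit false

namespace Pool.Agent.P.MP_3a4479_al.AP

open Polynomial
open scoped NNReal

noncomputable section

namespace ResAux

variable {k F : Type} [Field k] [Field F] [Algebra k F]

lemma aeval_mem {S : Subalgebra k F} {x : F} (hx : x ∈ S) (P : k[X]) : aeval x P ∈ S := by
  rw [aeval_eq_sum_range]
  exact sum_mem fun i _ => S.smul_mem (pow_mem hx i) _

section Val

variable (w : Valuation F ℝ≥0)

lemma small_mul {x y : F} (hx : w x < 1) (hy : w y ≤ 1) : w (x * y) < 1 := by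
  rw [map_mul]
  exact mul_lt_one_of_nonneg_of_lt_one_left zero_le hx hy

lemma mul_small {x y : F} (hx : w x ≤ 1) (hy : w y < 1) : w (x * y) < 1 := by
  rw [mul_comm]; exact small_mul w hy hx

lemma mul_le {x y : F} (hx : w x ≤ 1) (hy : w y ≤ 1) : w (x * y) ≤ 1 := by
  rw [map_mul]; exact mul_le_one' hx hy

lemma pow_le {x : F} (hx : w x ≤ 1) (m : ℕ) : w (x ^ m) ≤ 1 := by
  rw [map_pow]; exact pow_le_one' hx m

lemma pow_congr {x y : F} (hx : w x ≤ 1) (hy : w y ≤ 1) (h : w (x - y) < 1) (m : ℕ) :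
    w (x ^ m - y ^ m) < 1 := by
  induction m with
  | zero => simp
  | succ m ih =>
    have : x ^ (m + 1) - y ^ (m + 1) = (x ^ m - y ^ m) * x + y ^ m * (x - y) := by ring
    rw [this]
    exact w.map_add_lt (small_mul w ih hx) (mul_small w (pow_le w hy m) h)

lemma inv_congr {x y : F} (hx : w x = 1) (hy : w y = 1) (h : w (x - y) < 1) :
    w (x⁻¹ - y⁻¹) < 1 := by
  have hx0 : x ≠ 0 := by rintro rfl; simp at hx
  have hy0 : y ≠ 0 := by rintro rfl; simp at hy
  have : x⁻¹ - y⁻¹ = -(x - y) * (x⁻¹ * y⁻¹) := by field_simp; ring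
  rw [this]
  refine small_mul w (by rwa [Valuation.map_neg]) ?_
  simp [hx, hy]

lemma zpow_congr {x y : F} (hx : w x = 1) (hy : w y = 1) (h : w (x - y) < 1) (t : ℤ) :
    w (x ^ t - y ^ t) < 1 := by
  obtain ⟨m, rfl | rfl⟩ := Int.eq_nat_or_neg t
  · simpa using pow_congr w hx.le hy.le h m
  · simp only [zpow_neg, zpow_natCast]
    exact inv_congr w (by simp [hx]) (by simp [hy]) (pow_congr w hx.le hy.le h m)

variable {w}

lemma const_le (hw : ∀ t : k, t ≠ 0 → w (algebraMap k F t) = 1) (t : k) :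
    w (algebraMap k F t) ≤ 1 := by
  by_cases ht : t = 0
  · simp [ht]
  · exact (hw t ht).le

lemma aeval_congr (hw : ∀ t : k, t ≠ 0 → w (algebraMap k F t) = 1) {x y : F} (hx : w x ≤ 1)
    (hy : w y ≤ 1) (h : w (x - y) < 1) (Q : k[X]) : w (aeval x Q - aeval y Q) < 1 := by
  induction Q using Polynomial.induction_on' with
  | add p q hp hq =>
    have : aeval x (p + q) - aeval y (p + q) =
        (aeval x p - aeval y p) + (aeval x q - aeval y q) := by
      simp only [map_add]; ring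
    rw [this]
    exact w.map_add_lt hp hq
  | monomial m t =>
    rw [aeval_monomial, aeval_monomial, ← mul_sub]
    exact mul_small w (const_le hw t) (pow_congr w hx hy h m)

end Val

/-- the polynomial identity behind the change of chart -/
lemma poly_key {P Q : k[X]} {θ : k} (hθ : θ ≠ 0) {n d : ℕ} (hd : Q.natDegree ≤ d)
    (h : X ^ d * P = C θ * (X ^ n * reflect d Q)) :
    P.natDegree ≤ n ∧ P.coeff n = θ * Q.coeff 0 ∧ Q.natDegree ≤ n ∧ (P = 0 → Q = 0) := by
  refine ⟨?_, ?_, ?_, ?_⟩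
  · rw [natDegree_le_iff_coeff_eq_zero]
    intro m hm
    have := congrArg (fun p => coeff p (m + d)) h
    simp only [coeff_C_mul, coeff_X_pow_mul', coeff_reflect] at this
    rw [if_pos (by omega), Nat.add_sub_cancel] at this
    rw [this, if_pos (by omega), revAt_eq_self_of_lt (by omega),
      coeff_eq_zero_of_natDegree_lt (by omega), mul_zero]
  · have := congrArg (fun p => coeff p (n + d)) h
    simp only [coeff_C_mul, coeff_X_pow_mul', coeff_reflect] at this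
    rw [if_pos (by omega), Nat.add_sub_cancel] at this
    rw [this, if_pos (by omega), Nat.add_sub_cancel_left, revAt_le le_rfl, Nat.sub_self]
  · rw [natDegree_le_iff_coeff_eq_zero]
    intro l hl
    by_cases hld : d < l
    · exact coeff_eq_zero_of_natDegree_lt (by omega)
    have := congrArg (fun p => coeff p (n + (d - l))) h
    simp only [coeff_C_mul, coeff_X_pow_mul', coeff_reflect] at this
    rw [if_neg (by omega), if_pos (by omega), Nat.add_sub_cancel_left, revAt_le (by omega),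
      show d - (d - l) = l by omega] at this
    exact (mul_eq_zero.mp this.symm).resolve_left hθ
  · rintro rfl
    rw [mul_zero] at h
    have h1 := (mul_eq_zero.mp h.symm).resolve_left (by simpa using hθ)
    have h2 := (mul_eq_zero.mp h1).resolve_left (pow_ne_zero _ X_ne_zero)
    exact reflect_eq_zero_iff.mp h2

variable {c : Ctx k F} {ν : Fin 9 → Valuation F ℝ≥0}

/-- the two expansions have the same value at the corner -/
lemma corner (h : GeoFacts c) (j : Fin 9) {P Q : k[X]} {p p' : F} (hp : p ∈ c.A j)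
    (hp' : p' ∈ c.A j) (e : aeval (c.a j) P + c.b j * p = aeval (c.b j) Q + c.a j * p') :
    P.coeff 0 = Q.coeff 0 := by
  obtain ⟨R, r, hr, e'⟩ := h.split_b j p' hp'
  have hQ := congrArg (aeval (c.b j)) (X_mul_divX_add Q)
  simp only [map_add, map_mul, aeval_X, aeval_C] at hQ
  have key := h.uniq_b j (P - C (Q.coeff 0) - X * R)
    (aeval (c.b j) Q.divX + c.a j * r - p)
    (sub_mem (add_mem (aeval_mem (h.b_mem j) _) (mul_mem (h.a_mem j) hr)) hp) (by
      simp only [map_sub, map_mul, aeval_X, aeval_C]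
      rw [← hQ, e'] at e
      linear_combination e)
  have := congrArg (fun p => coeff p 0) key
  simp only [coeff_sub, coeff_C_zero, mul_coeff_zero, coeff_X_zero, zero_mul, sub_zero,
    coeff_zero] at this
  exact sub_eq_zero.mp this

/-- comparison of the expansions in two consecutive charts -/
lemma trans (h : GeoFacts c) (hν : NuFacts c ν) (i : Fin 9) {T : F} {θ : k} (hθ : θ ≠ 0) {n : ℕ}
    (hT : ν (i + 1) (T - algebraMap k F θ * c.a (i + 1) ^ n) < 1) {P Q : k[X]} {p p' : F}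
    (hp : p ∈ c.A (i + 1)) (hp' : p' ∈ c.A i)
    (e : aeval (c.a (i + 1)) P + c.b (i + 1) * p = (aeval (c.b i) Q + c.a i * p') * T) :
    P.natDegree ≤ n ∧ P.coeff n = θ * Q.coeff 0 ∧ Q.natDegree ≤ n ∧ (P = 0 → Q = 0) := by
  obtain ⟨hw, -, ha, hb⟩ := hν.isNu (i + 1)
  set w := ν (i + 1) with hwdef
  set a := c.a (i + 1) with hadef
  have ha0 : a ≠ 0 := h.a_ne _
  have hcu := h.cu_ne i
  have half : (2⁻¹ : ℝ≥0) < 1 := by norm_num
  set Q' := Q.comp (C (c.cu i)⁻¹ * X) with hQ'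
  have hQc : ∀ m, Q'.coeff m = Q.coeff m * (c.cu i)⁻¹ ^ m := fun m => comp_C_mul_X_coeff
  set d := Q'.natDegree with hd
  -- the unit
  have hu : w (c.u i - algebraMap k F (c.cu i)) < 1 := by
    obtain ⟨r, hr, e1⟩ := h.u_right i
    rw [e1, add_sub_cancel_left]
    exact small_mul w (by rw [hb]; exact half) (hν.le_one _ r hr).1
  have hb' : w (c.b i - algebraMap k F (c.cu i)⁻¹ * a⁻¹) < 1 := by
    have e1 : c.b i = (c.u i)⁻¹ * a⁻¹ := by
      have := h.tb i
      have hu0 := h.u_ne i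
      field_simp
      linear_combination this
    rw [e1, ← sub_mul, map_inv₀]
    exact small_mul w (inv_congr w (hν.val_u i) (hw _ hcu) hu) (by simp [ha])
  have hy : w (algebraMap k F (c.cu i)⁻¹ * a⁻¹) ≤ 1 :=
    mul_le w (const_le hw _) (by simp [ha])
  have h1 : w (aeval (c.b i) Q - aeval a⁻¹ Q') < 1 := by
    have := aeval_congr hw (hν.left_b i).le hy hb' Q
    rwa [hQ', aeval_comp, map_mul, aeval_C, aeval_X]
  have hQb : w (aeval (c.b i) Q) ≤ 1 := (hν.le_one i _ (aeval_mem (h.b_mem i) Q)).2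
  have hθa : w (algebraMap k F θ * a ^ n) ≤ 1 := mul_le w (const_le hw _) (pow_le w ha.le n)
  have hT1 : w T ≤ 1 := by
    have := w.map_add_le hT.le hθa
    rwa [sub_add_cancel] at this
  have h2 : w (aeval a P - algebraMap k F θ * a ^ n * aeval a⁻¹ Q') < 1 := by
    have e2 : aeval a P - algebraMap k F θ * a ^ n * aeval a⁻¹ Q' =
        (aeval (c.b i) Q * (T - algebraMap k F θ * a ^ n) +
          algebraMap k F θ * a ^ n * (aeval (c.b i) Q - aeval a⁻¹ Q')) +
        (c.a i * (p' * T) - c.b (i + 1) * p) := by linear_combination e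
    rw [e2]
    refine w.map_add_lt (w.map_add_lt (mul_small w hQb hT) (mul_small w hθa h1))
      (w.map_sub_lt ?_ ?_)
    · exact small_mul w (by rw [hν.left_a i]; exact half)
        (mul_le w (hν.le_one i _ hp').2 hT1)
    · exact small_mul w (by rw [hb]; exact half) (hν.le_one _ _ hp).1
  have h3 : aeval a (reflect d Q') = a ^ d * aeval a⁻¹ Q' := by
    let _ : Invertible a⁻¹ := invertibleOfNonzero (inv_ne_zero ha0)
    have := eval₂_reflect_mul_pow (algebraMap k F) a⁻¹ d Q' le_rfl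
    rw [invOf_eq_inv, inv_inv] at this
    rw [aeval_def, aeval_def, ← this, inv_pow, mul_left_comm,
      mul_inv_cancel₀ (pow_ne_zero d ha0), mul_one]
  have h4 : X ^ d * P - C θ * (X ^ n * reflect d Q') = 0 := by
    by_contra hne
    have h5 := hν.val_poly (i + 1) _ hne
    have h6 := mul_small w (pow_le w ha.le d) h2
    have e3 : aeval a (X ^ d * P - C θ * (X ^ n * reflect d Q')) =
        a ^ d * (aeval a P - algebraMap k F θ * a ^ n * aeval a⁻¹ Q') := by
      simp only [map_sub, map_mul, map_pow, aeval_X, aeval_C, h3]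
      ring
    rw [← e3] at h6
    exact h6.ne h5
  obtain ⟨k1, k2, k3, k4⟩ := poly_key hθ le_rfl (sub_eq_zero.mp h4)
  have hne : ∀ m, (c.cu i)⁻¹ ^ m ≠ 0 := fun m => pow_ne_zero _ (inv_ne_zero hcu)
  refine ⟨k1, by rw [k2, hQc, pow_zero, mul_one], ?_, fun h0 => ?_⟩
  · rw [natDegree_le_iff_coeff_eq_zero] at k3 ⊢
    intro m hm
    have := k3 m hm
    rw [hQc] at this
    exact (mul_eq_zero.mp this).resolve_right (hne m)
  · ext m
    have := hQc m
    rw [k4 h0, coeff_zero] at this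
    exact (mul_eq_zero.mp this.symm).resolve_right (hne m)

/-- exponent of the transition unit in the local equations of the first exceptional curve -/
def pe : Fin 9 → ℤ := ![-1, 0, 0, 0, 0, 0, 0, 1, 0]

lemma ph_succ (h : GeoFacts c) (i : Fin 9) (hi : i ≠ 8) :
    c.ph 0 (i + 1) = c.ph 0 i * c.u i ^ pe i := by
  have h0 : c.a 0 - c.l ≠ 0 := h.u_ne 0
  fin_cases i
  · show (1 : F) = (c.a 0 - c.l) * (c.a 0 - c.l) ^ (-1 : ℤ)
    rw [zpow_neg_one, mul_inv_cancel₀ h0]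
  · show (1 : F) = 1 * c.u 1 ^ (0 : ℤ); simp
  · show (1 : F) = 1 * c.u 2 ^ (0 : ℤ); simp
  · show (1 : F) = 1 * c.u 3 ^ (0 : ℤ); simp
  · show (1 : F) = 1 * c.u 4 ^ (0 : ℤ); simp
  · show (1 : F) = 1 * c.u 5 ^ (0 : ℤ); simp
  · show (1 : F) = 1 * c.u 6 ^ (0 : ℤ); simp
  · show (1 - c.l * c.b 8 : F) = 1 * (1 - c.l * c.b 8) ^ (1 : ℤ); simp
  · exact absurd rfl hi

lemma mu_succ (h : GeoFacts c) (N : ℤ) (n : ℕ) (i : Fin 9) (hi : i ≠ 8) :
    c.mu N n (i + 1) = c.mu N n i * c.u i ^ (ue i * N + pe i * n) := by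
  unfold Ctx.mu
  rw [h.te i, ph_succ h i hi, mul_zpow, mul_pow, zpow_add₀ (h.u_ne i), zpow_mul, zpow_mul,
    zpow_natCast]
  ring

lemma mu_zero (h : GeoFacts c) (N : ℤ) (n : ℕ) : c.mu N n 0 = c.mu N n 8 * c.a 0 ^ n := by
  have e1 : c.e 0 = c.e 8 := by
    have : c.e 0 = c.e 8 * c.u 8 ^ (0 : ℤ) := h.te 8
    simpa using this
  unfold Ctx.mu
  rw [h.tph8, e1, mul_pow, mul_assoc]

lemma cu_pow (N : ℤ) (n : ℕ) (i : Fin 9) :
    c.cu i ^ (ue i * N + pe i * n) =
      if i = 0 then c.lm ^ (N - n) else if i = 3 ∨ i = 6 then (-1) ^ N else 1 := by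
  fin_cases i
  · show c.lm ^ ((1 : ℤ) * N + (-1) * n) = c.lm ^ (N - n)
    congr 1; ring
  · show (1 : k) ^ _ = 1; exact one_zpow _
  · show (1 : k) ^ _ = 1; exact one_zpow _
  · show (-1 : k) ^ ((1 : ℤ) * N + 0 * n) = (-1) ^ N; congr 1; ring
  · show (1 : k) ^ _ = 1; exact one_zpow _
  · show (1 : k) ^ _ = 1; exact one_zpow _
  · show (-1 : k) ^ ((1 : ℤ) * N + 0 * n) = (-1) ^ N; congr 1; ring
  · show (1 : k) ^ _ = 1; exact one_zpow _
  · show (1 : k) ^ _ = 1; exact one_zpow _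

/-- the expansions of a section in all charts -/
lemma main (_hc : c.Good) (h : GeoFacts c) (hν : NuFacts c ν) {N : ℤ} {n : ℕ} {g : F}
    (hg : g ∈ c.M N n) : ∃ (P Q : Fin 9 → k[X]) (γ : Fin 9 → k),
      (∀ j, ∃ p ∈ c.A j, g * c.mu N n j = aeval (c.a j) (P j) + c.b j * p) ∧
      (∀ j, ∃ p ∈ c.A j, g * c.mu N n j = aeval (c.b j) (Q j) + c.a j * p) ∧
      γ 0 = (P 0).coeff 0 ∧ (∀ j, j ≠ 0 → P j = C (γ j)) ∧ (∀ j, j ≠ 8 → Q j = C (γ j)) ∧
      ((∀ j, ∃ ε : k, ε ≠ 0 ∧ γ j = ε * γ 0) ∧ γ 8 = c.lm ^ (N - n) * γ 0) ∧ (P 0).natDegree ≤ n ∧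
      (P 0).coeff n = γ 8 ∧ (P 0 = 0 → Q 8 = 0) := by
  choose P p hp eP using fun j => h.split_b j _ (hg j)
  choose Q p' hp' eQ using fun j => h.split_a j _ (hg j)
  have hcor : ∀ j, (P j).coeff 0 = (Q j).coeff 0 := fun j =>
    corner h j (hp j) (hp' j) ((eP j).symm.trans (eQ j))
  have step : ∀ i : Fin 9, i ≠ 8 → (P (i + 1)).natDegree ≤ 0 ∧
      (P (i + 1)).coeff 0 = (if i = 0 then c.lm ^ (N - n) else if i = 3 ∨ i = 6 then (-1) ^ N else 1) *
        (P i).coeff 0 ∧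
      (Q i).natDegree ≤ 0 := by
    intro i hi
    obtain ⟨hw, -, -, hb⟩ := hν.isNu (i + 1)
    have hu : ν (i + 1) (c.u i - algebraMap k F (c.cu i)) < 1 := by
      obtain ⟨r, hr, e1⟩ := h.u_right i
      rw [e1, add_sub_cancel_left]
      exact small_mul _ (by rw [hb]; norm_num) (hν.le_one _ r hr).1
    have hT := zpow_congr _ (hν.val_u i) (hw _ (h.cu_ne i)) hu (ue i * N + pe i * n)
    obtain ⟨k1, k2, k3, -⟩ := trans h hν i (θ := c.cu i ^ (ue i * N + pe i * n))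
      (zpow_ne_zero _ (h.cu_ne i)) (n := 0) (T := c.u i ^ (ue i * N + pe i * n))
      (by rw [pow_zero, mul_one, map_zpow₀]; exact hT) (hp (i + 1)) (hp' i)
      (by rw [← eP, ← eQ, mu_succ h N n i hi, mul_assoc])
    rw [cu_pow, ← hcor] at k2
    exact ⟨k1, k2, k3⟩
  obtain ⟨l1, l2, -, l4⟩ := trans h hν 8 (θ := 1) one_ne_zero (n := n) (T := c.a 0 ^ n)
    (P := P 0) (Q := Q 8) (p := p 0) (p' := p' 8)
    (by
      show ν 0 (c.a 0 ^ n - algebraMap k F 1 * c.a 0 ^ n) < 1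
      simp) (hp 0) (hp' 8)
    (by
      show aeval (c.a 0) (P 0) + c.b 0 * p 0 = _
      rw [← eP, ← eQ, mu_zero h, mul_assoc])
  refine ⟨P, Q, fun j => (P j).coeff 0, fun j => ⟨p j, hp j, eP j⟩, fun j => ⟨p' j, hp' j, eQ j⟩,
    rfl, ?_, ?_, ?_, l1, by rw [l2, one_mul]; exact (hcor 8).symm, l4⟩
  · intro j hj
    obtain ⟨i, rfl⟩ : ∃ i, j = i + 1 := ⟨j - 1, by simp⟩
    have hi : i ≠ 8 := by rintro rfl; exact hj rfl
    exact eq_C_of_natDegree_le_zero (step i hi).1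
  · intro j hj
    show Q j = C ((P j).coeff 0)
    rw [hcor]
    exact eq_C_of_natDegree_le_zero (step j hj).2.2
  · have s0 : (P 1).coeff 0 = c.lm ^ (N - n) * (P 0).coeff 0 := by
      simpa using (step 0 (by decide)).2.1
    have s1 : (P 2).coeff 0 = (P 1).coeff 0 := by simpa using (step 1 (by decide)).2.1
    have s2 : (P 3).coeff 0 = (P 2).coeff 0 := by simpa using (step 2 (by decide)).2.1
    have s3 : (P 4).coeff 0 = (-1) ^ N * (P 3).coeff 0 := by simpa using (step 3 (by decide)).2.1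
    have s4 : (P 5).coeff 0 = (P 4).coeff 0 := by simpa using (step 4 (by decide)).2.1
    have s5 : (P 6).coeff 0 = (P 5).coeff 0 := by simpa using (step 5 (by decide)).2.1
    have s6 : (P 7).coeff 0 = (-1) ^ N * (P 6).coeff 0 := by simpa using (step 6 (by decide)).2.1
    have s7 : (P 8).coeff 0 = (P 7).coeff 0 := by simpa using (step 7 (by decide)).2.1
    have t3 := s2.trans (s1.trans s0)
    have t4 : (P 4).coeff 0 = ((-1) ^ N * c.lm ^ (N - n)) * (P 0).coeff 0 := by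
      rw [s3, t3, mul_assoc]
    have t6 := s5.trans (s4.trans t4)
    have t7 : (P 7).coeff 0 = c.lm ^ (N - n) * (P 0).coeff 0 := by
      rw [s6, t6, ← mul_assoc, ← mul_assoc, ← mul_zpow, neg_mul_neg, one_mul, one_zpow, one_mul]
    have n1 : c.lm ^ (N - n) ≠ 0 := zpow_ne_zero _ h.lm_ne
    have n2 : (-1 : k) ^ N * c.lm ^ (N - n) ≠ 0 :=
      mul_ne_zero (zpow_ne_zero _ (neg_ne_zero.mpr one_ne_zero)) n1
    refine ⟨fun j => ?_, s7.trans t7⟩
    fin_cases j
    · exact ⟨1, one_ne_zero, (one_mul _).symm⟩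
    · exact ⟨_, n1, s0⟩
    · exact ⟨_, n1, s1.trans s0⟩
    · exact ⟨_, n1, t3⟩
    · exact ⟨_, n2, t4⟩
    · exact ⟨_, n2, s4.trans t4⟩
    · exact ⟨_, n2, t6⟩
    · exact ⟨_, n1, t7⟩
    · exact ⟨_, n1, s7.trans t7⟩

lemma uniq (h : GeoFacts c) {N : ℤ} {n : ℕ} {g : F} {P P' : k[X]} (h1 : c.IsRes N n g P)
    (h2 : c.IsRes N n g P') : P = P' := by
  obtain ⟨p, hp, e⟩ := h1
  obtain ⟨p', hp', e'⟩ := h2
  refine sub_eq_zero.mp (h.uniq_b 0 _ (p' - p) (sub_mem hp' hp) ?_)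
  rw [map_sub]
  linear_combination e' - e

lemma ex (hc : c.Good) (h : GeoFacts c) (hν : NuFacts c ν) {N : ℤ} {n : ℕ} {g : F}
    (hg : g ∈ c.M N n) : ∃ P, c.IsRes N n g P ∧ c.Glue N n P := by
  obtain ⟨P, Q, γ, hP, -, h0, -, -, hγ, hd, hn, -⟩ := main hc h hν hg
  refine ⟨P 0, hP 0, hd, ?_⟩
  rw [hn, hγ.2, ← mul_assoc, ← zpow_add₀ h.lm_ne, h0]
  simp

lemma mu_pred (h : GeoFacts c) (N : ℤ) (n : ℕ) (j : Fin 9) :
    c.mu N n j = c.mu (N - 1) n j * (c.a j * c.b j) := by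
  have he : c.e j ≠ 0 := mul_ne_zero (h.a_ne j) (h.b_ne j)
  show c.e j ^ N * _ = c.e j ^ (N - 1) * _ * c.e j
  rw [zpow_sub_one₀ he]
  field_simp

lemma ker (hc : c.Good) (h : GeoFacts c) (hν : NuFacts c ν) {N : ℤ} {n : ℕ} {g : F}
    (hg : g ∈ c.M N n) (h0 : c.IsRes N n g 0) : g ∈ c.M (N - 1) n := by
  obtain ⟨P, Q, γ, hP, hQ, h1, h2, h3, hγ, -, -, h8⟩ := main hc h hν hg
  have P0 : P 0 = 0 := uniq h (hP 0) h0
  have g0 : γ 0 = 0 := by rw [h1, P0, coeff_zero]
  have gj : ∀ j, γ j = 0 := fun j => by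
    obtain ⟨ε, -, hε⟩ := hγ.1 j
    rw [hε, g0, mul_zero]
  have Pj : ∀ j, P j = 0 := fun j => by
    by_cases hj : j = 0
    · rw [hj, P0]
    · rw [h2 j hj, gj, C_0]
  have Qj : ∀ j, Q j = 0 := fun j => by
    by_cases hj : j = 8
    · rw [hj, h8 P0]
    · rw [h3 j hj, gj, C_0]
  intro j
  obtain ⟨p, hp, e⟩ := hP j
  obtain ⟨p', hp', e'⟩ := hQ j
  rw [Pj, map_zero, zero_add] at e
  rw [Qj, map_zero, zero_add] at e'
  obtain ⟨r, hr, er⟩ := h.div_e j p' hp' p hp (e'.symm.trans e)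
  have he : c.a j * c.b j ≠ 0 := mul_ne_zero (h.a_ne j) (h.b_ne j)
  have : g * c.mu (N - 1) n j = r := by
    refine mul_right_cancel₀ he ?_
    rw [mul_assoc, ← mu_pred h, e', er]
    ring
  rw [this]
  exact hr

lemma add {N : ℤ} {n : ℕ} {g g' : F} {P P' : k[X]} (h1 : c.IsRes N n g P)
    (h2 : c.IsRes N n g' P') : c.IsRes N n (g + g') (P + P') := by
  obtain ⟨p, hp, e⟩ := h1
  obtain ⟨p', hp', e'⟩ := h2
  refine ⟨p + p', add_mem hp hp', ?_⟩
  rw [map_add]
  linear_combination e + e'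

lemma smul {N : ℤ} {n : ℕ} {g : F} {P : k[X]} (t : k) (h1 : c.IsRes N n g P) :
    c.IsRes N n (t • g) (t • P) := by
  obtain ⟨p, hp, e⟩ := h1
  refine ⟨t • p, (c.A 0).smul_mem hp t, ?_⟩
  rw [smul_mul_assoc, e, map_smul, smul_add, mul_smul_comm]

lemma neg (hν : NuFacts c ν) {N : ℤ} (hN : N < 0) {n : ℕ} {g : F} (hg : g ∈ c.M N n) :
    g = 0 := by
  by_contra hne
  obtain ⟨N', -, e, -⟩ := hν.box N n g hg hne
  omega

lemma const (hc : c.Good) (h : GeoFacts c) (hν : NuFacts c ν) (m : ℕ) :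
    ∀ g ∈ c.M m 0, ∃ t : k, g = algebraMap k F t := by
  induction m with
  | zero =>
    intro g hg
    obtain ⟨P, hP, hd, -⟩ := ex hc h hν hg
    have e1 := eq_C_of_natDegree_le_zero hd
    refine ⟨P.coeff 0, ?_⟩
    have h1 : c.IsRes ((0 : ℕ) : ℤ) 0 1 1 := ⟨0, zero_mem _, by simp [Ctx.mu]⟩
    have h2 := add hP (smul (-P.coeff 0) h1)
    have e2 : P + -P.coeff 0 • (1 : k[X]) = 0 := by
      rw [smul_eq_C_mul, mul_one, C_neg, ← e1, add_neg_cancel]
    rw [e2] at h2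
    have h3 := ker hc h hν (add_mem hg (Submodule.smul_mem _ _ h.one_mem)) h2
    have h4 := neg hν (by norm_num) h3
    rw [Algebra.smul_def, mul_one, map_neg] at h4
    linear_combination h4
  | succ m ih =>
    intro g hg
    obtain ⟨P, hP, hd, hg0⟩ := ex hc h hν hg
    have e1 := eq_C_of_natDegree_le_zero hd
    have e0 : P.coeff 0 = 0 := by
      by_contra hne
      have h1 : c.lm ^ (((0 : ℕ) : ℤ) - ((m + 1 : ℕ) : ℤ)) = 1 := by
        refine mul_right_cancel₀ hne ?_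
        rw [one_mul]; exact hg0.symm
      have := h.lm_zpow _ h1
      omega
    rw [e0, C_0] at e1
    rw [e1] at hP
    have h3 := ker hc h hν hg hP
    refine ih g ?_
    simpa using h3

end ResAux

open ResAux in
theorem res : S_Res := by
  intro k F _ _ _ c ν hc h hν
  refine ⟨fun N n g hg => ex hc h hν hg, fun N n g hg h0 => ker hc h hν hg h0,
    fun N n g P P' h1 h2 => uniq h h1 h2, fun N n g g' P P' h1 h2 => add h1 h2,
    fun N n g P t h1 => smul t h1, ?_, ?_, ?_, ?_, fun N hN g hg => neg hν hN hg⟩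
  · rintro N n N' n' g g' P P' ⟨p, hp, e⟩ ⟨p', hp', e'⟩
    refine ⟨aeval (c.a 0) P * p' + p * aeval (c.a 0) P' + c.b 0 * (p * p'),
      add_mem (add_mem (mul_mem (aeval_mem (h.a_mem 0) P) hp')
        (mul_mem hp (aeval_mem (h.a_mem 0) P'))) (mul_mem (h.b_mem 0) (mul_mem hp hp')), ?_⟩
    rw [h.mu_mul, map_mul, mul_mul_mul_comm, e, e']
    ring
  · intro N n g hg
    refine ⟨c.a 0 * (g * c.mu (N - 1) n 0), mul_mem (h.a_mem 0) (hg 0), ?_⟩
    rw [mu_pred h, map_zero]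
    ring
  · intro N n g hg P hP j
    obtain ⟨P', Q, γ, hP', hQ, h1, h2, h3, hγ, -⟩ := main hc h hν hg
    have e0 : P' 0 = P := uniq h (hP' 0) hP
    refine ⟨γ j, ?_, fun hj => ?_, fun hj => ?_⟩
    · rw [← e0, ← h1]
      obtain ⟨ε, hε0, hε⟩ := hγ.1 j
      rw [hε, mul_eq_zero, or_iff_right hε0]
    · obtain ⟨p, hp, e⟩ := hP' j
      exact ⟨p, hp, by rw [e, h2 j hj, aeval_C]⟩
    · obtain ⟨p, hp, e⟩ := hQ j
      exact ⟨p, hp, by rw [e, h3 j hj, aeval_C]⟩
  · intro N g hg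
    obtain ⟨m, rfl | rfl⟩ := Int.eq_nat_or_neg N
    · exact const hc h hν m g hg
    · rcases Nat.eq_zero_or_pos m with rfl | hm
      · exact const hc h hν 0 g (by simpa using hg)
      · exact ⟨0, by rw [neg hν (by omega) hg, map_zero]⟩

end

end Pool.Agent.P.MP_3a4479_al.AP
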