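import Pool.Agent.P.MP_3a4479_al.AP.Defs

set_option autoImplicit false

namespace Pool.Agent.P.MP_3a4479_al.AP

open Polynomial Filter Topology
open scoped NNReal

namespace TubeAux

variable {k F : Type} [Field k] [Field F] [Algebra k F]

theorem ev2_eq (a b : F) (P : P2 k) :
    ev2 k a b P = ∑ d ∈ P.support, algebraMap k F (P.coeff d) * (a ^ d 0 * b ^ d 1) := by
  unfold ev2
  rw [MvPolynomial.aeval_def, MvPolynomial.eval₂_eq']
  refine Finset.sum_congr rfl fun d _ => ?_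
  rw [Fin.prod_univ_two]
  rfl

/-- a valuation over `v` with prescribed radii, Gauss in the given coordinates -/
def Rad (v : Valuation k ℝ≥0) (a b : F) (r s : ℝ≥0) (y : Valuation F ℝ≥0) : Prop :=
  (∀ z : k, y (algebraMap k F z) = v z) ∧ y a = r ∧ y b = s ∧ IsGauss k y a b

theorem bound (v : Valuation k ℝ≥0) (a b : F) (p : F) (hp : p ∈ (ev2 k a b).range) :
    ∃ K : ℝ≥0, ∀ y : Valuation F ℝ≥0, (∀ z : k, y (algebraMap k F z) = v z) → y a ≤ 1 →
      y b ≤ 1 → y p ≤ K := by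
  obtain ⟨P, rfl⟩ := hp
  refine ⟨∑ d ∈ P.support, v (P.coeff d), fun y hy ha hb => ?_⟩
  change y (ev2 k a b P) ≤ _
  rw [ev2_eq]
  refine y.map_sum_le fun d hd => ?_
  rw [map_mul, map_mul, map_pow, map_pow, hy]
  calc v (P.coeff d) * (y a ^ d 0 * y b ^ d 1) ≤ v (P.coeff d) * 1 :=
        mul_le_mul_right (mul_le_one' (pow_le_one' ha _) (pow_le_one' hb _)) _
    _ = v (P.coeff d) := mul_one _
    _ ≤ _ := Finset.single_le_sum (f := fun d => v (P.coeff d)) (fun _ _ => zero_le) hd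

theorem ev_lt (K c₀ : ℝ≥0) (h : 0 < c₀) : ∀ᶠ ε in 𝓝[>] (0 : ℝ≥0), ε * K < c₀ := by
  have h1 : Tendsto (fun ε : ℝ≥0 => ε * K) (𝓝 0) (𝓝 (0 * K)) :=
    (continuous_id.mul continuous_const).tendsto 0
  rw [zero_mul] at h1
  exact (h1.eventually (gt_mem_nhds h)).filter_mono nhdsWithin_le_nhds

theorem ev_le_one : ∀ᶠ ε in 𝓝[>] (0 : ℝ≥0), ε ≤ 1 := by
  filter_upwards [ev_lt 1 1 one_pos] with ε h
  rw [mul_one] at h
  exact h.le

variable {c : Ctx k F} {ν : Fin 9 → Valuation F ℝ≥0}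

theorem tinyY (hν : NuFacts c ν) (v : Valuation k ℝ≥0) (j : Fin 9) (γ : F) (hγ : ν j γ < 1) :
    ∀ᶠ ε in 𝓝[>] (0 : ℝ≥0), ∀ y, Rad v (c.a j) (c.b j) 1 ε y → y γ < 1 := by
  obtain ⟨P, hP, Q, hQ, hQ1, hPQ⟩ := hν.quot j γ hγ.le
  have hP1 : ν j P < 1 := by rw [← hPQ, map_mul, hQ1, mul_one]; exact hγ
  obtain ⟨p, hp, rfl⟩ := hν.lt_b j P hP hP1
  obtain ⟨K, hK⟩ := bound v _ _ p hp
  obtain ⟨Q', rfl⟩ := hQ
  change ν j (ev2 k (c.a j) (c.b j) Q') = 1 at hQ1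
  change γ * ev2 k (c.a j) (c.b j) Q' = _ at hPQ
  obtain ⟨h1, -, h3, h4⟩ := hν.isNu j
  have hd : ∃ d ∈ Q'.support, d 1 = 0 := by
    by_contra hcon
    push Not at hcon
    have : ν j (ev2 k (c.a j) (c.b j) Q') < 1 := by
      rw [ev2_eq]
      refine (ν j).map_sum_lt one_ne_zero fun d hd => ?_
      rw [map_mul, map_mul, map_pow, map_pow, h1 _ (MvPolynomial.mem_support_iff.1 hd), h3, h4,
        one_pow, one_mul, one_mul]
      exact pow_lt_one₀ zero_le (by norm_num) (hcon d hd)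
    exact this.ne hQ1
  obtain ⟨d, hd, hd1⟩ := hd
  have hc0 : 0 < v (Q'.coeff d) :=
    pos_iff_ne_zero.2 ((Valuation.ne_zero_iff v).2 (MvPolynomial.mem_support_iff.1 hd))
  filter_upwards [ev_lt K _ hc0, ev_le_one] with ε h5 h6 y hy
  obtain ⟨y1, y2, y3, y4⟩ := hy
  have h7 := y4 Q' d
  rw [y1, y2, hd1, one_pow, pow_zero, mul_one, mul_one] at h7
  have h8 := congrArg y hPQ
  rw [map_mul, map_mul, y3] at h8
  have h9 : ε * y p ≤ ε * K := mul_le_mul_right (hK y y1 y2.le (y3.le.trans h6)) _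
  by_contra hcon
  push Not at hcon
  have : v (Q'.coeff d) ≤ y γ * y (ev2 k (c.a j) (c.b j) Q') :=
    h7.trans (le_mul_of_one_le_left zero_le hcon)
  exact absurd (this.trans (h8.le.trans h9)) (not_le.2 h5)

theorem tinyZ (v : Valuation k ℝ≥0) (j : Fin 9) (p : F) (hp : p ∈ c.A j) :
    ∀ᶠ ε in 𝓝[>] (0 : ℝ≥0), ∀ y, Rad v (c.a j) (c.b j) ε ε y → y (c.e j * p) < 1 := by
  obtain ⟨K, hK⟩ := bound v _ _ p hp
  filter_upwards [ev_lt K 1 one_pos, ev_le_one] with ε h5 h6 y hy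
  obtain ⟨y1, y2, y3, -⟩ := hy
  unfold Ctx.e
  rw [map_mul, map_mul, y2, y3]
  calc ε * ε * y p ≤ 1 * ε * K :=
        mul_le_mul' (mul_le_mul_left h6 _) (hK y y1 (y2.le.trans h6) (y3.le.trans h6))
    _ = ε * K := by rw [one_mul]
    _ < 1 := h5

theorem tinyU (h : GeoFacts c) (v : Valuation k ℝ≥0) (i : Fin 9) :
    ∀ᶠ ε in 𝓝[>] (0 : ℝ≥0), ∀ y, Rad v (c.a (i + 1)) (c.b (i + 1)) 1 ε y →
      y (c.u i) = v (c.cu i) := by
  obtain ⟨p, hp, hu⟩ := h.u_right i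
  obtain ⟨K, hK⟩ := bound v _ _ p hp
  have hc0 : 0 < v (c.cu i) := pos_iff_ne_zero.2 ((Valuation.ne_zero_iff v).2 (h.cu_ne i))
  filter_upwards [ev_lt K _ hc0, ev_le_one] with ε h5 h6 y hy
  obtain ⟨y1, y2, y3, -⟩ := hy
  rw [hu, y.map_add_eq_of_lt_left, y1]
  rw [y1, map_mul, y3]
  exact (mul_le_mul_right (hK y y1 y2.le (y3.le.trans h6)) _).trans_lt h5

variable {L : Type} [Field L] [Algebra F L]

theorem small_of_coeff {z : L} {d : ℕ} {γ : Fin d → F}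
    (hz : z ^ d = ∑ l, algebraMap F L (γ l) * z ^ (l : ℕ)) (W : Valuation L ℝ≥0)
    (hW : ∀ l, W (algebraMap F L (γ l)) < 1) : W z < 1 := by
  by_contra hcon
  push Not at hcon
  have h0 : 0 < W z := one_pos.trans_le hcon
  have : W (z ^ d) < W z ^ d := by
    rw [hz]
    refine W.map_sum_lt (pow_pos h0 d).ne' fun l _ => ?_
    rw [map_mul, map_pow]
    calc W (algebraMap F L (γ l)) * W z ^ (l : ℕ) < 1 * W z ^ (l : ℕ) :=
          mul_lt_mul_of_pos_right (hW l) (pow_pos h0 _)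
      _ = W z ^ (l : ℕ) := one_mul _
      _ ≤ W z ^ d := pow_le_pow_right₀ hcon l.2.le
  rw [map_pow] at this
  exact lt_irrefl _ this

variable [FiniteDimensional F L]

theorem coeff_small {z : L} {d : ℕ} {γ : Fin d → F}
    (hγ : ∀ (w : Valuation L ℝ≥0) (ρ : ℝ≥0), ρ ≤ 1 → (∀ σ : L ≃ₐ[F] L, w (σ z) ≤ ρ) →
        ∀ l, w (algebraMap F L (γ l)) ≤ ρ) (W : Valuation L ℝ≥0)
    (hW : ∀ σ : L ≃ₐ[F] L, W (σ z) < 1) (l : Fin d) : W (algebraMap F L (γ l)) < 1 := by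
  obtain ⟨σ₀, h₀⟩ := Finite.exists_max fun σ : L ≃ₐ[F] L => W (σ z)
  exact (hγ W _ (hW σ₀).le h₀ l).trans_lt (hW σ₀)

variable [IsGalois F L] {w : Fin 9 → Valuation L ℝ≥0}

theorem smallY (hC : S_CharPoly) (hν : NuFacts c ν) (hw : Ext ν w) (v : Valuation k ℝ≥0)
    (j : Fin 9) (z : L) (hz : ∀ σ : L ≃ₐ[F] L, w j (σ z) < 1) :
    ∀ᶠ ε in 𝓝[>] (0 : ℝ≥0), ∀ W : Valuation L ℝ≥0,
      Rad v (c.a j) (c.b j) 1 ε (W.comap (algebraMap F L)) → ∀ σ : L ≃ₐ[F] L, W (σ z) < 1 := by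
  obtain ⟨d, γ, -, h1, h2, -⟩ := hC k F L z
  have h3 : ∀ l, ν j (γ l) < 1 := fun l => by
    rw [← hw]
    exact coeff_small h2 _ hz l
  filter_upwards [eventually_all.2 fun l => tinyY hν v j (γ l) (h3 l)] with ε h4 W hW σ
  exact small_of_coeff (h1 σ) W fun l => h4 l _ hW

theorem smallZ (hC : S_CharPoly) (h : GeoFacts c) (hν : NuFacts c ν) (hw : Ext ν w)
    (v : Valuation k ℝ≥0) (j : Fin 9) (z : L) (hi : IsIntegral (c.A j) z)
    (hz : ∀ σ : L ≃ₐ[F] L, w j (σ z) < 1) (hz' : ∀ σ : L ≃ₐ[F] L, w (j + 1) (σ z) < 1) :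
    ∀ᶠ ε in 𝓝[>] (0 : ℝ≥0), ∀ W : Valuation L ℝ≥0,
      Rad v (c.a j) (c.b j) ε ε (W.comap (algebraMap F L)) → ∀ σ : L ≃ₐ[F] L, W (σ z) < 1 := by
  obtain ⟨d, γ, -, h1, h2, h5⟩ := hC k F L z
  have h3 : ∀ l, ∃ p ∈ c.A j, γ l = c.e j * p := fun l => by
    refine hν.lt_e j _ (h.int_mem j _ ?_) ?_ ?_
    · have := h5 (c.A j) 1 (c.A j).one_mem (by simpa using hi) l
      simpa using this
    · rw [← hw]
      exact coeff_small h2 _ hz l
    · rw [← hw]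
      exact coeff_small h2 _ hz' l
  choose p hp hγ using h3
  filter_upwards [eventually_all.2 fun l => tinyZ v j (p l) (hp l)] with ε h4 W hW σ
  refine small_of_coeff (h1 σ) W fun l => ?_
  rw [hγ l]
  exact h4 l _ hW

omit [FiniteDimensional F L] [IsGalois F L] in
theorem not_both (W : Valuation L ℝ≥0) (x : L) (h1 : W (x - 1) < 1) (h2 : W x < 1) : False := by
  have := W.map_sub_lt h2 h1
  simp at this

omit [FiniteDimensional F L] [IsGalois F L] in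
theorem exists_kappa {Cl : Type} [Fintype Cl] (act : Cl → (L ≃ₐ[F] L) → Cl)
    (W : Valuation L ℝ≥0) (t : Cl → L)
    (h1 : ∀ C C', C ≠ C' → ∀ σ : L ≃ₐ[F] L, W (σ (t C * t C')) < 1)
    (h2 : ∀ σ : L ≃ₐ[F] L, W (σ (∑ C, t C - 1)) < 1)
    (h3 : ∀ (g : L ≃ₐ[F] L) (C : Cl) (σ : L ≃ₐ[F] L), W (σ (g (t (act C g)) - t C)) < 1) :
    ∃ κ : (L ≃ₐ[F] L) → Cl, Sep W κ t ∧ ∀ σ g, κ (σ * g) = act (κ σ) g := by
  classical
  have h4 : ∀ σ : L ≃ₐ[F] L, ∃ C, 1 ≤ W (σ (t C)) := fun σ => by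
    by_contra hcon
    push Not at hcon
    refine not_both W (σ (∑ C, t C)) (by simpa using h2 σ) ?_
    rw [map_sum]
    exact W.map_sum_lt one_ne_zero fun C _ => hcon C
  choose κ hκ using h4
  have h5 : ∀ σ C, κ σ ≠ C → W (σ (t C)) < 1 := fun σ C hC => by
    have := h1 _ _ hC σ
    rw [map_mul, map_mul] at this
    exact (le_mul_of_one_le_left zero_le (hκ σ)).trans_lt this
  have hS : Sep W κ t := by
    intro σ C
    refine ⟨?_, h5 σ C⟩
    rintro rfl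
    have e : σ (t (κ σ)) - 1 =
        σ (∑ C, t C - 1) - ∑ C ∈ Finset.univ.erase (κ σ), σ (t C) := by
      rw [map_sub, map_sum, map_one, ← Finset.add_sum_erase _ _ (Finset.mem_univ (κ σ))]
      ring
    rw [e]
    refine W.map_sub_lt (h2 σ) (W.map_sum_lt one_ne_zero fun C hC => h5 σ C ?_)
    exact (Finset.ne_of_mem_erase hC).symm
  refine ⟨κ, hS, fun σ g => ?_⟩
  by_contra hcon
  refine not_both W _ ?_ ((hS (σ * g) _).2 hcon)
  have e : (σ * g) (t (act (κ σ) g)) - 1 =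
      σ (g (t (act (κ σ) g)) - t (κ σ)) + (σ (t (κ σ)) - 1) := by
    rw [map_sub, AlgEquiv.mul_apply]
    ring
  rw [e]
  exact W.map_add_lt (h3 g _ σ) ((hS σ _).1 rfl)

omit [IsGalois F L] in
theorem ev_kappa {Cl : Type} [Fintype Cl] {cls : Pl F L → Cl} {act : Cl → (L ≃ₐ[F] L) → Cl}
    (hP : PlFacts c w) (hc : Cls c w cls act) (i : Fin 9) (t : Cl → L)
    (ht : ∀ C, IsIntegral (c.A i) (t C))
    (hpl : ∀ C p, InCh i p →
      (cls p = C → wp w p (t C - 1) < 1) ∧ (cls p ≠ C → wp w p (t C) < 1))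
    (R : ℝ≥0 → Valuation L ℝ≥0 → Prop)
    (hR : ∀ z : L, IsIntegral (c.A i) z → (∀ p : Pl F L, InCh i p → wp w p z < 1) →
      ∀ᶠ ε in 𝓝[>] (0 : ℝ≥0), ∀ W, R ε W → ∀ σ : L ≃ₐ[F] L, W (σ z) < 1) :
    ∀ᶠ ε in 𝓝[>] (0 : ℝ≥0), ∀ W, R ε W →
      ∃ κ : (L ≃ₐ[F] L) → Cl, Sep W κ t ∧ ∀ σ g, κ (σ * g) = act (κ σ) g := by
  classical
  have hinj : ∀ (g : L ≃ₐ[F] L) (C : Cl), act (act C g) g⁻¹ = C := fun g C => by
    obtain ⟨σ, rfl⟩ := hc.surj i C
    rw [← hc.act, ← hc.act, mul_inv_cancel_right]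
  have e1 : ∀ C C' : Cl, ∀ᶠ ε in 𝓝[>] (0 : ℝ≥0), C ≠ C' → ∀ W, R ε W →
      ∀ σ : L ≃ₐ[F] L, W (σ (t C * t C')) < 1 := fun C C' => by
    by_cases hCC : C = C'
    · exact Eventually.of_forall fun _ h => absurd hCC h
    refine (hR _ ((ht C).mul (ht C')) fun p hp => ?_).mono fun _ h _ => h
    have l1 := hP.le_one i p _ hp (ht C)
    have l2 := hP.le_one i p _ hp (ht C')
    unfold wp at l1 l2 ⊢
    rw [map_mul, map_mul]
    by_cases h : cls p = C
    · exact (mul_le_of_le_one_left zero_le l1).trans_lt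
        ((hpl C' p hp).2 fun h' => hCC (h.symm.trans h'))
    · exact (mul_le_of_le_one_right zero_le l2).trans_lt ((hpl C p hp).2 h)
  have e2 := hR (∑ C, t C - 1) ((IsIntegral.sum _ fun C _ => ht C).sub isIntegral_one)
    fun p hp => by
      have e : ∑ C, t C - 1 = (t (cls p) - 1) + ∑ C ∈ Finset.univ.erase (cls p), t C := by
        rw [← Finset.add_sum_erase _ _ (Finset.mem_univ (cls p))]
        ring
      unfold wp
      rw [e, map_add, map_sum]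
      refine (w p.1).map_add_lt ((hpl _ p hp).1 rfl)
        ((w p.1).map_sum_lt one_ne_zero fun C hC => (hpl C p hp).2 ?_)
      exact (Finset.ne_of_mem_erase hC).symm
  have e3 : ∀ (g : L ≃ₐ[F] L) (C : Cl), ∀ᶠ ε in 𝓝[>] (0 : ℝ≥0), ∀ W, R ε W →
      ∀ σ : L ≃ₐ[F] L, W (σ (g (t (act C g)) - t C)) < 1 := fun g C => by
    refine hR _ (((ht _).map ((g : L →ₐ[F] L).restrictScalars (c.A i))).sub (ht C)) ?_
    rintro ⟨j, σ⟩ hp
    have hp' : InCh i ((j, σ * g) : Pl F L) := hp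
    have a1 := hpl (act C g) _ hp'
    have a2 := hpl C _ hp
    rw [hc.act] at a1
    unfold wp at a1 a2 ⊢
    simp only [AlgEquiv.mul_apply, map_sub, map_one] at a1 a2 ⊢
    by_cases h : cls (j, σ) = C
    · have := (w j).map_sub_lt (a1.1 (by rw [h])) (a2.1 h)
      simpa using this
    · refine (w j).map_sub_lt (a1.2 fun h' => h ?_) (a2.2 h)
      rw [← hinj g C, ← h', hinj]
  filter_upwards [eventually_all.2 fun C => eventually_all.2 fun C' => e1 C C', e2,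
    eventually_all.2 fun g => eventually_all.2 fun C => e3 g C] with ε f1 f2 f3 W hW
  exact exists_kappa act W t (fun C C' h => f1 C C' h W hW) (f2 W hW) fun g C => f3 g C W hW

end TubeAux

open TubeAux in
theorem tubeS : S_Tube := by
  intro k F L Cl _ _ _ _ _ _ _ _ c ν w cls act v hE hG hC _ h hν hw hP hc
  classical
  have ht : ∀ (i : Fin 9) (C : Cl), ∃ t : L, IsIntegral (c.A i) t ∧ ∀ p, InCh i p →
      (cls p = C → wp w p (t - 1) < 1) ∧ (cls p ≠ C → wp w p t < 1) := fun i C =>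
    hP.crt i {p | cls p = C} fun p p' hpp => by
      simp only [Set.mem_ofPred_eq, hc.adj i p p' hpp]
  choose t tint tpl using ht
  have eY := fun i => ev_kappa hP hc i (t i) (tint i) (tpl i)
    (fun ε W => Rad v (c.a i) (c.b i) 1 ε (W.comap (algebraMap F L)))
    fun z _ hz => smallY hC hν hw v i z fun σ => hz (i, σ) (Or.inl rfl)
  have eZ := fun i => ev_kappa hP hc i (t i) (tint i) (tpl i)
    (fun ε W => Rad v (c.a i) (c.b i) ε ε (W.comap (algebraMap F L)))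
    fun z hi hz => smallZ hC h hν hw v i z hi (fun σ => hz (i, σ) (Or.inl rfl))
      fun σ => hz (i + 1, σ) (Or.inr rfl)
  have eD := fun (i : Fin 9) (C : Cl) => smallY hC hν hw v (i + 1) (t i C - t (i + 1) C)
    fun σ => by
      have a1 := tpl i C (i + 1, σ) (Or.inr rfl)
      have a2 := tpl (i + 1) C (i + 1, σ) (Or.inl rfl)
      unfold wp at a1 a2
      simp only [map_sub, map_one] at a1 a2 ⊢
      by_cases hh : cls (i + 1, σ) = C
      · have := (w (i + 1)).map_sub_lt (a1.1 hh) (a2.1 hh)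
        simpa using this
      · exact (w (i + 1)).map_sub_lt (a1.2 hh) (a2.2 hh)
  obtain ⟨ε, ⟨⟨⟨⟨fY, fZ⟩, fD⟩, fU⟩, f1⟩, f0⟩ :=
    ((((((eventually_all.2 eY).and (eventually_all.2 eZ)).and
      (eventually_all.2 fun i => eventually_all.2 fun C => eD i C)).and
      (eventually_all.2 fun i => tinyU h v i)).and ev_le_one).and self_mem_nhdsWithin).exists
  have f0' : 0 < ε := f0
  have hex : ∀ (i : Fin 9) (r : ℝ≥0), 0 < r → ∃ W : Valuation L ℝ≥0,
      Rad v (c.a i) (c.b i) r ε (W.comap (algebraMap F L)) := fun i r hr => by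
    obtain ⟨y, hy⟩ := hG k F v _ _ (h.coord i) r ε hr f0'
    obtain ⟨W, hW⟩ := hE F L y
    have : W.comap (algebraMap F L) = y := Valuation.ext hW
    exact ⟨W, by rw [this]; exact hy⟩
  choose Y hY using fun i => hex i 1 one_pos
  choose Z hZ using fun i => hex i ε f0'
  choose κY sY aY using fun i => fY i (Y i) (hY i)
  choose κZ sZ aZ using fun i => fZ i (Z i) (hZ i)
  refine ⟨ε, Y, Z, κY, κZ, t,
    { eps_pos := f0'
      eps_le := f1
      vY := fun i => (hY i).1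
      vZ := fun i => (hZ i).1
      gY := fun i => (h.gauss _ i).1 (hY i).2.2.2
      gZ := fun i => (h.gauss _ i).1 (hZ i).2.2.2
      aY := fun i => (hY i).2.1
      bY := fun i => (hY i).2.2.1
      aZ := fun i => (hZ i).2.1
      bZ := fun i => (hZ i).2.2.1
      uY := fun i => fU i _ (hY (i + 1))
      tint := tint
      tpl := tpl
      sepY := sY
      sepY' := fun i σ C => ?_
      sepZ := sZ
      actY := aY
      actZ := aZ }⟩
  have d1 := fD i C _ (hY (i + 1)) σ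
  rw [map_sub] at d1
  refine ⟨fun hh => ?_, fun hh => ?_⟩
  · have := (Y (i + 1)).map_add_lt d1 ((sY (i + 1) σ C).1 hh)
    simpa using this
  · have := (Y (i + 1)).map_add_lt d1 ((sY (i + 1) σ C).2 hh)
    simpa using this

end Pool.Agent.P.MP_3a4479_al.AP
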