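import Pool.Agent.P.MP_3a4479_al.AP.Defs0

set_option autoImplicit false

namespace Pool.Agent.P.MP_3a4479_al.AP

open Polynomial
open scoped NNReal

noncomputable section

/-! ## Part 2. The surface: nine charts -/

structure Ctx (k F : Type) [Field k] [Field F] [Algebra k F] where
  x : F
  y : F
  lam : k
  p : ℕ

variable {k F : Type} [Field k] [Field F] [Algebra k F]

structure Ctx.Good (c : Ctx k F) : Prop where
  algc : IsAlgClosed k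
  prime : Fact c.p.Prime
  char : CharP k c.p
  coord : IsCoord k c.x c.y
  val : ∃ v : Valuation k ℝ≥0, 0 < v c.lam ∧ v c.lam < 1

def S_Base : Prop :=
  ∀ (pp : ℕ) [Fact pp.Prime],
    ∃ (k F : Type) (_ : Field k) (_ : Field F) (_ : Algebra k F) (c : Ctx k F), c.Good ∧ c.p = pp

namespace Ctx

variable (c : Ctx k F)

/-- the third monomial -/
def z : F := (c.x * c.y)⁻¹

/-- the monodromy constant -/
def lm : k := -c.lam

/-- the parameter inside `F` -/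
def l : F := algebraMap k F c.lam

def a : Fin 9 → F :=
  ![c.x / c.y, c.x, c.z⁻¹ / (1 - c.z / c.y),
    c.y / c.z, c.y, c.x⁻¹ / (1 - c.x / c.z),
    c.z / c.x, c.z, c.y⁻¹ / (1 - c.l * (c.y / c.x))]

def b : Fin 9 → F :=
  ![(c.x * (c.x / c.y - c.l))⁻¹, c.z, c.z / c.y,
    (c.y * (c.y / c.z - 1))⁻¹, c.x, c.x / c.z,
    (c.z * (c.z / c.x - 1))⁻¹, c.y, c.y / c.x]

/-- local equation of the boundary cycle -/
def e (j : Fin 9) : F := c.a j * c.b j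

/-- local equations of the three exceptional curves -/
def ph : Fin 3 → Fin 9 → F :=
  ![![c.a 0 - c.l, 1, 1, 1, 1, 1, 1, 1, 1 - c.l * c.b 8],
    ![1, 1, 1 - c.b 2, c.a 3 - 1, 1, 1, 1, 1, 1],
    ![1, 1, 1, 1, 1, 1 - c.b 5, c.a 6 - 1, 1, 1]]

/-- transition unit between chart `i` and chart `i + 1` -/
def u : Fin 9 → F :=
  ![c.a 0 - c.l, 1 - c.b 2, 1, c.a 3 - 1, 1 - c.b 5, 1, c.a 6 - 1, 1 - c.l * c.b 8, 1]

/-- value of the transition unit on the common boundary curve -/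
def cu : Fin 9 → k := ![-c.lam, 1, 1, -1, 1, 1, -1, 1, 1]

/-- coordinate ring of chart `j` -/
def A (j : Fin 9) : Subalgebra k F := (ev2 k (c.a j) (c.b j)).range

/-- sections of `N E + n 0 F0 + n 1 F1 + n 2 F2` -/
def MM (N : ℤ) (n : Fin 3 → ℕ) : Submodule k F where
  carrier := {g | ∀ j, g * (c.e j ^ N * ∏ s, c.ph s j ^ n s) ∈ c.A j}
  add_mem' := fun h₁ h₂ j => by
    rw [add_mul]; exact (c.A j).add_mem (h₁ j) (h₂ j)
  zero_mem' := fun j => by rw [zero_mul]; exact (c.A j).zero_mem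
  smul_mem' := fun r _ h j => by
    rw [smul_mul_assoc]; exact (c.A j).smul_mem (h j) r

/-- local multiplier of `N E + n F0` -/
def mu (N : ℤ) (n : ℕ) (j : Fin 9) : F := c.e j ^ N * c.ph 0 j ^ n

/-- sections of `N E + n F0` -/
def M (N : ℤ) (n : ℕ) : Submodule k F where
  carrier := {g | ∀ j, g * c.mu N n j ∈ c.A j}
  add_mem' := fun h₁ h₂ j => by
    rw [add_mul]; exact (c.A j).add_mem (h₁ j) (h₂ j)
  zero_mem' := fun j => by rw [zero_mul]; exact (c.A j).zero_mem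
  smul_mem' := fun r _ h j => by
    rw [smul_mul_assoc]; exact (c.A j).smul_mem (h j) r

/-- `P` is the restriction of `g` to the boundary curve `D0` -/
def IsRes (N : ℤ) (n : ℕ) (g : F) (P : k[X]) : Prop :=
  ∃ p ∈ c.A 0, g * c.mu N n 0 = aeval (c.a 0) P + c.b 0 * p

/-- `P` is the restriction of `g` to the exceptional curve `F0` -/
def IsResF (N : ℤ) (n : ℕ) (g : F) (P : k[X]) : Prop :=
  ∃ p ∈ c.A 0, g * c.mu N n 0 = aeval (c.b 0) P + c.ph 0 0 * p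

/-- the polynomials that are sections on the boundary cycle -/
def Glue (N : ℤ) (n : ℕ) (P : k[X]) : Prop :=
  P.natDegree ≤ n ∧ P.coeff 0 = c.lm ^ ((n : ℤ) - N) * P.coeff n

/-- the nine boundary valuations -/
def IsNu (ν : Fin 9 → Valuation F ℝ≥0) : Prop :=
  ∀ j, (∀ t : k, t ≠ 0 → ν j (algebraMap k F t) = 1) ∧ IsGauss k (ν j) (c.a j) (c.b j) ∧
    ν j (c.a j) = 1 ∧ ν j (c.b j) = 2⁻¹

end Ctx

/-- exponent of the transition unit in `e (i + 1) / e i` -/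
def ue : Fin 9 → ℤ := ![1, -1, 0, 1, -1, 0, 1, -1, 0]

/-- chart index of the exceptional curve `s` -/
def i0 : Fin 3 → Fin 9 := ![0, 3, 6]

structure GeoFacts (c : Ctx k F) : Prop where
  lam_ne : c.lam ≠ 0
  lam_zpow : ∀ n : ℤ, c.lam ^ n = 1 → n = 0
  lm_ne : c.lm ≠ 0
  lm_zpow : ∀ n : ℤ, c.lm ^ n = 1 → n = 0
  coord : ∀ j, IsCoord k (c.a j) (c.b j)
  gauss : ∀ (w : Valuation F ℝ≥0) j, IsGauss k w (c.a j) (c.b j) ↔ IsGauss k w c.x c.y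
  x_ne : c.x ≠ 0
  y_ne : c.y ≠ 0
  a_ne : ∀ j, c.a j ≠ 0
  b_ne : ∀ j, c.b j ≠ 0
  u_ne : ∀ j, c.u j ≠ 0
  cu_ne : ∀ j, c.cu j ≠ 0
  ph_ne : ∀ s j, c.ph s j ≠ 0
  ph_mem : ∀ s j, c.ph s j ∈ c.A j
  A4 : ∀ g, g ∈ c.A 4 ↔ ∃ P, ev2 k c.x c.y P = g
  tb : ∀ i, c.b i * c.a (i + 1) * c.u i = 1
  ta : ∀ i, c.a i = c.b (i + 1) * c.a (i + 1) ^ 2 * c.u i ^ (1 - ue i)
  te : ∀ i, c.e (i + 1) = c.e i * c.u i ^ ue i
  tph : ∀ i, i ≠ 8 → ∃ t : ℤ, c.ph 0 (i + 1) = c.ph 0 i * c.u i ^ t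
  tph8 : c.ph 0 0 = c.ph 0 8 * c.a 0
  u_left : ∀ i, ∃ p ∈ c.A i, c.u i = algebraMap k F (c.cu i) + c.a i * p
  u_right : ∀ i, ∃ p ∈ c.A (i + 1), c.u i = algebraMap k F (c.cu i) + c.b (i + 1) * p
  loc_right : ∀ i, ∀ g ∈ c.A i, ∃ m : ℕ, (c.a (i + 1) * c.u i) ^ m * g ∈ c.A (i + 1)
  loc_left : ∀ i, ∀ g ∈ c.A (i + 1), ∃ m : ℕ, (c.b i * c.u i) ^ m * g ∈ c.A i
  normal : ∀ j, IsIntegrallyClosed (c.A j)
  noeth : ∀ j, IsNoetherianRing (c.A j)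
  frac : ∀ j, IsFractionRing (c.A j) F
  int_mem : ∀ j (g : F), IsIntegral (c.A j) g → g ∈ c.A j
  split_b : ∀ j, ∀ g ∈ c.A j, ∃ P : k[X], ∃ p ∈ c.A j, g = aeval (c.a j) P + c.b j * p
  split_a : ∀ j, ∀ g ∈ c.A j, ∃ P : k[X], ∃ p ∈ c.A j, g = aeval (c.b j) P + c.a j * p
  uniq_b : ∀ j (P : k[X]), ∀ p ∈ c.A j, aeval (c.a j) P = c.b j * p → P = 0
  uniq_a : ∀ j (P : k[X]), ∀ p ∈ c.A j, aeval (c.b j) P = c.a j * p → P = 0
  uniq_ph : ∀ (P : k[X]), ∀ p ∈ c.A 0, aeval (c.b 0) P = c.ph 0 0 * p → P = 0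
  prime_b : ∀ j, ∀ g ∈ c.A j, ∀ g' ∈ c.A j, ∀ p ∈ c.A j, g * g' = c.b j * p →
    (∃ r ∈ c.A j, g = c.b j * r) ∨ ∃ r ∈ c.A j, g' = c.b j * r
  div_e : ∀ j, ∀ p ∈ c.A j, ∀ p' ∈ c.A j, c.a j * p = c.b j * p' → ∃ r ∈ c.A j, p = c.b j * r
  mul_mem : ∀ N n N' n', ∀ g ∈ c.M N n, ∀ g' ∈ c.M N' n', g * g' ∈ c.M (N + N') (n + n')
  mono : ∀ N n N' n', N ≤ N' → n ≤ n' → c.M N n ≤ c.M N' n'
  one_mem : (1 : F) ∈ c.M 0 0
  xy_mem : c.x * c.y ∈ c.M 3 3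
  xxy_mem : c.x ^ 2 * c.y ∈ c.M 3 3
  xyy_mem : c.x * c.y ^ 2 ∈ c.M 3 3
  a_mem : ∀ j, c.a j ∈ c.A j
  b_mem : ∀ j, c.b j ∈ c.A j
  mu_ne : ∀ N n j, c.mu N n j ≠ 0
  mu_mul : ∀ N n N' n' j, c.mu (N + N') (n + n') j = c.mu N n j * c.mu N' n' j
  M_eq : ∀ N n, c.M N n = c.MM N ![n, 0, 0]
  MM_mul : ∀ N n N' n', ∀ g ∈ c.MM N n, ∀ g' ∈ c.MM N' n', g * g' ∈ c.MM (N + N') (n + n')
  MM_gen : (1 : F) ∈ c.MM 0 0 ∧ (1 : F) ∈ c.MM 1 1 ∧ c.x ∈ c.MM 1 1 ∧ c.y ∈ c.MM 1 1 ∧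
    c.z ∈ c.MM 1 1

structure NuFacts (c : Ctx k F) (ν : Fin 9 → Valuation F ℝ≥0) : Prop where
  isNu : c.IsNu ν
  left_a : ∀ i, ν (i + 1) (c.a i) = 2⁻¹
  left_b : ∀ i, ν (i + 1) (c.b i) = 1
  val_u : ∀ i, ν (i + 1) (c.u i) = 1
  val_ph : ∀ s i, ν i (c.ph s i) = 1 ∧ ν (i + 1) (c.ph s i) = 1
  val_e : ∀ i, ν i (c.e i) = 2⁻¹ ∧ ν (i + 1) (c.e i) = 2⁻¹
  val_x0 : ν 0 c.x = 2
  val_y0 : ν 0 c.y = 2
  le_one : ∀ i, ∀ g ∈ c.A i, ν i g ≤ 1 ∧ ν (i + 1) g ≤ 1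
  lt_b : ∀ i, ∀ g ∈ c.A i, ν i g < 1 → ∃ p ∈ c.A i, g = c.b i * p
  lt_a : ∀ i, ∀ g ∈ c.A i, ν (i + 1) g < 1 → ∃ p ∈ c.A i, g = c.a i * p
  lt_e : ∀ i, ∀ g ∈ c.A i, ν i g < 1 → ν (i + 1) g < 1 → ∃ p ∈ c.A i, g = c.e i * p
  crit : ∀ i (g : F) (m : ℕ), c.e i ^ m * g ∈ c.A i → ν i g ≤ 1 → ν (i + 1) g ≤ 1 → g ∈ c.A i
  disc : ∀ j (g : F), ν j g < 1 → ν j g ≤ 2⁻¹
  quot : ∀ j (g : F), ν j g ≤ 1 → ∃ P ∈ c.A j, ∃ Q ∈ c.A j, ν j Q = 1 ∧ g * Q = P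
  resid : ∀ j (g : F), ν j g ≤ 1 → ∃ P Q : k[X], Q ≠ 0 ∧
    ν j (g - aeval (c.a j) P / aeval (c.a j) Q) < 1
  val_poly : ∀ j (P : k[X]), P ≠ 0 → ν j (aeval (c.a j) P) = 1
  box : ∀ (N : ℤ) (n : ℕ), ∀ g ∈ c.M N n, g ≠ 0 → ∃ (N' : ℕ) (P : P2 k), N = N' ∧
    g * (c.x * c.y) ^ N' = ev2 k c.x c.y P ∧ P.totalDegree ≤ 3 * N'

def S_Geo : Prop :=
  ∀ (k F : Type) [Field k] [Field F] [Algebra k F] (c : Ctx k F), c.Good → GeoFacts c

def S_Nu : Prop :=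
  ∀ (k F : Type) [Field k] [Field F] [Algebra k F] (c : Ctx k F), c.Good → GeoFacts c →
    ∃ ν, NuFacts c ν

structure ResFacts (c : Ctx k F) : Prop where
  ex : ∀ N n, ∀ g ∈ c.M N n, ∃ P, c.IsRes N n g P ∧ c.Glue N n P
  ker : ∀ N n, ∀ g ∈ c.M N n, c.IsRes N n g 0 → g ∈ c.M (N - 1) n
  uniq : ∀ N n g P P', c.IsRes N n g P → c.IsRes N n g P' → P = P'
  add : ∀ N n g g' P P', c.IsRes N n g P → c.IsRes N n g' P' → c.IsRes N n (g + g') (P + P')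
  smul : ∀ N n g P (t : k), c.IsRes N n g P → c.IsRes N n (t • g) (t • P)
  mul : ∀ N n N' n' g g' P P', c.IsRes N n g P → c.IsRes N' n' g' P' →
    c.IsRes (N + N') (n + n') (g * g') (P * P')
  low : ∀ N n, ∀ g ∈ c.M (N - 1) n, c.IsRes N n g 0
  prop : ∀ N n, ∀ g ∈ c.M N n, ∀ P, c.IsRes N n g P → ∀ j, ∃ γ : k,
    (γ = 0 ↔ P.coeff 0 = 0) ∧
    (j ≠ 0 → ∃ p ∈ c.A j, g * c.mu N n j = algebraMap k F γ + c.b j * p) ∧
    (j ≠ 8 → ∃ p ∈ c.A j, g * c.mu N n j = algebraMap k F γ + c.a j * p)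
  const : ∀ N, ∀ g ∈ c.M N 0, ∃ t : k, g = algebraMap k F t
  neg : ∀ N, N < 0 → ∀ g ∈ c.M N 0, g = 0

def S_Res : Prop :=
  ∀ (k F : Type) [Field k] [Field F] [Algebra k F] (c : Ctx k F)
    (ν : Fin 9 → Valuation F ℝ≥0), c.Good → GeoFacts c → NuFacts c ν → ResFacts c

/-- restriction to the exceptional curve `s` -/
def ResFAll (c : Ctx k F) : Prop :=
  ∀ (s : Fin 3) (N : ℤ) (n : Fin 3 → ℕ), ∀ g ∈ c.MM N n,
    (∃ P : k[X], (∃ p ∈ c.A (i0 s), g * (c.e (i0 s) ^ N * c.ph s (i0 s) ^ n s) =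
        aeval (c.b (i0 s)) P + c.ph s (i0 s) * p) ∧
      ∀ i : ℕ, N - n s < i → P.coeff i = 0) ∧
    (1 ≤ n s → (∃ p ∈ c.A (i0 s), g * (c.e (i0 s) ^ N * c.ph s (i0 s) ^ n s) =
        c.ph s (i0 s) * p) → g ∈ c.MM N (Function.update n s (n s - 1)))

def S_ResF : Prop :=
  ∀ (k F : Type) [Field k] [Field F] [Algebra k F] (c : Ctx k F), c.Good → GeoFacts c →
    ResFAll c

structure DimFacts (c : Ctx k F) : Prop where
  fin : ∀ N n, Module.Finite k (c.M N n)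
  dim : ∀ N n : ℕ, n ≤ N + 1 →
    2 * Module.finrank k (c.M N n) + n * n = 2 * N * n + n + 2
  surjE : ∀ N n : ℕ, 1 ≤ n → n ≤ N → ∀ P, c.Glue N n P → ∃ g ∈ c.M N n, c.IsRes N n g P
  exF : ∀ N n, ∀ g ∈ c.M N n, ∃ P, c.IsResF N n g P ∧ ∀ i : ℕ, N - n < i → P.coeff i = 0
  kerF : ∀ N n, ∀ g ∈ c.M N (n + 1), c.IsResF N (n + 1) g 0 → g ∈ c.M N n
  surjF : ∀ N n : ℕ, 1 ≤ n → n ≤ N → ∀ P : k[X], P.natDegree ≤ N - n →
    ∃ g ∈ c.M N n, c.IsResF N n g P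

def S_Dim : Prop :=
  ∀ (k F : Type) [Field k] [Field F] [Algebra k F] (c : Ctx k F), c.Good → GeoFacts c →
    ResFacts c → ResFAll c → DimFacts c

/-! ## Part 3. The graded ring -/

namespace Ctx

variable (c : Ctx k F)

/-- `JJ q` is the graded module of sections of `n L - q E`, with `L = 2 E + F0` -/
def JJ (q : ℤ) : Submodule k F[X] where
  carrier := {p | ∀ n : ℕ, p.coeff n ∈ c.M (2 * n - q) n}
  add_mem' := fun h₁ h₂ n => by
    rw [coeff_add]; exact Submodule.add_mem _ (h₁ n) (h₂ n)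
  zero_mem' := fun n => by rw [coeff_zero]; exact Submodule.zero_mem _
  smul_mem' := fun r _ h n => by
    rw [coeff_smul]; exact Submodule.smul_mem _ r (h n)

end Ctx

theorem GeoFacts.JJ_mul {c : Ctx k F} (h : GeoFacts c) {q q' : ℤ} {p p' : F[X]}
    (hp : p ∈ c.JJ q) (hp' : p' ∈ c.JJ q') : p * p' ∈ c.JJ (q + q') := by
  intro n
  rw [coeff_mul]
  refine Submodule.sum_mem _ fun t ht => ?_
  have := h.mul_mem _ _ _ _ _ (hp t.1) _ (hp' t.2)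
  have e1 : t.1 + t.2 = n := Finset.HasAntidiagonal.mem_antidiagonal.mp ht
  have e2 : (2 * (t.1 : ℤ) - q) + (2 * (t.2 : ℤ) - q') = 2 * (n : ℤ) - (q + q') := by
    rw [← e1]; push_cast; ring
  rwa [e1, e2] at this

theorem GeoFacts.monomial_mem {c : Ctx k F} {q : ℤ} {n : ℕ} {g : F}
    (hg : g ∈ c.M (2 * n - q) n) : monomial n g ∈ c.JJ q := by
  intro m
  rw [coeff_monomial]
  split_ifs with hm
  · subst hm; exact hg
  · exact Submodule.zero_mem _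

/-- the section ring -/
def RR {c : Ctx k F} (h : GeoFacts c) : Subalgebra k F[X] :=
  (c.JJ 0).toSubalgebra
    (by
      have : (monomial 0 (1 : F) : F[X]) ∈ c.JJ 0 :=
        GeoFacts.monomial_mem (by simpa using h.one_mem)
      simpa using this)
    (fun p p' hp hp' => by simpa using h.JJ_mul hp hp')

/-- the homogeneous maximal ideal -/
def mm {c : Ctx k F} (h : GeoFacts c) : Ideal (RR h) :=
  RingHom.ker (constantCoeff.comp (RR h).val.toRingHom)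

/-- the ring of the line bundle over chart `j` -/
def AA (c : Ctx k F) (j : Fin 9) : Subalgebra k F[X] where
  carrier := {p | ∀ n : ℕ, p.coeff n * c.mu 2 1 j ^ n ∈ c.A j}
  mul_mem' := by
    intro p p' hp hp' n
    rw [coeff_mul, Finset.sum_mul]
    refine Subalgebra.sum_mem _ fun t ht => ?_
    have e1 : t.1 + t.2 = n := Finset.HasAntidiagonal.mem_antidiagonal.mp ht
    have := (c.A j).mul_mem (hp t.1) (hp' t.2)
    rw [← e1, pow_add]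
    convert this using 1
    ring
  add_mem' := by
    intro p p' hp hp' n
    rw [coeff_add, add_mul]; exact (c.A j).add_mem (hp n) (hp' n)
  algebraMap_mem' := by
    intro r n
    rw [Polynomial.algebraMap_apply, coeff_C]
    split_ifs with hn
    · subst hn; simp
    · simp

/-- the fibre coordinate in chart `j` -/
def tau (c : Ctx k F) (j : Fin 9) : F[X] := monomial 1 (c.mu 2 1 j)⁻¹

structure AAFacts (c : Ctx k F) : Prop where
  normal : ∀ j, IsIntegrallyClosed (AA c j)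
  ft : ∀ j, Algebra.FiniteType k (AA c j)
  frac : ∀ j (p : F[X]), ∃ r ∈ AA c j, r ≠ 0 ∧ r * p ∈ AA c j
  tau_mem : ∀ j, tau c j ∈ AA c j
  C_mem : ∀ j, ∀ g ∈ c.A j, C g ∈ AA c j
  reg : ∀ j (g : F), g ≠ 0 → ∀ (i : ℕ), ∀ r ∈ AA c j, ∀ r' ∈ AA c j,
    C g ^ i * r = tau c j ^ i * r' → ∃ r'' ∈ AA c j, r' = C g ^ i * r''

def S_AA : Prop :=
  ∀ (k F : Type) [Field k] [Field F] [Algebra k F] (c : Ctx k F), c.Good → GeoFacts c →
    AAFacts c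

theorem mem_RR {c : Ctx k F} (h : GeoFacts c) (p : F[X]) : p ∈ RR h ↔ p ∈ c.JJ 0 := Iff.rfl

theorem monomial_mem_RR {c : Ctx k F} (h : GeoFacts c) {t : F} (ht : t ∈ c.M 4 2) :
    monomial 2 t ∈ RR h :=
  GeoFacts.monomial_mem (by simpa using ht)

/-- elements of degree at least zero of the localisation at `monomial 2 t` -/
def BB {c : Ctx k F} (h : GeoFacts c) {t : F} (ht : t ∈ c.M 4 2) : Subalgebra k F[X] where
  carrier := {p | ∃ M : ℕ, monomial 2 t ^ M * p ∈ RR h}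
  mul_mem' := by
    rintro p p' ⟨M, hM⟩ ⟨M', hM'⟩
    refine ⟨M + M', ?_⟩
    have := (RR h).mul_mem hM hM'
    rw [pow_add]
    convert this using 1
    ring
  add_mem' := by
    rintro p p' ⟨M, hM⟩ ⟨M', hM'⟩
    refine ⟨M + M', ?_⟩
    have h0 := monomial_mem_RR h ht
    have := (RR h).add_mem ((RR h).mul_mem ((RR h).pow_mem h0 M') hM)
      ((RR h).mul_mem ((RR h).pow_mem h0 M) hM')
    rw [pow_add]
    convert this using 1
    ring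
  algebraMap_mem' := fun r => ⟨0, by
    rw [pow_zero, one_mul]; exact (RR h).algebraMap_mem r⟩

/-- the ideal of the boundary in `BB` -/
def jjI {c : Ctx k F} (h : GeoFacts c) {t : F} (ht : t ∈ c.M 4 2) : Ideal (BB h ht) where
  carrier := {p | ∃ M : ℕ, monomial 2 t ^ M * (p : F[X]) ∈ c.JJ 1}
  add_mem' := by
    rintro p p' ⟨M, hM⟩ ⟨M', hM'⟩
    refine ⟨M + M', ?_⟩
    have h0 := monomial_mem_RR h ht
    have h1 := h.JJ_mul ((RR h).pow_mem h0 M') hM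
    have h2 := h.JJ_mul ((RR h).pow_mem h0 M) hM'
    rw [zero_add] at h1 h2
    have := Submodule.add_mem _ h1 h2
    rw [pow_add]
    convert this using 1
    push_cast
    ring
  zero_mem' := ⟨0, by simp⟩
  smul_mem' := by
    rintro ⟨r, M, hM⟩ p ⟨M', hM'⟩
    refine ⟨M + M', ?_⟩
    have := h.JJ_mul hM hM'
    rw [zero_add] at this
    rw [pow_add]
    convert this using 1
    simp only [smul_eq_mul, MulMemClass.coe_mul]
    ring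

/-- three distinguished sections -/
structure Str (c : Ctx k F) where
  s : F
  f : F
  h : F

namespace Str

variable {c : Ctx k F} (σ : Str c)

structure Good : Prop where
  hs : σ.s ∈ c.M 2 1
  hf : σ.f ∈ c.M 4 2
  hh : σ.h ∈ c.M 6 3
  rs : c.IsRes 2 1 σ.s (X + C c.lm⁻¹)
  rf : c.IsRes 4 2 σ.f X
  rh : c.IsRes 6 3 σ.h X

def al : P3 k →ₐ[k] F[X] := MvPolynomial.aeval ![X, monomial 1 σ.s, monomial 2 σ.f]

def al0 : P3 k →ₐ[k] F := MvPolynomial.aeval ![1, σ.s, σ.f]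

def sj (j : Fin 9) : F := σ.s * c.mu 2 1 j

def fj (j : Fin 9) : F := σ.f * c.mu 4 2 j

def eta : F := σ.h / (σ.s * σ.f)

end Str

def wt : Fin 3 → ℕ := ![1, 1, 2]
def dR : Fin 6 → ℕ := ![0, 1, 2, 2, 3, 3]
def dJ : Fin 6 → ℕ := ![4, 3, 2, 2, 1, 1]

/-- homogeneous basis of `JJ κ` over the polynomial ring in three variables -/
structure IsBasis {c : Ctx k F} (σ : Str c) (κ : ℤ) (d : Fin 6 → ℕ) (β : Fin 6 → F) : Prop where
  mem : ∀ l, β l ∈ c.M (2 * d l - κ) (d l)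
  span : ∀ n : ℕ, ∀ g ∈ c.M (2 * n - κ) n, ∃ P : Fin 6 → P3 k,
    (∀ l, (P l).IsWeightedHomogeneous wt (n - d l)) ∧ (∀ l, n < d l → P l = 0) ∧
      g = ∑ l, σ.al0 (P l) * β l
  indep : ∀ P : Fin 6 → P3 k, ∑ l, σ.al (P l) * monomial (d l) (β l) = 0 → ∀ l, P l = 0

def S_Str : Prop :=
  ∀ (k F : Type) [Field k] [Field F] [Algebra k F] (c : Ctx k F), c.Good → GeoFacts c →
    ResFacts c → DimFacts c →
    ∃ (σ : Str c) (β β' : Fin 6 → F), σ.Good ∧ β 0 = 1 ∧ IsBasis σ 0 dR β ∧ IsBasis σ 1 dJ β'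

structure RFacts {c : Ctx k F} (h : GeoFacts c) (σ : Str c) (al : P3 k →ₐ[k] RR h) : Prop where
  al_val : ∀ P, (al P : F[X]) = σ.al P
  ft : Algebra.FiniteType k (RR h)
  fin : ∃ β : Fin 6 → RR h, ∀ r, ∃ P : Fin 6 → P3 k, r = ∑ l, al (P l) * β l
  reg1 : ∀ (a b : ℕ) (r r' : RR h),
    al (MvPolynomial.X 1) ^ a * r = al (MvPolynomial.X 2) ^ b * r' →
      ∃ r'', r = al (MvPolynomial.X 2) ^ b * r''
  reg2 : ∀ (a b : ℕ) (r r₁ r₂ : RR h),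
    al (MvPolynomial.X 0) * r = al (MvPolynomial.X 1) ^ a * r₁ + al (MvPolynomial.X 2) ^ b * r₂ →
      ∃ r₁' r₂', r = al (MvPolynomial.X 1) ^ a * r₁' + al (MvPolynomial.X 2) ^ b * r₂'
  proj : ∃ π : RR h →+ P3 k, (∀ a r, π (al a * r) = a * π r) ∧ π 1 = 1 ∧
    ∀ r, (π r).totalDegree ≤ (r : F[X]).natDegree
  frac : ∀ p : F[X], ∃ r : RR h, r ≠ 0 ∧ (r : F[X]) * p ∈ RR h

structure DualFacts {c : Ctx k F} (h : GeoFacts c) (σ : Str c) (al : P3 k →ₐ[k] RR h)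
    (j b : Fin 6 → RR h) : Prop where
  mem : ∀ l, (j l : F[X]) ∈ c.JJ 1
  cas : ∀ r : RR h, ∃ ρ : Fin 6 → Fin 6 → P3 k,
    (∀ l, r * j l = ∑ l', al (ρ l' l) * j l') ∧ ∀ l', r * b l' = ∑ l, al (ρ l' l) * b l
  indep : ∀ P : Fin 6 → P3 k, ∑ l, al (P l) * b l = 0 → ∀ l, P l = 0
  b0 : b 0 ∉ mm h
  bl : ∀ l, l ≠ 0 → b l ∈ mm h
  v_mem : ∃ P : Fin 6 → P3 k, al (MvPolynomial.X 0) = ∑ l, al (P l) * j l
  w_mem : ∃ P : Fin 6 → P3 k, ((∑ l, al (P l) * j l : RR h) : F[X]) = monomial 4 σ.h ∧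
    ∀ l, l ≠ 0 → MvPolynomial.constantCoeff (P l) = 0

def S_RF : Prop :=
  ∀ (k F : Type) [Field k] [Field F] [Algebra k F] (c : Ctx k F) (h : GeoFacts c) (σ : Str c)
    (β : Fin 6 → F), c.Good → σ.Good → β 0 = 1 → IsBasis σ 0 dR β → ∃ al, RFacts h σ al

def S_Dual : Prop :=
  ∀ (k F : Type) [Field k] [Field F] [Algebra k F] (c : Ctx k F) (h : GeoFacts c) (σ : Str c)
    (β β' : Fin 6 → F) (al : P3 k →ₐ[k] RR h), c.Good → σ.Good → β 0 = 1 → IsBasis σ 0 dR β →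
    IsBasis σ 1 dJ β' → (∀ P, (al P : F[X]) = σ.al P) → ∃ j b, DualFacts h σ al j b

structure JFacts {c : Ctx k F} (σ : Str c) : Prop where
  zneg : ∀ (n M q : ℕ) (g g' : F), n < 2 * M → g ∈ c.M (2 * n) n → g' ∈ c.M (2 * n) n →
    σ.s ^ (2 * M) * g' - σ.f ^ M * g ∈ c.M (2 * (n + 2 * M : ℕ) - q) (n + 2 * M) →
      g ∈ c.M (2 * n - q) n ∧ g' ∈ c.M (2 * n - q) n
  part : ∀ t : F, t = σ.s ^ 2 ∨ t = σ.f →
    ∃ (m : ℕ) (d : Fin m → ℕ) (j i : Fin m → F),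
      (∀ l, d l ≤ 4 ∧ j l ∈ c.M (2 * d l - 1) (d l) ∧
        i l ∈ c.M (2 * (4 - d l : ℕ) + 1) (4 - d l)) ∧ t ^ 2 = ∑ l, j l * i l

def S_J : Prop :=
  ∀ (k F : Type) [Field k] [Field F] [Algebra k F] (c : Ctx k F) (σ : Str c), c.Good →
    GeoFacts c → ResFacts c → DimFacts c → σ.Good → JFacts σ

/-- an element of the tight closure of an ideal that stays outside the ideal at the vertex -/
def TC {c : Ctx k F} (h : GeoFacts c) : Prop :=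
  ∃ (n : ℕ) (g : Fin n → RR h) (u : RR h) (C : ℕ),
    (∀ e : ℕ, ∃ r : Fin n → RR h, (∀ i, (r i : F[X]).natDegree ≤ C * c.p ^ e) ∧
      X * (u : F[X]) ^ c.p ^ e = ∑ i, (r i : F[X]) * (g i : F[X]) ^ c.p ^ e) ∧
    ∀ w, w ∉ mm h → ∀ r : Fin n → RR h, w * u ≠ ∑ i, r i * g i

def S_TC : Prop :=
  ∀ (k F : Type) [Field k] [Field F] [Algebra k F] (c : Ctx k F) (h : GeoFacts c) (σ : Str c),
    c.Good → ResFacts c → DimFacts c → σ.Good → JFacts σ → TC h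

structure BFacts {c : Ctx k F} (h : GeoFacts c) {t : F} (ht : t ∈ c.M 4 2) : Prop where
  noeth : IsNoetherianRing (BB h ht)
  up : ∀ (q : ℕ), ∀ p ∈ jjI h ht ^ q, ∃ M : ℕ, monomial 2 t ^ M * (p : F[X]) ∈ c.JJ q
  down : ∀ (q : ℕ) (p : BB h ht), (∃ M : ℕ, monomial 2 t ^ M * (p : F[X]) ∈ c.JJ (2 * q)) →
    p ∈ jjI h ht ^ q

def S_BF : Prop :=
  ∀ (k F : Type) [Field k] [Field F] [Algebra k F] (c : Ctx k F) (h : GeoFacts c) (σ : Str c)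
    (β : Fin 6 → F) (t : F) (ht : t ∈ c.M 4 2), c.Good → σ.Good → IsBasis σ 0 dR β →
    JFacts σ → t = σ.s ^ 2 ∨ t = σ.f → BFacts h ht

/-! ## Part 4. Covers of the surface -/

/-- every curve in the plane meets the boundary in some chart -/
def NoCurve (c : Ctx k F) : Prop :=
  ∀ g : P2 k, Prime g → ∀ p : Fin 9 → F, (∀ j, p j ∈ c.A j) →
    ∃ (j : Fin 9) (U : P2 k), ¬ g ∣ U ∧
      (∀ z ∈ c.A j, ∃ M : ℕ, ev2 k c.x c.y U ^ M * z ∈ c.A 4) ∧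
      ∀ (M : ℕ) (P : P2 k), ev2 k c.x c.y U ^ M * (1 + c.e j * p j) = ev2 k c.x c.y P → ¬ g ∣ P

def S_NoCurve : Prop :=
  ∀ (k F : Type) [Field k] [Field F] [Algebra k F] (c : Ctx k F)
    (ν : Fin 9 → Valuation F ℝ≥0), c.Good → GeoFacts c → NuFacts c ν → ResFacts c → NoCurve c

/-- no Artin-Schreier cover is unramified along the whole boundary -/
def NoAS (c : Ctx k F) : Prop :=
  ∀ (L : Type) [Field L] [Algebra F L] (K' : IntermediateField F L) (g : L ≃ₐ[F] L)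
    (β : Fin 9 → L), (∀ z ∈ K', g z ∈ K') →
    (∀ z ∈ K', g z = z → z ∈ (algebraMap F L).range) →
    (∀ j, β j ∈ K' ∧ IsIntegral (c.A j) (β j) ∧
      ∃ p ∈ c.A j, g (β j) - β j = algebraMap F L (1 + c.e j * p)) → False

def S_AS : Prop :=
  ∀ (k F : Type) [Field k] [Field F] [Algebra k F] (c : Ctx k F)
    (ν : Fin 9 → Valuation F ℝ≥0), S_Cartier → c.Good → GeoFacts c → NuFacts c ν →
    NoCurve c → NoAS c

section Places

variable {L : Type} [Field L] [Algebra F L]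

/-- places of `L` over the boundary curves, indexed with repetitions -/
abbrev Pl (F L : Type) [Field F] [Field L] [Algebra F L] : Type := Fin 9 × (L ≃ₐ[F] L)

def InCh (i : Fin 9) (p : Pl F L) : Prop := p.1 = i ∨ p.1 = i + 1

def wp (w : Fin 9 → Valuation L ℝ≥0) (p : Pl F L) (z : L) : ℝ≥0 := w p.1 (p.2 z)

/-- the curves of `p` and `p'` meet over chart `i` -/
def Adj (c : Ctx k F) (w : Fin 9 → Valuation L ℝ≥0) (i : Fin 9) (p p' : Pl F L) : Prop :=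
  InCh i p ∧ InCh i p' ∧
    ¬ ∃ z : L, IsIntegral (c.A i) z ∧ wp w p z < 1 ∧ wp w p' (1 - z) < 1

def Ext (ν : Fin 9 → Valuation F ℝ≥0) (w : Fin 9 → Valuation L ℝ≥0) : Prop :=
  ∀ j z, w j (algebraMap F L z) = ν j z

structure PlFacts (c : Ctx k F) (w : Fin 9 → Valuation L ℝ≥0) : Prop where
  le_one : ∀ i (p : Pl F L) (z : L), InCh i p → IsIntegral (c.A i) z → wp w p z ≤ 1
  crit : ∀ i (z : L) (m : ℕ), IsIntegral (c.A i) (algebraMap F L (c.e i) ^ m * z) →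
    (∀ p : Pl F L, InCh i p → wp w p z ≤ 1) → IsIntegral (c.A i) z
  crt : ∀ i (S : Set (Pl F L)), (∀ p p', Adj c w i p p' → (p ∈ S ↔ p' ∈ S)) →
    ∃ t : L, IsIntegral (c.A i) t ∧ ∀ p, InCh i p →
      (p ∈ S → wp w p (t - 1) < 1) ∧ (p ∉ S → wp w p t < 1)
  symm : ∀ i p p', Adj c w i p p' → Adj c w i p' p
  inv : ∀ i j j' (σ σ' g : L ≃ₐ[F] L), Adj c w i (j, σ) (j', σ') →
    Adj c w i (j, σ * g) (j', σ' * g)
  next : ∀ i (σ : L ≃ₐ[F] L), ∃ σ', Adj c w i (i, σ) (i + 1, σ')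
  prev : ∀ i (σ' : L ≃ₐ[F] L), ∃ σ, Adj c w i (i, σ) (i + 1, σ')
  fin : ∀ i, Module.Finite (c.A i) (integralClosure (c.A i) L)

structure Cls (c : Ctx k F) (w : Fin 9 → Valuation L ℝ≥0) {Cl : Type} (cls : Pl F L → Cl)
    (act : Cl → (L ≃ₐ[F] L) → Cl) : Prop where
  adj : ∀ i p p', Adj c w i p p' → cls p = cls p'
  act : ∀ j σ g, cls (j, σ * g) = act (cls (j, σ)) g
  surj : ∀ j C, ∃ σ, cls (j, σ) = C

/-- sections upstairs with pole order `N C` along the class `C` -/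
def VV (c : Ctx k F) (w : Fin 9 → Valuation L ℝ≥0) {Cl : Type} (cls : Pl F L → Cl)
    (N : Cl → ℤ) (n : ℕ) (f : L) : Prop :=
  (∀ i, ∃ M : ℕ, IsIntegral (c.A i) (algebraMap F L (c.mu M n i) * f)) ∧
    ∀ p, wp w p f ≤ 2 ^ N (cls p)

def CountC (c : Ctx k F) (w : Fin 9 → Valuation L ℝ≥0) {Cl : Type} [Fintype Cl]
    (cls : Pl F L → Cl) : Prop :=
  ∀ A : ℕ, 1 ≤ A → ∃ (n : ℕ) (N : Cl → ℤ) (C₁ : Cl) (f : L), 1 ≤ n ∧ f ≠ 0 ∧
    VV c w cls N n f ∧ N C₁ = A * n ∧ ∑ C, N C = Fintype.card Cl * n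

def MonoC (c : Ctx k F) (w : Fin 9 → Valuation L ℝ≥0) {Cl : Type} [Fintype Cl]
    (cls : Pl F L → Cl) : Prop :=
  ∃ Λ : ℕ, ∀ (N : Cl → ℤ) (n : ℕ) (f : L) (C : Cl), f ≠ 0 → VV c w cls N n f →
    |N C| ≤ Λ * (|∑ C', N C'| + n)

/-- `t` separates the class `C` for the valuations `W ∘ σ` -/
def Sep {Cl : Type} (W : Valuation L ℝ≥0) (κ : (L ≃ₐ[F] L) → Cl) (t : Cl → L) : Prop :=
  ∀ σ C, (κ σ = C → W (σ (t C) - 1) < 1) ∧ (κ σ ≠ C → W (σ (t C)) < 1)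

/-- eighteen Gauss valuations in a tube around the boundary -/
structure Tube (c : Ctx k F) (w : Fin 9 → Valuation L ℝ≥0) {Cl : Type} (cls : Pl F L → Cl)
    (act : Cl → (L ≃ₐ[F] L) → Cl) (v : Valuation k ℝ≥0) (ε : ℝ≥0)
    (Y Z : Fin 9 → Valuation L ℝ≥0) (κY κZ : Fin 9 → (L ≃ₐ[F] L) → Cl)
    (t : Fin 9 → Cl → L) : Prop where
  eps_pos : 0 < ε
  eps_le : ε ≤ 1
  vY : ∀ i r, Y i (algebraMap F L (algebraMap k F r)) = v r
  vZ : ∀ i r, Z i (algebraMap F L (algebraMap k F r)) = v r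
  gY : ∀ i, IsGauss k ((Y i).comap (algebraMap F L)) c.x c.y
  gZ : ∀ i, IsGauss k ((Z i).comap (algebraMap F L)) c.x c.y
  aY : ∀ i, Y i (algebraMap F L (c.a i)) = 1
  bY : ∀ i, Y i (algebraMap F L (c.b i)) = ε
  aZ : ∀ i, Z i (algebraMap F L (c.a i)) = ε
  bZ : ∀ i, Z i (algebraMap F L (c.b i)) = ε
  uY : ∀ i, Y (i + 1) (algebraMap F L (c.u i)) = v (c.cu i)
  tint : ∀ i C, IsIntegral (c.A i) (t i C)
  tpl : ∀ i C p, InCh i p →
    (cls p = C → wp w p (t i C - 1) < 1) ∧ (cls p ≠ C → wp w p (t i C) < 1)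
  sepY : ∀ i, Sep (Y i) (κY i) (t i)
  sepY' : ∀ i, Sep (Y (i + 1)) (κY (i + 1)) (t i)
  sepZ : ∀ i, Sep (Z i) (κZ i) (t i)
  actY : ∀ i σ g, κY i (σ * g) = act (κY i σ) g
  actZ : ∀ i σ g, κZ i (σ * g) = act (κZ i σ) g

def Conn (c : Ctx k F) (w : Fin 9 → Valuation L ℝ≥0) : Prop :=
  ∀ p p' : Pl F L, Relation.EqvGen (fun p p' => ∃ i, Adj c w i p p') p p'

/-- `z` vanishes along everything over the boundary curve `j` -/
def Small (c : Ctx k F) (j : Fin 9) (z : L) : Prop :=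
  ∃ U ∈ c.A j, (∀ p ∈ c.A j, U ≠ c.b j * p) ∧
    IsIntegral (c.A j) (algebraMap F L (U / c.b j) * z)

/-- the class of the boundary cycle dies on a cover -/
structure GR {c : Ctx k F} (σ : Str c) (q : ℕ) (β β' : Fin 9 → L) : Prop where
  qpos : 1 ≤ q
  ints : ∀ j, ∃ M : ℕ, IsIntegral (c.A j) (algebraMap F L (σ.sj j) ^ M * β j)
  intf : ∀ j, ∃ M : ℕ, IsIntegral (c.A j) (algebraMap F L (σ.fj j) ^ M * β' j)
  difs : ∀ i, Small c (i + 1) (β (i + 1) - β i)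
  diff : Small c 0 (β' 0 - β' 8)
  jump : Small c 0 (β' 0 - β 0 - algebraMap F L (σ.eta ^ q))

def Theta (c : Ctx k F) (w : Fin 9 → Valuation L ℝ≥0) : Prop :=
  ∃ (θ : Pl F L → k) (κ : k), κ ≠ 0 ∧ ∀ i p p', Adj c w i p p' →
    θ p + (if i = 0 ∧ p.1 = 0 then κ else 0) = θ p' + (if i = 0 ∧ p'.1 = 0 then κ else 0)

end Places

def S_Pl : Prop :=
  ∀ (k F L : Type) [Field k] [Field F] [Algebra k F] [Field L] [Algebra F L]
    [FiniteDimensional F L] [IsGalois F L] (c : Ctx k F) (ν : Fin 9 → Valuation F ℝ≥0)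
    (w : Fin 9 → Valuation L ℝ≥0), S_CharPoly → c.Good → GeoFacts c → NuFacts c ν → Ext ν w →
    PlFacts c w

def S_Count : Prop :=
  ∀ (k F L Cl : Type) [Field k] [Field F] [Algebra k F] [Field L] [Algebra F L]
    [FiniteDimensional F L] [IsGalois F L] [Fintype Cl] [Nontrivial Cl] (c : Ctx k F)
    (ν : Fin 9 → Valuation F ℝ≥0) (w : Fin 9 → Valuation L ℝ≥0) (cls : Pl F L → Cl)
    (act : Cl → (L ≃ₐ[F] L) → Cl), S_Lat → S_Clear → c.Good → GeoFacts c → NuFacts c ν →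
    DimFacts c → Ext ν w → PlFacts c w → Cls c w cls act → CountC c w cls

def S_Tube : Prop :=
  ∀ (k F L Cl : Type) [Field k] [Field F] [Algebra k F] [Field L] [Algebra F L]
    [FiniteDimensional F L] [IsGalois F L] [Fintype Cl] (c : Ctx k F)
    (ν : Fin 9 → Valuation F ℝ≥0) (w : Fin 9 → Valuation L ℝ≥0) (cls : Pl F L → Cl)
    (act : Cl → (L ≃ₐ[F] L) → Cl) (v : Valuation k ℝ≥0), S_ExtVal → S_GaussEx → S_CharPoly →
    c.Good → GeoFacts c → NuFacts c ν → Ext ν w → PlFacts c w → Cls c w cls act →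
    ∃ ε Y Z κY κZ t, Tube c w cls act v ε Y Z κY κZ t

def S_Mono : Prop :=
  ∀ (k F L Cl : Type) [Field k] [Field F] [Algebra k F] [Field L] [Algebra F L]
    [FiniteDimensional F L] [IsGalois F L] [Fintype Cl] (c : Ctx k F)
    (ν : Fin 9 → Valuation F ℝ≥0) (w : Fin 9 → Valuation L ℝ≥0) (cls : Pl F L → Cl)
    (act : Cl → (L ≃ₐ[F] L) → Cl) (v : Valuation k ℝ≥0) (ε : ℝ≥0)
    (Y Z : Fin 9 → Valuation L ℝ≥0) (κY κZ : Fin 9 → (L ≃ₐ[F] L) → Cl) (t : Fin 9 → Cl → L),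
    c.Good → GeoFacts c → NuFacts c ν → Ext ν w → PlFacts c w → Cls c w cls act →
    0 < v c.lam → v c.lam < 1 → Tube c w cls act v ε Y Z κY κZ t → MonoC c w cls

def S_Conn : Prop :=
  ∀ (k F L : Type) [Field k] [Field F] [Algebra k F] [Field L] [Algebra F L]
    [FiniteDimensional F L] [IsGalois F L] (c : Ctx k F) (w : Fin 9 → Valuation L ℝ≥0),
    PlFacts c w →
    (∀ (Cl : Type) [Fintype Cl] [Nontrivial Cl] (cls : Pl F L → Cl)
      (act : Cl → (L ≃ₐ[F] L) → Cl), Cls c w cls act → CountC c w cls ∧ MonoC c w cls) →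
    Conn c w

def S_Theta : Prop :=
  ∀ (k F L : Type) [Field k] [Field F] [Algebra k F] [Field L] [Algebra F L]
    (c : Ctx k F) (ν : Fin 9 → Valuation F ℝ≥0) (w : Fin 9 → Valuation L ℝ≥0) (σ : Str c)
    (q : ℕ) (β β' : Fin 9 → L), c.Good → GeoFacts c → NuFacts c ν → ResFacts c → σ.Good →
    Ext ν w → GR σ q β β' → Theta c w

def S_Label : Prop :=
  ∀ (k F L : Type) [Field k] [Field F] [Algebra k F] [Field L] [Algebra F L]
    [FiniteDimensional F L] [IsGalois F L] (c : Ctx k F) (ν : Fin 9 → Valuation F ℝ≥0)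
    (w : Fin 9 → Valuation L ℝ≥0), c.Good → GeoFacts c → NuFacts c ν → Ext ν w → PlFacts c w →
    Conn c w → NoAS c → Theta c w → False

def S_Gal : Prop :=
  ∀ (k F E : Type) [Field k] [Field F] [Algebra k F] [Field E] [Algebra F E] [IsAlgClosure F E]
    (c : Ctx k F) (σ : Str c) (q : ℕ) (β β' : Fin 9 → E), c.Good → GeoFacts c → σ.Good →
    GR σ q β β' →
    ∃ L : IntermediateField F E, FiniteDimensional F L ∧ IsGalois F L ∧
      ∃ (q' : ℕ) (γ γ' : Fin 9 → L), GR σ q' γ γ'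

/-! ## Part 5. Covers of the cone -/

section Cone

variable {L : Type} [Field L] [Algebra F[X] L]

/-- the class of the boundary cycle dies in a finite extension of the section ring -/
structure RelD {c : Ctx k F} (h : GeoFacts c) (σ : Str c) (q M n : ℕ) (ys yf : L)
    (j : Fin n → F[X]) (t : Fin n → L) : Prop where
  qpos : 1 ≤ q
  jmem : ∀ i, j i ∈ c.JJ 1
  tint : ∀ i, IsIntegral (RR h) (t i)
  sint : IsIntegral (RR h) (algebraMap F[X] L (monomial 2 (σ.s ^ 2)) ^ M * ys)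
  fint : IsIntegral (RR h) (algebraMap F[X] L (monomial 2 σ.f) ^ M * yf)
  rel : algebraMap F[X] L (monomial 2 (σ.s ^ 2) * monomial 2 σ.f) ^ M *
      (algebraMap F[X] L (C (σ.eta ^ q)) - yf + ys) = ∑ i, algebraMap F[X] L (j i) * t i

def NearAll (c : Ctx k F) (t : F) (y : L) : Prop :=
  ∃ N : ℕ, ∀ μ : ℕ, ∃ E₀ : ℕ, ∀ E, E₀ ≤ E → ∀ (j : Fin 9) (xj τj ej : AA c j),
    (xj : F[X]) = C (t * c.mu 4 2 j) → (τj : F[X]) = tau c j → (ej : F[X]) = C (c.e j) →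
      Near (AA c j) xj τj ej N μ (y ^ c.p ^ E)

end Cone

def S_Sep : Prop :=
  ∀ (k F K Ω : Type) [Field k] [Field F] [Algebra k F] [Field K] [Algebra F[X] K]
    [IsFractionRing F[X] K] [Field Ω] [Algebra K Ω] [Algebra F[X] Ω] [IsScalarTower F[X] K Ω]
    (c : Ctx k F) (h : GeoFacts c) (σ : Str c) (q M n : ℕ) (ys yf : Ω) (j : Fin n → F[X])
    (t : Fin n → Ω), c.Good → σ.Good → RelD h σ q M n ys yf j t →
    ∃ L : IntermediateField K Ω, FiniteDimensional K L ∧ Algebra.IsSeparable K L ∧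
      ∃ (q' M' : ℕ) (ys' yf' : L) (j' : Fin n → F[X]) (t' : Fin n → L),
        RelD h σ q' M' n ys' yf' j' t'

def S_Fib1 : Prop :=
  ∀ (k F K L : Type) [Field k] [Field F] [Algebra k F] [Field K] [Algebra F[X] K]
    [IsFractionRing F[X] K] [Field L] [Algebra K L] [Algebra F[X] L] [IsScalarTower F[X] K L]
    [FiniteDimensional K L] (c : Ctx k F) (h : GeoFacts c) (σ : Str c)
    (al : P3 k →ₐ[k] RR h) (q M n : ℕ) (ys yf : L) (j : Fin n → F[X]) (t : Fin n → L),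
    S_Hull → S_UL → S_Clear → c.Good → σ.Good → RFacts h σ al → JFacts σ →
    (∀ (t : F) (ht : t ∈ c.M 4 2), t = σ.s ^ 2 ∨ t = σ.f → BFacts h ht) → AAFacts c →
    RelD h σ q M n ys yf j t → NearAll c (σ.s ^ 2) ys ∧ NearAll c σ.f yf

def S_Fib2 : Prop :=
  ∀ (k F K L E : Type) [Field k] [Field F] [Algebra k F] [Field K] [Algebra F[X] K]
    [IsFractionRing F[X] K] [Field L] [Algebra K L] [Algebra F[X] L] [IsScalarTower F[X] K L]
    [FiniteDimensional K L] [Algebra.IsSeparable K L] [Field E] [IsAlgClosed E] [Algebra F E]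
    (c : Ctx k F) (h : GeoFacts c) (σ : Str c) (q M n : ℕ) (ys yf : L) (j : Fin n → F[X])
    (t : Fin n → L), S_Step → S_S2 → S_Clear → S_Spec → c.Good → ResFacts c → σ.Good →
    AAFacts c → RelD h σ q M n ys yf j t → NearAll c (σ.s ^ 2) ys → NearAll c σ.f yf →
    ∃ (q' : ℕ) (β β' : Fin 9 → E), GR σ q' β β'

def S_Core : Prop :=
  ∀ (k F Ω : Type) [Field k] [Field F] [Algebra k F] [Field Ω] [IsAlgClosed Ω] [Algebra F[X] Ω]
    (c : Ctx k F) (h : GeoFacts c) (σ : Str c) (al : P3 k →ₐ[k] RR h) (j b : Fin 6 → RR h),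
    S_Split → S_Kill → c.Good → σ.Good → RFacts h σ al → DualFacts h σ al j b →
    Function.Injective (algebraMap F[X] Ω) →
    (∀ (M n : ℕ) (ys yf : Ω) (j : Fin n → F[X]) (t : Fin n → Ω), ¬ RelD h σ 1 M n ys yf j t) →
    ∀ T : Subalgebra (RR h) Ω, Module.Finite (RR h) T →
      ∃ φ : T →ₗ[RR h] RR h, φ 1 ∉ mm h

end

end Pool.Agent.P.MP_3a4479_al.AP
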