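import Pool.Agent.P.MP_3a4479_al.Defs0

set_option autoImplicit false

namespace Pool.Agent.P.MP_3a4479_al.AP

open Polynomial
open scoped NNReal

noncomputable section

/-! Abstract statements in every prime characteristic. -/

def S_Kill : Prop :=
  ∀ (pp : ℕ) [Fact pp.Prime] (R Ω : Type) [CommRing R] [IsDomain R] [IsNoetherianRing R]
    [CharP R pp] [Field Ω]
    [IsAlgClosed Ω] [Algebra R Ω], Function.Injective (algebraMap R Ω) →
    ∀ v s f : R, s ≠ 0 → f ≠ 0 →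
    (∀ (a b : ℕ) (r r' : R), s ^ a * r = f ^ b * r' → ∃ r'', r = f ^ b * r'') →
    (∀ (a b : ℕ) (r r₁ r₂ : R), v * r = s ^ a * r₁ + f ^ b * r₂ →
      ∃ r₁' r₂', r = s ^ a * r₁' + f ^ b * r₂') →
    ∀ (t : ℕ) (z u₁ u₂ : Ω), IsIntegral R z → IsIntegral R u₁ → IsIntegral R u₂ →
      algebraMap R Ω v ^ t * z = algebraMap R Ω s ^ t * u₁ + algebraMap R Ω f ^ t * u₂ →
      ∃ (ys yf : Ω) (M : ℕ), IsIntegral R (algebraMap R Ω s ^ M * ys) ∧
        IsIntegral R (algebraMap R Ω f ^ M * yf) ∧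
        z = (algebraMap R Ω s * algebraMap R Ω f) ^ t * (yf - ys)

def S_FFin : Prop :=
  ∀ (pp : ℕ) [Fact pp.Prime] (k B : Type) [Field k] [IsAlgClosed k] [CommRing B] [Algebra k B]
    [Algebra.FiniteType k B] [ExpChar B pp], (frobenius B pp).Finite

def S_NC : Prop :=
  ∀ (pp : ℕ) [Fact pp.Prime] (T : Type) [CommRing T] [IsDomain T] [IsNoetherianRing T]
    [IsIntegrallyClosed T]
    [ExpChar T pp], (frobenius T pp).Finite → ∀ τ e : T, τ ≠ 0 → ∀ N : ℕ, ∃ i m : ℕ,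
      ∀ g u w : T, g ^ pp ^ i = τ ^ (N * (pp ^ i - 1)) * u + e ^ m * w →
        ∃ u' w', g = τ ^ N * u' + e * w'

def S_Step : Prop :=
  ∀ (pp : ℕ) [Fact pp.Prime] (k A K L : Type) [Field k] [IsAlgClosed k] [CommRing A] [IsDomain A]
    [IsIntegrallyClosed A]
    [CharP A pp] [Algebra k A] [Algebra.FiniteType k A] [Field K] [Algebra A K]
    [IsFractionRing A K] [Field L] [Algebra K L] [Algebra A L] [IsScalarTower A K L]
    [FiniteDimensional K L] [Algebra.IsSeparable K L] (x τ e : A), x ≠ 0 → τ ≠ 0 → e ≠ 0 →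
    (∀ (i : ℕ) (r r' : A), e ^ i * r = τ ^ i * r' → ∃ r'', r' = e ^ i * r'') →
    ∀ N : ℕ, ∃ i μ₀ : ℕ, ∀ μ, μ₀ ≤ μ → ∀ Y : L,
      Near A x τ e N μ Y → Near A x τ e N μ (Y ^ pp ^ i) → Near A x τ e 0 1 Y

def S_Cartier : Prop :=
  ∀ (pp : ℕ) [Fact pp.Prime] (k : Type) [Field k] [IsAlgClosed k] [CharP k pp] (n e : ℕ)
    (d₀ : Fin n →₀ ℕ), (∀ i, d₀ i < pp ^ e) →
    ∃ Φ : MvPolynomial (Fin n) k →+ MvPolynomial (Fin n) k,
      (∀ a P, Φ (a ^ pp ^ e * P) = a * Φ P) ∧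
      ∀ P d, ((Φ P).coeff d) ^ pp ^ e = P.coeff (pp ^ e • d + d₀)

def S_Solid : Prop :=
  ∀ (pp : ℕ) [Fact pp.Prime] (k : Type) [Field k] [IsAlgClosed k] [CharP k pp] (R : Type)
    [CommRing R]
    (al : P3 k →+* R) (deg : R → ℕ) (π : R →+ P3 k) (n : ℕ) (g : Fin n → R) (u : R) (C : ℕ),
    (∀ a r, π (al a * r) = a * π r) → π 1 = 1 →
    (∀ r r', deg (r * r') ≤ deg r + deg r') → deg 1 = 0 → (∀ r, (π r).totalDegree ≤ deg r) →
    (∀ e : ℕ, ∃ r : Fin n → R, (∀ i, deg (r i) ≤ C * pp ^ e) ∧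
      al (MvPolynomial.X 0) * u ^ pp ^ e = ∑ i, r i * g i ^ pp ^ e) →
    ∃ (S : Type) (_ : CommRing S) (_ : Algebra R S) (Λ : S →+ P3 k),
      (∀ a z, Λ (algebraMap R S (al a) * z) = a * Λ z) ∧ Λ ≠ 0 ∧
      ∃ Y : Fin n → S, algebraMap R S u = ∑ i, algebraMap R S (g i) * Y i

def S_Loc1 : Prop :=
  ∀ (pp : ℕ) [Fact pp.Prime] (R Ω Rl : Type) [CommRing R] [IsDomain R] [ExpChar R pp] [Field Ω]
    [IsAlgClosed Ω]
    [Algebra R Ω] (m : Ideal R) [m.IsPrime] [CommRing Rl] [Algebra R Rl]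
    [IsLocalization.AtPrime Rl m] [ExpChar Rl pp],
    Function.Injective (algebraMap R Ω) → (frobenius R pp).Finite →
    (∀ T : Subalgebra R Ω, Module.Finite R T → ∃ φ : T →ₗ[R] R, φ 1 ∉ m) →
    (frobenius Rl pp).Finite ∧ Splinter Rl

def S_Base0 : Prop :=
  ∀ (pp : ℕ) [Fact pp.Prime], ∃ (k : Type) (_ : Field k) (lam : k), IsAlgClosed k ∧ CharP k pp ∧
    ∃ v : Valuation k NNReal, 0 < v lam ∧ v lam < 1

end

end Pool.Agent.P.MP_3a4479_al.AP
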