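import Pool.Agent.P.MP_3a4479_al.AP.All
import Pool.Agent.P.MP_3a4479_al.AP.Compat
import Pool.Agent.P.MP_3a4479_al.H.Dom

set_option autoImplicit false

namespace Pool.Agent.P.MP_3a4479_al.AP

open Polynomial H

/-- the example, with its dimension and with a solid domain of finite type -/
theorem example_ring' (B : PartB) (pp : ℕ) [hp : Fact pp.Prime] :
    ∃ (k R : Type) (_ : Field k) (_ : IsAlgClosed k) (_ : CharP k pp) (_ : CommRing R)
      (_ : IsDomain R) (_ : IsNoetherianRing R) (_ : IsLocalRing R) (_ : Algebra k R)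
      (_ : ExpChar R pp), Algebra.EssFiniteType k R ∧ ringKrullDim R = 3 ∧
      (frobenius R pp).Finite ∧ Splinter R ∧
      ∃ (S : Type) (_ : CommRing S) (_ : IsDomain S) (_ : Algebra R S),
        Algebra.FiniteType R S ∧ (∃ φ : S →ₗ[R] R, φ ≠ 0) ∧
        ∃ (n : ℕ) (g : Fin n → R) (u : R) (Y : Fin n → S),
          algebraMap R S u = ∑ i, algebraMap R S (g i) * Y i ∧
          ∀ r : Fin n → R, u ≠ ∑ i, r i * g i := by
  obtain ⟨k, F, _, _, _, c, hc, rfl⟩ := baseS pp
  have := hc.algc
  have := hc.char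
  have h := B.geo k F c hc
  obtain ⟨ν, hν⟩ := B.nu k F c hc h
  have hres := B.res k F c ν hc h hν
  have hdim := B.dim k F c hc h hres (B.resF k F c hc h)
  obtain ⟨σ, β, β', hσ, hβ0, hβ, hβ'⟩ := B.str k F c hc h hres hdim
  obtain ⟨al, hR⟩ := B.rf k F c h σ β hc hσ hβ0 hβ
  obtain ⟨j, b, hD⟩ := B.dual k F c h σ β β' al hc hσ hβ0 hβ hβ' hR.al_val
  have hJ := B.j k F c σ hc h hres hdim hσ
  obtain ⟨n, g, u, C, hT1, hT2⟩ := B.tc k F c h σ hc hres hdim hσ hJ
  have := hR.ft
  have : IsNoetherianRing (RR h) := Algebra.FiniteType.isNoetherianRing k _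
  have : CharP (RR h) c.p := charP_of_injective_algebraMap (algebraMap k (RR h)).injective c.p
  have : ExpChar (RR h) c.p := ExpChar.prime hp.out
  have : (mm h).IsPrime := RingHom.ker_isPrime _
  let K := FractionRing F[X]
  let Ω := AlgebraicClosure K
  have : IsScalarTower F[X] K Ω := IsScalarTower.of_algebraMap_eq fun _ => rfl
  have hinj : Function.Injective (algebraMap F[X] Ω) := by
    rw [IsScalarTower.algebraMap_eq F[X] K Ω, RingHom.coe_comp]
    exact (algebraMap K Ω).injective.comp (IsFractionRing.injective F[X] K)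
  have hinjR : Function.Injective (algebraMap (RR h) Ω) := hinj.comp Subtype.val_injective
  have hcore := B.core k F Ω c h σ al j b split (kill hull) hc hσ hR hD hinj
    (fun M n ys yf j t => noRel B c hc h σ hσ β hβ al hR K Ω 1 M n ys yf j t)
  let Rl := Localization.AtPrime (mm h)
  have hinjl : Function.Injective (algebraMap (RR h) Rl) :=
    IsLocalization.injective Rl (mm h).primeCompl_le_nonZeroDivisors
  have : CharP Rl c.p := charP_of_injective_algebraMap hinjl c.p
  have : ExpChar Rl c.p := ExpChar.prime hp.out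
  obtain ⟨hF, hS⟩ := loc1 c.p (RR h) Ω Rl (mm h) hinjR (ffin c.p k (RR h)) hcore
  obtain ⟨π, hπ1, hπ2, hπ3⟩ := hR.proj
  have hX : ((al (MvPolynomial.X 0) : RR h) : F[X]) = X := by
    rw [hR.al_val]; simp [Str.al]
  have hT1' : ∀ e : ℕ, ∃ r : Fin n → RR h, (∀ i, (r i : F[X]).natDegree ≤ C * c.p ^ e) ∧
      al (MvPolynomial.X 0) * u ^ c.p ^ e = ∑ i, r i * g i ^ c.p ^ e := by
    intro e
    obtain ⟨r, hr1, hr2⟩ := hT1 e
    refine ⟨r, hr1, Subtype.ext ?_⟩
    push_cast
    rw [hX]
    exact hr2
  obtain ⟨S, _, _, Λ, hΛ1, hΛ2, Y, hY⟩ := solid cartier c.p k (RR h) al.toRingHom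
    (fun r => (r : F[X]).natDegree) π n g u C hπ1 hπ2
    (fun r r' => by push_cast; exact natDegree_mul_le) (by simp) hπ3 hT1'
  have hsol := transfer hD S Λ hΛ1 hΛ2
  obtain ⟨S', _, _, _, h1, h2, Y', h3⟩ := exists_domain_loc (RR h) Rl S hinjl n g u Y hsol hY
  have hali : Function.Injective al.toRingHom := fun a a' haa => by
    have e1 := hπ1 a 1
    have e2 := hπ1 a' 1
    rw [hπ2, mul_one, mul_one] at e1 e2
    rw [← e1, ← e2]
    exact congrArg π haa
  have half : al.toRingHom.Finite := by
    obtain ⟨γ, hγ⟩ := hR.fin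
    exact (LocAux.finite_iff _).2 ⟨6, γ, fun r => (hγ r).imp fun P hP => hP.symm⟩
  have hmax : ((mm h).comap al.toRingHom).IsMaximal := by
    have e1 : (constantCoeff.comp (RR h).val.toRingHom).comp al.toRingHom =
        (algebraMap k F).comp MvPolynomial.constantCoeff := by
      apply MvPolynomial.ringHom_ext
      · intro a
        change constantCoeff (al (MvPolynomial.C a) : F[X]) = _
        rw [hR.al_val]
        simp [Str.al]
      · intro i
        change constantCoeff (al (MvPolynomial.X i) : F[X]) = _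
        rw [hR.al_val]
        fin_cases i <;> simp [Str.al, coeff_monomial]
    rw [mm, RingHom.comap_ker, e1, ← RingHom.comap_ker,
      (RingHom.injective_iff_ker_eq_bot _).1 (algebraMap k F).injective,
      ← RingHom.ker_eq_comap_bot]
    exact RingHom.ker_isMaximal_of_surjective _ fun a => ⟨MvPolynomial.C a, by simp⟩
  have : Algebra.EssFiniteType (RR h) Rl :=
    Algebra.EssFiniteType.of_isLocalization Rl (mm h).primeCompl
  refine ⟨k, Rl, inferInstance, inferInstance, inferInstance, inferInstance, inferInstance,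
    inferInstance, inferInstance, inferInstance, inferInstance,
    Algebra.EssFiniteType.comp k (RR h) Rl, ?_, hF, hS, S', inferInstance, inferInstance,
    inferInstance, h1, h2, n, _, _, Y', h3, ?_⟩
  · rw [IsLocalization.AtPrime.ringKrullDim_eq_height (mm h) Rl,
      height_of_finite k (RR h) 3 al.toRingHom hali half (mm h) hmax]
    rfl
  · intro r hr
    obtain ⟨w, hw⟩ := IsLocalization.exist_integer_multiples_of_finite (mm h).primeCompl r
    choose r' hr' using hw
    refine hT2 w w.2 r' (hinjl ?_)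
    rw [map_mul, hr, Finset.mul_sum, map_sum]
    refine Finset.sum_congr rfl fun i _ => ?_
    rw [map_mul, hr', Algebra.smul_def, mul_assoc]

end Pool.Agent.P.MP_3a4479_al.AP
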