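import Pool.Agent.P.MP_3a4479_al.AP.Defs

set_option autoImplicit false

namespace Pool.Agent.P.MP_3a4479_al.AP

open Polynomial
open scoped NNReal

namespace ThetaAux

section General

variable {L : Type} [Field L] {Γ : Type} [LinearOrderedCommGroupWithZero Γ]

theorem int_le {R : Type} [CommRing R] [Algebra R L] (v : Valuation L Γ)
    (h : ∀ r, v (algebraMap R L r) ≤ 1) {z : L} (hz : IsIntegral R z) : v z ≤ 1 :=
  (Valuation.integer.integers v).mem_of_integral
    (hz.map_of_comp_eq ((algebraMap R L).codRestrict v.integer h) (RingHom.id L) rfl)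

theorem mul_lt (v : Valuation L Γ) {x y : L} (hx : v x < 1) (hy : v y ≤ 1) : v (x * y) < 1 := by
  rw [map_mul]
  calc v x * v y ≤ v x * 1 := by gcongr
    _ < 1 := by rwa [mul_one]

theorem mul_lt' (v : Valuation L Γ) {x y : L} (hx : v x ≤ 1) (hy : v y < 1) : v (x * y) < 1 := by
  rw [mul_comm]; exact mul_lt v hy hx

theorem pow_le (v : Valuation L Γ) {x : L} (hx : v x ≤ 1) (n : ℕ) : v (x ^ n) ≤ 1 := by
  rw [map_pow]; exact pow_le_one' hx n

theorem eq_one (v : Valuation L Γ) {x y : L} (hy : v y = 1) (h : v (x - y) < 1) : v x = 1 := by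
  rw [← hy] at h ⊢
  exact v.map_eq_of_sub_lt h

theorem pow_sub_lt (v : Valuation L Γ) {x y : L} (hy : v y ≤ 1) (h : v (x - y) < 1) (n : ℕ) :
    v (x ^ n - y ^ n) < 1 := by
  have hx : v x ≤ 1 := by
    have := v.map_add_le h.le hy
    rwa [sub_add_cancel] at this
  induction n with
  | zero => simp
  | succ n ih =>
    have := v.map_add_lt (mul_lt' v hx ih) (mul_lt v h (pow_le v hy n))
    rwa [show x * (x ^ n - y ^ n) + (x - y) * y ^ n = x ^ (n + 1) - y ^ (n + 1) by ring] at this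

theorem cancel (v : Valuation L Γ) {U x : L} (hU : v U = 1) (n : ℕ) (h : v (U ^ n * x) < 1) :
    v x < 1 := by
  rwa [map_mul, map_pow, hU, one_pow, one_mul] at h

theorem inv_mem (W : Valuation L Γ) (V : ValuationSubring L) (hV : ∀ x, W x < 1 → x ∈ V)
    {x y : L} (hy : W y = 1) (h : W (x - y) < 1) (hy' : y⁻¹ ∈ V) : x ≠ 0 ∧ x⁻¹ ∈ V := by
  have hx := eq_one W hy h
  have hx0 : x ≠ 0 := by rintro rfl; simp at hx
  have hy0 : y ≠ 0 := by rintro rfl; simp at hy
  refine ⟨hx0, ?_⟩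
  have h1 : x⁻¹ = y⁻¹ - (x - y) * (x⁻¹ * y⁻¹) := by field_simp; ring
  rw [h1]
  refine V.toSubring.sub_mem hy' (hV _ (mul_lt W h ?_))
  rw [map_mul, map_inv₀, map_inv₀, hx, hy]; simp

theorem clear (V : ValuationSubring L) {U y : L} (hU : U ≠ 0 ∧ U⁻¹ ∈ V) {M : ℕ}
    (h : U ^ M * y ∈ V) : y ∈ V := by
  have h1 : y = U⁻¹ ^ M * (U ^ M * y) := by
    rw [← mul_assoc, ← mul_pow, inv_mul_cancel₀ hU.1, one_pow, one_mul]
  rw [h1]
  exact V.toSubring.mul_mem (V.toSubring.pow_mem hU.2 M) h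

theorem root_close {k : Type} [Field k] [IsAlgClosed k] (f : k →+* L) (W : Valuation L Γ)
    (hW : ∀ t, t ≠ 0 → W (f t) = 1) (z : L) (Q : k[X]) (hQ : Q ≠ 0)
    (h : W (Q.eval₂ f z) < 1) : ∃ t, W (z - f t) < 1 := by
  by_contra hc
  push Not at hc
  have h1 := (IsAlgClosed.splits Q).eq_prod_roots
  rw [h1, eval₂_mul, eval₂_C, map_mul, hW _ (leadingCoeff_ne_zero.mpr hQ), one_mul,
    eval₂_multiset_prod, map_multiset_prod, Multiset.map_map, Multiset.map_map] at h
  refine absurd h (not_lt.mpr (Multiset.one_le_prod_of_one_le fun x hx => ?_))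
  obtain ⟨t, -, rfl⟩ := Multiset.mem_map.mp hx
  simpa using hc t

theorem exists_const {k : Type} [Field k] [IsAlgClosed k] (f : k →+* L) (W : Valuation L Γ)
    (hW : ∀ t, t ≠ 0 → W (f t) = 1) (z : L)
    (h : ∀ V : ValuationSubring L, (∀ t, f t ∈ V) → (∀ x, W x < 1 → x ∈ V) → z ∈ V) :
    ∃ t, W (z - f t) < 1 := by
  have hW' : ∀ t, W (f t) ≤ 1 := fun t => by
    rcases eq_or_ne t 0 with rfl | ht
    · simp
    · exact (hW t ht).le
  have hz : W z ≤ 1 := h W.valuationSubring hW' fun x hx => hx.le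
  let S : Subring L :=
    { carrier := {x | ∃ t, W (x - f t) < 1}
      zero_mem' := ⟨0, by simp⟩
      one_mem' := ⟨1, by simp⟩
      add_mem' := by
        rintro x y ⟨s, hs⟩ ⟨t, ht⟩
        refine ⟨s + t, ?_⟩
        have := W.map_add_lt hs ht
        rwa [show x - f s + (y - f t) = x + y - f (s + t) by rw [map_add]; ring] at this
      neg_mem' := by
        rintro x ⟨s, hs⟩
        refine ⟨-s, ?_⟩
        rwa [show -x - f (-s) = -(x - f s) by rw [map_neg]; ring, Valuation.map_neg]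
      mul_mem' := by
        rintro x y ⟨s, hs⟩ ⟨t, ht⟩
        refine ⟨s * t, ?_⟩
        have := W.map_add_lt (W.map_add_lt (mul_lt W hs ht.le) (mul_lt W hs (hW' t)))
          (mul_lt' W (hW' s) ht)
        rwa [show (x - f s) * (y - f t) + (x - f s) * f t + f s * (y - f t)
          = x * y - f (s * t) by rw [map_mul]; ring] at this }
  have h1 : z ∈ (integralClosure (Subring.closure (S : Set L)) L).toSubring := by
    rw [← iInf_valuationSubring_superset, Subring.mem_iInf]
    exact fun V => h V.1 (fun t => V.2 ⟨t, by simp⟩) fun x hx => V.2 ⟨0, by simpa using hx⟩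
  rw [Subring.closure_eq] at h1
  obtain ⟨P, hP, hPz⟩ := h1
  choose t ht using fun i => (P.coeff i).2
  refine root_close f W hW z (∑ i ∈ Finset.range (P.natDegree + 1), monomial i (t i)) ?_ ?_
  · intro h0
    have h2 := congrArg (fun Q => coeff Q P.natDegree) h0
    simp only [finsetSum_coeff, coeff_monomial, Finset.sum_ite_eq', Finset.mem_range,
      Nat.lt_succ_self, if_true, coeff_zero] at h2
    have h3 := ht P.natDegree
    rw [h2, hP.coeff_natDegree] at h3
    simp at h3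
  · rw [eval₂_finsetSum]
    simp only [eval₂_monomial]
    rw [eval₂_eq_sum_range] at hPz
    rw [← Valuation.map_neg, ← zero_sub, ← hPz, ← Finset.sum_sub_distrib]
    refine W.map_sum_lt one_ne_zero fun i _ => ?_
    rw [← sub_mul]
    exact mul_lt W (ht i) (pow_le W hz i)

theorem exists_dom (R : Type) [CommRing R] [Algebra R L] (W W' : Valuation L Γ)
    (hW : ∀ z, IsIntegral R z → W z ≤ 1) (hW' : ∀ z, IsIntegral R z → W' z ≤ 1)
    (h : ¬ ∃ z : L, IsIntegral R z ∧ W z < 1 ∧ W' (1 - z) < 1) :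
    ∃ V : ValuationSubring L, (∀ z, IsIntegral R z → V.valuation z ≤ 1) ∧
      (∀ z, IsIntegral R z → W z < 1 → V.valuation z < 1) ∧
      ∀ z, IsIntegral R z → W' z < 1 → V.valuation z < 1 := by
  have key : ∀ W : Valuation L Γ, (∀ z, IsIntegral R z → W z ≤ 1) →
      ∃ I : Ideal (integralClosure R L).toSubring, ∀ z, z ∈ I ↔ W z < 1 := fun W hW =>
    ⟨{ carrier := {z | W z < 1}
       zero_mem' := by simp
       add_mem' := fun ha hb => W.map_add_lt ha hb
       smul_mem' := fun r x hx => mul_lt' W (hW r r.2) hx }, fun _ => Iff.rfl⟩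
  obtain ⟨I, hI⟩ := key W hW
  obtain ⟨I', hI'⟩ := key W' hW'
  obtain ⟨V, hV, hV'⟩ := Ideal.image_subset_nonunits_valuationSubring (I ⊔ I') (by
    intro htop
    obtain ⟨x, hx, y, hy, hxy⟩ := Submodule.mem_sup.mp ((Ideal.eq_top_iff_one _).mp htop)
    refine h ⟨x, x.2, (hI x).mp hx, ?_⟩
    have : (1 : L) - x = y := by
      have := congrArg Subtype.val hxy
      simp only [Subring.coe_add, Subring.coe_one] at this
      rw [← this]; ring
    rw [this]
    exact (hI' y).mp hy)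
  exact ⟨V, fun z hz => (V.valuation_le_one_iff z).mpr (hV hz),
    fun z hz h => hV' ⟨⟨z, hz⟩, Ideal.mem_sup_left ((hI _).mpr h), rfl⟩,
    fun z hz h => hV' ⟨⟨z, hz⟩, Ideal.mem_sup_right ((hI' _).mpr h), rfl⟩⟩

end General

end ThetaAux

end Pool.Agent.P.MP_3a4479_al.AP
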